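import Pool.Agent.LinfC.ApproxA

/-!
# Package LinfC-Approx: norms by duality

*`norm_le_of_dya`.* Suppose `K < K' < ‖G‖`. The set `A = {t | K' < ‖G t‖}` (take a strongly
measurable representative of `G`: `Lp.stronglyMeasurable`) has positive measure (`norm_le_of_ae`).
Let `φ = conj (G) / ‖G‖` on `A` and `0` off `A`: a measurable function bounded by `1`, with
`φ G = ‖G‖` on `A`. By `exists_dya_approx` for the class of `φ` (norm `≤ 1`) there are dyadic `f`
with `∫ ‖φ - f‖ ≤ ε`. Then
`K' |A| ≤ ‖∫ φ G‖ ≤ ‖∫ f G‖ + ε ‖G‖ ≤ K (|A| + ε) + ε ‖G‖`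
(`∫ ‖f‖ ≤ ∫ ‖φ‖ + ε = |A| + ε`, `ae_norm_le`): a contradiction for small `ε`.

Difficulty: 0.9 h.
-/

set_option autoImplicit false

open MeasureTheory Set Filter Topology
open scoped ENNReal

namespace Pool.Agent.LinfC

open Pool.Agent.LinfX

variable {𝕜 : Type*} [RCLike 𝕜]

theorem norm_le_of_dya {G : LinfUnit 𝕜} {K : ℝ} (hK : 0 ≤ K)
    (h : ∀ f : ℝ → 𝕜, DyA f → ‖∫ t, f t * G t ∂mu‖ ≤ K * ∫ t, ‖f t‖ ∂mu) : ‖G‖ ≤ K := by
  by_contra hc
  rw [not_le] at hc
  obtain ⟨K', hK1, hK2⟩ := exists_between hc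
  have hK' : 0 ≤ K' := hK.trans hK1.le
  have hGm : Measurable (G : ℝ → 𝕜) := (Lp.stronglyMeasurable G).measurable
  set A : Set ℝ := {t | K' < ‖G t‖} with hAdef
  have hA : MeasurableSet A := measurableSet_lt measurable_const hGm.norm
  have hpos : 0 < mu.real A := by
    rw [measureReal_def, ENNReal.toReal_pos_iff]
    refine ⟨pos_iff_ne_zero.2 fun h0 => ?_, measure_lt_top _ _⟩
    have h3 : ‖G‖ ≤ K' := by
      refine norm_le_of_ae hK' ?_
      have h4 : ∀ᵐ t ∂mu, t ∉ A := measure_eq_zero_iff_ae_notMem.1 h0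
      filter_upwards [h4] with t ht
      exact not_lt.1 ht
    exact absurd hK2 (not_lt.2 h3)
  -- the function of modulus at most one
  set φ : ℝ → 𝕜 := A.indicator (fun t => (starRingEnd 𝕜) (G t) / ((‖G t‖ : ℝ) : 𝕜)) with hφ
  have hφm : Measurable φ := by
    refine Measurable.indicator ?_ hA
    exact (RCLike.continuous_conj.measurable.comp hGm).div
      (RCLike.measurable_ofReal.comp hGm.norm)
  have hφ1 : ∀ t, ‖φ t‖ ≤ A.indicator (fun _ => (1 : ℝ)) t := by
    intro t
    by_cases ht : t ∈ A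
    · rw [hφ, indicator_of_mem ht, indicator_of_mem ht, norm_div, RCLike.norm_conj,
        RCLike.norm_ofReal, abs_of_nonneg (norm_nonneg _)]
      exact div_self_le_one _
    · rw [hφ, indicator_of_notMem ht, indicator_of_notMem ht, norm_zero]
  have hφb : ∀ t, ‖φ t‖ ≤ 1 := fun t => (hφ1 t).trans (by
    by_cases ht : t ∈ A
    · rw [indicator_of_mem ht]
    · rw [indicator_of_notMem ht]; exact zero_le_one)
  have hφL : MemLp φ ∞ mu :=
    memLp_top_of_bound hφm.aestronglyMeasurable 1 (Eventually.of_forall hφb)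
  have hGi : Integrable (G : ℝ → 𝕜) mu := integrable_of_Linf G
  have hφG : ∀ t, φ t * G t = ((A.indicator (fun t => ‖G t‖) t : ℝ) : 𝕜) := by
    intro t
    by_cases ht : t ∈ A
    · rw [hφ, indicator_of_mem ht, indicator_of_mem ht]
      have h5 : 0 < ‖G t‖ := lt_of_le_of_lt hK' ht
      have h6 : ((‖G t‖ : ℝ) : 𝕜) ≠ 0 := by exact_mod_cast h5.ne'
      rw [div_mul_eq_mul_div, RCLike.conj_mul, div_eq_iff h6, sq]
    · rw [hφ, indicator_of_notMem ht, indicator_of_notMem ht, zero_mul, RCLike.ofReal_zero]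
  have hlow : K' * mu.real A ≤ ‖∫ t, φ t * G t ∂mu‖ := by
    have h5 : ∫ t, φ t * G t ∂mu = ((∫ t, A.indicator (fun t => ‖G t‖) t ∂mu : ℝ) : 𝕜) := by
      rw [← integral_ofReal]
      exact integral_congr_ae (Eventually.of_forall hφG)
    have h6 : K' * mu.real A ≤ ∫ t, A.indicator (fun t => ‖G t‖) t ∂mu := by
      have h7 : ∫ t, A.indicator (fun _ => K') t ∂mu = K' * mu.real A := by
        rw [integral_indicator_const K' hA, smul_eq_mul, mul_comm]
      rw [← h7]
      refine integral_mono_ae ((integrable_const K').indicator hA) (hGi.norm.indicator hA)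
        (Eventually.of_forall fun t => ?_)
      change A.indicator (fun _ => K') t ≤ A.indicator (fun t => ‖G t‖) t
      by_cases ht : t ∈ A
      · rw [indicator_of_mem ht, indicator_of_mem ht]
        exact (show K' < ‖G t‖ from ht).le
      · rw [indicator_of_notMem ht, indicator_of_notMem ht]
    rw [h5, RCLike.norm_ofReal]
    exact h6.trans (le_abs_self _)
  -- approximation
  set a := mu.real A with ha
  set ε : ℝ := (K' - K) * a / (2 * (K + ‖G‖ + 1)) with hε
  have hden : 0 < K + ‖G‖ + 1 := by have := norm_nonneg G; linarith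
  have hnum : 0 < (K' - K) * a := mul_pos (by linarith) hpos
  have hε0 : 0 < ε := by positivity
  obtain ⟨f, hf, -, hfi⟩ := exists_dya_approx (tL φ : LinfUnit 𝕜) hε0
  have hcoe := tL_coe hφL
  have hfi' : ∫ t, ‖φ t - f t‖ ∂mu ≤ ε := by
    refine le_trans (le_of_eq ?_) hfi
    refine integral_congr_ae ?_
    filter_upwards [hcoe] with t ht
    rw [ht]
  have hφi : Integrable φ mu := by
    have h5 : MemLp φ 1 mu := hφL.mono_exponent le_top
    exact memLp_one_iff_integrable.1 h5
  have hdi : Integrable (fun t => φ t - f t) mu := hφi.sub hf.integrable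
  have hfG : Integrable (fun t => f t * G t) mu := by
    have h5 := hf.integrable.mul_bdd (c := ‖G‖) (Lp.aestronglyMeasurable G) (ae_norm_le G)
    exact h5
  have hdG : Integrable (fun t => (φ t - f t) * G t) mu := by
    have h5 := hdi.mul_bdd (c := ‖G‖) (Lp.aestronglyMeasurable G) (ae_norm_le G)
    exact h5
  have hsplit : ∫ t, φ t * G t ∂mu = ∫ t, f t * G t ∂mu + ∫ t, (φ t - f t) * G t ∂mu := by
    rw [← integral_add hfG hdG]
    refine integral_congr_ae (Eventually.of_forall fun t => ?_)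
    change φ t * G t = f t * G t + (φ t - f t) * G t
    ring
  have hb1 : ‖∫ t, (φ t - f t) * G t ∂mu‖ ≤ ε * ‖G‖ := by
    refine (norm_integral_le_integral_norm _).trans ?_
    have h5 : ∫ t, ‖(φ t - f t) * G t‖ ∂mu ≤ ∫ t, ‖φ t - f t‖ * ‖G‖ ∂mu := by
      refine integral_mono_ae hdG.norm (hdi.norm.mul_const _) ?_
      filter_upwards [ae_norm_le G] with t ht
      change ‖(φ t - f t) * G t‖ ≤ ‖φ t - f t‖ * ‖G‖
      rw [norm_mul]
      exact mul_le_mul_of_nonneg_left ht (norm_nonneg _)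
    rw [integral_mul_const] at h5
    exact h5.trans (mul_le_mul_of_nonneg_right hfi' (norm_nonneg _))
  have hb2 : ∫ t, ‖f t‖ ∂mu ≤ a + ε := by
    have h5 : ∫ t, ‖f t‖ ∂mu ≤ ∫ t, (A.indicator (fun _ => (1 : ℝ)) t + ‖φ t - f t‖) ∂mu := by
      refine integral_mono_ae hf.integrable.norm
        (((integrable_const (1 : ℝ)).indicator hA).add hdi.norm)
        (Eventually.of_forall fun t => ?_)
      change ‖f t‖ ≤ A.indicator (fun _ => (1 : ℝ)) t + ‖φ t - f t‖
      have h6 : ‖f t‖ ≤ ‖φ t‖ + ‖φ t - f t‖ := by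
        have h7 := norm_sub_norm_le (f t) (φ t)
        rw [norm_sub_rev] at h7
        linarith
      linarith [hφ1 t]
    rw [integral_add ((integrable_const (1 : ℝ)).indicator hA) hdi.norm,
      integral_indicator_const (1 : ℝ) hA, smul_eq_mul, mul_one] at h5
    linarith
  have hfin : K' * a ≤ K * (a + ε) + ε * ‖G‖ := by
    refine hlow.trans ?_
    rw [hsplit]
    refine (norm_add_le _ _).trans (add_le_add ?_ hb1)
    exact (h f hf).trans (mul_le_mul_of_nonneg_left hb2 hK)
  have hε2 : ε * (2 * (K + ‖G‖ + 1)) = (K' - K) * a := by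
    rw [hε]
    field_simp
  nlinarith [mul_pos hε0 hden]

end Pool.Agent.LinfC
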