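import Pool.Agent.LinfC.Basic

/-!
# Package LinfC-ApproxA: approximation by bounded dyadic step functions

*`exists_dya_approx`.* By `exists_dyadic_approx` of `LinfX/Dyadic.lean` (`Z = 𝕜`) there is a
dyadic step function `g'` with `∫ ‖u - g'‖ ≤ ε / 2`. Put `f t = g' t` if `‖g' t‖ ≤ ‖u‖`, and
`f t = (‖u‖ / ‖g' t‖ : ℝ) • g' t` otherwise (radial projection to the ball of radius `‖u‖`); it is
`DyA` by `DyA.map`. Then `‖f t‖ ≤ ‖u‖`, and since `‖u t‖ ≤ ‖u‖` a.e. (`ae_norm_le`),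
`‖g' t - f t‖ = max 0 (‖g' t‖ - ‖u‖) ≤ ‖g' t‖ - ‖u t‖ ≤ ‖g' t - u t‖` where it is not `0`, so
`∫ ‖u - f‖ ≤ 2 ∫ ‖u - g'‖ ≤ ε`.

Difficulty: 0.7 h.
-/

set_option autoImplicit false

open MeasureTheory Set Filter Topology
open scoped ENNReal

namespace Pool.Agent.LinfC

open Pool.Agent.LinfX

variable {𝕜 : Type*} [RCLike 𝕜]

theorem exists_dya_approx (u : LinfUnit 𝕜) {ε : ℝ} (hε : 0 < ε) :
    ∃ f : ℝ → 𝕜, DyA f ∧ (∀ t, ‖f t‖ ≤ ‖u‖) ∧ ∫ t, ‖u t - f t‖ ∂mu ≤ ε := by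
  obtain ⟨m, g', hDy, hgi, hg⟩ :=
    exists_dyadic_approx (integrable_of_Linf u) (half_pos hε)
  have hG : DyA g' := ⟨m, hDy⟩
  refine ⟨fun t => if ‖g' t‖ ≤ ‖u‖ then g' t else ((‖u‖ / ‖g' t‖ : ℝ) : 𝕜) * g' t,
    hG.map (fun z => if ‖z‖ ≤ ‖u‖ then z else ((‖u‖ / ‖z‖ : ℝ) : 𝕜) * z), fun t => ?_, ?_⟩
  · beta_reduce
    split_ifs with h
    · exact h
    · have h1 : 0 < ‖g' t‖ := lt_of_le_of_lt (norm_nonneg u) (not_le.1 h)
      rw [norm_mul, RCLike.norm_ofReal, abs_of_nonneg (by positivity),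
        div_mul_cancel₀ _ h1.ne']
  · have hf : DyA (fun t => if ‖g' t‖ ≤ ‖u‖ then g' t else ((‖u‖ / ‖g' t‖ : ℝ) : 𝕜) * g' t) :=
      hG.map (fun z => if ‖z‖ ≤ ‖u‖ then z else ((‖u‖ / ‖z‖ : ℝ) : 𝕜) * z)
    have hui := integrable_of_Linf u
    have h1 : ∫ t, ‖u t - (if ‖g' t‖ ≤ ‖u‖ then g' t else ((‖u‖ / ‖g' t‖ : ℝ) : 𝕜) * g' t)‖ ∂mu
        ≤ ∫ t, 2 * ‖u t - g' t‖ ∂mu := by
      refine integral_mono_ae (hui.sub hf.integrable).norm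
        ((hui.sub hG.integrable).norm.const_mul 2) ?_
      filter_upwards [ae_norm_le u] with t ht
      change ‖u t - (if ‖g' t‖ ≤ ‖u‖ then g' t else ((‖u‖ / ‖g' t‖ : ℝ) : 𝕜) * g' t)‖
        ≤ 2 * ‖u t - g' t‖
      have h0 : 0 ≤ ‖u t - g' t‖ := norm_nonneg _
      split_ifs with h
      · linarith
      · have h2 : 0 < ‖g' t‖ := lt_of_le_of_lt (norm_nonneg u) (not_le.1 h)
        have h3 : ‖g' t - ((‖u‖ / ‖g' t‖ : ℝ) : 𝕜) * g' t‖ = ‖g' t‖ - ‖u‖ := by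
          have e : g' t - ((‖u‖ / ‖g' t‖ : ℝ) : 𝕜) * g' t =
              ((1 - ‖u‖ / ‖g' t‖ : ℝ) : 𝕜) * g' t := by
            push_cast
            ring
          have h4 : 0 ≤ 1 - ‖u‖ / ‖g' t‖ := by
            rw [sub_nonneg, div_le_one h2]
            exact (not_le.1 h).le
          rw [e, norm_mul, RCLike.norm_ofReal, abs_of_nonneg h4, sub_mul, one_mul,
            div_mul_cancel₀ _ h2.ne']
        have h5 : ‖g' t‖ ≤ ‖u t‖ + ‖u t - g' t‖ := by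
          have h6 := norm_sub_norm_le (g' t) (u t)
          rw [norm_sub_rev] at h6
          linarith
        have h7 : ‖u t - ((‖u‖ / ‖g' t‖ : ℝ) : 𝕜) * g' t‖ ≤
            ‖u t - g' t‖ + ‖g' t - ((‖u‖ / ‖g' t‖ : ℝ) : 𝕜) * g' t‖ :=
          norm_sub_le_norm_sub_add_norm_sub _ _ _
        rw [h3] at h7
        linarith
    rw [integral_const_mul] at h1
    linarith

end Pool.Agent.LinfC
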