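import Pool.Agent.LinfC.Basic

/-!
# Package LinfC-CoordA: coordinates of `c_0`-valued functions

*`co_coe`.* `ContinuousLinearMap.coeFn_compLpL`.
*`norm_co_le`.* `ae_norm_le`, `le_norm_c0`, `norm_le_of_ae`.
*`norm_le_of_co`.* `norm_le_of_ae`, `ae_all_iff`, `norm_c0_le`, `ae_norm_le`.
*`co_ext`.* `norm_le_of_co` for the difference with `C = 0`.
*`co_tens`.* `tens_coe`, `ec_apply`.
*`tendsto_co`.* For a.e. `t`, `co 𝕜 i h t = h t i` for all `i`, and the sequence `h t` tends to `0`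
(`ZeroAtInftyContinuousMap.zero_at_infty'`, `cocompact_eq_cofinite`, `Nat.cofinite_eq_atTop`).

Difficulty: 0.7 h.
-/

set_option autoImplicit false

open MeasureTheory Set Filter Topology
open scoped ENNReal

namespace Pool.Agent.LinfC

open Pool.Agent.LinfX

variable {𝕜 : Type*} [RCLike 𝕜]

theorem co_coe (i : ℕ) (h : LinfUnit (C0 𝕜)) :
    (co 𝕜 i h : ℝ → 𝕜) =ᵐ[mu] fun t => h t i := by
  have h1 := ContinuousLinearMap.coeFn_compLpL (p := ∞) (μ := mu) (evc 𝕜 i) h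
  filter_upwards [h1] with t ht
  rw [co, ht]
  rfl

theorem norm_co_le (i : ℕ) (h : LinfUnit (C0 𝕜)) : ‖co 𝕜 i h‖ ≤ ‖h‖ := by
  apply norm_le_of_ae (norm_nonneg _)
  filter_upwards [co_coe i h, ae_norm_le h] with t h1 h2
  rw [h1]
  exact (le_norm_c0 (h t) i).trans h2

theorem norm_le_of_co {h : LinfUnit (C0 𝕜)} {C : ℝ} (hC : 0 ≤ C) (hh : ∀ i, ‖co 𝕜 i h‖ ≤ C) :
    ‖h‖ ≤ C := by
  apply norm_le_of_ae hC
  have h1 : ∀ᵐ t ∂mu, ∀ i, (co 𝕜 i h : ℝ → 𝕜) t = h t i := ae_all_iff.2 fun i => co_coe i h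
  have h2 : ∀ᵐ t ∂mu, ∀ i, ‖(co 𝕜 i h : ℝ → 𝕜) t‖ ≤ ‖co 𝕜 i h‖ :=
    ae_all_iff.2 fun i => ae_norm_le (co 𝕜 i h)
  filter_upwards [h1, h2] with t ht1 ht2
  refine norm_c0_le hC fun i => ?_
  rw [← ht1 i]
  exact (ht2 i).trans (hh i)

theorem co_ext {h h' : LinfUnit (C0 𝕜)} (hh : ∀ i, co 𝕜 i h = co 𝕜 i h') : h = h' := by
  have h1 : ‖h - h'‖ ≤ 0 := by
    refine norm_le_of_co le_rfl fun i => ?_
    rw [map_sub, hh i, sub_self, norm_zero]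
  exact sub_eq_zero.1 (norm_le_zero_iff.1 h1)

theorem co_tens (i k : ℕ) (f : LinfUnit 𝕜) :
    co 𝕜 i (tens (ec 𝕜 k) f) = if i = k then f else 0 := by
  apply Lp.ext
  have h0 : (((0 : LinfUnit 𝕜) : ℝ → 𝕜)) =ᵐ[mu] 0 := Lp.coeFn_zero _ _ _
  filter_upwards [co_coe i (tens (ec 𝕜 k) f), tens_coe (ec 𝕜 k) f, h0] with t h1 h2 h3
  rw [h1, h2, ZeroAtInftyContinuousMap.smul_apply, ec_apply]
  split_ifs with hik
  · rw [smul_eq_mul, mul_one]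
  · rw [smul_zero, h3]
    rfl

theorem tendsto_co (h : LinfUnit (C0 𝕜)) :
    ∀ᵐ t ∂mu, Tendsto (fun i => co 𝕜 i h t) atTop (𝓝 0) := by
  have h1 : ∀ᵐ t ∂mu, ∀ i, (co 𝕜 i h : ℝ → 𝕜) t = h t i := ae_all_iff.2 fun i => co_coe i h
  filter_upwards [h1] with t ht
  have h2 := ZeroAtInftyContinuousMap.zero_at_infty' (h t)
  rw [cocompact_eq_cofinite, Nat.cofinite_eq_atTop] at h2
  exact h2.congr fun i => (ht i).symm

end Pool.Agent.LinfC
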