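import Pool.Agent.LinfC.Basic

/-!
# Multiplication by bounded functions
-/

set_option autoImplicit false

open MeasureTheory Set Filter Topology
open scoped ENNReal

namespace Pool.Agent.LinfC

open Pool.Agent.LinfX

variable {𝕜 : Type*} [RCLike 𝕜]

theorem memLp_mul {s : ℝ → 𝕜} (hs : Measurable s) (h1 : ∀ t, ‖s t‖ ≤ 1) (f : LinfUnit 𝕜) :
    MemLp (fun t => s t * f t) ∞ mu := by
  refine memLp_top_of_bound (hs.aestronglyMeasurable.mul (Lp.aestronglyMeasurable f)) ‖f‖ ?_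
  filter_upwards [ae_norm_le f] with t ht
  rw [norm_mul]
  exact (mul_le_of_le_one_left (norm_nonneg _) (h1 t)).trans ht

open scoped Classical in
/-- multiplication by `s` -/
noncomputable def mulL (s : ℝ → 𝕜) : LinfUnit 𝕜 →L[𝕜] LinfUnit 𝕜 :=
  if hs : Measurable s ∧ ∀ t, ‖s t‖ ≤ 1 then
    LinearMap.mkContinuous
      { toFun := fun f => (memLp_mul hs.1 hs.2 f).toLp _
        map_add' := by
          intro f g
          apply Lp.ext
          filter_upwards [MemLp.coeFn_toLp (memLp_mul hs.1 hs.2 (f + g)),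
            MemLp.coeFn_toLp (memLp_mul hs.1 hs.2 f), MemLp.coeFn_toLp (memLp_mul hs.1 hs.2 g),
            Lp.coeFn_add f g, Lp.coeFn_add ((memLp_mul hs.1 hs.2 f).toLp _)
              ((memLp_mul hs.1 hs.2 g).toLp _)] with t h1 h2 h3 h4 h5
          rw [h1, h5, Pi.add_apply, h2, h3, h4, Pi.add_apply, mul_add]
        map_smul' := by
          intro c f
          apply Lp.ext
          filter_upwards [MemLp.coeFn_toLp (memLp_mul hs.1 hs.2 (c • f)),
            MemLp.coeFn_toLp (memLp_mul hs.1 hs.2 f), Lp.coeFn_smul c f,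
            Lp.coeFn_smul c ((memLp_mul hs.1 hs.2 f).toLp _)] with t h1 h2 h3 h4
          rw [RingHom.id_apply, h1, h4, Pi.smul_apply, h2, h3, Pi.smul_apply, smul_eq_mul,
            smul_eq_mul]
          ring }
      1 (by
        intro f
        rw [one_mul]
        apply norm_le_of_ae (norm_nonneg _)
        change ∀ᵐ t ∂mu, ‖((memLp_mul hs.1 hs.2 f).toLp _ : LinfUnit 𝕜) t‖ ≤ ‖f‖
        filter_upwards [MemLp.coeFn_toLp (memLp_mul hs.1 hs.2 f), ae_norm_le f] with t h1 h2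
        rw [h1, norm_mul]
        exact (mul_le_of_le_one_left (norm_nonneg _) (hs.2 t)).trans h2)
  else 0

theorem mulL_coe {s : ℝ → 𝕜} (hs : Measurable s) (h1 : ∀ t, ‖s t‖ ≤ 1) (f : LinfUnit 𝕜) :
    (mulL s f : ℝ → 𝕜) =ᵐ[mu] fun t => s t * f t := by
  unfold mulL
  rw [dif_pos ⟨hs, h1⟩]
  exact MemLp.coeFn_toLp (memLp_mul hs h1 f)

theorem norm_mulL_le (s : ℝ → 𝕜) (f : LinfUnit 𝕜) : ‖mulL s f‖ ≤ ‖f‖ := by
  by_cases hs : Measurable s ∧ ∀ t, ‖s t‖ ≤ 1
  · apply norm_le_of_ae (norm_nonneg _)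
    filter_upwards [mulL_coe hs.1 hs.2 f, ae_norm_le f] with t h1 h2
    rw [h1, norm_mul]
    exact (mul_le_of_le_one_left (norm_nonneg _) (hs.2 t)).trans h2
  · unfold mulL
    rw [dif_neg hs]
    simp

/-- the composition with the functional `y'` -/
theorem compLpL_coe {Y : Type*} [NormedAddCommGroup Y] [NormedSpace 𝕜 Y] (y' : StrongDual 𝕜 Y)
    (F : LinfUnit Y) : (y'.compLpL ∞ mu F : ℝ → 𝕜) =ᵐ[mu] fun t => y' (F t) :=
  ContinuousLinearMap.coeFn_compLpL (p := ∞) (μ := mu) y' F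

end Pool.Agent.LinfC
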