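import Pool.Agent.LinfC.Rec
import Pool.Agent.LinfC.CoordA
import Pool.Agent.LinfC.Mul

/-!
# The forms `bb`
-/

set_option autoImplicit false

open MeasureTheory Set Filter Topology
open scoped ENNReal

namespace Pool.Agent.LinfC

open Pool.Agent.LinfX

variable {𝕜 : Type*} [RCLike 𝕜] {Y : Type*} [NormedAddCommGroup Y] [NormedSpace 𝕜 Y]

theorem norm_tens_ec_le (m : ℕ) (u : LinfUnit 𝕜) : ‖tens (ec 𝕜 m) u‖ ≤ ‖u‖ := by
  refine norm_le_of_co (norm_nonneg _) fun i => ?_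
  rw [co_tens]
  split_ifs
  · exact le_rfl
  · rw [norm_zero]
    exact norm_nonneg _

theorem norm_pr_tL_le {f : ℝ → 𝕜} (hf : DyA f) (y' : StrongDual 𝕜 Y) (g : LinfUnit Y) :
    ‖pr (tL f) y' g‖ ≤ (∫ t, ‖f t‖ ∂mu) * ‖y'‖ * ‖g‖ := by
  have h1 := norm_pr_le (tL f) y' g
  rwa [integral_norm_tL hf.memLp] at h1

theorem db_bb (W : LinfUnit (C0 𝕜) →L[𝕜] LinfUnit Y) {y' : StrongDual 𝕜 Y} {C : ℝ}
    (hC : ‖y'‖ ≤ C) (Ω : Set ℝ) (m : ℕ) : DB (C * ‖W‖) (bb W y' Ω m) where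
  add_left f f' g hf hf' _ := by
    unfold bb
    rw [tL_add hf.memLp hf'.memLp, pr_add]
  smul_left c f g hf _ := by
    unfold bb
    rw [tL_smul c hf.memLp, pr_smul]
  add_right f g g' _ hg hg' := by
    unfold bb
    rw [tL_add hg.memLp hg'.memLp, map_add, map_add, map_add, map_add]
  smul_right c f g _ hg := by
    unfold bb
    rw [tL_smul c hg.memLp, map_smul, map_smul, map_smul, map_smul, smul_eq_mul]
  bd f g K hf hg hK hgK := by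
    unfold bb
    have hC0 : 0 ≤ C := (norm_nonneg _).trans hC
    have hf0 : 0 ≤ ∫ t, ‖f t‖ ∂mu := integral_nonneg fun t => norm_nonneg _
    refine (norm_pr_tL_le hf y' _).trans ?_
    have h1 : ‖W (tens (ec 𝕜 m) (cut 𝕜 Ω (tL g)))‖ ≤ ‖W‖ * K := by
      refine (W.le_opNorm _).trans (mul_le_mul_of_nonneg_left ?_ (norm_nonneg _))
      exact (norm_tens_ec_le m _).trans ((norm_cut_le Ω _).trans
        (norm_tL_le hg.memLp hK hgK))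
    calc (∫ t, ‖f t‖ ∂mu) * ‖y'‖ * ‖W (tens (ec 𝕜 m) (cut 𝕜 Ω (tL g)))‖
        ≤ (∫ t, ‖f t‖ ∂mu) * C * (‖W‖ * K) :=
          mul_le_mul (mul_le_mul_of_nonneg_left hC hf0) h1 (norm_nonneg _)
            (mul_nonneg hf0 hC0)
      _ = _ := by ring

/-- the form as an integral -/
theorem pr_eq {f : ℝ → 𝕜} (hf : DyA f) (y' : StrongDual 𝕜 Y) (F : LinfUnit Y) :
    pr (tL f) y' F = ∫ t, f t * (y'.compLpL ∞ mu F : LinfUnit 𝕜) t ∂mu := by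
  rw [pr_apply]
  refine integral_congr_ae ?_
  filter_upwards [tL_coe hf.memLp, compLpL_coe y' F] with t h1 h2
  rw [h1, h2]

theorem norm_pr_tL_le' {f : ℝ → 𝕜} (hf : DyA f) {M : ℝ}
    (hM : ∀ t ∈ Ico (0 : ℝ) 1, ‖f t‖ ≤ M) (y' : StrongDual 𝕜 Y) (F : LinfUnit Y) :
    ‖pr (tL f) y' F‖ ≤ M * ∫ t, ‖(y'.compLpL ∞ mu F : LinfUnit 𝕜) t‖ ∂mu := by
  rw [pr_eq hf, ← integral_const_mul]
  refine (norm_integral_le_integral_norm _).trans ?_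
  refine integral_mono_of_nonneg (Eventually.of_forall fun t => norm_nonneg _)
    ((integrable_of_Linf _).norm.const_mul M) ?_
  filter_upwards [ae_mem_Ico] with t ht
  rw [norm_mul]
  exact mul_le_mul_of_nonneg_right (hM t ht) (norm_nonneg _)

theorem drt_bb (W : LinfUnit (C0 𝕜) →L[𝕜] LinfUnit Y) (y' : StrongDual 𝕜 Y) (Ω : Set ℝ) (m : ℕ)
    (hD : ∃ K : ℝ, 0 ≤ K ∧ ∀ f : LinfUnit 𝕜,
      ∫ t, ‖(y'.compLpL ∞ mu (W (tens (ec 𝕜 m) (cut 𝕜 Ω f))) : LinfUnit 𝕜) t‖ ∂mu ≤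
        K * ∫ t, ‖f t‖ ∂mu) : DRt (bb W y' Ω m) := by
  obtain ⟨K, hK, hK2⟩ := hD
  refine ⟨K, hK, fun f g M hf hg hM hfM => ?_⟩
  unfold bb
  refine (norm_pr_tL_le' hf hfM y' _).trans ?_
  have h1 := hK2 (tL g)
  rw [integral_norm_tL hg.memLp] at h1
  calc M * ∫ t, ‖(y'.compLpL ∞ mu (W (tens (ec 𝕜 m) (cut 𝕜 Ω (tL g)))) : LinfUnit 𝕜) t‖ ∂mu
      ≤ M * (K * ∫ t, ‖g t‖ ∂mu) := mul_le_mul_of_nonneg_left h1 hM
    _ = _ := by ring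

end Pool.Agent.LinfC
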