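import Pool.Agent.LinfC.Defs

/-!
# Dyadic step functions and functionals on them: basic facts
-/

set_option autoImplicit false

open MeasureTheory Set Filter Topology
open scoped ENNReal

namespace Pool.Agent.LinfC

open Pool.Agent.LinfX

variable {𝕜 : Type*} [RCLike 𝕜]

/-! ### Step functions -/

theorem DyA.pair {β γ δ : Type*} {f : ℝ → β} {g : ℝ → γ} (hf : DyA f) (hg : DyA g)
    (F : β → γ → δ) : DyA (fun t => F (f t) (g t)) := by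
  obtain ⟨p, hp⟩ := hf
  obtain ⟨q, hq⟩ := hg
  refine ⟨max p q, fun t t' h => ?_⟩
  change F (f t) (g t) = F (f t') (g t')
  rw [hp.mono (le_max_left p q) t t' h, hq.mono (le_max_right p q) t t' h]

theorem DyA.map {β γ : Type*} {f : ℝ → β} (hf : DyA f) (F : β → γ) :
    DyA (fun t => F (f t)) := by
  obtain ⟨p, hp⟩ := hf
  refine ⟨p, fun t t' h => ?_⟩
  change F (f t) = F (f t')
  rw [hp t t' h]

theorem DyA.const {β : Type*} (c : β) : DyA (fun _ : ℝ => c) := ⟨0, fun _ _ _ => rfl⟩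

theorem DyA.add {f g : ℝ → 𝕜} (hf : DyA f) (hg : DyA g) : DyA (fun t => f t + g t) :=
  hf.pair hg (· + ·)

theorem DyA.sub {f g : ℝ → 𝕜} (hf : DyA f) (hg : DyA g) : DyA (fun t => f t - g t) :=
  hf.pair hg (· - ·)

theorem DyA.mul {f g : ℝ → 𝕜} (hf : DyA f) (hg : DyA g) : DyA (fun t => f t * g t) :=
  hf.pair hg (· * ·)

theorem DyA.smul (c : 𝕜) {f : ℝ → 𝕜} (hf : DyA f) : DyA (fun t => c * f t) :=
  hf.map (c * ·)

theorem DyA.sum {ι : Type*} (s : Finset ι) {f : ι → ℝ → 𝕜} (hf : ∀ i ∈ s, DyA (f i)) :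
    DyA (fun t => ∑ i ∈ s, f i t) := by
  classical
  induction s using Finset.induction_on with
  | empty => simpa using DyA.const (0 : 𝕜)
  | insert a s ha ih =>
    have h1 := (hf a (Finset.mem_insert_self a s)).add
      (ih fun i hi => hf i (Finset.mem_insert_of_mem hi))
    simpa only [Finset.sum_insert ha] using h1

theorem DyA.prod {ι : Type*} (s : Finset ι) {f : ι → ℝ → 𝕜} (hf : ∀ i ∈ s, DyA (f i)) :
    DyA (fun t => ∏ i ∈ s, f i t) := by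
  classical
  induction s using Finset.induction_on with
  | empty => simpa using DyA.const (1 : 𝕜)
  | insert a s ha ih =>
    have h1 := (hf a (Finset.mem_insert_self a s)).mul
      (ih fun i hi => hf i (Finset.mem_insert_of_mem hi))
    simpa only [Finset.prod_insert ha] using h1

theorem DyA.measurable {β : Type*} [MeasurableSpace β] {f : ℝ → β} (hf : DyA f) :
    Measurable f := by
  obtain ⟨p, hp⟩ := hf
  exact hp.measurable

theorem DyA.stronglyMeasurable {β : Type*} [TopologicalSpace β] {f : ℝ → β} (hf : DyA f) :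
    StronglyMeasurable f := by
  obtain ⟨p, hp⟩ := hf
  exact hp.stronglyMeasurable

theorem dy_mul {q : ℕ} {f g : ℝ → 𝕜} (hf : Dy q f) (hg : Dy q g) :
    Dy q (fun t => f t * g t) := by
  intro t t' h
  change f t * g t = f t' * g t'
  rw [hf t t' h, hg t t' h]

theorem dy_add {q : ℕ} {f g : ℝ → 𝕜} (hf : Dy q f) (hg : Dy q g) :
    Dy q (fun t => f t + g t) := by
  intro t t' h
  change f t + g t = f t' + g t'
  rw [hf t t' h, hg t t' h]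

theorem dy_radk (q : ℕ) : Dy q (radk 𝕜 q) := fun t t' h => by unfold radk; rw [h]

theorem dya_radk (q : ℕ) : DyA (radk 𝕜 q) := ⟨q, dy_radk q⟩

theorem dy_indk (q : ℕ) (i : ℤ) : Dy q (indk 𝕜 q i) := fun t t' h => by unfold indk; rw [h]

theorem dya_indk (q : ℕ) (i : ℤ) : DyA (indk 𝕜 q i) := ⟨q, dy_indk q i⟩

theorem radk_cases (q : ℕ) (t : ℝ) : radk 𝕜 q t = 1 ∨ radk 𝕜 q t = -1 := by
  unfold radk; split_ifs <;> simp

theorem indk_cases (q : ℕ) (i : ℤ) (t : ℝ) : indk 𝕜 q i t = 0 ∨ indk 𝕜 q i t = 1 := by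
  unfold indk; split_ifs <;> simp

theorem radk_coe (q : ℕ) (t : ℝ) : radk 𝕜 q t = ((rad q t : ℝ) : 𝕜) := by
  unfold radk rad; split_ifs <;> simp

theorem indk_coe (q : ℕ) (i : ℤ) (t : ℝ) : indk 𝕜 q i t = ((ind q i t : ℝ) : 𝕜) := by
  unfold indk ind; split_ifs <;> simp

theorem norm_radk (q : ℕ) (t : ℝ) : ‖radk 𝕜 q t‖ = 1 := by
  rcases radk_cases (𝕜 := 𝕜) q t with h | h <;> rw [h] <;> simp

theorem norm_indk (q : ℕ) (i : ℤ) (t : ℝ) : ‖indk 𝕜 q i t‖ = ind q i t := by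
  unfold indk ind; split_ifs <;> simp

theorem dy_xx (q i : ℕ) : Dy (q + 1) (xx 𝕜 q i) :=
  dy_mul ((dy_indk q i).mono (Nat.le_succ q)) (dy_radk (q + 1))

theorem dya_xx (q i : ℕ) : DyA (xx 𝕜 q i) := ⟨q + 1, dy_xx q i⟩

theorem floor_div_pow (q : ℕ) (i : ℕ) : ⌊(2 : ℝ) ^ q * ((i : ℝ) / 2 ^ q)⌋ = (i : ℤ) := by
  have : (2 : ℝ) ^ q * ((i : ℝ) / 2 ^ q) = ((i : ℤ) : ℝ) := by
    push_cast
    field_simp
  rw [this, Int.floor_intCast]

/-- the value of a step function on the interval that contains `t` -/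
theorem dy_expand {q : ℕ} {f : ℝ → 𝕜} (hf : Dy q f) {t : ℝ} (ht : t ∈ Ico (0 : ℝ) 1) :
    f t = ∑ i ∈ Finset.range (2 ^ q), f ((i : ℝ) / 2 ^ q) * indk 𝕜 q i t := by
  have h1 := (mem_unit_iff q t).1 ht
  rw [mem_Ico] at h1
  obtain ⟨k, hk⟩ := Int.eq_ofNat_of_zero_le h1.1
  have hk2 : k < 2 ^ q := by
    have h2 := h1.2
    rw [hk] at h2
    exact_mod_cast h2
  rw [Finset.sum_eq_single_of_mem k (Finset.mem_range.2 hk2)]
  · have e : f t = f ((k : ℝ) / 2 ^ q) := hf _ _ (by rw [hk, floor_div_pow])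
    unfold indk
    rw [if_pos hk, mul_one, e]
  · intro i _ hi
    unfold indk
    rw [if_neg, mul_zero]
    rw [hk]
    intro h
    exact hi (by exact_mod_cast h.symm)

/-- every step function is bounded on `[0,1)` -/
theorem DyA.bounded {f : ℝ → 𝕜} (hf : DyA f) :
    ∃ C : ℝ, 0 ≤ C ∧ ∀ t ∈ Ico (0 : ℝ) 1, ‖f t‖ ≤ C := by
  obtain ⟨q, hq⟩ := hf
  refine ⟨∑ i ∈ Finset.range (2 ^ q), ‖f ((i : ℝ) / 2 ^ q)‖,
    Finset.sum_nonneg fun _ _ => norm_nonneg _, fun t ht => ?_⟩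
  rw [dy_expand hq ht]
  refine (norm_sum_le _ _).trans (Finset.sum_le_sum fun i _ => ?_)
  rw [norm_mul]
  rcases indk_cases (𝕜 := 𝕜) q i t with h | h <;> rw [h] <;> simp

theorem DyA.memLp {f : ℝ → 𝕜} (hf : DyA f) : MemLp f ∞ mu := by
  obtain ⟨C, hC, hb⟩ := hf.bounded
  refine memLp_top_of_bound hf.measurable.aestronglyMeasurable C ?_
  filter_upwards [ae_mem_Ico] with t ht
  exact hb t ht

theorem DyA.integrable {f : ℝ → 𝕜} (hf : DyA f) : Integrable f mu := by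
  have h1 : MemLp f 1 mu := hf.memLp.mono_exponent le_top
  exact memLp_one_iff_integrable.1 h1

theorem integral_ind {q i : ℕ} (hi : i < 2 ^ q) : ∫ t, ind q i t ∂mu = (1 / 2) ^ q := by
  have h2 : (0 : ℝ) < 2 ^ q := by positivity
  have hset : ind q i = (Ico ((i : ℝ) / 2 ^ q) (((i : ℝ) + 1) / 2 ^ q)).indicator 1 := by
    funext t
    simp only [ind, indicator_apply, Pi.one_apply]
    have : ⌊(2 : ℝ) ^ q * t⌋ = (i : ℤ) ↔
        t ∈ Ico ((i : ℝ) / 2 ^ q) (((i : ℝ) + 1) / 2 ^ q) := by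
      rw [Int.floor_eq_iff, mem_Ico, div_le_iff₀ h2, lt_div_iff₀ h2, mul_comm t]
      push_cast
      rfl
    simp only [this]
  rw [hset, integral_indicator_one measurableSet_Ico, measureReal_def,
    Measure.restrict_apply measurableSet_Ico]
  have hsub : Ico ((i : ℝ) / 2 ^ q) (((i : ℝ) + 1) / 2 ^ q) ∩ Icc (0 : ℝ) 1 =
      Ico ((i : ℝ) / 2 ^ q) (((i : ℝ) + 1) / 2 ^ q) := by
    apply inter_eq_left.2
    rintro t ⟨h3, h4⟩
    have h5 : (i : ℝ) + 1 ≤ 2 ^ q := by exact_mod_cast hi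
    have h6 : ((i : ℝ) + 1) / 2 ^ q ≤ 1 := by rw [div_le_one h2]; exact h5
    have h7 : 0 ≤ (i : ℝ) / 2 ^ q := by positivity
    exact ⟨h7.trans h3, h4.le.trans h6⟩
  rw [hsub, Real.volume_Ico]
  have e : ((i : ℝ) + 1) / 2 ^ q - (i : ℝ) / 2 ^ q = (1 / 2) ^ q := by
    rw [one_div_pow]
    ring
  rw [e, ENNReal.toReal_ofReal (by positivity)]

theorem integral_indk {q i : ℕ} (hi : i < 2 ^ q) : ∫ t, indk 𝕜 q i t ∂mu = (1 / 2) ^ q := by
  simp only [indk_coe]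
  rw [integral_ofReal, integral_ind hi]
  push_cast
  rfl

theorem integral_dy {q : ℕ} {f : ℝ → 𝕜} (hf : Dy q f) :
    ∫ t, f t ∂mu = ∑ i ∈ Finset.range (2 ^ q), f ((i : ℝ) / 2 ^ q) * (1 / 2) ^ q := by
  have h1 : ∫ t, f t ∂mu =
      ∫ t, ∑ i ∈ Finset.range (2 ^ q), f ((i : ℝ) / 2 ^ q) * indk 𝕜 q i t ∂mu := by
    refine integral_congr_ae ?_
    filter_upwards [ae_mem_Ico] with t ht
    exact dy_expand hf ht
  rw [h1, integral_finsetSum]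
  · refine Finset.sum_congr rfl fun i hi => ?_
    rw [integral_const_mul, integral_indk (Finset.mem_range.1 hi)]
  · intro i _
    exact ((dya_indk q i).integrable).const_mul _

theorem integral_norm_dy {q : ℕ} {f : ℝ → 𝕜} (hf : Dy q f) :
    ∫ t, ‖f t‖ ∂mu = ∑ i ∈ Finset.range (2 ^ q), ‖f ((i : ℝ) / 2 ^ q)‖ * (1 / 2) ^ q :=
  integral_dy (𝕜 := ℝ) (f := fun t => ‖f t‖) fun t t' h => by
    change ‖f t‖ = ‖f t'‖
    rw [hf t t' h]

theorem norm_xx (q i : ℕ) (t : ℝ) : ‖xx 𝕜 q i t‖ = ind q i t := by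
  unfold xx
  rw [norm_mul, norm_radk, mul_one, norm_indk]

theorem norm_xx_le (q i : ℕ) (t : ℝ) : ‖xx 𝕜 q i t‖ ≤ 1 := by
  rw [norm_xx]
  rcases ind_cases q i t with h | h <;> rw [h] <;> simp

theorem integral_norm_xx {q i : ℕ} (hi : i < 2 ^ q) : ∫ t, ‖xx 𝕜 q i t‖ ∂mu = (1 / 2) ^ q := by
  simp only [norm_xx]
  exact integral_ind hi

/-- sign functions -/
theorem Osc.dy {q : ℕ} {s : ℝ → 𝕜} (h : Osc q s) : Dy (q + 1) s := by
  obtain ⟨θ, h1, -, h3⟩ := h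
  intro t t' ht
  rw [h3, h3, (h1.mono (Nat.le_succ q)) t t' ht, dy_radk (q + 1) t t' ht]

theorem Osc.dya {q : ℕ} {s : ℝ → 𝕜} (h : Osc q s) : DyA s := ⟨q + 1, h.dy⟩

theorem Osc.sign {q : ℕ} {s : ℝ → 𝕜} (h : Osc q s) (t : ℝ) : s t = 1 ∨ s t = -1 := by
  obtain ⟨θ, -, h2, h3⟩ := h
  rw [h3]
  rcases h2 t with h | h <;> rcases radk_cases (𝕜 := 𝕜) (q + 1) t with h' | h' <;>
    rw [h, h'] <;> simp

theorem Osc.sq {q : ℕ} {s : ℝ → 𝕜} (h : Osc q s) (t : ℝ) : s t * s t = 1 := by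
  rcases h.sign t with h | h <;> rw [h] <;> norm_num

theorem Osc.norm {q : ℕ} {s : ℝ → 𝕜} (h : Osc q s) (t : ℝ) : ‖s t‖ = 1 := by
  rcases h.sign t with h | h <;> rw [h] <;> simp

/-! ### Functionals -/

theorem DF.nonneg {C : ℝ} {α : (ℝ → 𝕜) → 𝕜} (h : DF C α) : 0 ≤ C := by
  have h1 := h.bd (fun _ => 1) (DyA.const 1)
  have h2 : ∫ _ : ℝ, ‖(1 : 𝕜)‖ ∂mu = 1 := by simp
  rw [h2, mul_one] at h1
  exact (norm_nonneg _).trans h1

theorem DF.congr {C : ℝ} {α : (ℝ → 𝕜) → 𝕜} (h : DF C α) {f g : ℝ → 𝕜} (hf : DyA f) (hg : DyA g)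
    (hfg : ∀ t ∈ Ico (0 : ℝ) 1, f t = g t) : α f = α g := by
  have h1 : α (fun t => f t + (-1) * g t) = 0 := by
    have h2 := h.bd _ (hf.add (hg.smul (-1)))
    have h3 : ∫ t, ‖f t + (-1) * g t‖ ∂mu = 0 := by
      rw [integral_eq_zero_of_ae]
      filter_upwards [ae_mem_Ico] with t ht
      rw [hfg t ht]
      simp
    rw [h3, mul_zero] at h2
    exact norm_le_zero_iff.1 h2
  rw [h.add _ _ hf (hg.smul (-1)), h.smul _ _ hg] at h1
  linear_combination h1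

theorem DF.zero {C : ℝ} {α : (ℝ → 𝕜) → 𝕜} (h : DF C α) : α (fun _ => 0) = 0 := by
  have h1 := h.bd _ (DyA.const 0)
  simp only [norm_zero, integral_zero, mul_zero] at h1
  exact norm_le_zero_iff.1 h1

theorem DF.sum {C : ℝ} {α : (ℝ → 𝕜) → 𝕜} (h : DF C α) {ι : Type*} (s : Finset ι) (c : ι → 𝕜)
    {f : ι → ℝ → 𝕜} (hf : ∀ i ∈ s, DyA (f i)) :
    α (fun t => ∑ i ∈ s, c i * f i t) = ∑ i ∈ s, c i * α (f i) := by
  classical
  induction s using Finset.induction_on with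
  | empty => simpa using h.zero
  | insert a s ha ih =>
    have h1 := hf a (Finset.mem_insert_self a s)
    have h2 : ∀ i ∈ s, DyA (f i) := fun i hi => hf i (Finset.mem_insert_of_mem hi)
    rw [Finset.sum_insert ha, ← ih h2, ← h.smul _ _ h1,
      ← h.add _ _ (h1.smul _) (DyA.sum s fun i hi => (h2 i hi).smul _)]
    congr 1
    funext t
    rw [Finset.sum_insert ha]

theorem DF.expand {C : ℝ} {α : (ℝ → 𝕜) → 𝕜} (h : DF C α) {q : ℕ} {f : ℝ → 𝕜} (hf : Dy q f) :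
    α f = ∑ i ∈ Finset.range (2 ^ q), f ((i : ℝ) / 2 ^ q) * α (indk 𝕜 q i) := by
  refine (h.congr ⟨q, hf⟩ (DyA.sum (Finset.range (2 ^ q)) fun i _ =>
    (dya_indk q i).smul (f ((i : ℝ) / 2 ^ q))) fun t ht => dy_expand hf ht).trans ?_
  exact h.sum (Finset.range (2 ^ q)) (fun i => f ((i : ℝ) / 2 ^ q)) fun i _ => dya_indk q i

theorem DF.sub {C C' : ℝ} {α β : (ℝ → 𝕜) → 𝕜} (h : DF C α) (h' : DF C' β) :
    DF (C + C') (fun f => α f - β f) where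
  add f g hf hg := by
    rw [h.add f g hf hg, h'.add f g hf hg]
    ring
  smul c f hf := by
    rw [h.smul c f hf, h'.smul c f hf]
    ring
  bd f hf := by
    refine (norm_sub_le _ _).trans ?_
    rw [add_mul]
    exact add_le_add (h.bd f hf) (h'.bd f hf)

theorem integral_norm_mono {f g : ℝ → 𝕜} (hf : DyA f) (hg : DyA g)
    (h : ∀ t ∈ Ico (0 : ℝ) 1, ‖f t‖ ≤ ‖g t‖) : ∫ t, ‖f t‖ ∂mu ≤ ∫ t, ‖g t‖ ∂mu := by
  refine integral_mono_ae hf.integrable.norm hg.integrable.norm ?_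
  filter_upwards [ae_mem_Ico] with t ht
  exact h t ht

theorem integral_norm_le {f : ℝ → 𝕜} (hf : DyA f) {K : ℝ}
    (h : ∀ t ∈ Ico (0 : ℝ) 1, ‖f t‖ ≤ K) : ∫ t, ‖f t‖ ∂mu ≤ K := by
  have h1 : ∫ t, ‖f t‖ ∂mu ≤ ∫ _ : ℝ, K ∂mu := by
    refine integral_mono_ae hf.integrable.norm (integrable_const _) ?_
    filter_upwards [ae_mem_Ico] with t ht
    exact h t ht
  refine h1.trans (le_of_eq ?_)
  simp

/-- multiplication by a bounded step function -/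
theorem DF.mul {C : ℝ} {α : (ℝ → 𝕜) → 𝕜} (h : DF C α) {g : ℝ → 𝕜} (hg : DyA g)
    (hg1 : ∀ t ∈ Ico (0 : ℝ) 1, ‖g t‖ ≤ 1) : DF C (fun f => α (fun t => g t * f t)) where
  add f f' hf hf' := by
    rw [← h.add _ _ (hg.mul hf) (hg.mul hf')]
    congr 1
    funext t
    ring
  smul c f hf := by
    rw [← h.smul _ _ (hg.mul hf)]
    congr 1
    funext t
    ring
  bd f hf := by
    refine (h.bd _ (hg.mul hf)).trans (mul_le_mul_of_nonneg_left ?_ h.nonneg)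
    refine integral_norm_mono (hg.mul hf) hf fun t ht => ?_
    rw [norm_mul]
    exact mul_le_of_le_one_left (norm_nonneg _) (hg1 t ht)

theorem DB.left {C K : ℝ} {b : (ℝ → 𝕜) → (ℝ → 𝕜) → 𝕜} (h : DB C b) {g : ℝ → 𝕜} (hg : DyA g)
    (hK : 0 ≤ K) (hg1 : ∀ t ∈ Ico (0 : ℝ) 1, ‖g t‖ ≤ K) : DF (C * K) (fun f => b f g) where
  add f f' hf hf' := h.add_left f f' g hf hf' hg
  smul c f hf := h.smul_left c f g hf hg
  bd f hf := h.bd f g K hf hg hK hg1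

theorem DB.nonneg {C : ℝ} {b : (ℝ → 𝕜) → (ℝ → 𝕜) → 𝕜} (h : DB C b) : 0 ≤ C := by
  have h1 := (h.left (DyA.const (1 : 𝕜)) zero_le_one (fun _ _ => by simp)).nonneg
  rwa [mul_one] at h1

/-- the form is small in the second variable in the uniform norm -/
theorem DB.le_sup {C K : ℝ} {b : (ℝ → 𝕜) → (ℝ → 𝕜) → 𝕜} (h : DB C b) {f g : ℝ → 𝕜}
    (hf : DyA f) (hg : DyA g) (hf1 : ∀ t ∈ Ico (0 : ℝ) 1, ‖f t‖ ≤ 1) (hK : 0 ≤ K)
    (hg1 : ∀ t ∈ Ico (0 : ℝ) 1, ‖g t‖ ≤ K) : ‖b f g‖ ≤ C * K := by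
  refine (h.bd f g K hf hg hK hg1).trans ?_
  exact mul_le_of_le_one_right (mul_nonneg h.nonneg hK) (integral_norm_le hf hf1)

theorem DB.congr {C : ℝ} {b : (ℝ → 𝕜) → (ℝ → 𝕜) → 𝕜} (h : DB C b) {f f' g g' : ℝ → 𝕜}
    (hf : DyA f) (hf' : DyA f') (hg : DyA g) (hg' : DyA g')
    (hff : ∀ t ∈ Ico (0 : ℝ) 1, f t = f' t) (hgg : ∀ t ∈ Ico (0 : ℝ) 1, g t = g' t) :
    b f g = b f' g' := by
  obtain ⟨K, hK, hgK⟩ := hg.bounded
  have h1 : b f g = b f' g := (h.left hg hK hgK).congr hf hf' hff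
  have h2 : b f' (fun t => g t + (-1) * g' t) = 0 := by
    have h3 := h.bd f' (fun t => g t + (-1) * g' t) 0 hf' (hg.add (hg'.smul (-1))) le_rfl
      fun t ht => by rw [hgg t ht]; simp
    rw [mul_zero, zero_mul] at h3
    exact norm_le_zero_iff.1 h3
  rw [h.add_right _ _ _ hf' hg (hg'.smul (-1)), h.smul_right _ _ _ hf' hg'] at h2
  rw [h1]
  linear_combination h2

/-- multiplication of both variables by bounded step functions -/
theorem DB.mul {C : ℝ} {b : (ℝ → 𝕜) → (ℝ → 𝕜) → 𝕜} (h : DB C b) {u v : ℝ → 𝕜} (hu : DyA u)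
    (hv : DyA v) (hu1 : ∀ t ∈ Ico (0 : ℝ) 1, ‖u t‖ ≤ 1) (hv1 : ∀ t ∈ Ico (0 : ℝ) 1, ‖v t‖ ≤ 1) :
    DB C (fun f g => b (fun t => u t * f t) (fun t => v t * g t)) where
  add_left f f' g hf hf' hg := by
    rw [← h.add_left _ _ _ (hu.mul hf) (hu.mul hf') (hv.mul hg)]
    congr 1
    funext t
    ring
  smul_left c f g hf hg := by
    rw [← h.smul_left _ _ _ (hu.mul hf) (hv.mul hg)]
    congr 1
    funext t
    ring
  add_right f g g' hf hg hg' := by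
    rw [← h.add_right _ _ _ (hu.mul hf) (hv.mul hg) (hv.mul hg')]
    congr 1
    funext t
    ring
  smul_right c f g hf hg := by
    rw [← h.smul_right _ _ _ (hu.mul hf) (hv.mul hg)]
    congr 1
    funext t
    ring
  bd f g K hf hg hK hgK := by
    refine (h.bd _ _ K (hu.mul hf) (hv.mul hg) hK fun t ht => ?_).trans ?_
    · rw [norm_mul]
      exact (mul_le_of_le_one_left (norm_nonneg _) (hv1 t ht)).trans (hgK t ht)
    · refine mul_le_mul_of_nonneg_left ?_ (mul_nonneg h.nonneg hK)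
      refine integral_norm_mono (hu.mul hf) hf fun t ht => ?_
      rw [norm_mul]
      exact mul_le_of_le_one_left (norm_nonneg _) (hu1 t ht)

/-! ### Limits -/

theorem tendsto_ulim (𝒰 : Ultrafilter ℕ) {u : ℕ → 𝕜} {C : ℝ}
    (h : ∀ᶠ n in (𝒰 : Filter ℕ), ‖u n‖ ≤ C) : Tendsto u 𝒰 (𝓝 (ulim 𝒰 u)) := by
  have h1 : IsCompact (Metric.closedBall (0 : 𝕜) C) := isCompact_closedBall 0 C
  obtain ⟨a, -, ha⟩ := h1.ultrafilter_le_nhds (𝒰.map u) (by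
    rw [le_principal_iff]
    change u ⁻¹' Metric.closedBall (0 : 𝕜) C ∈ (𝒰 : Filter ℕ)
    filter_upwards [h] with n hn
    rw [mem_preimage, mem_closedBall_zero_iff]
    exact hn)
  have h2 : Tendsto u 𝒰 (𝓝 a) := ha
  unfold ulim
  rwa [h2.limUnder_eq]

theorem norm_ulim_le (𝒰 : Ultrafilter ℕ) {u : ℕ → 𝕜} {C : ℝ}
    (h : ∀ᶠ n in (𝒰 : Filter ℕ), ‖u n‖ ≤ C) : ‖ulim 𝒰 u‖ ≤ C :=
  le_of_tendsto (tendsto_ulim 𝒰 h).norm h

/-- the limit of functionals -/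
theorem DF.ulim {C : ℝ} (𝒰 : Ultrafilter ℕ) {α : ℕ → (ℝ → 𝕜) → 𝕜}
    (hadd : ∀ n f g, DyA f → DyA g → α n (fun t => f t + g t) = α n f + α n g)
    (hsmul : ∀ n (c : 𝕜) f, DyA f → α n (fun t => c * f t) = c * α n f)
    (hbd : ∀ f, DyA f → ∀ᶠ n in (𝒰 : Filter ℕ), ‖α n f‖ ≤ C * ∫ t, ‖f t‖ ∂mu) :
    DF C (fun f => LinfC.ulim 𝒰 (fun n => α n f)) where
  add f g hf hg := by
    have h1 := (tendsto_ulim 𝒰 (hbd f hf)).add (tendsto_ulim 𝒰 (hbd g hg))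
    have h2 := tendsto_ulim 𝒰 (hbd _ (hf.add hg))
    simp only [hadd _ f g hf hg] at h2 ⊢
    exact tendsto_nhds_unique h2 h1
  smul c f hf := by
    have h1 := (tendsto_ulim 𝒰 (hbd f hf)).const_mul c
    have h2 := tendsto_ulim 𝒰 (hbd _ (hf.smul c))
    simp only [hsmul _ c f hf] at h2 ⊢
    exact tendsto_nhds_unique h2 h1
  bd f hf := norm_ulim_le 𝒰 (hbd f hf)

theorem norm_tr_le {C : ℝ} {b : (ℝ → 𝕜) → (ℝ → 𝕜) → 𝕜} (hb : DB C b) {p q : ℕ} {f : ℝ → 𝕜}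
    (hf : Dy p f) (hq : p ≤ q) : ‖tr b q f‖ ≤ C * ∫ t, ‖f t‖ ∂mu := by
  unfold tr
  rw [integral_norm_dy (hf.mono hq), Finset.mul_sum]
  refine (norm_sum_le _ _).trans (Finset.sum_le_sum fun i hi => ?_)
  rw [norm_mul]
  have h1 := hb.bd (xx 𝕜 q i) (xx 𝕜 q i) 1 (dya_xx q i) (dya_xx q i) zero_le_one
    fun t _ => norm_xx_le q i t
  rw [integral_norm_xx (Finset.mem_range.1 hi), mul_one] at h1
  calc ‖f ((i : ℝ) / 2 ^ q)‖ * ‖b (xx 𝕜 q i) (xx 𝕜 q i)‖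
      ≤ ‖f ((i : ℝ) / 2 ^ q)‖ * (C * (1 / 2) ^ q) :=
        mul_le_mul_of_nonneg_left h1 (norm_nonneg _)
    _ = _ := by ring

theorem eventually_tr_le {C : ℝ} {b : (ℝ → 𝕜) → (ℝ → 𝕜) → 𝕜} (hb : DB C b) {𝒰 : Ultrafilter ℕ}
    (h𝒰 : (𝒰 : Filter ℕ) ≤ atTop) {f : ℝ → 𝕜} (hf : DyA f) :
    ∀ᶠ q in (𝒰 : Filter ℕ), ‖tr b q f‖ ≤ C * ∫ t, ‖f t‖ ∂mu := by
  obtain ⟨p, hp⟩ := hf
  have h1 : ∀ᶠ q in (𝒰 : Filter ℕ), p ≤ q := h𝒰 (eventually_ge_atTop p)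
  filter_upwards [h1] with q hq
  exact norm_tr_le hb hp hq

/-- the limit of the traces is a functional -/
theorem DF.tr {C : ℝ} {b : (ℝ → 𝕜) → (ℝ → 𝕜) → 𝕜} (hb : DB C b) {𝒰 : Ultrafilter ℕ}
    (h𝒰 : (𝒰 : Filter ℕ) ≤ atTop) :
    DF C (fun f => LinfC.ulim 𝒰 (fun q => LinfC.tr b q f)) := by
  refine DF.ulim 𝒰 (fun n f g _ _ => ?_) (fun n c f _ => ?_) fun f hf => eventually_tr_le hb h𝒰 hf
  · unfold LinfC.tr
    rw [← Finset.sum_add_distrib]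
    refine Finset.sum_congr rfl fun i _ => ?_
    ring
  · unfold LinfC.tr
    rw [Finset.mul_sum]
    refine Finset.sum_congr rfl fun i _ => ?_
    ring

theorem tendsto_tr {C : ℝ} {b : (ℝ → 𝕜) → (ℝ → 𝕜) → 𝕜} (hb : DB C b) {𝒰 : Ultrafilter ℕ}
    (h𝒰 : (𝒰 : Filter ℕ) ≤ atTop) {f : ℝ → 𝕜} (hf : DyA f) :
    Tendsto (fun q => tr b q f) 𝒰 (𝓝 (ulim 𝒰 (fun q => tr b q f))) :=
  tendsto_ulim 𝒰 (eventually_tr_le hb h𝒰 hf)

/-! ### Classes of bounded functions -/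

theorem tL_coe {f : ℝ → 𝕜} (hf : MemLp f ∞ mu) : (tL f : ℝ → 𝕜) =ᵐ[mu] f := by
  unfold tL
  rw [dif_pos hf]
  exact MemLp.coeFn_toLp _

theorem tL_add {f g : ℝ → 𝕜} (hf : MemLp f ∞ mu) (hg : MemLp g ∞ mu) :
    tL (fun t => f t + g t) = tL f + tL g := by
  apply Lp.ext
  filter_upwards [tL_coe (hf.add hg), tL_coe hf, tL_coe hg, Lp.coeFn_add (tL f) (tL g)]
    with t h1 h2 h3 h4
  rw [h4, Pi.add_apply, h2, h3]
  exact h1

theorem tL_smul (c : 𝕜) {f : ℝ → 𝕜} (hf : MemLp f ∞ mu) :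
    tL (fun t => c * f t) = c • tL f := by
  apply Lp.ext
  filter_upwards [tL_coe (hf.const_mul c), tL_coe hf, Lp.coeFn_smul c (tL f)] with t h1 h2 h3
  rw [h3, Pi.smul_apply, h2]
  exact h1

theorem norm_tL_le {f : ℝ → 𝕜} (hf : MemLp f ∞ mu) {K : ℝ} (hK : 0 ≤ K)
    (h : ∀ t ∈ Ico (0 : ℝ) 1, ‖f t‖ ≤ K) : ‖tL f‖ ≤ K := by
  apply norm_le_of_ae hK
  filter_upwards [tL_coe hf, ae_mem_Ico] with t h1 h2
  rw [h1]
  exact h t h2

theorem integral_norm_tL {f : ℝ → 𝕜} (hf : MemLp f ∞ mu) :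
    ∫ t, ‖tL f t‖ ∂mu = ∫ t, ‖f t‖ ∂mu := by
  refine integral_congr_ae ?_
  filter_upwards [tL_coe hf] with t ht
  rw [ht]

end Pool.Agent.LinfC
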