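import Pool.Agent.LinfC.Main
import Pool.Agent.LinfX.Lat6
import Pool.Agent.LinfX.Bap

/-!
# Consequences of Theorem A
-/

set_option autoImplicit false

open MeasureTheory Set Filter Topology
open scoped ENNReal

namespace Pool.Agent.LinfC

open Pool.Agent.LinfX

variable {𝕜 : Type*} [RCLike 𝕜]

/-- If `X` contains `c_0` and the two spaces are isomorphic, then `L^∞([0,1], c_0)` is complemented
in `X`. -/
theorem complemented_of_iso {X : Type*} [NormedAddCommGroup X] [NormedSpace 𝕜 X]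
    (hX : ContainsC0 𝕜 X) (h : Iso 𝕜 (linfSeq X) (LinfUnit X)) :
    IsComplementedIn 𝕜 (LinfUnit (C0 𝕜)) X := by
  obtain ⟨T, S, hST⟩ := h.symm.complemented
  obtain ⟨-, h1⟩ := theorem_A (E := fun _ => X) hX T S hST
  exact h1

/-- The characterisation for the spaces without a complemented copy of `L^∞([0,1], c_0)`. -/
theorem iso_iff {X : Type*} [NormedAddCommGroup X] [NormedSpace 𝕜 X] [CompleteSpace X]
    (hX : ¬ IsComplementedIn 𝕜 (LinfUnit (C0 𝕜)) X) :
    SpacesIso 𝕜 X ↔ HasBanachLimit 𝕜 X ∧ RepComplemented 𝕜 X := by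
  refine ⟨fun h => ?_, fun h => (AEProp.of_banachLimit h.1 h.2).iso⟩
  have h : Iso 𝕜 (linfSeq X) (LinfUnit X) := h
  have hc0 : ¬ ContainsC0 𝕜 X := fun hc => hX (complemented_of_iso hc h)
  have hAE := AEProp.of_complemented hc0 h.symm.complemented
  exact ⟨hAE.hasBanachLimit, hAE.repComplemented⟩

/-- Banach lattices without a complemented copy of `L^∞([0,1], c_0)`. -/
theorem lattice_iff (𝕜 : Type*) [RCLike 𝕜] (X : Type*) [NormedAddCommGroup X]
    [NormedSpace 𝕜 X] [CompleteSpace X] (L : Type*) [NormedAddCommGroup L] [Lattice L]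
    [HasSolidNorm L] [IsOrderedAddMonoid L] [NormedSpace ℝ L] [CompleteSpace L] (e : X ≃+ L)
    (he : Continuous e) (he' : Continuous e.symm)
    (hX : ¬ IsComplementedIn 𝕜 (LinfUnit (C0 𝕜)) X) :
    SpacesIso 𝕜 X ↔ ¬ ContainsC0 𝕜 X :=
  ⟨fun h hc0 => hX (complemented_of_iso hc0 h),
    fun h => (lattice_aeProp 𝕜 X L e he he' h).iso⟩

end Pool.Agent.LinfC
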