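import Pool.Agent.LinfC.Osc0

/-!
# Package LinfC-Osc: functionals are small on oscillating functions

*`DF.osc`.* If `|α f| ≤ C ‖f‖_1`, then `α s → 0` as `q → ∞`, uniformly in `Osc q s`.

Proof. Put `S q = 2 ^ q * ∑ i < 2 ^ q, ‖α (indk 𝕜 q i)‖ ^ 2`. Since
`‖α (indk 𝕜 q i)‖ ≤ C * (1 / 2) ^ q` (`DF.bd`, `norm_indk`, `integral_ind`), `S q ≤ C ^ 2`. By
`indk_split`, `xx_split` (and linearity: `DF.add`, `DF.smul`; `α f = α g` if `f = g`) with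
`a = α (indk (q + 1) (2 i))`, `b = α (indk (q + 1) (2 i + 1))`: `α (indk q i) = a + b`,
`α (xx q i) = a - b`, and the parallelogram identity
(`parallelogram_law_with_norm 𝕜`, or for `RCLike` directly) gives
`S (q + 1) = S q + 2 ^ q * ∑ i < 2 ^ q, ‖α (xx 𝕜 q i)‖ ^ 2`
(`Finset.sum_range_succ`-like splitting of `range (2 ^ (q + 1))` into even and odd numbers:
`2 ^ (q + 1) = 2 * 2 ^ q`, `Finset.sum_range_succ_mul_comm`; easiest by induction on `n`: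
`∑ j < 2 n, u j = ∑ i < n, (u (2 i) + u (2 i + 1))`).
So `S` is monotone and bounded, hence convergent (`tendsto_atTop_ciSup`), so
`D q = 2 ^ q * ∑ i < 2 ^ q, ‖α (xx 𝕜 q i)‖ ^ 2 = S (q + 1) - S q → 0`. For `Osc q s` take `ε` from
`Osc.expand`; `DF.congr` and `DF.sum` give `α s = ∑ i, ε i * α (xx q i)`, so
`‖α s‖ ≤ ∑ i < 2 ^ q, ‖α (xx q i)‖ ≤ √(D q)` by Cauchy-Schwarz
(`Finset.inner_mul_le_norm_mul_norm`, or `sq_sum_le_card_mul_sum_sq` : `(∑ x)² ≤ card * ∑ x²`).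

Difficulty: 0.7 h.
-/

set_option autoImplicit false

open MeasureTheory Set Filter Topology
open scoped ENNReal

namespace Pool.Agent.LinfC

open Pool.Agent.LinfX

variable {𝕜 : Type*} [RCLike 𝕜]

private theorem sum_range_two_mul (u : ℕ → ℝ) (n : ℕ) :
    ∑ j ∈ Finset.range (2 * n), u j = ∑ i ∈ Finset.range n, (u (2 * i) + u (2 * i + 1)) := by
  induction n with
  | zero => simp
  | succ n ih =>
    rw [show 2 * (n + 1) = 2 * n + 1 + 1 by ring, Finset.sum_range_succ, Finset.sum_range_succ,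
      Finset.sum_range_succ, ih]
    ring

private noncomputable def Sq (α : (ℝ → 𝕜) → 𝕜) (q : ℕ) : ℝ :=
  2 ^ q * ∑ i ∈ Finset.range (2 ^ q), ‖α (indk 𝕜 q i)‖ ^ 2

private noncomputable def Dq (α : (ℝ → 𝕜) → 𝕜) (q : ℕ) : ℝ :=
  2 ^ q * ∑ i ∈ Finset.range (2 ^ q), ‖α (xx 𝕜 q i)‖ ^ 2

private theorem Dq_nonneg (α : (ℝ → 𝕜) → 𝕜) (q : ℕ) : 0 ≤ Dq α q :=
  mul_nonneg (by positivity) (Finset.sum_nonneg fun _ _ => by positivity)

private theorem Sq_le {C : ℝ} {α : (ℝ → 𝕜) → 𝕜} (h : DF C α) (q : ℕ) : Sq α q ≤ C ^ 2 := by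
  have h1 : ∀ i ∈ Finset.range (2 ^ q), ‖α (indk 𝕜 q i)‖ ^ 2 ≤ (C * (1 / 2) ^ q) ^ 2 := by
    intro i hi
    have h2 := h.bd (indk 𝕜 q i) (dya_indk q i)
    simp only [norm_indk] at h2
    rw [integral_ind (Finset.mem_range.1 hi)] at h2
    exact pow_le_pow_left₀ (norm_nonneg _) h2 2
  have h3 := Finset.sum_le_sum h1
  rw [Finset.sum_const, Finset.card_range, nsmul_eq_mul] at h3
  unfold Sq
  calc (2 : ℝ) ^ q * ∑ i ∈ Finset.range (2 ^ q), ‖α (indk 𝕜 q i)‖ ^ 2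
      ≤ 2 ^ q * (((2 ^ q : ℕ) : ℝ) * (C * (1 / 2) ^ q) ^ 2) :=
        mul_le_mul_of_nonneg_left h3 (by positivity)
    _ = (2 ^ q * (1 / 2) ^ q) ^ 2 * C ^ 2 := by push_cast; ring
    _ = C ^ 2 := by
      have e : (2 : ℝ) ^ q * (1 / 2) ^ q = 1 := by
        rw [← mul_pow]
        norm_num
      rw [e, one_pow, one_mul]

private theorem Sq_succ {C : ℝ} {α : (ℝ → 𝕜) → 𝕜} (h : DF C α) (q : ℕ) :
    Sq α (q + 1) = Sq α q + Dq α q := by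
  have ha : ∀ i : ℕ, α (indk 𝕜 q i) =
      α (indk 𝕜 (q + 1) ((2 * i : ℕ) : ℤ)) + α (indk 𝕜 (q + 1) ((2 * i + 1 : ℕ) : ℤ)) := by
    intro i
    rw [← h.add _ _ (dya_indk _ _) (dya_indk _ _)]
    congr 1
    funext t
    rw [indk_split]
    push_cast
    rfl
  have hb : ∀ i : ℕ, α (xx 𝕜 q i) =
      α (indk 𝕜 (q + 1) ((2 * i : ℕ) : ℤ)) - α (indk 𝕜 (q + 1) ((2 * i + 1 : ℕ) : ℤ)) := by
    intro i
    have h1 : xx 𝕜 q i = fun t => indk 𝕜 (q + 1) ((2 * i : ℕ) : ℤ) t +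
        (-1) * indk 𝕜 (q + 1) ((2 * i + 1 : ℕ) : ℤ) t := by
      funext t
      rw [xx_split]
      push_cast
      ring
    rw [h1, h.add _ _ (dya_indk _ _) ((dya_indk _ _).smul (-1)), h.smul _ _ (dya_indk _ _)]
    ring
  unfold Sq Dq
  rw [show (2 : ℕ) ^ (q + 1) = 2 * 2 ^ q by ring,
    sum_range_two_mul (fun j => ‖α (indk 𝕜 (q + 1) (j : ℤ))‖ ^ 2), ← mul_add,
    ← Finset.sum_add_distrib, show (2 : ℝ) ^ (q + 1) = 2 ^ q * 2 by ring, mul_assoc,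
    Finset.mul_sum]
  congr 1
  refine Finset.sum_congr rfl fun i _ => ?_
  rw [ha i, hb i]
  have hp := parallelogram_law_with_norm 𝕜 (α (indk 𝕜 (q + 1) ((2 * i : ℕ) : ℤ)))
    (α (indk 𝕜 (q + 1) ((2 * i + 1 : ℕ) : ℤ)))
  nlinarith [hp]

private theorem Dq_tendsto {C : ℝ} {α : (ℝ → 𝕜) → 𝕜} (h : DF C α) :
    Tendsto (Dq α) atTop (𝓝 0) := by
  have hm : Monotone (Sq α) := monotone_nat_of_le_succ fun q => by
    rw [Sq_succ h]
    linarith [Dq_nonneg α q]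
  have hbdd : BddAbove (Set.range (Sq α)) := ⟨C ^ 2, by
    rintro _ ⟨q, rfl⟩
    exact Sq_le h q⟩
  have h1 := tendsto_atTop_ciSup hm hbdd
  have h2 : Tendsto (fun q => Sq α (q + 1)) atTop (𝓝 (⨆ q, Sq α q)) :=
    h1.comp (tendsto_add_atTop_nat 1)
  have h3 := h2.sub h1
  rw [sub_self] at h3
  refine h3.congr fun q => ?_
  rw [Sq_succ h]
  ring

private theorem norm_le_Dq {C : ℝ} {α : (ℝ → 𝕜) → 𝕜} (h : DF C α) {q : ℕ} {s : ℝ → 𝕜}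
    (hs : Osc q s) : ‖α s‖ ^ 2 ≤ Dq α q := by
  obtain ⟨ε, hε, hexp⟩ := hs.expand
  have h1 : α s = ∑ i ∈ Finset.range (2 ^ q), ε i * α (xx 𝕜 q i) := by
    rw [← h.sum (Finset.range (2 ^ q)) ε fun i _ => dya_xx q i]
    exact h.congr hs.dya (DyA.sum _ fun i _ => (dya_xx q i).smul (ε i)) hexp
  have h2 : ‖α s‖ ≤ ∑ i ∈ Finset.range (2 ^ q), ‖α (xx 𝕜 q i)‖ := by
    rw [h1]
    refine (norm_sum_le _ _).trans (Finset.sum_le_sum fun i _ => ?_)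
    rw [norm_mul]
    rcases hε i with e | e <;> rw [e] <;> simp
  have h3 := pow_le_pow_left₀ (norm_nonneg (α s)) h2 2
  refine h3.trans ((sq_sum_le_card_mul_sum_sq (s := Finset.range (2 ^ q))
    (f := fun i => ‖α (xx 𝕜 q i)‖)).trans ?_)
  unfold Dq
  rw [Finset.card_range]
  push_cast
  exact le_rfl

theorem DF.osc {C : ℝ} {α : (ℝ → 𝕜) → 𝕜} (h : DF C α) {η : ℝ} (hη : 0 < η) :
    ∃ q₀ : ℕ, ∀ q, q₀ ≤ q → ∀ s : ℝ → 𝕜, Osc q s → ‖α s‖ ≤ η := by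
  have h1 : ∀ᶠ q in atTop, Dq α q < η ^ 2 :=
    (Dq_tendsto h).eventually (gt_mem_nhds (by positivity))
  obtain ⟨q₀, hq⟩ := eventually_atTop.1 h1
  refine ⟨q₀, fun q hqq s hs => ?_⟩
  have h2 := (norm_le_Dq h hs).trans (hq q hqq).le
  exact (pow_le_pow_iff_left₀ (norm_nonneg _) hη.le two_ne_zero).1 h2

end Pool.Agent.LinfC
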