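import Pool.Agent.LinfC.Osc0

/-!
# Products of sign functions and the partial sums `rn`
-/

set_option autoImplicit false

open MeasureTheory Set Filter Topology
open scoped ENNReal

namespace Pool.Agent.LinfC

open Pool.Agent.LinfX

variable {𝕜 : Type*} [RCLike 𝕜]

/-- the sign functions `r l` take the values `1`, `-1` -/
def Sg (r : ℕ → ℝ → 𝕜) : Prop := ∀ l t, r l t = 1 ∨ r l t = -1

open scoped Classical in
/-- the digits -/
noncomputable def dg (r : ℕ → ℝ → 𝕜) (l : ℕ) (t : ℝ) : ℕ := if r l t = 1 then 0 else 1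

theorem dg_le (r : ℕ → ℝ → 𝕜) (l : ℕ) (t : ℝ) : dg r l t ≤ 1 := by
  unfold dg; split_ifs <;> simp

theorem rn_eq (r : ℕ → ℝ → 𝕜) (n : ℕ) (t : ℝ) :
    rn r n t = ∑ l ∈ Finset.range n, (dg r l t : ℝ) / 2 ^ (l + 1) := by
  unfold rn dg
  refine Finset.sum_congr rfl fun l _ => ?_
  split_ifs <;> simp

theorem rn_zero (r : ℕ → ℝ → 𝕜) (t : ℝ) : rn r 0 t = 0 := by
  rw [rn_eq, Finset.sum_range_zero]

theorem rn_succ (r : ℕ → ℝ → 𝕜) (n : ℕ) (t : ℝ) :
    rn r (n + 1) t = rn r n t + (dg r n t : ℝ) / 2 ^ (n + 1) := by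
  rw [rn_eq, rn_eq, Finset.sum_range_succ]

/-- `2 ^ n * rn r n t` is a natural number `< 2 ^ n` -/
theorem exists_rn_nat (r : ℕ → ℝ → 𝕜) (n : ℕ) (t : ℝ) :
    ∃ k : ℕ, k < 2 ^ n ∧ rn r n t = (k : ℝ) / 2 ^ n := by
  induction n with
  | zero => exact ⟨0, by simp, by rw [rn_zero]; simp⟩
  | succ n ih =>
    obtain ⟨k, hk, hkt⟩ := ih
    have h1 := dg_le r n t
    refine ⟨2 * k + dg r n t, by rw [pow_succ]; omega, ?_⟩
    rw [rn_succ, hkt]
    push_cast
    field_simp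
    ring

theorem rn_mem (r : ℕ → ℝ → 𝕜) (n : ℕ) (t : ℝ) : rn r n t ∈ Ico (0 : ℝ) 1 := by
  obtain ⟨k, hk, hkt⟩ := exists_rn_nat r n t
  have h2 : (0 : ℝ) < 2 ^ n := by positivity
  rw [hkt, mem_Ico]
  refine ⟨by positivity, ?_⟩
  rw [div_lt_one h2]
  exact_mod_cast hk

theorem rn_mono (r : ℕ → ℝ → 𝕜) (t : ℝ) : Monotone fun n => rn r n t := by
  refine monotone_nat_of_le_succ fun n => ?_
  rw [rn_succ]
  have : (0 : ℝ) ≤ (dg r n t : ℝ) / 2 ^ (n + 1) := by positivity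
  linarith

theorem rn_le_add (r : ℕ → ℝ → 𝕜) (t : ℝ) (n k : ℕ) :
    rn r (n + k) t ≤ rn r n t + (1 / 2 ^ n - 1 / 2 ^ (n + k)) := by
  induction k with
  | zero => simp
  | succ k ih =>
    rw [← add_assoc, rn_succ]
    have h1 : (dg r (n + k) t : ℝ) / 2 ^ (n + k + 1) ≤ 1 / 2 ^ (n + k + 1) := by
      have h2 : (dg r (n + k) t : ℝ) ≤ 1 := by exact_mod_cast dg_le r (n + k) t
      gcongr
    have h3 : (1 : ℝ) / 2 ^ (n + k) = 1 / 2 ^ (n + k + 1) + 1 / 2 ^ (n + k + 1) := by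
      rw [pow_succ]
      field_simp
      norm_num
    linarith

theorem dya_dg {r : ℕ → ℝ → 𝕜} {l : ℕ} (hr : DyA (r l)) : DyA (fun t => (dg r l t : ℝ)) := by
  classical
  exact hr.map (fun x : 𝕜 => (((if x = 1 then 0 else 1 : ℕ)) : ℝ))

theorem dya_rn {r : ℕ → ℝ → 𝕜} (n : ℕ) (hr : ∀ l < n, DyA (r l)) : DyA (rn r n) := by
  have h1 : rn r n = fun t => ∑ l ∈ Finset.range n, (1 / 2 ^ (l + 1) : ℝ) * (dg r l t : ℝ) := by
    funext t
    rw [rn_eq]
    refine Finset.sum_congr rfl fun l _ => ?_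
    ring
  rw [h1]
  refine DyA.sum (𝕜 := ℝ) (Finset.range n) fun l hl => ?_
  exact DyA.smul (𝕜 := ℝ) _ (dya_dg (hr l (Finset.mem_range.1 hl)))

theorem dya_comp_rn {β : Type*} {r : ℕ → ℝ → 𝕜} (n : ℕ) (hr : ∀ l < n, DyA (r l)) (f : ℝ → β) :
    DyA (fun t => f (rn r n t)) := (dya_rn n hr).map f

theorem dya_WW {r : ℕ → ℝ → 𝕜} {S : Finset ℕ} (hr : ∀ l ∈ S, DyA (r l)) : DyA (WW r S) :=
  DyA.prod S hr

theorem WW_empty (r : ℕ → ℝ → 𝕜) (t : ℝ) : WW r ∅ t = 1 := by
  unfold WW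
  rw [Finset.prod_empty]

theorem WW_insert (r : ℕ → ℝ → 𝕜) {S : Finset ℕ} {l : ℕ} (hl : l ∉ S) (t : ℝ) :
    WW r (insert l S) t = r l t * WW r S t := by
  unfold WW
  rw [Finset.prod_insert hl]

theorem WW_sign {r : ℕ → ℝ → 𝕜} (hr : Sg r) (S : Finset ℕ) (t : ℝ) :
    WW r S t = 1 ∨ WW r S t = -1 := by
  classical
  induction S using Finset.induction_on with
  | empty => exact Or.inl (WW_empty r t)
  | insert l S hl ih =>
    rw [WW_insert r hl]
    rcases ih with h | h <;> rcases hr l t with h' | h' <;> rw [h, h'] <;> simp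

theorem norm_WW {r : ℕ → ℝ → 𝕜} (hr : Sg r) (S : Finset ℕ) (t : ℝ) : ‖WW r S t‖ = 1 := by
  rcases WW_sign hr S t with h | h <;> rw [h] <;> simp

theorem WW_sq {r : ℕ → ℝ → 𝕜} (hr : Sg r) (S : Finset ℕ) (t : ℝ) : WW r S t * WW r S t = 1 := by
  rcases WW_sign hr S t with h | h <;> rw [h] <;> norm_num

theorem WW_congr {r r' : ℕ → ℝ → 𝕜} {S : Finset ℕ} (h : ∀ l ∈ S, r l = r' l) :
    WW r S = WW r' S := by
  funext t
  unfold WW
  refine Finset.prod_congr rfl fun l hl => ?_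
  rw [h l hl]

/-- the product of two products is the product over the symmetric difference -/
theorem WW_mul {r : ℕ → ℝ → 𝕜} (hr : Sg r) (S S' : Finset ℕ) (t : ℝ) :
    WW r S t * WW r S' t = WW r (symmDiff S S') t := by
  classical
  have hsq : ∀ l, r l t * r l t = 1 := fun l => by
    rcases hr l t with h | h <;> rw [h] <;> norm_num
  induction S using Finset.induction_on with
  | empty =>
    have e : symmDiff ∅ S' = S' := by
      ext k
      simp [Finset.mem_symmDiff]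
    rw [WW_empty, one_mul, e]
  | insert l S hl ih =>
    rw [WW_insert r hl, mul_assoc, ih]
    by_cases hl' : l ∈ S'
    · have e : symmDiff S S' = insert l (symmDiff (insert l S) S') := by
        ext k
        simp only [Finset.mem_symmDiff, Finset.mem_insert]
        by_cases hk : k = l
        · subst hk; simp [hl, hl']
        · simp [hk]
      have hn : l ∉ symmDiff (insert l S) S' := by
        simp [Finset.mem_symmDiff, hl']
      rw [e, WW_insert r hn, ← mul_assoc, hsq, one_mul]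
    · have e : symmDiff (insert l S) S' = insert l (symmDiff S S') := by
        ext k
        simp only [Finset.mem_symmDiff, Finset.mem_insert]
        by_cases hk : k = l
        · subst hk; simp [hl, hl']
        · simp [hk]
      have hn : l ∉ symmDiff S S' := by
        simp [Finset.mem_symmDiff, hl, hl']
      rw [e, WW_insert r hn]

end Pool.Agent.LinfC
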