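import Pool.Agent.LinfC.Quad
import Pool.Agent.LinfC.Osc
import Pool.Agent.LinfC.WW

/-!
# The step of the recursion: choice of an oscillating function
-/

set_option autoImplicit false

open MeasureTheory Set Filter Topology
open scoped ENNReal

namespace Pool.Agent.LinfC

open Pool.Agent.LinfX

variable {𝕜 : Type*} [RCLike 𝕜]

/-- recursion with the whole history -/
theorem exists_hist {β : Type*} [Nonempty β] (P : ℕ → (ℕ → β) → Prop)
    (hloc : ∀ n x x', (∀ k ≤ n, x k = x' k) → P n x → P n x')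
    (hstep : ∀ n x, (∀ k < n, P k x) → ∃ y, P n (Function.update x n y)) :
    ∃ x, ∀ n, P n x := by
  classical
  choose! next hnext using hstep
  let X : ℕ → ℕ → β := fun n => Nat.rec (fun _ => Classical.arbitrary β)
    (fun n x => Function.update x n (next n x)) n
  have hX : ∀ n, X (n + 1) = Function.update (X n) n (next n (X n)) := fun n => rfl
  have hP : ∀ n, ∀ k < n, P k (X n) := by
    intro n
    induction n with
    | zero => intro k hk; omega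
    | succ n ih =>
      intro k hk
      rcases Nat.lt_succ_iff_lt_or_eq.1 hk with h | h
      · refine hloc k (X n) _ (fun j hj => ?_) (ih k h)
        rw [hX, Function.update_of_ne (by omega)]
      · rw [h, hX]
        exact hnext n (X n) ih
  have hst : ∀ n k j, j < n → X (n + k) j = X n j := by
    intro n k j hj
    induction k with
    | zero => rfl
    | succ k ih => rw [← Nat.add_assoc, hX, Function.update_of_ne (by omega), ih]
  refine ⟨fun n => X (n + 1) n, fun n => ?_⟩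
  refine hloc n (X (n + 1)) _ (fun k hk => ?_) (hP (n + 1) n (Nat.lt_succ_self n))
  have h1 := hst (k + 1) (n - k) k (Nat.lt_succ_self k)
  rwa [show k + 1 + (n - k) = n + 1 by omega] at h1

theorem ulim_congr {𝒰 : Ultrafilter ℕ} {u v : ℕ → 𝕜} (h : ∀ᶠ n in (𝒰 : Filter ℕ), u n = v n) :
    ulim 𝒰 u = ulim 𝒰 v := by
  unfold ulim limUnder
  rw [Filter.map_congr h]

theorem xx_mul {q : ℕ} {u : ℝ → 𝕜} (hu : Dy q u) (i : ℕ) (t : ℝ) :
    u t * xx 𝕜 q i t = u ((i : ℝ) / 2 ^ q) * xx 𝕜 q i t := by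
  unfold xx indk
  by_cases h : ⌊(2 : ℝ) ^ q * t⌋ = (i : ℤ)
  · rw [hu t ((i : ℝ) / 2 ^ q) (by rw [h, floor_div_pow])]
  · rw [if_neg h, zero_mul, mul_zero, mul_zero]

theorem tr_mul {C : ℝ} {b : (ℝ → 𝕜) → (ℝ → 𝕜) → 𝕜} (hb : DB C b) {p q : ℕ} {u v : ℝ → 𝕜}
    (hu : Dy p u) (hv : Dy p v) (hq : p ≤ q) :
    tr (fun f g => b (fun t => u t * f t) (fun t => v t * g t)) q (fun _ => 1) =
      tr b q (fun t => u t * v t) := by
  unfold tr
  refine Finset.sum_congr rfl fun i _ => ?_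
  have h1 : (fun t => u t * xx 𝕜 q i t) = fun t => u ((i : ℝ) / 2 ^ q) * xx 𝕜 q i t := by
    funext t
    exact xx_mul (hu.mono hq) i t
  have h2 : (fun t => v t * xx 𝕜 q i t) = fun t => v ((i : ℝ) / 2 ^ q) * xx 𝕜 q i t := by
    funext t
    exact xx_mul (hv.mono hq) i t
  change 1 * b (fun t => u t * xx 𝕜 q i t) (fun t => v t * xx 𝕜 q i t) =
    u ((i : ℝ) / 2 ^ q) * v ((i : ℝ) / 2 ^ q) * b (xx 𝕜 q i) (xx 𝕜 q i)
  rw [h1, h2, hb.smul_left _ _ _ (dya_xx q i) ((dya_xx q i).smul _),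
    hb.smul_right _ _ _ (dya_xx q i) (dya_xx q i)]
  ring

theorem ulim_tr_mul {C : ℝ} {b : (ℝ → 𝕜) → (ℝ → 𝕜) → 𝕜} (hb : DB C b) {u v : ℝ → 𝕜}
    (hu : DyA u) (hv : DyA v) {𝒰 : Ultrafilter ℕ} (h𝒰 : (𝒰 : Filter ℕ) ≤ atTop) :
    ulim 𝒰 (fun q => tr (fun f g => b (fun t => u t * f t) (fun t => v t * g t)) q
      (fun _ => 1)) = ulim 𝒰 (fun q => tr b q (fun t => u t * v t)) := by
  obtain ⟨p, hp⟩ := hu
  obtain ⟨p', hp'⟩ := hv
  refine ulim_congr ?_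
  filter_upwards [h𝒰 (eventually_ge_atTop (max p p'))] with q hq
  exact tr_mul hb (hp.mono (le_max_left p p')) (hp'.mono (le_max_right p p')) hq

theorem DF.eventually_small {C : ℝ} {α : (ℝ → 𝕜) → 𝕜} (h : DF C α) {η : ℝ} (hη : 0 < η)
    {𝒰 : Ultrafilter ℕ} (h𝒰 : (𝒰 : Filter ℕ) ≤ atTop) :
    ∀ᶠ q in (𝒰 : Filter ℕ), ∀ s : ℝ → 𝕜, Osc q s → ‖α s‖ ≤ η := by
  obtain ⟨q₀, hq⟩ := h.osc hη
  filter_upwards [h𝒰 (eventually_ge_atTop q₀)] with q hq'
  exact hq q hq'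

/-- the step -/
theorem comb {κ : Type*} (K : Finset κ) {C : ℝ} {B : κ → (ℝ → 𝕜) → (ℝ → 𝕜) → 𝕜}
    (hB : ∀ k ∈ K, DB C (B k)) {𝒰 : Ultrafilter ℕ} (h𝒰 : (𝒰 : Filter ℕ) ≤ atTop) {η : ℝ}
    (hη : 0 < η) {P : ℕ → Prop} (hP : ∀ᶠ q in (𝒰 : Filter ℕ), P q) :
    ∃ q, P q ∧ ∃ s : ℝ → 𝕜, Osc q s ∧
      ∀ k ∈ K, ‖B k s s - ulim 𝒰 (fun q => tr (B k) q (fun _ => 1))‖ ≤ η := by
  classical
  obtain ⟨q₀, hq₀⟩ := DB.quad (κ := {k // k ∈ K}) (b := fun k => B k.1)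
    (fun k => hB k.1 k.2) (half_pos hη)
  have h1 : ∀ᶠ q in (𝒰 : Filter ℕ), ∀ k ∈ K,
      ‖tr (B k) q (fun _ => 1) - ulim 𝒰 (fun q => tr (B k) q (fun _ => 1))‖ ≤ η / 2 := by
    refine (Finset.eventually_all K).2 fun k hk => ?_
    have h2 := tendsto_tr (hB k hk) h𝒰 (DyA.const (1 : 𝕜))
    have h3 := (tendsto_iff_norm_sub_tendsto_zero.1 h2).eventually (eventually_le_nhds
      (half_pos hη))
    exact h3
  obtain ⟨q, h2, h3, h4⟩ := (hP.and (h1.and (h𝒰 (eventually_ge_atTop q₀)))).exists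
  obtain ⟨s, hs, hs2⟩ := hq₀ q h4
  refine ⟨q, h2, s, hs, fun k hk => ?_⟩
  have h5 := hs2 ⟨k, hk⟩
  have h6 := h3 k hk
  calc ‖B k s s - ulim 𝒰 (fun q => tr (B k) q (fun _ => 1))‖
      = ‖(B k s s - tr (B k) q (fun _ => 1)) +
          (tr (B k) q (fun _ => 1) - ulim 𝒰 (fun q => tr (B k) q (fun _ => 1)))‖ := by
        congr 1
        ring
    _ ≤ η / 2 + η / 2 := (norm_add_le _ _).trans (add_le_add h5 h6)
    _ = η := by ring

end Pool.Agent.LinfC
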