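import Pool.Agent.LinfC.CoordA

/-!
# Package LinfC-Coord: operators with given coordinates

*`exists_op`.* For `z : Z` and a.e. `t` the sequence `i ↦ G i z t` tends to `0` and is bounded by
`C ‖z‖`. Let `F N : LinfUnit (C0 𝕜)`, `F N = ∑ i < N, tens (ec 𝕜 i) (G i z)`. For a.e. `t`,
`F N t` is the sequence of the first `N` coordinates, so it converges in `C0 𝕜` to the element with
the coordinates `G i z t` (`‖a - ∑ i < N, a i • ec 𝕜 i‖ ≤ sup_(i ≥ N) ‖a i‖`, `norm_c0_le`;
an element of `C0 𝕜` from a sequence tending to `0`: as in the definition of `ec` in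
`LinfX/Main.lean`, `continuous_of_discreteTopology`, `cocompact_eq_cofinite`,
`Nat.cofinite_eq_atTop`). So the limit is a.e. strongly measurable
(`aestronglyMeasurable_of_tendsto_ae`) and bounded, and defines an element `R z` of
`LinfUnit (C0 𝕜)` (`memLp_top_of_bound`) with `co i (R z) = G i z` (`co_coe`). `R` is linear by
`co_ext`, and `‖R z‖ ≤ C ‖z‖` by `norm_le_of_co` (if `Z` is trivial or `C < 0` use `max C 0`).

Difficulty: 1.2 h.
-/

set_option autoImplicit false

open MeasureTheory Set Filter Topology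
open scoped ENNReal

namespace Pool.Agent.LinfC

open Pool.Agent.LinfX

variable {𝕜 : Type*} [RCLike 𝕜]

/-- the element of `c_0` given by a sequence tending to `0` -/
private noncomputable def mk0 (u : ℕ → 𝕜) (h : Tendsto u atTop (𝓝 0)) : C0 𝕜 where
  toFun := u
  continuous_toFun := continuous_of_discreteTopology
  zero_at_infty' := by
    rw [cocompact_eq_cofinite, Nat.cofinite_eq_atTop]
    exact h

private theorem mk0_apply (u : ℕ → 𝕜) (h : Tendsto u atTop (𝓝 0)) (i : ℕ) :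
    mk0 u h i = u i := rfl

private theorem sum_ec_apply (u : ℕ → 𝕜) (N i : ℕ) :
    (∑ k ∈ Finset.range N, u k • ec 𝕜 k : C0 𝕜) i = if i < N then u i else 0 := by
  have h1 : (∑ k ∈ Finset.range N, u k • ec 𝕜 k : C0 𝕜) i =
      ∑ k ∈ Finset.range N, u k * (ec 𝕜 k i) := by
    change evc 𝕜 i (∑ k ∈ Finset.range N, u k • ec 𝕜 k) = _
    rw [map_sum]
    rfl
  rw [h1]
  simp only [ec_apply, mul_ite, mul_one, mul_zero]
  rw [Finset.sum_ite_eq]
  simp only [Finset.mem_range]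

private theorem tendsto_sum_ec (u : ℕ → 𝕜) (h : Tendsto u atTop (𝓝 0)) :
    Tendsto (fun N => ∑ k ∈ Finset.range N, u k • ec 𝕜 k) atTop (𝓝 (mk0 u h)) := by
  rw [Metric.tendsto_atTop]
  intro ε hε
  obtain ⟨N0, hN0⟩ := (Metric.tendsto_atTop.1 h) (ε / 2) (by positivity)
  refine ⟨N0, fun N hN => ?_⟩
  rw [dist_eq_norm]
  refine lt_of_le_of_lt (norm_c0_le (C := ε / 2) (by positivity) fun i => ?_)
    (by linarith)
  rw [ZeroAtInftyContinuousMap.sub_apply, sum_ec_apply, mk0_apply]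
  split_ifs with hi
  · rw [sub_self, norm_zero]
    positivity
  · have h2 := hN0 i (by omega)
    rw [dist_zero_right] at h2
    rw [zero_sub, norm_neg]
    exact h2.le

private theorem exists_elem (g : ℕ → LinfUnit 𝕜) {C : ℝ} (hC : ∀ i, ‖g i‖ ≤ C)
    (h0 : ∀ᵐ t ∂mu, Tendsto (fun i => g i t) atTop (𝓝 0)) :
    ∃ h : LinfUnit (C0 𝕜), ∀ i, co 𝕜 i h = g i := by
  classical
  have hC0 : 0 ≤ C := (norm_nonneg _).trans (hC 0)
  set F : ℝ → C0 𝕜 := fun t =>
    if h : Tendsto (fun i => g i t) atTop (𝓝 0) then mk0 (fun i => g i t) h else 0 with hF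
  have hlim : ∀ᵐ t ∂mu, Tendsto (fun N => ∑ k ∈ Finset.range N, g k t • ec 𝕜 k) atTop
      (𝓝 (F t)) := by
    filter_upwards [h0] with t ht
    rw [hF]
    simp only [dif_pos ht]
    exact tendsto_sum_ec _ ht
  have hm : AEStronglyMeasurable F mu := by
    refine aestronglyMeasurable_of_tendsto_ae (u := atTop)
      (f := fun N t => ∑ k ∈ Finset.range N, g k t • ec 𝕜 k) (fun N => ?_) hlim
    refine Finset.aestronglyMeasurable_fun_sum _ fun k _ => ?_
    exact (Lp.aestronglyMeasurable (g k)).smul_const _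
  have hb : ∀ᵐ t ∂mu, ‖F t‖ ≤ C := by
    have h1 : ∀ᵐ t ∂mu, ∀ i, ‖g i t‖ ≤ ‖g i‖ := ae_all_iff.2 fun i => ae_norm_le (g i)
    filter_upwards [h0, h1] with t ht h2
    rw [hF]
    simp only [dif_pos ht]
    exact norm_c0_le hC0 fun i => (h2 i).trans (hC i)
  have hL : MemLp F ∞ mu := memLp_top_of_bound hm C hb
  refine ⟨hL.toLp F, fun i => ?_⟩
  apply Lp.ext
  filter_upwards [co_coe i (hL.toLp F), hL.coeFn_toLp, h0] with t h1 h2 h3
  rw [h1, h2, hF]
  simp only [dif_pos h3]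
  rfl

theorem exists_op {Z : Type*} [NormedAddCommGroup Z] [NormedSpace 𝕜 Z]
    (G : ℕ → Z →L[𝕜] LinfUnit 𝕜) {C : ℝ} (hC : ∀ i z, ‖G i z‖ ≤ C * ‖z‖)
    (h0 : ∀ z, ∀ᵐ t ∂mu, Tendsto (fun i => G i z t) atTop (𝓝 0)) :
    ∃ R : Z →L[𝕜] LinfUnit (C0 𝕜), ∀ i z, co 𝕜 i (R z) = G i z := by
  have h1 : ∀ z, ∃ h : LinfUnit (C0 𝕜), ∀ i, co 𝕜 i h = G i z := fun z =>
    exists_elem (fun i => G i z) (fun i => hC i z) (h0 z)
  choose R hR using h1
  refine ⟨LinearMap.mkContinuous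
    { toFun := R
      map_add' := fun x y => co_ext fun i => ?_
      map_smul' := fun c x => co_ext fun i => ?_ } C fun z => ?_, fun i z => hR z i⟩
  · rw [hR, map_add, map_add, hR, hR]
  · rw [hR, RingHom.id_apply, map_smul, map_smul, hR]
  · refine norm_le_of_co ((norm_nonneg _).trans (hC 0 z)) fun i => ?_
    change ‖co 𝕜 i (R z)‖ ≤ _
    rw [hR]
    exact hC i z

end Pool.Agent.LinfC
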