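import Pool.Agent.LinfX.Main
import Pool.Agent.LinfX.Cut

/-!
# Complemented copies of `L^∞([0,1], c_0)`: definitions

Project LinfC (`MP_85d466_an`). THEOREM A: if `L^∞([0,1], Y)`, `Y ⊇ c_0`, is complemented in an
`ℓ^∞`-sum of Banach spaces `E n`, then `L^∞([0,1], c_0)` is complemented in one of the `E n`.

* `Dy q f`, `rad q` (library `LinfX`): functions constant on the dyadic intervals of level `q`,
  Rademacher functions; `DyA f`: `f` is a dyadic step function (of some level);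
* `DF C α`: `α` is a linear functional on the scalar valued dyadic step functions with
  `|α f| ≤ C ‖f‖_1`; `DB C b`: a bilinear form with `|b f g| ≤ C ‖f‖_1 ‖g‖_∞`;
* `xx q i`: the indicator function of the `i`-th dyadic interval of level `q` times the next
  Rademacher function; `tr b q f`: the weighted trace of `b` on these functions;
* `Osc q s`: `s` is a sign function of level `q` times the next Rademacher function;
* `WW r S`: the product of the functions `r l`, `l ∈ S`;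
* `rn r n`: the real number with the binary digits `0` (where `r l t = 1`) or `1`, `l < n`;
* `ulim 𝒰 u`: the limit of the sequence `u` along the ultrafilter `𝒰`;
* `tL f`: the class of the bounded measurable function `f` in `L^∞([0,1])`.
-/

set_option autoImplicit false

open MeasureTheory Set Filter Topology
open scoped ENNReal

namespace Pool.Agent.LinfC

open Pool.Agent.LinfX

variable {𝕜 : Type*} [RCLike 𝕜]

/-- the space `c_0` -/
abbrev C0 (𝕜 : Type*) [RCLike 𝕜] := ZeroAtInftyContinuousMap ℕ 𝕜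

/-- dyadic step functions -/
def DyA {β : Type*} (f : ℝ → β) : Prop := ∃ q, Dy q f

/-- linear functionals on the dyadic step functions, bounded in the `L^1` norm -/
structure DF (C : ℝ) (α : (ℝ → 𝕜) → 𝕜) : Prop where
  add : ∀ f g, DyA f → DyA g → α (fun t => f t + g t) = α f + α g
  smul : ∀ (c : 𝕜) f, DyA f → α (fun t => c * f t) = c * α f
  bd : ∀ f, DyA f → ‖α f‖ ≤ C * ∫ t, ‖f t‖ ∂mu

/-- bilinear forms on the dyadic step functions with `|b f g| ≤ C ‖f‖_1 ‖g‖_∞` -/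
structure DB (C : ℝ) (b : (ℝ → 𝕜) → (ℝ → 𝕜) → 𝕜) : Prop where
  add_left : ∀ f f' g, DyA f → DyA f' → DyA g → b (fun t => f t + f' t) g = b f g + b f' g
  smul_left : ∀ (c : 𝕜) f g, DyA f → DyA g → b (fun t => c * f t) g = c * b f g
  add_right : ∀ f g g', DyA f → DyA g → DyA g' → b f (fun t => g t + g' t) = b f g + b f g'
  smul_right : ∀ (c : 𝕜) f g, DyA f → DyA g → b f (fun t => c * g t) = c * b f g
  bd : ∀ f g (K : ℝ), DyA f → DyA g → 0 ≤ K → (∀ t ∈ Ico (0 : ℝ) 1, ‖g t‖ ≤ K) →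
    ‖b f g‖ ≤ C * K * ∫ t, ‖f t‖ ∂mu

/-- the indicator function of a dyadic interval -/
noncomputable def indk (𝕜 : Type*) [RCLike 𝕜] (q : ℕ) (i : ℤ) (t : ℝ) : 𝕜 :=
  if ⌊(2 : ℝ) ^ q * t⌋ = i then 1 else 0

/-- Rademacher functions -/
noncomputable def radk (𝕜 : Type*) [RCLike 𝕜] (q : ℕ) (t : ℝ) : 𝕜 :=
  if Even ⌊(2 : ℝ) ^ q * t⌋ then 1 else -1

/-- the indicator function of the `i`-th dyadic interval of level `q` times the next Rademacher
function -/
noncomputable def xx (𝕜 : Type*) [RCLike 𝕜] (q i : ℕ) (t : ℝ) : 𝕜 :=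
  indk 𝕜 q i t * radk 𝕜 (q + 1) t

/-- the weighted trace of `b` at level `q` -/
noncomputable def tr (b : (ℝ → 𝕜) → (ℝ → 𝕜) → 𝕜) (q : ℕ) (f : ℝ → 𝕜) : 𝕜 :=
  ∑ i ∈ Finset.range (2 ^ q), f ((i : ℝ) / 2 ^ q) * b (xx 𝕜 q i) (xx 𝕜 q i)

/-- `s` is a sign function of level `q` times the next Rademacher function -/
def Osc (q : ℕ) (s : ℝ → 𝕜) : Prop :=
  ∃ θ : ℝ → 𝕜, Dy q θ ∧ (∀ t, θ t = 1 ∨ θ t = -1) ∧ ∀ t, s t = θ t * radk 𝕜 (q + 1) t

/-- products of the functions `r l` -/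
noncomputable def WW (r : ℕ → ℝ → 𝕜) (S : Finset ℕ) (t : ℝ) : 𝕜 := ∏ l ∈ S, r l t

open scoped Classical in
/-- the number with the binary digits given by the signs `r l t`, `l < n` -/
noncomputable def rn (r : ℕ → ℝ → 𝕜) (n : ℕ) (t : ℝ) : ℝ :=
  ∑ l ∈ Finset.range n, (if r l t = 1 then 0 else 1) / 2 ^ (l + 1)

/-- the limit along an ultrafilter -/
noncomputable def ulim (𝒰 : Ultrafilter ℕ) (u : ℕ → 𝕜) : 𝕜 := limUnder (𝒰 : Filter ℕ) u

open scoped Classical in
/-- the class of a bounded measurable function in `L^∞([0,1])` -/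
noncomputable def tL (f : ℝ → 𝕜) : LinfUnit 𝕜 := if h : MemLp f ∞ mu then h.toLp f else 0

/-- evaluation at a coordinate -/
noncomputable def evc (𝕜 : Type*) [RCLike 𝕜] (i : ℕ) : C0 𝕜 →L[𝕜] 𝕜 :=
  LinearMap.mkContinuous
    { toFun := fun a => a i
      map_add' := fun _ _ => rfl
      map_smul' := fun _ _ => rfl } 1 fun a => by
    rw [one_mul]
    exact le_norm_c0 a i

/-- the `i`-th coordinate of a function with values in `c_0` -/
noncomputable def co (𝕜 : Type*) [RCLike 𝕜] (i : ℕ) : LinfUnit (C0 𝕜) →L[𝕜] LinfUnit 𝕜 :=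
  (evc 𝕜 i).compLpL ∞ mu

/-- the form `(f, g) ↦ ∫ f y' (W (1_Ω g e_m))` -/
noncomputable def bb {Y : Type*} [NormedAddCommGroup Y] [NormedSpace 𝕜 Y]
    (W : LinfUnit (C0 𝕜) →L[𝕜] LinfUnit Y) (y' : StrongDual 𝕜 Y) (Ω : Set ℝ) (m : ℕ)
    (f g : ℝ → 𝕜) : 𝕜 :=
  pr (tL f) y' (W (tens (ec 𝕜 m) (cut 𝕜 Ω (tL g))))

end Pool.Agent.LinfC
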