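import Pool.Agent.LinfC.DensDefs

/-!
# Package LinfC-DensE: from sets to functions

*`dens_fun`.* Suppose `∫ ‖D (ch A)‖ ≤ K |A|` for all measurable `A ⊆ Ω`. Then
`∫ ‖D (1_Ω f)‖ ≤ K ∫ ‖f‖` for all `f`.

Proof. (a) Let `f` be (a.e.) a simple function: `f = ∑ k, c k • ch (A k)` with a finite family of
disjoint measurable sets. Then `1_Ω f = ∑ k, c k • ch (A k ∩ Ω)`, and
`∫ ‖D (1_Ω f)‖ ≤ ∑ k, ‖c k‖ ∫ ‖D (ch (A k ∩ Ω))‖ ≤ K ∑ k, ‖c k‖ |A k| = K ∫ ‖f‖`.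
(b) A general `f`: choose a strongly measurable representative bounded by `‖f‖`; for every `ε > 0`
there is a simple function `g` with `‖f t - g t‖ ≤ ε` for a.e. `t` (the values of `f` lie in the
compact ball of radius `‖f‖` of `𝕜`, which has a finite `ε`-net; take the nearest point of the net).
With the class `g'` of `g`: `‖f - g'‖ ≤ ε`, so `∫ ‖D (1_Ω f)‖ ≤ ∫ ‖D (1_Ω g')‖ + ‖D‖ ε ≤
K ∫ ‖g'‖ + ‖D‖ ε ≤ K ∫ ‖f‖ + K ε + ‖D‖ ε`; let `ε → 0`.
-/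

set_option autoImplicit false

open MeasureTheory Set Filter Topology
open scoped ENNReal

namespace Pool.Agent.LinfC

open Pool.Agent.LinfX

variable {𝕜 : Type*} [RCLike 𝕜]

private lemma densE_int (g : LinfUnit 𝕜) : Integrable (fun t => ‖g t‖) mu :=
  (integrable_of_Linf g).norm

private lemma densE_le {g : LinfUnit 𝕜} {C : ℝ} (h : ‖g‖ ≤ C) : ∫ t, ‖g t‖ ∂mu ≤ C := by
  have h1 : ∫ t, ‖g t‖ ∂mu ≤ ∫ _ : ℝ, C ∂mu := by
    refine integral_mono_ae (densE_int g) (integrable_const _) ?_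
    filter_upwards [ae_norm_le g] with t ht
    exact ht.trans h
  refine h1.trans (le_of_eq ?_)
  simp

private lemma densE_add (f g : LinfUnit 𝕜) :
    ∫ t, ‖(f + g) t‖ ∂mu ≤ ∫ t, ‖f t‖ ∂mu + ∫ t, ‖g t‖ ∂mu := by
  rw [← integral_add (densE_int f) (densE_int g)]
  refine integral_mono_ae (densE_int _) ((densE_int f).add (densE_int g)) ?_
  filter_upwards [Lp.coeFn_add f g] with t ht
  rw [ht]
  exact norm_add_le _ _

private lemma densE_smul (c : 𝕜) (f : LinfUnit 𝕜) :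
    ∫ t, ‖(c • f) t‖ ∂mu = ‖c‖ * ∫ t, ‖f t‖ ∂mu := by
  rw [← integral_const_mul]
  refine integral_congr_ae ?_
  filter_upwards [Lp.coeFn_smul c f] with t ht
  rw [ht, Pi.smul_apply, norm_smul]

private lemma densE_sum {ι : Type*} (s : Finset ι) (c : ι → 𝕜) (f : ι → LinfUnit 𝕜) :
    ∫ t, ‖(∑ i ∈ s, c i • f i : LinfUnit 𝕜) t‖ ∂mu ≤ ∑ i ∈ s, ‖c i‖ * ∫ t, ‖f i t‖ ∂mu := by
  classical
  induction s using Finset.induction_on with
  | empty =>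
    rw [Finset.sum_empty, Finset.sum_empty]
    exact densE_le (by simp)
  | insert a s ha ih =>
    rw [Finset.sum_insert ha, Finset.sum_insert ha]
    refine (densE_add _ _).trans (add_le_add (le_of_eq (densE_smul _ _)) ih)

/-- the case of simple functions -/
private lemma densE_simple (D : LinfUnit 𝕜 →L[𝕜] LinfUnit 𝕜) {K : ℝ} (hK : 0 ≤ K) {Ω : Set ℝ}
    (hΩ : MeasurableSet Ω)
    (h : ∀ A : Set ℝ, MeasurableSet A → A ⊆ Ω → ∫ t, ‖D (ch 𝕜 A) t‖ ∂mu ≤ K * mu.real A)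
    (g : SimpleFunc ℝ 𝕜) (hg : MemLp g ∞ mu) :
    ∫ t, ‖D (cut 𝕜 Ω (tL g)) t‖ ∂mu ≤ K * ∫ t, ‖g t‖ ∂mu := by
  have hm : ∀ c, MeasurableSet (g ⁻¹' {c} ∩ Ω) := fun c => (g.measurableSet_fiber c).inter hΩ
  have h1 : cut 𝕜 Ω (tL g) = ∑ c ∈ g.range, c • ch 𝕜 (g ⁻¹' {c} ∩ Ω) := by
    apply Lp.ext
    have e1 := Lp.coeFn_finsetSum (p := ∞) (μ := mu) g.range (fun c => c • ch 𝕜 (g ⁻¹' {c} ∩ Ω))
    have e2 : ∀ᵐ t ∂mu, ∀ c ∈ g.range, (c • ch 𝕜 (g ⁻¹' {c} ∩ Ω) : LinfUnit 𝕜) t =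
        c * (g ⁻¹' {c} ∩ Ω).indicator (fun _ => (1 : 𝕜)) t := by
      rw [Finset.eventually_all]
      intro c _
      filter_upwards [Lp.coeFn_smul c (ch 𝕜 (g ⁻¹' {c} ∩ Ω)), ch_coe (𝕜 := 𝕜) (hm c)]
        with t h1 h2
      rw [h1, Pi.smul_apply, h2, smul_eq_mul]
    filter_upwards [e1, e2, cut_coe (𝕜 := 𝕜) hΩ (tL g), tL_coe hg] with t h1 h2 h3 h4
    rw [h1, Finset.sum_apply, Finset.sum_congr rfl h2, h3]
    by_cases ht : t ∈ Ω
    · rw [indicator_of_mem ht, h4, Finset.sum_eq_single_of_mem (g t) (g.mem_range_self t)]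
      · rw [indicator_of_mem (show t ∈ g ⁻¹' {g t} ∩ Ω from ⟨rfl, ht⟩), mul_one]
      · intro c _ hc
        rw [indicator_of_notMem, mul_zero]
        rintro ⟨h5, -⟩
        exact hc h5.symm
    · rw [indicator_of_notMem ht, Finset.sum_eq_zero]
      intro c _
      rw [indicator_of_notMem (fun h => ht h.2), mul_zero]
  have hi : Integrable g mu := memLp_one_iff_integrable.1 (hg.mono_exponent le_top)
  have h2 : ∫ t, ‖g t‖ ∂mu = ∑ c ∈ g.range, mu.real (g ⁻¹' {c}) * ‖c‖ := by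
    have e1 := SimpleFunc.map_integral (μ := mu) g (norm : 𝕜 → ℝ) hi norm_zero
    have e2 := SimpleFunc.integral_eq_integral (μ := mu) (g.map (norm : 𝕜 → ℝ)) hi.norm
    have e3 : ∫ t, ‖g t‖ ∂mu = ∫ t, (g.map (norm : 𝕜 → ℝ)) t ∂mu := rfl
    rw [e3, ← e2, e1]
    rfl
  rw [h1, map_sum]
  simp only [map_smul]
  refine (densE_sum _ _ _).trans ?_
  rw [h2, Finset.mul_sum]
  refine Finset.sum_le_sum fun c _ => ?_
  have h3 : mu.real (g ⁻¹' {c} ∩ Ω) ≤ mu.real (g ⁻¹' {c}) :=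
    measureReal_mono inter_subset_left (measure_ne_top _ _)
  calc ‖c‖ * ∫ t, ‖D (ch 𝕜 (g ⁻¹' {c} ∩ Ω)) t‖ ∂mu
      ≤ ‖c‖ * (K * mu.real (g ⁻¹' {c} ∩ Ω)) :=
        mul_le_mul_of_nonneg_left (h _ (hm c) inter_subset_right) (norm_nonneg _)
    _ ≤ ‖c‖ * (K * mu.real (g ⁻¹' {c})) := by gcongr
    _ = _ := by ring

/-- uniform approximation by simple functions -/
private lemma densE_approx (f : LinfUnit 𝕜) {ε : ℝ} (hε : 0 < ε) :
    ∃ g : SimpleFunc ℝ 𝕜, MemLp g ∞ mu ∧ ∀ᵐ t ∂mu, ‖f t - g t‖ ≤ ε := by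
  have h1 : TotallyBounded (Metric.closedBall (0 : 𝕜) ‖f‖) :=
    (isCompact_closedBall (0 : 𝕜) ‖f‖).totallyBounded
  obtain ⟨s, hs, hsub⟩ := Metric.totallyBounded_iff.1 h1 ε hε
  set l := hs.toFinset.toList with hl
  set e : ℕ → 𝕜 := fun k => l.getD k 0 with he
  have hf : Measurable (f : ℝ → 𝕜) := (Lp.stronglyMeasurable f).measurable
  set g : SimpleFunc ℝ 𝕜 := (SimpleFunc.nearestPt e l.length).comp f hf with hg
  have hae : ∀ᵐ t ∂mu, ‖f t - g t‖ ≤ ε := by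
    filter_upwards [ae_norm_le f] with t ht
    have h2 := hsub (mem_closedBall_zero_iff.2 ht)
    rw [mem_iUnion₂] at h2
    obtain ⟨y, hy, h3⟩ := h2
    have h4 : y ∈ l := by
      rw [hl, Finset.mem_toList, Finite.mem_toFinset]
      exact hy
    obtain ⟨k, hk, rfl⟩ := List.mem_iff_getElem.1 h4
    have h5 := SimpleFunc.edist_nearestPt_le e (f t) (k := k) (N := l.length) hk.le
    have h6 : e k = l[k] := by
      rw [he]
      exact List.getD_eq_getElem _ _ hk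
    have h7 : edist (g t) (f t) ≤ edist (e k) (f t) := h5
    rw [h6, edist_dist, edist_dist] at h7
    have h8 := (ENNReal.ofReal_le_ofReal_iff dist_nonneg).1 h7
    rw [← dist_eq_norm, dist_comm]
    refine h8.trans ?_
    rw [dist_comm]
    exact (Metric.mem_ball.1 h3).le
  refine ⟨g, ?_, hae⟩
  refine memLp_top_of_bound g.measurable.aestronglyMeasurable (‖f‖ + ε) ?_
  filter_upwards [hae, ae_norm_le f] with t h2 h3
  have h4 : g t = f t - (f t - g t) := by ring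
  rw [h4]
  exact (norm_sub_le _ _).trans (add_le_add h3 h2)

theorem dens_fun (D : LinfUnit 𝕜 →L[𝕜] LinfUnit 𝕜) {K : ℝ} (hK : 0 ≤ K) {Ω : Set ℝ}
    (hΩ : MeasurableSet Ω)
    (h : ∀ A : Set ℝ, MeasurableSet A → A ⊆ Ω → ∫ t, ‖D (ch 𝕜 A) t‖ ∂mu ≤ K * mu.real A)
    (f : LinfUnit 𝕜) : ∫ t, ‖D (cut 𝕜 Ω f) t‖ ∂mu ≤ K * ∫ t, ‖f t‖ ∂mu := by
  have key : ∀ ε : ℝ, 0 < ε →
      ∫ t, ‖D (cut 𝕜 Ω f) t‖ ∂mu ≤ K * ∫ t, ‖f t‖ ∂mu + (K + ‖D‖) * ε := by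
    intro ε hε
    obtain ⟨g, hg, hae⟩ := densE_approx f hε
    have h1 : ‖f - tL g‖ ≤ ε := by
      apply norm_le_of_ae hε.le
      filter_upwards [hae, Lp.coeFn_sub f (tL g), tL_coe hg] with t h1 h2 h3
      rw [h2, Pi.sub_apply, h3]
      exact h1
    have h2 : D (cut 𝕜 Ω f) = D (cut 𝕜 Ω (tL g)) + D (cut 𝕜 Ω (f - tL g)) := by
      rw [← map_add, ← map_add, add_sub_cancel]
    have h3 : ∫ t, ‖D (cut 𝕜 Ω (f - tL g)) t‖ ∂mu ≤ ‖D‖ * ε := by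
      apply densE_le
      refine (D.le_opNorm _).trans (mul_le_mul_of_nonneg_left ?_ (norm_nonneg _))
      exact (norm_cut_le _ _).trans h1
    have h4 : ∫ t, ‖g t‖ ∂mu ≤ ∫ t, ‖f t‖ ∂mu + ε := by
      rw [← integral_norm_tL hg]
      have e1 : tL g = f + (tL g - f) := by rw [add_sub_cancel]
      have e2 : ∫ t, ‖(tL g - f) t‖ ∂mu ≤ ε := by
        apply densE_le
        rw [norm_sub_rev]
        exact h1
      have e3 := densE_add f (tL g - f)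
      rw [← e1] at e3
      exact e3.trans (by gcongr)
    have h5 := densE_simple D hK hΩ h g hg
    rw [h2]
    refine (densE_add _ _).trans ?_
    have h6 : K * ∫ t, ‖g t‖ ∂mu ≤ K * (∫ t, ‖f t‖ ∂mu + ε) := mul_le_mul_of_nonneg_left h4 hK
    linarith
  refine le_of_forall_pos_le_add fun δ hδ => ?_
  have hc : 0 ≤ K + ‖D‖ := add_nonneg hK (norm_nonneg _)
  have h1 := key (δ / (K + ‖D‖ + 1)) (by positivity)
  refine h1.trans (add_le_add le_rfl ?_)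
  rw [mul_div_assoc', div_le_iff₀ (by positivity)]
  nlinarith

end Pool.Agent.LinfC
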