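import Pool.Agent.LinfC.DensC
import Pool.Agent.LinfC.DensE

/-!
# Package LinfC-Dens: operators on `L^∞` have bounded densities off a small set

*`exists_dens`.* Use `exists_exh` for `D n` with `K n = (‖D n‖ + 1) * 2 ^ (n + 1) / δ`: sets `Ω n`
with `|(Ω n)ᶜ| ≤ ‖D n‖ / K n ≤ δ / 2 ^ (n + 1)`. Let `Ω = ⋂ n, Ω n`;
`mu.real Ωᶜ ≤ δ` (`compl_iInter`, `measure_iUnion_le`, `∑ n, δ / 2 ^ (n + 1) = δ`:
`tsum_geometric_two'`-like; `mu` is a finite measure). For all `f`, `dens_fun` for `Ω n` and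
the function `cut Ω f`, and `cut (Ω n) (cut Ω f) = cut Ω f` (`cut_eq_of_subset`), give
`∫ ‖D n (cut Ω f)‖ ≤ K n ∫ ‖cut Ω f‖ ≤ K n ∫ ‖f‖` (`cut_coe`, `norm_indicator_le_norm_self`).

Difficulty: 0.6 h.
-/

set_option autoImplicit false

open MeasureTheory Set Filter Topology
open scoped ENNReal

namespace Pool.Agent.LinfC

open Pool.Agent.LinfX

variable {𝕜 : Type*} [RCLike 𝕜]

theorem exists_dens (D : ℕ → LinfUnit 𝕜 →L[𝕜] LinfUnit 𝕜) {δ : ℝ} (hδ : 0 < δ) :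
    ∃ Ω : Set ℝ, MeasurableSet Ω ∧ mu.real Ωᶜ ≤ δ ∧ ∀ n, ∃ K : ℝ, 0 ≤ K ∧
      ∀ f : LinfUnit 𝕜, ∫ t, ‖D n (cut 𝕜 Ω f) t‖ ∂mu ≤ K * ∫ t, ‖f t‖ ∂mu := by
  have hK : ∀ n, 0 < (‖D n‖ + 1) * 2 ^ (n + 1) / δ := fun n => by positivity
  choose Ω hΩ hΩ1 hΩ2 using fun n => exists_exh (D n) (hK n)
  have hb : ∀ n, mu.real (Ω n)ᶜ ≤ δ / 2 / 2 ^ n := by
    intro n
    have h1 := hΩ1 n
    have h2 : (0 : ℝ) ≤ ‖D n‖ := norm_nonneg _
    have h3 : (‖D n‖ + 1) * (2 ^ (n + 1) / δ * mu.real (Ω n)ᶜ) ≤ (‖D n‖ + 1) * 1 := by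
      have e : (‖D n‖ + 1) * (2 ^ (n + 1) / δ * mu.real (Ω n)ᶜ) =
          (‖D n‖ + 1) * 2 ^ (n + 1) / δ * mu.real (Ω n)ᶜ := by ring
      rw [e]
      linarith
    have h4 : 2 ^ (n + 1) / δ * mu.real (Ω n)ᶜ ≤ 1 := le_of_mul_le_mul_left h3 (by positivity)
    have h5 : mu.real (Ω n)ᶜ = δ / 2 / 2 ^ n * (2 ^ (n + 1) / δ * mu.real (Ω n)ᶜ) := by
      field_simp
      ring
    rw [h5]
    exact mul_le_of_le_one_right (by positivity) h4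
  have hΩi : MeasurableSet (⋂ n, Ω n) := MeasurableSet.iInter hΩ
  refine ⟨⋂ n, Ω n, hΩi, ?_, fun n => ⟨_, (hK n).le, fun f => ?_⟩⟩
  · have h1 : mu (⋂ n, Ω n)ᶜ ≤ ENNReal.ofReal δ := by
      rw [compl_iInter]
      refine (measure_iUnion_le _).trans ?_
      have h2 : ∀ n, mu (Ω n)ᶜ ≤ ENNReal.ofReal (δ / 2 / 2 ^ n) := by
        intro n
        rw [← ofReal_measureReal (measure_ne_top _ _)]
        exact ENNReal.ofReal_le_ofReal (hb n)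
      refine (ENNReal.tsum_le_tsum h2).trans (le_of_eq ?_)
      rw [← ENNReal.ofReal_tsum_of_nonneg (fun n => by positivity) (summable_geometric_two' δ),
        tsum_geometric_two']
    rw [measureReal_def]
    exact ENNReal.toReal_le_of_le_ofReal hδ.le h1
  · have h1 := dens_fun (D n) (hK n).le (hΩ n) (hΩ2 n) (cut 𝕜 (⋂ n, Ω n) f)
    rw [cut_eq_of_subset hΩi (hΩ n) (iInter_subset _ n)] at h1
    refine h1.trans (mul_le_mul_of_nonneg_left ?_ (hK n).le)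
    have hi : ∀ g : LinfUnit 𝕜, Integrable (fun t => ‖g t‖) mu := fun g =>
      (memLp_one_iff_integrable.1 ((Lp.memLp g).mono_exponent le_top)).norm
    refine integral_mono_ae (hi _) (hi _) ?_
    filter_upwards [cut_coe (𝕜 := 𝕜) hΩi f] with t ht
    change ‖_‖ ≤ ‖_‖
    rw [ht]
    exact norm_indicator_le_norm_self _ _

end Pool.Agent.LinfC
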