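import Pool.Agent.LinfC.Basic
import Pool.Agent.LinfX.Rosenthal

/-!
# Package LinfC-DensA: pointwise sums

*`sum_norm_le`.* Let `‖∑ k, c k • v k‖ ≤ M` in `L^∞` for all scalars with `‖c k‖ ≤ 1`. Then
`∑ k, ‖v k t‖ ≤ M` for a.e. `t`.

Proof. Let `B = {c : Fin n → 𝕜 | ∀ k, ‖c k‖ ≤ 1}` and let `Q` be a countable dense subset of `B`
(`TopologicalSpace.exists_countable_dense` for the subtype `B`, or `IsSeparable`). For a.e. `t`, for
all `c ∈ Q`, `‖∑ k, c k * v k t‖ ≤ M` (`ae_norm_le`, `Lp.coeFn_finsetSum`, `Lp.coeFn_smul`,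
`ae_ball_iff`). Fix such a `t`; the set of the `c ∈ B` with `‖∑ k, c k * v k t‖ ≤ M` is closed in `B`
and contains `Q`, so it is `B`. Take `c k` with `‖c k‖ = 1`, `c k * v k t = ‖v k t‖`
(`exists_rot` of `LinfX/Rosenthal.lean`).

Difficulty: 0.7 h.
-/

set_option autoImplicit false

open MeasureTheory Set Filter Topology
open scoped ENNReal

namespace Pool.Agent.LinfC

open Pool.Agent.LinfX

variable {𝕜 : Type*} [RCLike 𝕜]

theorem sum_norm_le {n : ℕ} (v : Fin n → LinfUnit 𝕜) {M : ℝ}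
    (h : ∀ c : Fin n → 𝕜, (∀ k, ‖c k‖ ≤ 1) → ‖∑ k, c k • v k‖ ≤ M) :
    ∀ᵐ t ∂mu, ∑ k, ‖v k t‖ ≤ M := by
  classical
  let B : Set (Fin n → 𝕜) := {c | ∀ k, ‖c k‖ ≤ 1}
  obtain ⟨Q, hQc, hQd⟩ := TopologicalSpace.exists_countable_dense (↥B)
  have h1 : ∀ c : ↥B, ∀ᵐ t ∂mu, ‖∑ k, (c : Fin n → 𝕜) k * v k t‖ ≤ M := by
    intro c
    have h2 : ∀ᵐ t ∂mu, ‖(∑ k, (c : Fin n → 𝕜) k • v k : LinfUnit 𝕜) t‖ ≤
        ‖(∑ k, (c : Fin n → 𝕜) k • v k : LinfUnit 𝕜)‖ := ae_norm_le _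
    have h3 : ∀ᵐ t ∂mu, (∑ k, (c : Fin n → 𝕜) k • v k : LinfUnit 𝕜) t =
        ∑ k, ((c : Fin n → 𝕜) k • v k : LinfUnit 𝕜) t := by
      have := Lp.coeFn_finsetSum Finset.univ (fun k => ((c : Fin n → 𝕜) k • v k : LinfUnit 𝕜))
      filter_upwards [this] with t ht
      rw [ht]
      simp
    have h4 : ∀ᵐ t ∂mu, ∀ k, ((c : Fin n → 𝕜) k • v k : LinfUnit 𝕜) t =
        (c : Fin n → 𝕜) k * v k t := by
      rw [ae_all_iff]
      intro k
      filter_upwards [Lp.coeFn_smul ((c : Fin n → 𝕜) k) (v k)] with t ht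
      rw [ht]
      simp
    filter_upwards [h2, h3, h4] with t a2 a3 a4
    have h5 := h (c : Fin n → 𝕜) c.2
    rw [a3, Finset.sum_congr rfl (fun k _ => a4 k)] at a2
    exact a2.trans h5
  have h6 : ∀ᵐ t ∂mu, ∀ c ∈ Q, ‖∑ k, (c : Fin n → 𝕜) k * v k t‖ ≤ M := by
    rw [ae_ball_iff hQc]
    intro c _
    exact h1 c
  filter_upwards [h6] with t ht
  have h7 : ∀ c : ↥B, ‖∑ k, (c : Fin n → 𝕜) k * v k t‖ ≤ M := by
    have hcl : IsClosed {c : ↥B | ‖∑ k, (c : Fin n → 𝕜) k * v k t‖ ≤ M} := by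
      refine isClosed_le ?_ continuous_const
      refine continuous_norm.comp ?_
      refine continuous_finsetSum _ fun k _ => ?_
      exact ((continuous_apply k).comp continuous_subtype_val).mul continuous_const
    intro c
    exact (hcl.closure_subset_iff.2 fun d hd => ht d hd) (hQd c)
  choose c hc1 hc2 using fun k => exists_rot (v k t)
  have h8 := h7 ⟨c, fun k => (hc1 k).le⟩
  simp only [hc2] at h8
  have h9 : (∑ k, ((‖v k t‖ : ℝ) : 𝕜)) = ((∑ k, ‖v k t‖ : ℝ) : 𝕜) := by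
    push_cast
    rfl
  rw [h9, RCLike.norm_ofReal, abs_of_nonneg (Finset.sum_nonneg fun k _ => norm_nonneg _)] at h8
  exact h8

end Pool.Agent.LinfC
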