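import Pool.Agent.LinfC.DensDefs
import Pool.Agent.LinfC.DensA

/-!
# Package LinfC-DensB: disjoint sets

*`sum_disjoint`.* By `sum_norm_le` with `v k = D (ch 𝕜 (B k))`, `M = ‖D‖`: the function
`∑ k, c k • ch 𝕜 (B k)` is a.e. equal to `∑ k, c k * indicator (B k)`, which is bounded by `1`
(the sets are disjoint: at most one term), so its norm is `≤ 1` (`norm_le_of_ae`), and
`‖∑ k, c k • D (ch (B k))‖ = ‖D (∑ k, c k • ch (B k))‖ ≤ ‖D‖`. Integrate
`∑ k, ‖D (ch 𝕜 (B k)) t‖ ≤ ‖D‖` over `mu` (a probability measure: `mu_univ`;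
`integral_finsetSum`, `integrable_of_Linf`).

Difficulty: 0.6 h.
-/

set_option autoImplicit false

open MeasureTheory Set Filter Topology
open scoped ENNReal

namespace Pool.Agent.LinfC

open Pool.Agent.LinfX

variable {𝕜 : Type*} [RCLike 𝕜]

theorem sum_disjoint (D : LinfUnit 𝕜 →L[𝕜] LinfUnit 𝕜) {n : ℕ} (B : Fin n → Set ℝ)
    (hB : ∀ k, MeasurableSet (B k)) (hd : Pairwise fun j k => Disjoint (B j) (B k)) :
    ∑ k, ∫ t, ‖D (ch 𝕜 (B k)) t‖ ∂mu ≤ ‖D‖ := by
  classical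
  have h1 : ∀ c : Fin n → 𝕜, (∀ k, ‖c k‖ ≤ 1) → ‖∑ k, c k • D (ch 𝕜 (B k))‖ ≤ ‖D‖ := by
    intro c hc
    have h2 : ∑ k, c k • D (ch 𝕜 (B k)) = D (∑ k, c k • ch 𝕜 (B k)) := by
      rw [map_sum]
      refine Finset.sum_congr rfl fun k _ => ?_
      rw [map_smul]
    rw [h2]
    have h3 : ‖∑ k, c k • ch 𝕜 (B k)‖ ≤ 1 := by
      refine norm_le_of_ae zero_le_one ?_
      have h4 : ∀ᵐ t ∂mu, ∀ k, (c k • ch 𝕜 (B k) : LinfUnit 𝕜) t =
          c k * (B k).indicator (fun _ => (1 : 𝕜)) t := by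
        rw [ae_all_iff]
        intro k
        filter_upwards [Lp.coeFn_smul (c k) (ch 𝕜 (B k)), ch_coe (𝕜 := 𝕜) (hB k)] with t ht1 ht2
        rw [ht1, Pi.smul_apply, ht2, smul_eq_mul]
      have h5 := Lp.coeFn_finsetSum Finset.univ (fun k => (c k • ch 𝕜 (B k) : LinfUnit 𝕜))
      filter_upwards [h4, h5] with t ht4 ht5
      rw [ht5, Finset.sum_apply, Finset.sum_congr rfl (fun k _ => ht4 k)]
      by_cases hex : ∃ k, t ∈ B k
      · obtain ⟨k, hk⟩ := hex
        rw [Finset.sum_eq_single k]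
        · rw [indicator_of_mem hk, mul_one]
          exact hc k
        · intro j _ hj
          have h6 : t ∉ B j := fun h => (Set.disjoint_left.1 (hd hj)) h hk
          rw [indicator_of_notMem h6, mul_zero]
        · intro h
          exact absurd (Finset.mem_univ k) h
      · rw [Finset.sum_eq_zero]
        · rw [norm_zero]
          exact zero_le_one
        · intro j _
          have h6 : t ∉ B j := fun h => hex ⟨j, h⟩
          rw [indicator_of_notMem h6, mul_zero]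
    calc ‖D (∑ k, c k • ch 𝕜 (B k))‖ ≤ ‖D‖ * ‖∑ k, c k • ch 𝕜 (B k)‖ := D.le_opNorm _
      _ ≤ ‖D‖ * 1 := mul_le_mul_of_nonneg_left h3 (norm_nonneg _)
      _ = ‖D‖ := mul_one _
  have h7 := sum_norm_le (fun k => D (ch 𝕜 (B k))) h1
  have h8 : ∀ k, Integrable (fun t => ‖D (ch 𝕜 (B k)) t‖) mu := fun k =>
    (integrable_of_Linf (D (ch 𝕜 (B k)))).norm
  rw [← integral_finsetSum Finset.univ fun k _ => h8 k]
  have h9 : ∫ t, ∑ k, ‖D (ch 𝕜 (B k)) t‖ ∂mu ≤ ∫ _ : ℝ, ‖D‖ ∂mu := by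
    refine integral_mono_ae (integrable_finsetSum Finset.univ fun k _ => h8 k)
      (integrable_const _) ?_
    filter_upwards [h7] with t ht
    exact ht
  refine h9.trans (le_of_eq ?_)
  simp

end Pool.Agent.LinfC
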