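import Pool.Agent.LinfC.DensB

/-!
# Package LinfC-DensC: exhaustion

*`exists_exh`.* Call a measurable `B` bad if `K * |B| ≤ ∫ ‖D (ch B)‖`, `|B| = mu.real B`. Choose
recursively bad sets `B 0, B 1, ...`, `B j` disjoint from the union `A j` of the previous ones and
such that `|B'| ≤ 2 |B j|` for every bad `B'` disjoint from `A j`: the empty set is bad, and the
measures of the bad sets are at most `1`, so there is a bad `B j` disjoint from `A j` with
`|B j| ≥ sup / 2` (if the supremum is `0` take `∅`; `exists_lt_of_lt_csSup`). For the recursion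
compare the functions `pick`, `A` in the proof of `exists_level` in `LinfX/Cut.lean`. By
`sum_disjoint`, `K * ∑ j < n, |B j| ≤ ‖D‖` for all `n`. So with
`Ω = (⋃ j, B j)ᶜ`: `K * |Ωᶜ| ≤ ‖D‖` (`measureReal_iUnion`-like lemmas, or `|⋃ j < n, B j| =
∑ j < n, |B j|` and continuity from below), and `|B j| → 0` (partial sums bounded by
`‖D‖ / K`). Let `A ⊆ Ω` be measurable. If `K |A| < ∫ ‖D (ch A)‖`, then `A` is bad and disjoint from
all the `A j`, so `|A| ≤ 2 |B j|` for all `j`, hence `|A| = 0`, so `ch A = 0` (`ch_coe`) and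
`∫ ‖D (ch A)‖ = 0`: contradiction.

Difficulty: 1.2 h.
-/

set_option autoImplicit false

open MeasureTheory Set Filter Topology
open scoped ENNReal

namespace Pool.Agent.LinfC

open Pool.Agent.LinfX

variable {𝕜 : Type*} [RCLike 𝕜]

private def bad_densC (D : LinfUnit 𝕜 →L[𝕜] LinfUnit 𝕜) (K : ℝ) (B : Set ℝ) : Prop :=
  MeasurableSet B ∧ K * mu.real B ≤ ∫ t, ‖D (ch 𝕜 B) t‖ ∂mu

private lemma bad_empty_densC (D : LinfUnit 𝕜 →L[𝕜] LinfUnit 𝕜) (K : ℝ) :
    bad_densC D K (∅ : Set ℝ) := by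
  refine ⟨MeasurableSet.empty, ?_⟩
  rw [measureReal_empty, mul_zero]
  exact integral_nonneg fun t => norm_nonneg _

private lemma real_le_one_densC (B : Set ℝ) : mu.real B ≤ 1 := by
  have h1 : mu.real B ≤ mu.real univ := measureReal_mono (subset_univ _) (measure_ne_top _ _)
  refine h1.trans (le_of_eq ?_)
  rw [measureReal_def, mu_univ, ENNReal.toReal_one]

private lemma exists_pick_densC (D : LinfUnit 𝕜 →L[𝕜] LinfUnit 𝕜) (K : ℝ) (A : Set ℝ) :
    ∃ B : Set ℝ, bad_densC D K B ∧ Disjoint A B ∧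
      ∀ B' : Set ℝ, bad_densC D K B' → Disjoint A B' → mu.real B' ≤ 2 * mu.real B := by
  set S : Set ℝ := {x | ∃ B : Set ℝ, bad_densC D K B ∧ Disjoint A B ∧ mu.real B = x} with hS
  have hne : S.Nonempty := ⟨mu.real (∅ : Set ℝ), ∅, bad_empty_densC D K, disjoint_empty A, rfl⟩
  have hbd : BddAbove S := by
    refine ⟨1, ?_⟩
    rintro x ⟨B, -, -, rfl⟩
    exact real_le_one_densC B
  by_cases h0 : sSup S ≤ 0
  · refine ⟨∅, bad_empty_densC D K, disjoint_empty A, fun B' h1 h2 => ?_⟩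
    have h3 : mu.real B' ≤ sSup S := le_csSup hbd ⟨B', h1, h2, rfl⟩
    rw [measureReal_empty, mul_zero]
    exact h3.trans h0
  · push Not at h0
    obtain ⟨x, ⟨B, h1, h2, rfl⟩, h3⟩ := exists_lt_of_lt_csSup hne (half_lt_self h0)
    refine ⟨B, h1, h2, fun B' h4 h5 => ?_⟩
    have h6 : mu.real B' ≤ sSup S := le_csSup hbd ⟨B', h4, h5, rfl⟩
    linarith

theorem exists_exh (D : LinfUnit 𝕜 →L[𝕜] LinfUnit 𝕜) {K : ℝ} (hK : 0 < K) :
    ∃ Ω : Set ℝ, MeasurableSet Ω ∧ K * mu.real Ωᶜ ≤ ‖D‖ ∧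
      ∀ A : Set ℝ, MeasurableSet A → A ⊆ Ω → ∫ t, ‖D (ch 𝕜 A) t‖ ∂mu ≤ K * mu.real A := by
  choose pick hbad hdis hmax using exists_pick_densC D K
  let Ac : ℕ → Set ℝ := fun n => Nat.rec ∅ (fun _ A => A ∪ pick A) n
  have hAc : ∀ n, Ac (n + 1) = Ac n ∪ pick (Ac n) := fun n => rfl
  set B : ℕ → Set ℝ := fun n => pick (Ac n) with hB
  have hBm : ∀ n, MeasurableSet (B n) := fun n => (hbad (Ac n)).1
  have hmono : Monotone Ac := monotone_nat_of_le_succ fun n => by
    rw [hAc]; exact subset_union_left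
  have hBA : ∀ n, B n ⊆ Ac (n + 1) := fun n => by
    rw [hAc]; exact subset_union_right
  have hlt : ∀ i j, i < j → Disjoint (B i) (B j) := by
    intro i j hij
    exact (hdis (Ac j)).mono_left ((hBA i).trans (hmono hij))
  have hpd : Pairwise fun i j => Disjoint (B i) (B j) := by
    intro i j hij
    rcases lt_or_gt_of_ne hij with h | h
    · exact hlt i j h
    · exact (hlt j i h).symm
  have hsum : ∀ n, ∑ j ∈ Finset.range n, mu.real (B j) ≤ ‖D‖ / K := by
    intro n
    rw [le_div_iff₀ hK, mul_comm, Finset.mul_sum, Finset.sum_range]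
    have h1 := sum_disjoint D (fun j : Fin n => B j) (fun k => hBm k) (fun i j hij =>
      hpd (fun h => hij (Fin.ext h)))
    refine le_trans (Finset.sum_le_sum fun j _ => ?_) h1
    exact (hbad (Ac j)).2
  have hsm : Summable fun j => mu.real (B j) :=
    summable_of_sum_range_le (fun j => measureReal_nonneg) hsum
  have htot : mu.real (⋃ j, B j) ≤ ‖D‖ / K := by
    have h1 : mu.real (⋃ j, B j) = ∑' j, mu.real (B j) := by
      rw [measureReal_def, measure_iUnion hpd hBm, ENNReal.tsum_toReal_eq]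
      · rfl
      · intro j
        exact measure_ne_top _ _
    rw [h1]
    exact Real.tsum_le_of_sum_range_le (fun j => measureReal_nonneg) hsum
  refine ⟨(⋃ j, B j)ᶜ, (MeasurableSet.iUnion hBm).compl, ?_, ?_⟩
  · rw [compl_compl]
    rw [le_div_iff₀ hK] at htot
    linarith
  · intro A hA hAs
    by_contra hcon
    push Not at hcon
    have hb : bad_densC D K A := ⟨hA, hcon.le⟩
    have hsub : ∀ n, Ac n ⊆ ⋃ j, B j := by
      intro n
      induction n with
      | zero => exact empty_subset _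
      | succ n ih =>
        rw [hAc]
        exact union_subset ih (subset_iUnion B n)
    have hd : ∀ n, Disjoint (Ac n) A := fun n =>
      disjoint_left.2 fun x hx hxA => hAs hxA (hsub n hx)
    have hle : ∀ n, mu.real A ≤ 2 * mu.real (B n) := fun n => hmax (Ac n) A hb (hd n)
    have hlim : Tendsto (fun n => 2 * mu.real (B n)) atTop (𝓝 (2 * 0)) :=
      hsm.tendsto_atTop_zero.const_mul 2
    have h0 : mu.real A ≤ 2 * 0 := ge_of_tendsto' hlim hle
    rw [mul_zero] at h0
    have h1 : mu.real A = 0 := le_antisymm h0 measureReal_nonneg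
    have h2 : mu A = 0 := by
      rw [measureReal_def, ENNReal.toReal_eq_zero_iff] at h1
      exact h1.resolve_right (measure_ne_top _ _)
    have h3 : ch 𝕜 A = 0 := by
      apply Lp.ext
      have h4 : ∀ᵐ t ∂mu, t ∉ A := measure_eq_zero_iff_ae_notMem.1 h2
      filter_upwards [ch_coe (𝕜 := 𝕜) hA, Lp.coeFn_zero 𝕜 ∞ mu, h4] with t h5 h6 h7
      rw [h5, h6, indicator_of_notMem h7, Pi.zero_apply]
    have h4 : ∫ t, ‖D (ch 𝕜 A) t‖ ∂mu = 0 := by
      rw [h3, map_zero]
      apply integral_eq_zero_of_ae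
      filter_upwards [Lp.coeFn_zero 𝕜 ∞ mu] with t h5
      rw [h5, Pi.zero_apply, norm_zero, Pi.zero_apply]
    rw [h4, h1, mul_zero] at hcon
    exact lt_irrefl _ hcon

end Pool.Agent.LinfC
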