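import Pool.Agent.LinfC.Basic

/-!
# Indicator functions in `L^∞`

`ch 𝕜 A`: the class of the indicator function of the measurable set `A`.
-/

set_option autoImplicit false

open MeasureTheory Set Filter Topology
open scoped ENNReal

namespace Pool.Agent.LinfC

open Pool.Agent.LinfX

variable {𝕜 : Type*} [RCLike 𝕜]

/-- the class of the indicator function of `A` -/
noncomputable def ch (𝕜 : Type*) [RCLike 𝕜] (A : Set ℝ) : LinfUnit 𝕜 :=
  cut 𝕜 A (tL (fun _ => (1 : 𝕜)))

theorem ch_coe {A : Set ℝ} (hA : MeasurableSet A) :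
    (ch 𝕜 A : ℝ → 𝕜) =ᵐ[mu] A.indicator (fun _ => (1 : 𝕜)) := by
  have h1 : MemLp (fun _ : ℝ => (1 : 𝕜)) ∞ mu := (DyA.const (1 : 𝕜)).memLp
  filter_upwards [cut_coe (𝕜 := 𝕜) hA (tL (fun _ => (1 : 𝕜))), tL_coe h1] with t h2 h3
  unfold ch
  rw [h2]
  by_cases ht : t ∈ A
  · rw [indicator_of_mem ht, indicator_of_mem ht, h3]
  · rw [indicator_of_notMem ht, indicator_of_notMem ht]

end Pool.Agent.LinfC
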