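import Pool.Agent.LinfC.WW

/-!
# Package LinfC-Walsh: Walsh expansion

*`walsh`.* If `f` is constant on the dyadic intervals of level `n`, then
`f (rn r n t) = ∑ S ⊆ {0, ..., n - 1}, a S * WW r S t` with `‖a S‖ ≤ ∫ ‖f‖` and `a ∅ = ∫ f`.

Proof by induction on `n` (for all `f`). For `n = 0`: `rn r 0 t = 0`, `a S = f 0` if `S = ∅` and `0`
otherwise; `∫ f = f 0` (`integral_dy`). Step: let
`f₀ x = f (⌊2 ^ n * x⌋ / 2 ^ n)` and `f₁ x = f (⌊2 ^ n * x⌋ / 2 ^ n + 1 / 2 ^ (n + 1))`; both are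
`Dy n`. By `rn_succ` and `exists_rn_nat`: `f (rn r (n + 1) t) = f₀ (rn r n t)` if `r n t = 1`
(`dg r n t = 0`), and `= f₁ (rn r n t)` if `r n t = -1` (`dg r n t = 1`). So
`f (rn r (n + 1) t) = g (rn r n t) + r n t * h (rn r n t)` with `g = (f₀ + f₁) / 2`,
`h = (f₀ - f₁) / 2`. By induction there are coefficients `b` of `g` and `c` of `h`; put
`a S = b S` if `n ∉ S` and `a S = c (S.erase n)` if `n ∈ S`; `Finset.sum_powerset_insert`
(`range (n + 1) = insert n (range n)`, `Finset.range_add_one`), `WW_insert`.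
Integrals by `integral_dy`, `integral_norm_dy`:
`∫ f₀ = ∑ i < 2 ^ n, f (2 i / 2 ^ (n + 1)) (1 / 2) ^ n`,
`∫ f₁ = ∑ i < 2 ^ n, f ((2 i + 1) / 2 ^ (n + 1)) (1 / 2) ^ n`, so `∫ g = ∫ f`
and `∫ ‖g‖, ∫ ‖h‖ ≤ (∫ ‖f₀‖ + ∫ ‖f₁‖) / 2 = ∫ ‖f‖` (splitting of `∑ j < 2 ^ (n + 1)` into even and
odd `j`: `∑ j < 2 N, u j = ∑ i < N, (u (2 i) + u (2 i + 1))` by induction on `N`).

Difficulty: 1 h.
-/

set_option autoImplicit false

open MeasureTheory Set Filter Topology
open scoped ENNReal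

namespace Pool.Agent.LinfC

open Pool.Agent.LinfX

variable {𝕜 : Type*} [RCLike 𝕜]

private theorem sum_two_mul {M : Type*} [AddCommMonoid M] (u : ℕ → M) (N : ℕ) :
    ∑ j ∈ Finset.range (2 * N), u j = ∑ i ∈ Finset.range N, (u (2 * i) + u (2 * i + 1)) := by
  induction N with
  | zero => simp
  | succ N ih =>
    rw [Finset.sum_range_succ _ N, ← ih, mul_add, mul_one, Finset.sum_range_succ,
      Finset.sum_range_succ, add_assoc]

/-- the left halves -/
private noncomputable def lf (n : ℕ) (f : ℝ → 𝕜) (x : ℝ) : 𝕜 :=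
  f ((⌊(2 : ℝ) ^ n * x⌋ : ℝ) / 2 ^ n)

/-- the right halves -/
private noncomputable def rf (n : ℕ) (f : ℝ → 𝕜) (x : ℝ) : 𝕜 :=
  f ((⌊(2 : ℝ) ^ n * x⌋ : ℝ) / 2 ^ n + 1 / 2 ^ (n + 1))

private theorem dy_lf (n : ℕ) (f : ℝ → 𝕜) : Dy n (lf n f) := fun t t' h => by
  unfold lf; rw [h]

private theorem dy_rf (n : ℕ) (f : ℝ → 𝕜) : Dy n (rf n f) := fun t t' h => by
  unfold rf; rw [h]

private theorem lf_nat (n : ℕ) (f : ℝ → 𝕜) (i : ℕ) :
    lf n f ((i : ℝ) / 2 ^ n) = f (((2 * i : ℕ) : ℝ) / 2 ^ (n + 1)) := by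
  unfold lf
  rw [floor_div_pow]
  congr 1
  rw [pow_succ]
  push_cast
  field_simp

private theorem rf_nat (n : ℕ) (f : ℝ → 𝕜) (i : ℕ) :
    rf n f ((i : ℝ) / 2 ^ n) = f (((2 * i + 1 : ℕ) : ℝ) / 2 ^ (n + 1)) := by
  unfold rf
  rw [floor_div_pow]
  congr 1
  rw [pow_succ]
  push_cast
  field_simp

private theorem sum_halves {n : ℕ} (u : ℕ → 𝕜) :
    (∑ i ∈ Finset.range (2 ^ n), u (2 * i) * (1 / 2) ^ n) +
      ∑ i ∈ Finset.range (2 ^ n), u (2 * i + 1) * (1 / 2) ^ n =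
    2 * ∑ j ∈ Finset.range (2 ^ (n + 1)), u j * (1 / 2) ^ (n + 1) := by
  rw [pow_succ', sum_two_mul, ← Finset.sum_add_distrib, Finset.mul_sum]
  refine Finset.sum_congr rfl fun i _ => ?_
  rw [pow_succ]
  ring

private theorem integral_halves {n : ℕ} {f : ℝ → 𝕜} (hf : Dy (n + 1) f) :
    (∫ t, lf n f t ∂mu) + ∫ t, rf n f t ∂mu = 2 * ∫ t, f t ∂mu := by
  rw [integral_dy (dy_lf n f), integral_dy (dy_rf n f), integral_dy hf]
  simp only [lf_nat, rf_nat]
  exact sum_halves fun j => f ((j : ℝ) / 2 ^ (n + 1))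

private theorem integral_norm_halves {n : ℕ} {f : ℝ → 𝕜} (hf : Dy (n + 1) f) :
    (∫ t, ‖lf n f t‖ ∂mu) + ∫ t, ‖rf n f t‖ ∂mu = 2 * ∫ t, ‖f t‖ ∂mu := by
  rw [integral_norm_dy (dy_lf n f), integral_norm_dy (dy_rf n f), integral_norm_dy hf]
  simp only [lf_nat, rf_nat]
  exact sum_halves (𝕜 := ℝ) fun j => ‖f ((j : ℝ) / 2 ^ (n + 1))‖

private theorem lf_rn (r : ℕ → ℝ → 𝕜) (n : ℕ) (f : ℝ → 𝕜) (t : ℝ) :
    lf n f (rn r n t) = f (rn r n t) := by
  obtain ⟨k, -, hk⟩ := exists_rn_nat r n t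
  unfold lf
  rw [hk, floor_div_pow]
  push_cast
  rfl

private theorem rf_rn (r : ℕ → ℝ → 𝕜) (n : ℕ) (f : ℝ → 𝕜) (t : ℝ) :
    rf n f (rn r n t) = f (rn r n t + 1 / 2 ^ (n + 1)) := by
  obtain ⟨k, -, hk⟩ := exists_rn_nat r n t
  unfold rf
  rw [hk, floor_div_pow]
  push_cast
  rfl

private theorem norm_one_half_le (a b : 𝕜) : ‖a * (1 / 2) + b * (1 / 2)‖ ≤ (‖a‖ + ‖b‖) / 2 := by
  refine (norm_add_le _ _).trans (le_of_eq ?_)
  rw [norm_mul, norm_mul]
  have h : ‖(1 / 2 : 𝕜)‖ = 1 / 2 := by simp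
  rw [h]
  ring

private theorem int_norm_comb {n : ℕ} {f g : ℝ → 𝕜} (hf : Dy (n + 1) f) (c : 𝕜)
    (hc : ‖c‖ = 1) (hg : Dy n g)
    (hgh : ∀ x, g x = lf n f x * (1 / 2) + c * rf n f x * (1 / 2)) :
    ∫ t, ‖g t‖ ∂mu ≤ ∫ t, ‖f t‖ ∂mu := by
  have h1 : ∫ t, ‖g t‖ ∂mu ≤ ∫ t, (‖lf n f t‖ + ‖rf n f t‖) / 2 ∂mu := by
    refine integral_mono_ae (DyA.integrable ⟨n, hg⟩).norm ?_ (Eventually.of_forall fun t => ?_)
    · exact (((DyA.integrable ⟨n, dy_lf n f⟩).norm).add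
        ((DyA.integrable ⟨n, dy_rf n f⟩).norm)).div_const 2
    · change ‖g t‖ ≤ _
      rw [hgh t]
      refine (norm_one_half_le _ _).trans (le_of_eq ?_)
      rw [norm_mul, hc, one_mul]
  refine h1.trans (le_of_eq ?_)
  rw [integral_div, integral_add ((DyA.integrable ⟨n, dy_lf n f⟩).norm)
    ((DyA.integrable ⟨n, dy_rf n f⟩).norm), integral_norm_halves hf]
  ring

theorem walsh {r : ℕ → ℝ → 𝕜} (hr : Sg r) (n : ℕ) {f : ℝ → 𝕜} (hf : Dy n f) :
    ∃ a : Finset ℕ → 𝕜,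
      (∀ t, f (rn r n t) = ∑ S ∈ (Finset.range n).powerset, a S * WW r S t) ∧
      (∀ S, ‖a S‖ ≤ ∫ t, ‖f t‖ ∂mu) ∧ a ∅ = ∫ t, f t ∂mu := by
  classical
  induction n generalizing f with
  | zero =>
    have h0 : ∫ t, f t ∂mu = f 0 := by
      rw [integral_dy hf]
      simp
    have h1 : ∫ t, ‖f t‖ ∂mu = ‖f 0‖ := by
      rw [integral_norm_dy hf]
      simp
    refine ⟨fun S => if S = ∅ then f 0 else 0, fun t => ?_, fun S => ?_, ?_⟩
    · rw [rn_zero, Finset.range_zero, Finset.powerset_empty, Finset.sum_singleton, WW_empty,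
        mul_one]
      exact (if_pos rfl).symm
    · rw [h1]
      change ‖(if S = ∅ then f 0 else 0 : 𝕜)‖ ≤ ‖f 0‖
      split_ifs
      · exact le_rfl
      · rw [norm_zero]
        exact norm_nonneg _
    · rw [h0]
      exact if_pos rfl
  | succ n ih =>
    have hg : Dy n (fun x => lf n f x * (1 / 2) + 1 * rf n f x * (1 / 2)) := fun t t' h => by
      change lf n f t * (1 / 2) + 1 * rf n f t * (1 / 2) =
        lf n f t' * (1 / 2) + 1 * rf n f t' * (1 / 2)
      rw [dy_lf n f t t' h, dy_rf n f t t' h]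
    have hh : Dy n (fun x => lf n f x * (1 / 2) + (-1) * rf n f x * (1 / 2)) := fun t t' h => by
      change lf n f t * (1 / 2) + (-1) * rf n f t * (1 / 2) =
        lf n f t' * (1 / 2) + (-1) * rf n f t' * (1 / 2)
      rw [dy_lf n f t t' h, dy_rf n f t t' h]
    obtain ⟨b, hb1, hb2, hb3⟩ := ih hg
    obtain ⟨c, hc1, hc2, -⟩ := ih hh
    have hgn := int_norm_comb hf 1 norm_one hg fun _ => rfl
    have hhn := int_norm_comb hf (-1) (by simp) hh fun _ => rfl
    refine ⟨fun S => if n ∈ S then c (S.erase n) else b S, fun t => ?_, fun S => ?_, ?_⟩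
    · have hn : n ∉ Finset.range n := by simp
      rw [Finset.range_add_one, Finset.sum_powerset_insert hn]
      have e1 : ∑ S ∈ (Finset.range n).powerset,
          (if n ∈ S then c (S.erase n) else b S) * WW r S t =
          ∑ S ∈ (Finset.range n).powerset, b S * WW r S t := by
        refine Finset.sum_congr rfl fun S hS => ?_
        rw [if_neg]
        intro h
        exact hn (Finset.mem_powerset.1 hS h)
      have e2 : ∑ S ∈ (Finset.range n).powerset,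
          (if n ∈ insert n S then c ((insert n S).erase n) else b (insert n S)) *
            WW r (insert n S) t =
          r n t * ∑ S ∈ (Finset.range n).powerset, c S * WW r S t := by
        rw [Finset.mul_sum]
        refine Finset.sum_congr rfl fun S hS => ?_
        have hnS : n ∉ S := fun h => hn (Finset.mem_powerset.1 hS h)
        rw [if_pos (Finset.mem_insert_self n S), Finset.erase_insert hnS, WW_insert r hnS]
        ring
      rw [e1, e2, ← hb1, ← hc1, lf_rn, rf_rn, rn_succ]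
      unfold dg
      rcases hr n t with h | h
      · rw [if_pos h, h]
        simp only [Nat.cast_zero, zero_div, add_zero]
        ring
      · rw [if_neg (by rw [h]; norm_num), h]
        simp only [Nat.cast_one]
        ring
    · change ‖(if n ∈ S then c (S.erase n) else b S : 𝕜)‖ ≤ _
      split_ifs
      · exact (hc2 _).trans hhn
      · exact (hb2 _).trans hgn
    · change (if n ∈ (∅ : Finset ℕ) then c ((∅ : Finset ℕ).erase n) else b ∅ : 𝕜) = _
      rw [if_neg (Finset.notMem_empty n), hb3]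
      have h1 : ∫ t, (lf n f t * (1 / 2) + 1 * rf n f t * (1 / 2)) ∂mu =
          ((∫ t, lf n f t ∂mu) + ∫ t, rf n f t ∂mu) * (1 / 2) := by
        rw [← integral_add (DyA.integrable ⟨n, dy_lf n f⟩) (DyA.integrable ⟨n, dy_rf n f⟩),
          ← integral_mul_const]
        refine integral_congr_ae (Eventually.of_forall fun t => ?_)
        change lf n f t * (1 / 2) + 1 * rf n f t * (1 / 2) = (lf n f t + rf n f t) * (1 / 2)
        ring
      rw [h1, integral_halves hf]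
      ring

end Pool.Agent.LinfC
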