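import Pool.Agent.LinfC.Sums
import Pool.Agent.LinfC.Walsh

/-!
# Estimates for dyadic functions of `rn`
-/

set_option autoImplicit false

open MeasureTheory Set Filter Topology
open scoped ENNReal

namespace Pool.Agent.LinfC

open Pool.Agent.LinfX

variable {𝕜 : Type*} [RCLike 𝕜]

variable {b : ℕ → (ℝ → 𝕜) → (ℝ → 𝕜) → 𝕜} {α : ℕ → (ℝ → 𝕜) → 𝕜} {α' : (ℝ → 𝕜) → 𝕜}
  {N : ℕ → (ℝ → 𝕜) → 𝕜} {N' : (ℝ → 𝕜) → 𝕜} {m qs qr : ℕ → ℕ} {s r : ℕ → ℝ → 𝕜} {ε : ℝ}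

/-- a functional at a function of `rn` -/
theorem DF.walsh_sum {C : ℝ} {β : (ℝ → 𝕜) → 𝕜} (hβ : DF C β)
    (h : ∀ n, Seqs b α α' N N' (fun n => ε / (16 * 8 ^ n)) m qs qr s r n) {n : ℕ} {f : ℝ → 𝕜}
    (hf : Dy n f) : ∃ a : Finset ℕ → 𝕜,
      (β (fun t => f (rn r n t)) = ∑ S ∈ (Finset.range n).powerset, a S * β (WW r S)) ∧
      (∀ S, ‖a S‖ ≤ ∫ t, ‖f t‖ ∂mu) ∧ a ∅ = ∫ t, f t ∂mu := by
  obtain ⟨a, h1, h2, h3⟩ := walsh (Seqs.sg h) n hf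
  refine ⟨a, ?_, h2, h3⟩
  have h4 : (fun t => f (rn r n t)) =
      fun t => ∑ S ∈ (Finset.range n).powerset, a S * WW r S t := funext h1
  rw [h4]
  exact hβ.sum (Finset.range n).powerset a fun S _ => Seqs.dya_WW h S

theorem est_b {C : ℝ} (hε : 0 < ε)
    (h : ∀ n, Seqs b α α' N N' (fun n => ε / (16 * 8 ^ n)) m qs qr s r n) {i : ℕ}
    (hb : DB C (b (m i))) (hbr : DRt (b (m i))) {Cα : ℝ} (hα : DF Cα (α (m i))) {n : ℕ}
    {f u : ℝ → 𝕜} (hf : Dy n f) (hu : Dy n u) :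
    ‖b (m i) (fun t => f (rn r n t) * s i t) (fun t => u (rn r n t) * s i t) -
      α (m i) (fun t => f (rn r n t) * u (rn r n t))‖ ≤
        ε * ((∫ t, ‖f t‖ ∂mu) * ∫ t, ‖u t‖ ∂mu) := by
  obtain ⟨a, ha1, ha2, -⟩ := walsh (Seqs.sg h) n hf
  obtain ⟨c, hc1, hc2, -⟩ := walsh (Seqs.sg h) n hu
  set P := (Finset.range n).powerset with hP
  have hs : DyA (s i) := (h i).os.dya
  have hWs : ∀ S, DyA (fun t => WW r S t * s i t) := fun S => (Seqs.dya_WW h S).mul hs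
  have e1 : (fun t => f (rn r n t) * s i t) = fun t => ∑ S ∈ P, a S * (WW r S t * s i t) := by
    funext t
    rw [ha1 t, Finset.sum_mul]
    exact Finset.sum_congr rfl fun S _ => by ring
  have e2 : (fun t => u (rn r n t) * s i t) = fun t => ∑ S ∈ P, c S * (WW r S t * s i t) := by
    funext t
    rw [hc1 t, Finset.sum_mul]
    exact Finset.sum_congr rfl fun S _ => by ring
  have e3 : (fun t => f (rn r n t) * u (rn r n t)) =
      fun t => ∑ p ∈ P ×ˢ P, a p.1 * c p.2 * (WW r p.1 t * WW r p.2 t) := by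
    funext t
    rw [ha1 t, hc1 t, Finset.sum_mul_sum, Finset.sum_product]
    exact Finset.sum_congr rfl fun S _ => Finset.sum_congr rfl fun S' _ => by ring
  have hD2 : DyA (fun t => ∑ S ∈ P, c S * (WW r S t * s i t)) :=
    DyA.sum P fun S _ => (hWs S).smul _
  obtain ⟨K, hK, hK2⟩ := hD2.bounded
  have e4 : b (m i) (fun t => f (rn r n t) * s i t) (fun t => u (rn r n t) * s i t) =
      ∑ p ∈ P ×ˢ P, a p.1 * c p.2 * b (m i) (fun t => WW r p.1 t * s i t)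
        (fun t => WW r p.2 t * s i t) := by
    rw [e1, e2, (hb.left hD2 hK hK2).sum P a fun S _ => hWs S, Finset.sum_product]
    refine Finset.sum_congr rfl fun S _ => ?_
    obtain ⟨D, hD⟩ := DRt.right hb hbr (hWs S)
    rw [hD.sum P c fun S' _ => hWs S', Finset.mul_sum]
    exact Finset.sum_congr rfl fun S' _ => by ring
  have e5 : α (m i) (fun t => f (rn r n t) * u (rn r n t)) =
      ∑ p ∈ P ×ˢ P, a p.1 * c p.2 * α (m i) (fun t => WW r p.1 t * WW r p.2 t) := by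
    rw [e3]
    exact hα.sum (P ×ˢ P) (fun p => a p.1 * c p.2)
      (f := fun p t => WW r p.1 t * WW r p.2 t)
      fun p _ => (Seqs.dya_WW h p.1).mul (Seqs.dya_WW h p.2)
  rw [e4, e5, ← Finset.sum_sub_distrib]
  have hf0 : 0 ≤ ∫ t, ‖f t‖ ∂mu := integral_nonneg fun t => norm_nonneg _
  have hu0 : 0 ≤ ∫ t, ‖u t‖ ∂mu := integral_nonneg fun t => norm_nonneg _
  have e6 := Seqs.sum_b h hε i n
  rw [← hP, ← Finset.sum_product'] at e6
  calc ‖∑ p ∈ P ×ˢ P, (a p.1 * c p.2 * b (m i) (fun t => WW r p.1 t * s i t)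
        (fun t => WW r p.2 t * s i t) -
        a p.1 * c p.2 * α (m i) (fun t => WW r p.1 t * WW r p.2 t))‖
      ≤ ∑ p ∈ P ×ˢ P, ((∫ t, ‖f t‖ ∂mu) * ∫ t, ‖u t‖ ∂mu) *
        ‖b (m i) (fun t => WW r p.1 t * s i t) (fun t => WW r p.2 t * s i t) -
          α (m i) (fun t => WW r p.1 t * WW r p.2 t)‖ := by
        refine (norm_sum_le _ _).trans (Finset.sum_le_sum fun p _ => ?_)
        rw [← mul_sub, norm_mul, norm_mul]
        exact mul_le_mul_of_nonneg_right (mul_le_mul (ha2 _) (hc2 _) (norm_nonneg _) hf0)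
          (norm_nonneg _)
    _ = ((∫ t, ‖f t‖ ∂mu) * ∫ t, ‖u t‖ ∂mu) * ∑ p ∈ P ×ˢ P,
        ‖b (m i) (fun t => WW r p.1 t * s i t) (fun t => WW r p.2 t * s i t) -
          α (m i) (fun t => WW r p.1 t * WW r p.2 t)‖ := by rw [Finset.mul_sum]
    _ ≤ ((∫ t, ‖f t‖ ∂mu) * ∫ t, ‖u t‖ ∂mu) * ε :=
        mul_le_mul_of_nonneg_left e6 (mul_nonneg hf0 hu0)
    _ = _ := by ring

theorem est_a (hε : 0 < ε)
    (h : ∀ n, Seqs b α α' N N' (fun n => ε / (16 * 8 ^ n)) m qs qr s r n) {i : ℕ}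
    {Cα : ℝ} (hα : DF Cα (α (m i))) {n : ℕ} {g : ℝ → 𝕜} (hg : Dy n g) :
    ‖α (m i) (fun t => g (rn r n t)) - α' (fun _ => 1) * ∫ t, g t ∂mu‖ ≤
      ε * ∫ t, ‖g t‖ ∂mu := by
  classical
  obtain ⟨a, h1, h2, h3⟩ := hα.walsh_sum h hg
  set P := (Finset.range n).powerset with hP
  have h4 : WW r ∅ = fun _ => (1 : 𝕜) := funext fun t => WW_empty r t
  have h5 := (h i).lim_a ∅ (Finset.empty_subset _)
  rw [h4] at h5
  have h6 : ε / (16 * 8 ^ i) ≤ ε / 2 := by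
    have h7 : (1 : ℝ) ≤ 8 ^ i := one_le_pow₀ (by norm_num)
    gcongr
    linarith
  have e1 : ∑ S ∈ P, a S * α (m i) (WW r S) =
      a ∅ * α (m i) (fun _ => 1) + ∑ S ∈ P, a S * (if S = ∅ then 0 else α (m i) (WW r S)) := by
    rw [← Finset.add_sum_erase _ _ (Finset.empty_mem_powerset (Finset.range n)),
      ← Finset.add_sum_erase (f := fun S => a S * (if S = ∅ then 0 else α (m i) (WW r S))) _
        (Finset.empty_mem_powerset (Finset.range n)), if_pos rfl, mul_zero, zero_add, h4]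
    congr 1
    refine Finset.sum_congr rfl fun R hR => ?_
    rw [if_neg (Finset.ne_of_mem_erase hR)]
  have hg0 : 0 ≤ ∫ t, ‖g t‖ ∂mu := integral_nonneg fun t => norm_nonneg _
  have e2 : ‖∑ S ∈ P, a S * (if S = ∅ then 0 else α (m i) (WW r S))‖ ≤
      (∫ t, ‖g t‖ ∂mu) * (ε / 2) := by
    calc ‖∑ S ∈ P, a S * (if S = ∅ then 0 else α (m i) (WW r S))‖
        ≤ ∑ S ∈ P, (∫ t, ‖g t‖ ∂mu) * (if S = ∅ then 0 else ‖α (m i) (WW r S)‖) := by
          refine (norm_sum_le _ _).trans (Finset.sum_le_sum fun S _ => ?_)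
          rw [norm_mul]
          split_ifs with hS
          · simp
          · exact mul_le_mul_of_nonneg_right (h2 S) (norm_nonneg _)
      _ = (∫ t, ‖g t‖ ∂mu) * ∑ S ∈ P, (if S = ∅ then 0 else ‖α (m i) (WW r S)‖) := by
          rw [Finset.mul_sum]
      _ ≤ _ := mul_le_mul_of_nonneg_left (Seqs.sum_a h hε i n) hg0
  rw [h1, e1, ← h3]
  have e3 : a ∅ * α (m i) (fun _ => 1) +
      ∑ S ∈ P, a S * (if S = ∅ then 0 else α (m i) (WW r S)) - α' (fun _ => 1) * a ∅ =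
      a ∅ * (α (m i) (fun _ => 1) - α' (fun _ => 1)) +
      ∑ S ∈ P, a S * (if S = ∅ then 0 else α (m i) (WW r S)) := by ring
  rw [e3]
  refine (norm_add_le _ _).trans ?_
  rw [norm_mul]
  have e4 : ‖a ∅‖ * ‖α (m i) (fun _ => 1) - α' (fun _ => 1)‖ ≤
      (∫ t, ‖g t‖ ∂mu) * (ε / 2) :=
    mul_le_mul (h2 ∅) (h5.trans h6) (norm_nonneg _) hg0
  linarith

theorem est_n (hε : 0 < ε)
    (h : ∀ n, Seqs b α α' N N' (fun n => ε / (16 * 8 ^ n)) m qs qr s r n) {i : ℕ}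
    {CN : ℝ} (hN : DF CN (N (m i))) {n : ℕ} {f : ℝ → 𝕜} (hf : Dy n f) :
    ‖N (m i) (fun t => ((‖f (rn r n t) * s i t‖ : ℝ) : 𝕜))‖ ≤
      (‖N' (fun _ => 1)‖ + ε) * ∫ t, ‖f t‖ ∂mu := by
  have hg : Dy n (fun t => ((‖f t‖ : ℝ) : 𝕜)) := by
    intro t t' htt
    change ((‖f t‖ : ℝ) : 𝕜) = ((‖f t'‖ : ℝ) : 𝕜)
    rw [hf t t' htt]
  obtain ⟨a, h1, h2, -⟩ := hN.walsh_sum h hg
  have e1 : (fun t => ((‖f (rn r n t) * s i t‖ : ℝ) : 𝕜)) =
      fun t => ((‖f (rn r n t)‖ : ℝ) : 𝕜) := by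
    funext t
    rw [norm_mul, (h i).os.norm t, mul_one]
  have e2 : ∫ t, ‖((‖f t‖ : ℝ) : 𝕜)‖ ∂mu = ∫ t, ‖f t‖ ∂mu := by
    refine integral_congr_ae (Eventually.of_forall fun t => ?_)
    change ‖((‖f t‖ : ℝ) : 𝕜)‖ = ‖f t‖
    rw [RCLike.norm_ofReal, abs_norm]
  simp only [e2] at h2
  have hf0 : 0 ≤ ∫ t, ‖f t‖ ∂mu := integral_nonneg fun t => norm_nonneg _
  rw [e1, h1]
  calc ‖∑ S ∈ (Finset.range n).powerset, a S * N (m i) (WW r S)‖
      ≤ ∑ S ∈ (Finset.range n).powerset, (∫ t, ‖f t‖ ∂mu) * ‖N (m i) (WW r S)‖ := by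
        refine (norm_sum_le _ _).trans (Finset.sum_le_sum fun S _ => ?_)
        rw [norm_mul]
        exact mul_le_mul_of_nonneg_right (h2 S) (norm_nonneg _)
    _ = (∫ t, ‖f t‖ ∂mu) * ∑ S ∈ (Finset.range n).powerset, ‖N (m i) (WW r S)‖ := by
        rw [Finset.mul_sum]
    _ ≤ (∫ t, ‖f t‖ ∂mu) * (‖N' (fun _ => 1)‖ + ε) :=
        mul_le_mul_of_nonneg_left (Seqs.sum_n h hε i n) hf0
    _ = _ := mul_comm _ _

end Pool.Agent.LinfC
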