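import Pool.Agent.LinfC.ExpA

/-!
# Package LinfC-ExpC: duality

*`IsFac.integral_mul`.* `∫ f * G = ∫ (f ∘ ρ) * (G ∘ ρ)` (`mu = mu.map ρ`, `integral_map`)
`= ∫ (f ∘ ρ) * mu[g | m] = ∫ mu[(f ∘ ρ) * g | m] = ∫ (f ∘ ρ) * g` by the pull-out property
(`condExp_bilin_of_stronglyMeasurable_left` in
`Mathlib/MeasureTheory/Function/ConditionalExpectation/PullOut.lean`, for the bilinear
map `ContinuousLinearMap.mul ℝ 𝕜`; `f ∘ ρ` is strongly measurable with respect to
`m = comap ρ`) and `integral_condExp`. The function `f` is bounded on `[0, 1)`, and a.e. `t` has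
`t, ρ t ∈ [0, 1)`. Or: for `f = indk 𝕜 n i` by `setIntegral_condExp` for the set
`ρ ⁻¹' {x | ⌊2 ^ n x⌋ = i} ∈ m`, and sum over the dyadic intervals (`dy_expand`).

*`IsFac.integral`.* The case `f = 1` for real functions: `∫ V = ∫ V ∘ ρ = ∫ mu[v | m] = ∫ v`.

Difficulty: 0.9 h.
-/

set_option autoImplicit false

open MeasureTheory Set Filter Topology
open scoped ENNReal

namespace Pool.Agent.LinfC

open Pool.Agent.LinfX

variable {𝕜 : Type*} [RCLike 𝕜]

private theorem ExpC_comp {X : Type*} [NormedAddCommGroup X] [NormedSpace ℝ X] {ρ : ℝ → ℝ}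
    (hρ : MeasurePreserving ρ mu mu) {V : ℝ → X} (hV : StronglyMeasurable V) :
    ∫ t, V t ∂mu = ∫ t, V (ρ t) ∂mu := by
  have h1 : ∫ t, V t ∂(mu.map ρ) = ∫ t, V (ρ t) ∂mu :=
    integral_map hρ.measurable.aemeasurable hV.aestronglyMeasurable
  rwa [hρ.map_eq] at h1

theorem IsFac.integral {ρ : ℝ → ℝ} (hρ : MeasurePreserving ρ mu mu) {v V : ℝ → ℝ}
    (hv : Integrable v mu) (h : IsFac ρ v V) : ∫ t, V t ∂mu = ∫ t, v t ∂mu := by
  have hm : MeasurableSpace.comap ρ inferInstance ≤ (inferInstance : MeasurableSpace ℝ) :=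
    hρ.measurable.comap_le
  rw [ExpC_comp hρ h.sm, integral_congr_ae h.eq, integral_condExp hm]

theorem IsFac.integral_mul {ρ : ℝ → ℝ} (hρ : MeasurePreserving ρ mu mu) {g G f : ℝ → 𝕜}
    (hg : Integrable g mu) (h : IsFac ρ g G) (hf : DyA f) :
    ∫ t, f t * G t ∂mu = ∫ t, f (ρ t) * g t ∂mu := by
  have hm : MeasurableSpace.comap ρ inferInstance ≤ (inferInstance : MeasurableSpace ℝ) :=
    hρ.measurable.comap_le
  obtain ⟨C, hC, hb⟩ := hf.bounded
  have hfm : StronglyMeasurable f := hf.stronglyMeasurable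
  have hfρ : StronglyMeasurable[MeasurableSpace.comap ρ inferInstance] fun t => f (ρ t) :=
    hfm.comp_measurable (comap_measurable ρ)
  have hbρ : ∀ᵐ t ∂mu, ‖f (ρ t)‖ ≤ C := by
    filter_upwards [hρ.quasiMeasurePreserving.ae ae_mem_Ico] with t ht
    exact hb _ ht
  have hint : Integrable (fun t => ContinuousLinearMap.mul ℝ 𝕜 (f (ρ t)) (g t)) mu :=
    hg.bdd_mul (hfm.comp_measurable hρ.measurable).aestronglyMeasurable hbρ
  have h1 := condExp_bilin_of_stronglyMeasurable_left (ContinuousLinearMap.mul ℝ 𝕜) hfρ hint hg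
  calc ∫ t, f t * G t ∂mu = ∫ t, f (ρ t) * G (ρ t) ∂mu :=
        ExpC_comp hρ (V := fun t => f t * G t) (hfm.mul h.sm)
    _ = ∫ t, (mu[fun t => ContinuousLinearMap.mul ℝ 𝕜 (f (ρ t)) (g t) |
          MeasurableSpace.comap ρ inferInstance]) t ∂mu := by
      refine integral_congr_ae ?_
      filter_upwards [h1, h.eq] with t h2 h3
      rw [h2, ContinuousLinearMap.mul_apply', ← h3]
    _ = ∫ t, f (ρ t) * g t ∂mu := by
      rw [integral_condExp hm]
      rfl

end Pool.Agent.LinfC
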