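import Pool.Agent.LinfC.ExpB
import Pool.Agent.LinfC.ExpC

/-!
# The conditional expectation with respect to a measure preserving map
-/

set_option autoImplicit false

open MeasureTheory Set Filter Topology
open scoped ENNReal

namespace Pool.Agent.LinfC

open Pool.Agent.LinfX

theorem exists_exp (𝕜 : Type*) [RCLike 𝕜] {ρ : ℝ → ℝ} (hρ : MeasurePreserving ρ mu mu) :
    ∃ E : LinfUnit 𝕜 →L[𝕜] LinfUnit 𝕜, (∀ g, ‖E g‖ ≤ ‖g‖) ∧
      (∀ f : ℝ → 𝕜, DyA f → ∀ g : LinfUnit 𝕜,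
        ∫ t, f t * E g t ∂mu = ∫ t, f (ρ t) * g t ∂mu) ∧
      ∀ v : ℝ → ℝ, Integrable v mu →
        ∃ V : ℝ → ℝ, Integrable V mu ∧ ∫ t, V t ∂mu = ∫ t, v t ∂mu ∧
          ∀ g : LinfUnit 𝕜, (∀ᵐ t ∂mu, ‖g t‖ ≤ v t) → ∀ᵐ t ∂mu, ‖E g t‖ ≤ V t := by
  obtain ⟨E, hE1, hE2⟩ := exists_E 𝕜 hρ
  refine ⟨E, hE1, fun f hf g => ?_, fun v hv => ?_⟩
  · obtain ⟨G, hG, hEG⟩ := hE2 g
    rw [← hG.integral_mul hρ (integrable_of_Linf g) hf]
    refine integral_congr_ae ?_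
    filter_upwards [hEG] with t ht
    rw [ht]
  · obtain ⟨V, hV⟩ := exists_fac hρ v
    refine ⟨V, hV.int, hV.integral hρ hv, fun g hg => ?_⟩
    obtain ⟨G, hG, hEG⟩ := hE2 g
    filter_upwards [hEG, hG.norm_le hρ (integrable_of_Linf g) hv hV hg] with t h1 h2
    rw [h1]
    exact h2

end Pool.Agent.LinfC
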