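import Pool.Agent.LinfC.ExpDefs

/-!
# Package LinfC-ExpA: existence and uniqueness of the factor

*`exists_fac`.* `m = MeasurableSpace.comap ρ inferInstance`, `hm = hρ.measurable.comap_le`. The
function `mu[g | m]` is strongly measurable with respect to `m` (`stronglyMeasurable_condExp`), so it
is `G ∘ ρ` with `G` strongly measurable (`StronglyMeasurable.exists_eq_measurable_comp`,
`Mathlib/MeasureTheory/Function/FactorsThrough.lean`). `G ∘ ρ` is integrable
(`integrable_condExp`), so `G` is (`MeasurePreserving.integrable_comp`, or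
`hρ.integrable_comp_emb`-free: `(hρ.integrable_comp hG.aestronglyMeasurable).1`).

*`IsFac.unique`.* `G ∘ ρ = G' ∘ ρ` a.e.; `hρ.map_eq`, `ae_map_iff` (the set where `G = G'` is
measurable: `StronglyMeasurable`; or `ae_eq_comp`-converse through `ae_of_ae_map` and
`MeasurePreserving.aeconst_comp`...; simplest: `mu = mu.map ρ`).

*`ae_of_comp`.* The same for a measurable property: `mu.map ρ = mu`, `ae_map_iff`.

Difficulty: 0.6 h.
-/

set_option autoImplicit false

open MeasureTheory Set Filter Topology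
open scoped ENNReal

namespace Pool.Agent.LinfC

open Pool.Agent.LinfX

variable {𝕜 : Type*} [RCLike 𝕜]

theorem ae_of_comp {ρ : ℝ → ℝ} (hρ : MeasurePreserving ρ mu mu) {p : ℝ → Prop}
    (hp : MeasurableSet {t | p t}) (h : ∀ᵐ t ∂mu, p (ρ t)) : ∀ᵐ t ∂mu, p t := by
  have h1 : ∀ᵐ t ∂(Measure.map ρ mu), p t :=
    (ae_map_iff hρ.measurable.aemeasurable hp).2 h
  rwa [hρ.map_eq] at h1

theorem exists_fac {X : Type*} [NormedAddCommGroup X] [NormedSpace ℝ X] [CompleteSpace X]
    {ρ : ℝ → ℝ} (hρ : MeasurePreserving ρ mu mu) (g : ℝ → X) : ∃ G : ℝ → X, IsFac ρ g G := by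
  have h1 : StronglyMeasurable[MeasurableSpace.comap ρ inferInstance]
      (mu[g | MeasurableSpace.comap ρ inferInstance]) := stronglyMeasurable_condExp
  obtain ⟨G, hG, hGe⟩ := h1.exists_eq_measurable_comp
  refine ⟨G, hG, ?_, ?_⟩
  · have h2 : Integrable (G ∘ ρ) mu := by
      rw [← hGe]
      exact integrable_condExp
    have h3 : Integrable G (Measure.map ρ mu) :=
      (integrable_map_measure hG.aestronglyMeasurable hρ.measurable.aemeasurable).2 h2
    rwa [hρ.map_eq] at h3
  · rw [hGe]
    exact Filter.EventuallyEq.rfl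

theorem IsFac.unique {X : Type*} [NormedAddCommGroup X] [NormedSpace ℝ X] [CompleteSpace X]
    {ρ : ℝ → ℝ} (hρ : MeasurePreserving ρ mu mu) {g G G' : ℝ → X} (h : IsFac ρ g G)
    (h' : IsFac ρ g G') : G =ᵐ[mu] G' := by
  refine ae_of_comp hρ (p := fun t => G t = G' t) ?_ ?_
  · exact h.sm.measurableSet_eq_fun h'.sm
  · exact h.eq.trans h'.eq.symm

end Pool.Agent.LinfC
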