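import Pool.Agent.LinfC.ExpA

/-!
# Package LinfC-ExpB: the conditional expectation operator on `L^∞`

*`IsFac.norm_le`.* If `‖g‖ ≤ v` a.e. and `V` belongs to `v`, then `‖G‖ ≤ V` a.e.:
`‖G ∘ ρ‖ = ‖mu[g | m]‖ ≤ mu[‖g‖ | m] ≤ mu[v | m] = V ∘ ρ` (`norm_condExp_le`, `condExp_mono`), and
`ae_of_comp` (`StronglyMeasurable.norm`, `measurableSet_le`).

*`exists_E`.* For `g : LinfUnit 𝕜` take `G` from `exists_fac`; it is bounded a.e. by `‖g‖`
(`IsFac.norm_le` with the constant `v`: `condExp_const`, `IsFac` of a constant function), so it has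
a class `E g` in `L^∞` (`memLp_top_of_bound`). Linear: `condExp_add`, `condExp_smul` for real
scalars only? For scalars `c : 𝕜` use `condExp_smul` if it is available for `𝕜`, or
`ContinuousLinearMap.comp_condExp_comm`-like lemmas for `x ↦ c * x`
(`Mathlib/MeasureTheory/Function/ConditionalExpectation/Basic.lean`); then `IsFac.unique`.

Difficulty: 1 h.
-/

set_option autoImplicit false

open MeasureTheory Set Filter Topology
open scoped ENNReal

namespace Pool.Agent.LinfC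

open Pool.Agent.LinfX

variable {𝕜 : Type*} [RCLike 𝕜]

theorem IsFac.norm_le {ρ : ℝ → ℝ} (hρ : MeasurePreserving ρ mu mu) {g G : ℝ → 𝕜}
    {v V : ℝ → ℝ} (hg : Integrable g mu) (hv : Integrable v mu) (h : IsFac ρ g G)
    (h' : IsFac ρ v V) (hgv : ∀ᵐ t ∂mu, ‖g t‖ ≤ v t) : ∀ᵐ t ∂mu, ‖G t‖ ≤ V t := by
  refine ae_of_comp hρ (p := fun t => ‖G t‖ ≤ V t) ?_ ?_
  · exact measurableSet_le h.sm.norm.measurable h'.sm.measurable
  · have h1 := norm_condExp_le (μ := mu) (m := MeasurableSpace.comap ρ inferInstance) g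
    have h2 := condExp_mono (m := MeasurableSpace.comap ρ inferInstance) hg.norm hv hgv
    filter_upwards [h.eq, h'.eq, h1, h2] with t e1 e2 e3 e4
    rw [e1, e2]
    exact e3.trans e4

private theorem isFac_const {ρ : ℝ → ℝ} (hρ : MeasurePreserving ρ mu mu) (c : ℝ) :
    IsFac ρ (fun _ => c) (fun _ => c) where
  sm := stronglyMeasurable_const
  int := integrable_const c
  eq := by
    rw [condExp_const hρ.measurable.comap_le c]

private theorem isFac_add {ρ : ℝ → ℝ} {g g' G G' : ℝ → 𝕜} (hg : Integrable g mu)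
    (hg' : Integrable g' mu) (h : IsFac ρ g G) (h' : IsFac ρ g' G') :
    IsFac ρ (g + g') (G + G') where
  sm := h.sm.add h'.sm
  int := h.int.add h'.int
  eq := by
    have h1 := condExp_add (m := MeasurableSpace.comap ρ inferInstance) hg hg'
    filter_upwards [h.eq, h'.eq, h1] with t e1 e2 e3
    rw [e3, Pi.add_apply, Pi.add_apply, ← e1, ← e2]

private theorem isFac_smul {ρ : ℝ → ℝ} {g G : ℝ → 𝕜} (c : 𝕜) (h : IsFac ρ g G) :
    IsFac ρ (c • g) (c • G) where
  sm := h.sm.const_smul c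
  int := h.int.smul c
  eq := by
    have h1 := condExp_smul (μ := mu) c g (MeasurableSpace.comap ρ inferInstance)
    filter_upwards [h.eq, h1] with t e1 e2
    rw [e2, Pi.smul_apply, Pi.smul_apply, ← e1]

private theorem isFac_congr {ρ : ℝ → ℝ} {g g' G : ℝ → 𝕜} (h : IsFac ρ g G)
    (hgg : g =ᵐ[mu] g') : IsFac ρ g' G where
  sm := h.sm
  int := h.int
  eq := h.eq.trans (condExp_congr_ae hgg)

theorem exists_E (𝕜 : Type*) [RCLike 𝕜] {ρ : ℝ → ℝ} (hρ : MeasurePreserving ρ mu mu) :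
    ∃ E : LinfUnit 𝕜 →L[𝕜] LinfUnit 𝕜, (∀ g, ‖E g‖ ≤ ‖g‖) ∧
      ∀ g : LinfUnit 𝕜, ∃ G : ℝ → 𝕜, IsFac ρ g G ∧ (E g : ℝ → 𝕜) =ᵐ[mu] G := by
  have hex : ∀ g : LinfUnit 𝕜, ∃ G : ℝ → 𝕜, IsFac ρ g G := fun g => exists_fac hρ g
  choose G hG using hex
  have hb : ∀ g : LinfUnit 𝕜, ∀ᵐ t ∂mu, ‖G g t‖ ≤ ‖g‖ := fun g =>
    IsFac.norm_le hρ (integrable_of_Linf g) (integrable_const ‖g‖) (hG g)
      (isFac_const hρ ‖g‖) (ae_norm_le g)
  have hmem : ∀ g : LinfUnit 𝕜, MemLp (G g) ∞ mu := fun g =>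
    memLp_top_of_bound (hG g).sm.aestronglyMeasurable ‖g‖ (hb g)
  have hadd : ∀ g g' : LinfUnit 𝕜, (hmem (g + g')).toLp (G (g + g')) =
      (hmem g).toLp (G g) + (hmem g').toLp (G g') := by
    intro g g'
    have h1 : G (g + g') =ᵐ[mu] G g + G g' :=
      IsFac.unique hρ (hG (g + g')) (isFac_congr
        (isFac_add (integrable_of_Linf g) (integrable_of_Linf g') (hG g) (hG g'))
        (Lp.coeFn_add g g').symm)
    apply Lp.ext
    filter_upwards [MemLp.coeFn_toLp (hmem (g + g')), MemLp.coeFn_toLp (hmem g),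
      MemLp.coeFn_toLp (hmem g'), Lp.coeFn_add ((hmem g).toLp (G g)) ((hmem g').toLp (G g')), h1]
      with t e1 e2 e3 e4 e5
    rw [e1, e4, Pi.add_apply, e2, e3, e5, Pi.add_apply]
  have hsmul : ∀ (c : 𝕜) (g : LinfUnit 𝕜), (hmem (c • g)).toLp (G (c • g)) =
      c • (hmem g).toLp (G g) := by
    intro c g
    have h1 : G (c • g) =ᵐ[mu] c • G g :=
      IsFac.unique hρ (hG (c • g)) (isFac_congr (isFac_smul c (hG g))
        (Lp.coeFn_smul c g).symm)
    apply Lp.ext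
    filter_upwards [MemLp.coeFn_toLp (hmem (c • g)), MemLp.coeFn_toLp (hmem g),
      Lp.coeFn_smul c ((hmem g).toLp (G g)), h1] with t e1 e2 e3 e4
    rw [e1, e3, Pi.smul_apply, e2, e4, Pi.smul_apply]
  have hn : ∀ g : LinfUnit 𝕜, ‖(hmem g).toLp (G g)‖ ≤ ‖g‖ := by
    intro g
    apply norm_le_of_ae (norm_nonneg g)
    filter_upwards [MemLp.coeFn_toLp (hmem g), hb g] with t e1 e2
    rw [e1]
    exact e2
  refine ⟨LinearMap.mkContinuous
    { toFun := fun g => (hmem g).toLp (G g)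
      map_add' := hadd
      map_smul' := hsmul } 1 fun g => ?_, fun g => hn g, fun g => ⟨G g, hG g, ?_⟩⟩
  · rw [one_mul]
    exact hn g
  · exact MemLp.coeFn_toLp (hmem g)

end Pool.Agent.LinfC
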