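import Pool.Agent.LinfC.Mul

/-!
# Conditional expectations as functions of `ρ`

`IsFac ρ g G`: `G` is strongly measurable and integrable, and `G ∘ ρ` is the conditional
expectation of `g` given `ρ`.
-/

set_option autoImplicit false

open MeasureTheory Set Filter Topology
open scoped ENNReal

namespace Pool.Agent.LinfC

open Pool.Agent.LinfX

variable {𝕜 : Type*} [RCLike 𝕜]

/-- `G ∘ ρ` is the conditional expectation of `g` given `ρ` -/
structure IsFac {X : Type*} [NormedAddCommGroup X] [NormedSpace ℝ X] [CompleteSpace X]
    (ρ : ℝ → ℝ) (g G : ℝ → X) : Prop where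
  sm : StronglyMeasurable G
  int : Integrable G mu
  eq : (fun t => G (ρ t)) =ᵐ[mu] mu[g | MeasurableSpace.comap ρ inferInstance]

end Pool.Agent.LinfC
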