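import Pool.Agent.LinfC.JJA
import Pool.Agent.LinfC.Coord

/-!
# Package LinfC-JJ: the operator `J`

Take `Mi i` from `exists_Mi` for `s i`. `Jo h` has the coordinates
`co (m i) (Jo h) = cut Ω (Mi i (co i h))` and `0` outside of the range of `m`. Use `exists_op` with
`Z = LinfUnit (C0 𝕜)`, `C = 1`, `G k = cut Ω ∘ Mi i ∘ co i` if `k = m i`, and `0` otherwise (`m` is
injective: `StrictMono.injective`; `Function.invFun` or `Classical.choose`). `‖G k h‖ ≤ ‖h‖`: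
`norm_cut_le`, `‖Mi i u‖ ≤ ‖u‖` (from `‖Mi i u t‖ = ‖u (ro r t)‖` a.e., `ae_norm_le` at `ro r t`:
`MeasurePreserving.quasiMeasurePreserving.ae`), `norm_co_le`. For a.e. `t`, `G k h t → 0` as
`k → ∞`: `‖G (m i) h t‖ ≤ ‖co i h (ro r t)‖` and `co i h x → 0` for a.e. `x` (`tendsto_co`), hence
for `x = ro r t` and a.e. `t`; for `ε > 0` only finitely many `i` have `‖co i h (ro r t)‖ ≥ ε`.
The norm of `Jo h`: `norm_le_of_co`.

Difficulty: 1 h.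
-/

set_option autoImplicit false

open MeasureTheory Set Filter Topology
open scoped ENNReal

namespace Pool.Agent.LinfC

open Pool.Agent.LinfX

variable {𝕜 : Type*} [RCLike 𝕜]

theorem exists_J {r s : ℕ → ℝ → 𝕜} {qr : ℕ → ℕ} (hr : ∀ l, Osc (qr l) (r l))
    (hqr : StrictMono qr) (hs : ∀ l, DyA (s l)) (hs1 : ∀ l t, ‖s l t‖ = 1) {m : ℕ → ℕ}
    (hm : StrictMono m) {Ω : Set ℝ} (hΩ : MeasurableSet Ω) :
    ∃ (Mi : ℕ → LinfUnit 𝕜 →L[𝕜] LinfUnit 𝕜) (Jo : LinfUnit (C0 𝕜) →L[𝕜] LinfUnit (C0 𝕜)),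
      (∀ (i : ℕ) (u : LinfUnit 𝕜), ∫ t, ‖Mi i u t‖ ∂mu ≤ ∫ t, ‖u t‖ ∂mu) ∧
      (∀ (i n : ℕ) (f : ℝ → 𝕜), Dy n f →
        Mi i (tL f) = tL (fun t => f (rn r n t) * s i t)) ∧
      (∀ i h, co 𝕜 (m i) (Jo h) = cut 𝕜 Ω (Mi i (co 𝕜 i h))) ∧
      (∀ k, (∀ i, k ≠ m i) → ∀ h, co 𝕜 k (Jo h) = 0) ∧
      (∀ h, ‖Jo h‖ ≤ ‖h‖) := by
  classical
  have hex : ∀ i, ∃ M : LinfUnit 𝕜 →L[𝕜] LinfUnit 𝕜,
      (∀ u : LinfUnit 𝕜, ∀ᵐ t ∂mu, ‖M u t‖ = ‖u (ro r t)‖) ∧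
      (∀ u : LinfUnit 𝕜, ∫ t, ‖M u t‖ ∂mu ≤ ∫ t, ‖u t‖ ∂mu) ∧
      ∀ (n : ℕ) (f : ℝ → 𝕜), Dy n f → M (tL f) = tL (fun t => f (rn r n t) * s i t) :=
    fun i => exists_Mi hr hqr (hs i) (hs1 i)
  choose Mi h1 h2 h3 using hex
  have hmp : MeasurePreserving (ro r) mu mu := measurePreserving_ro hr hqr
  have hMn : ∀ i u, ‖Mi i u‖ ≤ ‖u‖ := by
    intro i u
    apply norm_le_of_ae (norm_nonneg _)
    have h4 : ∀ᵐ t ∂mu, ‖u (ro r t)‖ ≤ ‖u‖ := hmp.quasiMeasurePreserving.ae (ae_norm_le u)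
    filter_upwards [h1 i u, h4] with t h5 h6
    rw [h5]
    exact h6
  let G : ℕ → LinfUnit (C0 𝕜) →L[𝕜] LinfUnit 𝕜 := fun k =>
    if h : ∃ i, m i = k then
      (cut 𝕜 Ω).comp ((Mi (Classical.choose h)).comp (co 𝕜 (Classical.choose h)))
    else 0
  have hGm : ∀ i, G (m i) = (cut 𝕜 Ω).comp ((Mi i).comp (co 𝕜 i)) := by
    intro i
    have h : ∃ j, m j = m i := ⟨i, rfl⟩
    have h5 : Classical.choose h = i := hm.injective (Classical.choose_spec h)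
    change (if h : ∃ j, m j = m i then
      (cut 𝕜 Ω).comp ((Mi (Classical.choose h)).comp (co 𝕜 (Classical.choose h))) else 0) = _
    rw [dif_pos h, h5]
  have hG0 : ∀ k, (∀ i, k ≠ m i) → G k = 0 := by
    intro k hk
    have h : ¬ ∃ j, m j = k := fun ⟨j, hj⟩ => hk j hj.symm
    change (if h : ∃ j, m j = k then
      (cut 𝕜 Ω).comp ((Mi (Classical.choose h)).comp (co 𝕜 (Classical.choose h))) else 0) = _
    rw [dif_neg h]
  have hC : ∀ k z, ‖G k z‖ ≤ 1 * ‖z‖ := by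
    intro k z
    rw [one_mul]
    by_cases h : ∃ i, m i = k
    · obtain ⟨i, rfl⟩ := h
      rw [hGm]
      exact (norm_cut_le _ _).trans ((hMn i _).trans (norm_co_le i z))
    · rw [hG0 k fun i hi => h ⟨i, hi.symm⟩]
      simp
  have h0 : ∀ z, ∀ᵐ t ∂mu, Tendsto (fun k => G k z t) atTop (𝓝 0) := by
    intro z
    have E1 : ∀ᵐ t ∂mu, ∀ i, ‖G (m i) z t‖ ≤ ‖co 𝕜 i z (ro r t)‖ := by
      rw [ae_all_iff]
      intro i
      have e : G (m i) z = cut 𝕜 Ω (Mi i (co 𝕜 i z)) := by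
        rw [hGm]
        rfl
      rw [e]
      filter_upwards [cut_coe (𝕜 := 𝕜) hΩ (Mi i (co 𝕜 i z)), h1 i (co 𝕜 i z)] with t h5 h6
      rw [h5, ← h6]
      exact norm_indicator_le_norm_self _ _
    have E2 : ∀ᵐ t ∂mu, ∀ k, (∀ i, k ≠ m i) → G k z t = 0 := by
      rw [ae_all_iff]
      intro k
      by_cases h : ∀ i, k ≠ m i
      · have e : G k z = 0 := by
          rw [hG0 k h]
          rfl
        rw [e]
        filter_upwards [Lp.coeFn_zero 𝕜 ∞ mu] with t ht _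
        rw [ht]
        rfl
      · exact Eventually.of_forall fun t h' => absurd h' h
    have E3 : ∀ᵐ t ∂mu, Tendsto (fun i => co 𝕜 i z (ro r t)) atTop (𝓝 0) :=
      hmp.quasiMeasurePreserving.ae (tendsto_co z)
    filter_upwards [E1, E2, E3] with t e1 e2 e3
    rw [Metric.tendsto_atTop] at e3 ⊢
    intro ε hε
    obtain ⟨N, hN⟩ := e3 ε hε
    refine ⟨m N, fun k hk => ?_⟩
    rw [dist_zero_right]
    by_cases h : ∃ i, m i = k
    · obtain ⟨i, rfl⟩ := h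
      have h5 := hN i (hm.le_iff_le.1 hk)
      rw [dist_zero_right] at h5
      exact (e1 i).trans_lt h5
    · rw [e2 k fun i hi => h ⟨i, hi.symm⟩, norm_zero]
      exact hε
  obtain ⟨R, hR⟩ := exists_op G hC h0
  refine ⟨Mi, R, h2, fun i n f hf => h3 i n f hf, fun i h => ?_, fun k hk h => ?_, fun h => ?_⟩
  · rw [hR, hGm]
    rfl
  · rw [hR, hG0 k hk]
    rfl
  · refine norm_le_of_co (norm_nonneg _) fun k => ?_
    rw [hR]
    have h5 := hC k h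
    rwa [one_mul] at h5

end Pool.Agent.LinfC
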