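import Pool.Agent.LinfC.NNA

/-!
# Package LinfC-NN: the variation functional

`N F f = ulim 𝒰 (fun q => Nq W y' F q f)`, `𝒰 = Filter.hyperfilter ℕ` (`hyperfilter_le_atTop`, or
`Nat.hyperfilter_le_atTop`).

1. If `f` has level `p ≤ q`, `‖Nq W y' F q f‖ ≤ C ∫ ‖f‖`, `C = ‖y'‖ * ‖W‖` (`n0_le`, `n0_nonneg`,
   `integral_norm_dy`); `DF.ulim` gives `DF C (N F)`.
2. Domination: let `f` have level `p`, `q ≥ p`. By `dy_expand`, `tL f` is the sum of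
   `f (i / 2 ^ q) • tL (indk 𝕜 q i)` (equality a.e.: `tL_coe`, `DyA.memLp`), so (`prL` in
   `LinfX/Key.lean`, `pr_smul`)
   `‖pr (tL f) y' (W h)‖ ≤ ∑ i, ‖f (i / 2 ^ q)‖ * n0 q i F * ‖h‖ = ‖Nq W y' F q (‖f‖)‖ * ‖h‖`
   (`le_n0`; the sum is a nonnegative real number); pass to the limit (`tendsto_ulim`,
   `ge_of_tendsto`).
3. At `1`: `Nq W y' F q 1` is a nonnegative real number, its norm is `∑ i, n0 W y' q i F`; `n0_mono`,
   `n0_add`; pass to the limit.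

Difficulty: 1.1 h.
-/

set_option autoImplicit false

open MeasureTheory Set Filter Topology
open scoped ENNReal

namespace Pool.Agent.LinfC

open Pool.Agent.LinfX

variable {𝕜 : Type*} [RCLike 𝕜] {Y : Type*} [NormedAddCommGroup Y] [NormedSpace 𝕜 Y]

private theorem tL_sum_NN {ι : Type*} (s : Finset ι) (c : ι → 𝕜) {f : ι → ℝ → 𝕜}
    (hf : ∀ i, DyA (f i)) :
    tL (fun t => ∑ i ∈ s, c i * f i t) = ∑ i ∈ s, c i • tL (f i) := by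
  classical
  induction s using Finset.induction_on with
  | empty =>
    simp only [Finset.sum_empty]
    apply Lp.ext
    filter_upwards [tL_coe (DyA.const (0 : 𝕜)).memLp, Lp.coeFn_zero 𝕜 ∞ mu] with t h1 h2
    rw [h1, h2]
    rfl
  | insert a s ha ih =>
    rw [Finset.sum_insert ha, ← ih, ← tL_smul (c a) (hf a).memLp,
      ← tL_add ((hf a).smul (c a)).memLp (DyA.sum s fun i _ => (hf i).smul (c i)).memLp]
    congr 1
    funext t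
    rw [Finset.sum_insert ha]

private theorem tL_dy_NN {q : ℕ} {f : ℝ → 𝕜} (hf : Dy q f) :
    tL f = ∑ i ∈ Finset.range (2 ^ q), f ((i : ℝ) / 2 ^ q) • tL (indk 𝕜 q i) := by
  rw [← tL_sum_NN (Finset.range (2 ^ q)) (fun i : ℕ => f ((i : ℝ) / 2 ^ q))
    (f := fun i => indk 𝕜 q i) fun i => dya_indk q i]
  have h1 : MemLp (fun t => ∑ i ∈ Finset.range (2 ^ q), f ((i : ℝ) / 2 ^ q) * indk 𝕜 q i t)
      ∞ mu := (DyA.sum (Finset.range (2 ^ q)) fun i _ =>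
    (dya_indk q i).smul (f ((i : ℝ) / 2 ^ q))).memLp
  apply Lp.ext
  filter_upwards [tL_coe (DyA.memLp ⟨q, hf⟩ : MemLp f ∞ mu), tL_coe h1, ae_mem_Ico]
    with t h2 h3 h4
  rw [h2, h3]
  exact dy_expand hf h4

private theorem norm_Nq_real_NN (W : LinfUnit (C0 𝕜) →L[𝕜] LinfUnit Y) (y' : StrongDual 𝕜 Y)
    (F : Set ℕ) (q : ℕ) (g : ℝ → ℝ) (hg : ∀ t, 0 ≤ g t) :
    ‖Nq W y' F q (fun t => ((g t : ℝ) : 𝕜))‖ =
      ∑ i ∈ Finset.range (2 ^ q), g ((i : ℝ) / 2 ^ q) * n0 W y' q i F := by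
  have h1 : Nq W y' F q (fun t => ((g t : ℝ) : 𝕜)) =
      ((∑ i ∈ Finset.range (2 ^ q), g ((i : ℝ) / 2 ^ q) * n0 W y' q i F : ℝ) : 𝕜) := by
    unfold Nq
    push_cast
    rfl
  rw [h1, RCLike.norm_ofReal, abs_of_nonneg]
  exact Finset.sum_nonneg fun i _ => mul_nonneg (hg _) (n0_nonneg W y' q i F)

private theorem norm_Nq_le_NN (W : LinfUnit (C0 𝕜) →L[𝕜] LinfUnit Y) (y' : StrongDual 𝕜 Y)
    (F : Set ℕ) {p q : ℕ} {f : ℝ → 𝕜} (hf : Dy p f) (hq : p ≤ q) :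
    ‖Nq W y' F q f‖ ≤ ‖y'‖ * ‖W‖ * ∫ t, ‖f t‖ ∂mu := by
  unfold Nq
  rw [integral_norm_dy (hf.mono hq), Finset.mul_sum]
  refine (norm_sum_le _ _).trans (Finset.sum_le_sum fun i hi => ?_)
  rw [norm_mul, RCLike.norm_ofReal, abs_of_nonneg (n0_nonneg W y' q i F)]
  calc ‖f ((i : ℝ) / 2 ^ q)‖ * n0 W y' q i F
      ≤ ‖f ((i : ℝ) / 2 ^ q)‖ * (‖y'‖ * ‖W‖ * (1 / 2) ^ q) :=
        mul_le_mul_of_nonneg_left (n0_le W y' (Finset.mem_range.1 hi) F) (norm_nonneg _)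
    _ = _ := by ring

private theorem dom_NN (W : LinfUnit (C0 𝕜) →L[𝕜] LinfUnit Y) (y' : StrongDual 𝕜 Y)
    (F : Set ℕ) {p q : ℕ} {f : ℝ → 𝕜} (hf : Dy p f) (hq : p ≤ q) {h : LinfUnit (C0 𝕜)}
    (hh : ∀ i, i ∉ F → co 𝕜 i h = 0) :
    ‖pr (tL f) y' (W h)‖ ≤ ‖Nq W y' F q (fun t => ((‖f t‖ : ℝ) : 𝕜))‖ * ‖h‖ := by
  have e1 : pr (tL f) y' (W h) = ∑ i ∈ Finset.range (2 ^ q),
      f ((i : ℝ) / 2 ^ q) * pr (tL (indk 𝕜 q i)) y' (W h) := by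
    change prL y' (W h) (tL f) = _
    rw [tL_dy_NN (hf.mono hq), map_sum]
    refine Finset.sum_congr rfl fun i _ => ?_
    rw [map_smul, smul_eq_mul]
    rfl
  rw [e1, norm_Nq_real_NN W y' F q (fun t => ‖f t‖) (fun t => norm_nonneg _), Finset.sum_mul]
  refine (norm_sum_le _ _).trans (Finset.sum_le_sum fun i hi => ?_)
  rw [norm_mul, mul_assoc]
  exact mul_le_mul_of_nonneg_left (le_n0 W y' (Finset.mem_range.1 hi) hh) (norm_nonneg _)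

private theorem ev_NN (W : LinfUnit (C0 𝕜) →L[𝕜] LinfUnit Y) (y' : StrongDual 𝕜 Y)
    (F : Set ℕ) {𝒰 : Ultrafilter ℕ} (h𝒰 : (𝒰 : Filter ℕ) ≤ atTop) {f : ℝ → 𝕜} (hf : DyA f) :
    ∀ᶠ q in (𝒰 : Filter ℕ), ‖Nq W y' F q f‖ ≤ ‖y'‖ * ‖W‖ * ∫ t, ‖f t‖ ∂mu := by
  obtain ⟨p, hp⟩ := hf
  have h1 : ∀ᶠ q in (𝒰 : Filter ℕ), p ≤ q := h𝒰 (eventually_ge_atTop p)
  filter_upwards [h1] with q hq
  exact norm_Nq_le_NN W y' F hp hq

private theorem one_NN (W : LinfUnit (C0 𝕜) →L[𝕜] LinfUnit Y) (y' : StrongDual 𝕜 Y)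
    (F : Set ℕ) (q : ℕ) :
    ‖Nq W y' F q (fun _ => 1)‖ = ∑ i ∈ Finset.range (2 ^ q), n0 W y' q i F := by
  have h1 := norm_Nq_real_NN W y' F q (fun _ => (1 : ℝ)) (fun _ => zero_le_one)
  simp only [one_mul, RCLike.ofReal_one] at h1
  exact h1

theorem exists_NN (W : LinfUnit (C0 𝕜) →L[𝕜] LinfUnit Y) (y' : StrongDual 𝕜 Y) :
    ∃ N : Set ℕ → (ℝ → 𝕜) → 𝕜, (∀ F, DF (‖y'‖ * ‖W‖) (N F)) ∧
      (∀ F f, DyA f → ∀ h : LinfUnit (C0 𝕜), (∀ i, i ∉ F → co 𝕜 i h = 0) →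
        ‖pr (tL f) y' (W h)‖ ≤ ‖N F (fun t => ((‖f t‖ : ℝ) : 𝕜))‖ * ‖h‖) ∧
      (∀ F F', F ⊆ F' → ‖N F (fun _ => 1)‖ ≤ ‖N F' (fun _ => 1)‖) ∧
      (∀ F F', Disjoint F F' →
        ‖N F (fun _ => 1)‖ + ‖N F' (fun _ => 1)‖ ≤ ‖N (F ∪ F') (fun _ => 1)‖) := by
  set 𝒰 : Ultrafilter ℕ := hyperfilter ℕ with h𝒰
  have h0 : (𝒰 : Filter ℕ) ≤ atTop := by
    rw [h𝒰, ← Nat.cofinite_eq_atTop]
    exact hyperfilter_le_cofinite
  have hT : ∀ (F : Set ℕ) (f : ℝ → 𝕜), DyA f → Tendsto (fun q => ‖Nq W y' F q f‖) 𝒰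
      (𝓝 ‖ulim 𝒰 (fun q => Nq W y' F q f)‖) := fun F f hf =>
    (tendsto_ulim 𝒰 (ev_NN W y' F h0 hf)).norm
  refine ⟨fun F f => ulim 𝒰 (fun q => Nq W y' F q f), fun F => ?_, ?_, ?_, ?_⟩
  · refine DF.ulim 𝒰 (fun n f g _ _ => ?_) (fun n c f _ => ?_) fun f hf => ev_NN W y' F h0 hf
    · unfold Nq
      rw [← Finset.sum_add_distrib]
      refine Finset.sum_congr rfl fun i _ => ?_
      ring
    · unfold Nq
      rw [Finset.mul_sum]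
      refine Finset.sum_congr rfl fun i _ => ?_
      ring
  · intro F f hf h hh
    have hf' : DyA (fun t => ((‖f t‖ : ℝ) : 𝕜)) := hf.map fun x => ((‖x‖ : ℝ) : 𝕜)
    refine ge_of_tendsto ((hT F _ hf').mul_const ‖h‖) ?_
    obtain ⟨p, hp⟩ := hf
    have h1 : ∀ᶠ q in (𝒰 : Filter ℕ), p ≤ q := h0 (eventually_ge_atTop p)
    filter_upwards [h1] with q hq
    exact dom_NN W y' F hp hq hh
  · intro F F' hF
    refine le_of_tendsto_of_tendsto' (hT F _ (DyA.const 1)) (hT F' _ (DyA.const 1)) fun q => ?_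
    rw [one_NN, one_NN]
    exact Finset.sum_le_sum fun i hi => n0_mono W y' (Finset.mem_range.1 hi) hF
  · intro F F' hF
    refine le_of_tendsto_of_tendsto' ((hT F _ (DyA.const 1)).add (hT F' _ (DyA.const 1)))
      (hT (F ∪ F') _ (DyA.const 1)) fun q => ?_
    rw [one_NN, one_NN, one_NN, ← Finset.sum_add_distrib]
    exact Finset.sum_le_sum fun i hi => n0_add W y' (Finset.mem_range.1 hi) hF

end Pool.Agent.LinfC
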