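import Pool.Agent.LinfC.RRA
import Pool.Agent.LinfC.Coord

/-!
# Package LinfC-RR: the operator `R`

`E` from `exists_exp` with `ρ = ro r` (`measurePreserving_ro`; `qr` is strictly monotone by `h1`,
`h2`), `G i = E ∘ mulL (s i) ∘ (y' i).compLpL ∞ mu`; `‖G i F‖ ≤ C ‖F‖` (`norm_mulL_le`,
`compLpL_coe`, `ae_norm_le`, `norm_le_of_ae`). `E_tendsto` and `exists_op` give `R` with
`co i (R F) = G i F`. For `Dy n f`:
`∫ f * G i F = ∫ f (ro r t) * (s i t * y' i (F t)) = ∫ (f (rn r n t) * s i t) * y' i (F t)`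
(`comp_ro`, `mulL_coe`, `compLpL_coe`) `= pr (tL (...)) (y' i) F` (`pr_apply`, `tL_coe`,
`dya_comp_rn`, `DyA.mul`, `DyA.memLp`, `Osc.dya`).

Difficulty: 0.7 h.
-/

set_option autoImplicit false

open MeasureTheory Set Filter Topology
open scoped ENNReal

namespace Pool.Agent.LinfC

open Pool.Agent.LinfX

variable {𝕜 : Type*} [RCLike 𝕜] {Y : Type*} [NormedAddCommGroup Y] [NormedSpace 𝕜 Y]

theorem exists_R {r s : ℕ → ℝ → 𝕜} {qr qs : ℕ → ℕ} (hr : ∀ l, Osc (qr l) (r l))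
    (hs : ∀ l, Osc (qs l) (s l)) (h1 : ∀ l, qs l < qr l) (h2 : ∀ l, qr l < qs (l + 1))
    (y' : ℕ → StrongDual 𝕜 Y) {C : ℝ} (hC : ∀ i, ‖y' i‖ ≤ C) :
    ∃ R : LinfUnit Y →L[𝕜] LinfUnit (C0 𝕜), ∀ (i : ℕ) (F : LinfUnit Y) (n : ℕ) (f : ℝ → 𝕜),
      Dy n f → ∫ t, f t * co 𝕜 i (R F) t ∂mu =
        pr (tL (fun t => f (rn r n t) * s i t)) (y' i) F := by
  have hq : StrictMono qr := strictMono_nat_of_lt_succ fun l => (h2 l).trans (h1 (l + 1))
  obtain ⟨E, hE1, hE2, hE3⟩ := exists_exp 𝕜 (measurePreserving_ro hr hq)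
  have hsm : ∀ i, Measurable (s i) := fun i => (hs i).dya.measurable
  have hs1 : ∀ i t, ‖s i t‖ ≤ 1 := fun i t => ((hs i).norm t).le
  have hC0 : 0 ≤ C := (norm_nonneg _).trans (hC 0)
  have hy : ∀ i (F : LinfUnit Y), ‖(y' i).compLpL ∞ mu F‖ ≤ C * ‖F‖ := by
    intro i F
    apply norm_le_of_ae (mul_nonneg hC0 (norm_nonneg _))
    filter_upwards [compLpL_coe (y' i) F, ae_norm_le F] with t e1 e2
    rw [e1]
    exact ((y' i).le_opNorm _).trans (mul_le_mul (hC i) e2 (norm_nonneg _) hC0)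
  obtain ⟨R, hR⟩ := exists_op
    (fun i => E.comp ((mulL (s i)).comp ((y' i).compLpL ∞ mu)))
    (fun i F => (hE1 _).trans ((norm_mulL_le _ _).trans (hy i F)))
    (fun F => E_tendsto hr hs h1 h2 hE2 hE3 y' hC F)
  refine ⟨R, fun i F n f hf => ?_⟩
  rw [hR i F]
  change ∫ t, f t * E (mulL (s i) ((y' i).compLpL ∞ mu F)) t ∂mu = _
  rw [hE2 f ⟨n, hf⟩, pr_apply]
  have hm : MemLp (fun t => f (rn r n t) * s i t) ∞ mu :=
    ((dya_comp_rn n (fun l _ => (hr l).dya) f).mul (hs i).dya).memLp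
  refine integral_congr_ae ?_
  filter_upwards [comp_ro hr hq hf, mulL_coe (hsm i) (hs1 i) ((y' i).compLpL ∞ mu F),
    compLpL_coe (y' i) F, tL_coe hm] with t e1 e2 e3 e4
  rw [e1, e2, e3, e4]
  ring

end Pool.Agent.LinfC
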