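import Pool.Agent.LinfC.BB
import Pool.Agent.LinfC.Est
import Pool.Agent.LinfC.NN
import Pool.Agent.LinfC.RR
import Pool.Agent.LinfC.JJ

/-!
# From many large traces to a factorisation of the identity
-/

set_option autoImplicit false

open MeasureTheory Set Filter Topology
open scoped ENNReal

namespace Pool.Agent.LinfC

open Pool.Agent.LinfX

variable {𝕜 : Type*} [RCLike 𝕜] {Y : Type*} [NormedAddCommGroup Y] [NormedSpace 𝕜 Y]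

/-- an operator close to a multiple of the identity is invertible -/
theorem exists_left_inv {Z : Type*} [NormedAddCommGroup Z] [NormedSpace 𝕜 Z] [CompleteSpace Z]
    (A : Z →L[𝕜] Z) {c : 𝕜} {κ : ℝ} (hκ : 0 < κ) (hc : κ ≤ ‖c‖)
    (h : ∀ z, ‖A z - c • z‖ ≤ κ / 2 * ‖z‖) : ∃ B : Z →L[𝕜] Z, ∀ z, B (A z) = z := by
  have hc0 : c ≠ 0 := by
    intro h0
    rw [h0, norm_zero] at hc
    linarith
  have h1 : ‖(1 : Z →L[𝕜] Z) - c⁻¹ • A‖ < 1 := by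
    have h2 : ‖(1 : Z →L[𝕜] Z) - c⁻¹ • A‖ ≤ 1 / 2 := by
      refine ContinuousLinearMap.opNorm_le_bound _ (by norm_num) fun z => ?_
      have h3 : ((1 : Z →L[𝕜] Z) - c⁻¹ • A) z = -(c⁻¹ • (A z - c • z)) := by
        change z - c⁻¹ • A z = _
        rw [smul_sub, smul_smul, inv_mul_cancel₀ hc0, one_smul]
        abel
      rw [h3, norm_neg, norm_smul, norm_inv]
      calc ‖c‖⁻¹ * ‖A z - c • z‖ ≤ ‖c‖⁻¹ * (‖c‖ / 2 * ‖z‖) := by
            refine mul_le_mul_of_nonneg_left ((h z).trans ?_) (inv_nonneg.2 (norm_nonneg _))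
            exact mul_le_mul_of_nonneg_right (by linarith) (norm_nonneg _)
        _ = 1 / 2 * ‖z‖ := by
            have : ‖c‖ ≠ 0 := norm_ne_zero_iff.2 hc0
            field_simp
    linarith
  set u : (Z →L[𝕜] Z)ˣ := Units.oneSub ((1 : Z →L[𝕜] Z) - c⁻¹ • A) h1 with hu
  have hu2 : (u : Z →L[𝕜] Z) = c⁻¹ • A := by
    rw [hu, Units.val_oneSub, sub_sub_cancel]
  refine ⟨c⁻¹ • (u⁻¹ : (Z →L[𝕜] Z)ˣ).val, fun z => ?_⟩
  have h4 : ((u⁻¹ : (Z →L[𝕜] Z)ˣ).val * (u : Z →L[𝕜] Z)) z = z := by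
    rw [Units.inv_mul]
    rfl
  rw [hu2] at h4
  change (u⁻¹ : (Z →L[𝕜] Z)ˣ).val (c⁻¹ • A z) = z at h4
  rw [map_smul] at h4
  exact h4

/-- an ultrafilter on an infinite set -/
theorem exists_ultra {M : Set ℕ} (hM : M.Infinite) :
    ∃ 𝒱 : Ultrafilter ℕ, (𝒱 : Filter ℕ) ≤ atTop ∧ M ∈ 𝒱 := by
  have h1 : (atTop ⊓ 𝓟 M : Filter ℕ).NeBot := by
    rw [← Nat.cofinite_eq_atTop]
    exact cofinite_inf_principal_neBot_iff.2 hM
  refine ⟨Ultrafilter.of (atTop ⊓ 𝓟 M), (Ultrafilter.of_le _).trans inf_le_left, ?_⟩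
  have h2 : ((Ultrafilter.of (atTop ⊓ 𝓟 M) : Ultrafilter ℕ) : Filter ℕ) ≤ 𝓟 M :=
    (Ultrafilter.of_le _).trans inf_le_right
  exact le_principal_iff.1 h2

theorem final_key {C : ℝ} {W : LinfUnit (C0 𝕜) →L[𝕜] LinfUnit Y} {y' : ℕ → StrongDual 𝕜 Y}
    (hC : ∀ m, ‖y' m‖ ≤ C) {Ω : Set ℝ}
    (hD : ∀ m, ∃ K : ℝ, 0 ≤ K ∧ ∀ f : LinfUnit 𝕜,
      ∫ t, ‖((y' m).compLpL ∞ mu (W (tens (ec 𝕜 m) (cut 𝕜 Ω f))) : LinfUnit 𝕜) t‖ ∂mu ≤
        K * ∫ t, ‖f t‖ ∂mu)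
    {α : ℕ → (ℝ → 𝕜) → 𝕜} {α' : (ℝ → 𝕜) → 𝕜} {M : Set ℕ}
    {NN : ℕ → Set ℕ → (ℝ → 𝕜) → 𝕜} {C' : ℝ} (hNN : ∀ m F, DF C' (NN m F))
    (hdom : ∀ m F f, DyA f → ∀ h : LinfUnit (C0 𝕜), (∀ i, i ∉ F → co 𝕜 i h = 0) →
        ‖pr (tL f) (y' m) (W h)‖ ≤ ‖NN m F (fun t => ((‖f t‖ : ℝ) : 𝕜))‖ * ‖h‖)
    {N' : (ℝ → 𝕜) → 𝕜} {m qs qr : ℕ → ℕ} {s r : ℕ → ℝ → 𝕜} {ε : ℝ} (hε : 0 < ε)
    (h : ∀ n, Seqs (fun m => bb W (y' m) Ω m) α α' (fun m => NN m (M \ {m})) N'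
      (fun n => ε / (16 * 8 ^ n)) m qs qr s r n) (hmM : ∀ n, m n ∈ M)
    {Cα : ℝ} (hα : ∀ m, DF Cα (α m))
    {R : LinfUnit Y →L[𝕜] LinfUnit (C0 𝕜)}
    (hR : ∀ (i : ℕ) (F : LinfUnit Y) (n : ℕ) (f : ℝ → 𝕜),
      Dy n f → ∫ t, f t * co 𝕜 i (R F) t ∂mu =
        pr (tL (fun t => f (rn r n t) * s i t)) (y' (m i)) F)
    {Mi : ℕ → LinfUnit 𝕜 →L[𝕜] LinfUnit 𝕜} {Jo : LinfUnit (C0 𝕜) →L[𝕜] LinfUnit (C0 𝕜)}
    (hMi1 : ∀ (i : ℕ) (u : LinfUnit 𝕜), ∫ t, ‖Mi i u t‖ ∂mu ≤ ∫ t, ‖u t‖ ∂mu)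
    (hMi2 : ∀ (i n : ℕ) (f : ℝ → 𝕜), Dy n f →
        Mi i (tL f) = tL (fun t => f (rn r n t) * s i t))
    (hJ1 : ∀ i h, co 𝕜 (m i) (Jo h) = cut 𝕜 Ω (Mi i (co 𝕜 i h)))
    (hJ2 : ∀ k, (∀ i, k ≠ m i) → ∀ h, co 𝕜 k (Jo h) = 0)
    (hJ3 : ∀ h, ‖Jo h‖ ≤ ‖h‖) (i : ℕ) (g : LinfUnit (C0 𝕜)) :
    ‖co 𝕜 i (R (W (Jo g))) - α' (fun _ => 1) • co 𝕜 i g‖ ≤
      (3 * ε + ‖N' (fun _ => 1)‖) * ‖g‖ := by
  set c : 𝕜 := α' (fun _ => 1) with hc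
  set u : LinfUnit 𝕜 := co 𝕜 i g with hu
  have hu1 : ‖u‖ ≤ ‖g‖ := norm_co_le i g
  have hrD : ∀ l, DyA (r l) := fun l => (h l).or.dya
  have hsD : DyA (s i) := (h i).os.dya
  refine norm_le_of_dya (by positivity) fun f hf => ?_
  obtain ⟨n₀, hn₀⟩ := hf
  have hfD : DyA f := ⟨n₀, hn₀⟩
  obtain ⟨Kf, hKf, hKf2⟩ := hfD.bounded
  have hf0 : 0 ≤ ∫ t, ‖f t‖ ∂mu := integral_nonneg fun t => norm_nonneg _
  obtain ⟨K, hK, hK2⟩ := hD (m i)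
  -- the functional of the difference
  have e1 : ∫ t, f t * (co 𝕜 i (R (W (Jo g))) - c • u : LinfUnit 𝕜) t ∂mu =
      ∫ t, f t * co 𝕜 i (R (W (Jo g))) t ∂mu - c * ∫ t, f t * u t ∂mu := by
    have i1 : ∀ v : LinfUnit 𝕜, Integrable (fun t => f t * v t) mu := fun v =>
      Integrable.bdd_mul (c := Kf) (integrable_of_Linf v) hfD.measurable.aestronglyMeasurable
        (by filter_upwards [ae_mem_Ico] with t ht; exact hKf2 t ht)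
    rw [← integral_const_mul, ← integral_sub (i1 _) ((i1 u).const_mul c)]
    refine integral_congr_ae ?_
    filter_upwards [Lp.coeFn_sub (co 𝕜 i (R (W (Jo g)))) (c • u), Lp.coeFn_smul c u]
      with t h1 h2
    rw [h1, Pi.sub_apply, h2, Pi.smul_apply, smul_eq_mul]
    ring
  rw [e1]
  -- approximation
  refine le_of_forall_pos_le_add fun η hη => ?_
  set η' : ℝ := η / (Kf * K + ‖c‖ * Kf + 1) with hη'
  have hden : 0 < Kf * K + ‖c‖ * Kf + 1 := by positivity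
  have hη'0 : 0 < η' := div_pos hη hden
  obtain ⟨v, hvD, hv1, hv2⟩ := exists_dya_approx u hη'0
  obtain ⟨n₁, hn₁⟩ := hvD
  set n := max n₀ n₁ with hn
  have hfn : Dy n f := hn₀.mono (le_max_left _ _)
  have hvn : Dy n v := hn₁.mono (le_max_right _ _)
  have hvD' : DyA v := ⟨n, hvn⟩
  set F : ℝ → 𝕜 := fun t => f (rn r n t) * s i t with hF
  have hFD : DyA F := (dya_comp_rn n (fun l _ => hrD l) f).mul hsD
  have hFb : ∀ t ∈ Ico (0 : ℝ) 1, ‖F t‖ ≤ Kf := by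
    intro t _
    simp only [hF]
    rw [norm_mul, (h i).os.norm t, mul_one]
    exact hKf2 _ (rn_mem r n t)
  rw [hR i _ n f hfn]
  -- decomposition of `Jo g`
  set d : LinfUnit (C0 𝕜) := tens (ec 𝕜 (m i)) (cut 𝕜 Ω (Mi i u)) with hd
  have hdec : Jo g = d + (Jo g - d) := by abel
  have hco : ∀ k, co 𝕜 k (Jo g - d) = if k = m i then 0 else co 𝕜 k (Jo g) := by
    intro k
    rw [map_sub, hd, co_tens]
    split_ifs with hk
    · rw [hk, hJ1, ← hu, sub_self]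
    · rw [sub_zero]
  have hoff : ‖Jo g - d‖ ≤ ‖g‖ := by
    refine norm_le_of_co (norm_nonneg _) fun k => ?_
    rw [hco]
    split_ifs
    · rw [norm_zero]
      exact norm_nonneg _
    · exact (norm_co_le k _).trans (hJ3 g)
  have hoff2 : ∀ k, k ∉ M \ {m i} → co 𝕜 k (Jo g - d) = 0 := by
    intro k hk
    rw [hco]
    split_ifs with hk2
    · rfl
    · refine hJ2 k (fun j hj => hk ⟨?_, hk2⟩) g
      rw [hj]
      exact hmM j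
  have e2 : ‖pr (tL F) (y' (m i)) (W (Jo g - d))‖ ≤
      (‖N' (fun _ => 1)‖ + ε) * (∫ t, ‖f t‖ ∂mu) * ‖g‖ := by
    refine (hdom (m i) (M \ {m i}) F hFD _ hoff2).trans ?_
    have h1 := est_n hε h (hNN (m i) (M \ {m i})) hfn
    exact mul_le_mul h1 hoff (norm_nonneg _) (by positivity)
  -- the diagonal term
  have e3 : ‖pr (tL F) (y' (m i)) (W d) - c * ∫ t, f t * v t ∂mu‖ ≤
      2 * ε * (∫ t, ‖f t‖ ∂mu) * ‖g‖ + Kf * K * η' := by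
    have h1 : d = tens (ec 𝕜 (m i)) (cut 𝕜 Ω (Mi i (tL v))) +
        tens (ec 𝕜 (m i)) (cut 𝕜 Ω (Mi i (u - tL v))) := by
      rw [hd, ← map_add, ← map_add, ← map_add, add_sub_cancel]
    have h2 : pr (tL F) (y' (m i)) (W (tens (ec 𝕜 (m i)) (cut 𝕜 Ω (Mi i (tL v))))) =
        bb W (y' (m i)) Ω (m i) F (fun t => v (rn r n t) * s i t) := by
      unfold bb
      rw [hMi2 i n v hvn]
    have h3 : ‖pr (tL F) (y' (m i))
        (W (tens (ec 𝕜 (m i)) (cut 𝕜 Ω (Mi i (u - tL v)))))‖ ≤ Kf * K * η' := by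
      refine (norm_pr_tL_le' hFD hFb (y' (m i)) _).trans ?_
      rw [mul_assoc]
      refine mul_le_mul_of_nonneg_left ((hK2 _).trans ?_) hKf
      refine mul_le_mul_of_nonneg_left ((hMi1 i _).trans ?_) hK
      refine le_trans (le_of_eq ?_) hv2
      refine integral_congr_ae ?_
      filter_upwards [Lp.coeFn_sub u (tL v), tL_coe hvD'.memLp] with t h4 h5
      rw [h4, Pi.sub_apply, h5]
    have hv0 : ∫ t, ‖v t‖ ∂mu ≤ ‖g‖ :=
      integral_norm_le hvD' fun t _ => (hv1 t).trans hu1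
    have h4 := est_b hε h (i := i) (db_bb W (hC (m i)) Ω (m i))
      (drt_bb W (y' (m i)) Ω (m i) ⟨K, hK, hK2⟩) (hα (m i)) hfn hvn
    have h5 := est_a hε h (i := i) (hα (m i)) (dy_mul hfn hvn)
    have h6 : ∫ t, ‖f t * v t‖ ∂mu ≤ (∫ t, ‖f t‖ ∂mu) * ‖g‖ := by
      rw [← integral_mul_const]
      refine integral_mono (hfD.mul hvD').integrable.norm (hfD.integrable.norm.mul_const _)
        fun t => ?_
      change ‖f t * v t‖ ≤ ‖f t‖ * ‖g‖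
      rw [norm_mul]
      exact mul_le_mul_of_nonneg_left ((hv1 t).trans hu1) (norm_nonneg _)
    have h7 : ε * ((∫ t, ‖f t‖ ∂mu) * ∫ t, ‖v t‖ ∂mu) ≤ ε * ((∫ t, ‖f t‖ ∂mu) * ‖g‖) :=
      mul_le_mul_of_nonneg_left (mul_le_mul_of_nonneg_left hv0 hf0) hε.le
    have h8 : ε * ∫ t, ‖f t * v t‖ ∂mu ≤ ε * ((∫ t, ‖f t‖ ∂mu) * ‖g‖) :=
      mul_le_mul_of_nonneg_left h6 hε.le
    have h9 : pr (tL F) (y' (m i)) (W d) - c * ∫ t, f t * v t ∂mu =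
        (bb W (y' (m i)) Ω (m i) F (fun t => v (rn r n t) * s i t) -
          α (m i) (fun t => f (rn r n t) * v (rn r n t))) +
        (α (m i) (fun t => f (rn r n t) * v (rn r n t)) - c * ∫ t, f t * v t ∂mu) +
        pr (tL F) (y' (m i)) (W (tens (ec 𝕜 (m i)) (cut 𝕜 Ω (Mi i (u - tL v))))) := by
      rw [h1, map_add, map_add, h2]
      ring
    rw [h9]
    refine (norm_add₃_le).trans ?_
    have h10 := h4.trans h7
    have h11 := h5.trans h8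
    have h12 : 2 * ε * (∫ t, ‖f t‖ ∂mu) * ‖g‖ + Kf * K * η' =
        ε * ((∫ t, ‖f t‖ ∂mu) * ‖g‖) + ε * ((∫ t, ‖f t‖ ∂mu) * ‖g‖) + Kf * K * η' := by ring
    rw [h12]
    exact add_le_add (add_le_add h10 h11) h3
  have e4 : ‖c * ∫ t, f t * v t ∂mu - c * ∫ t, f t * u t ∂mu‖ ≤ ‖c‖ * Kf * η' := by
    have i1 : Integrable (fun t => f t * u t) mu :=
      Integrable.bdd_mul (c := Kf) (integrable_of_Linf u) hfD.measurable.aestronglyMeasurable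
        (by filter_upwards [ae_mem_Ico] with t ht; exact hKf2 t ht)
    have i2 : Integrable (fun t => f t * v t) mu := (hfD.mul hvD').integrable
    rw [← mul_sub, ← integral_sub i2 i1, norm_mul, mul_assoc]
    refine mul_le_mul_of_nonneg_left ?_ (norm_nonneg _)
    refine (norm_integral_le_integral_norm _).trans ?_
    have h1 : ∫ t, ‖f t * v t - f t * u t‖ ∂mu ≤ ∫ t, Kf * ‖u t - v t‖ ∂mu := by
      refine integral_mono_of_nonneg (Eventually.of_forall fun t => norm_nonneg _)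
        (((integrable_of_Linf u).sub hvD'.integrable).norm.const_mul Kf) ?_
      filter_upwards [ae_mem_Ico] with t ht
      rw [← mul_sub, norm_mul, norm_sub_rev (v t)]
      exact mul_le_mul_of_nonneg_right (hKf2 t ht) (norm_nonneg _)
    refine h1.trans ?_
    rw [integral_const_mul]
    exact mul_le_mul_of_nonneg_left hv2 hKf
  have e5 : pr (tL F) (y' (m i)) (W (Jo g)) - c * ∫ t, f t * u t ∂mu =
      pr (tL F) (y' (m i)) (W (Jo g - d)) +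
      (pr (tL F) (y' (m i)) (W d) - c * ∫ t, f t * v t ∂mu) +
      (c * ∫ t, f t * v t ∂mu - c * ∫ t, f t * u t ∂mu) := by
    have h1 : pr (tL F) (y' (m i)) (W (Jo g)) = pr (tL F) (y' (m i)) (W d) +
        pr (tL F) (y' (m i)) (W (Jo g - d)) := by
      rw [← map_add, ← map_add, add_sub_cancel]
    rw [h1]
    ring
  rw [e5]
  refine (norm_add₃_le).trans ?_
  have e6 : Kf * K * η' + ‖c‖ * Kf * η' ≤ η := by
    have h1 : (Kf * K + ‖c‖ * Kf + 1) * η' = η := by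
      rw [hη']
      field_simp
    nlinarith
  have e7 : (3 * ε + ‖N' (fun _ => 1)‖) * ‖g‖ * ∫ t, ‖f t‖ ∂mu =
      (‖N' (fun _ => 1)‖ + ε) * (∫ t, ‖f t‖ ∂mu) * ‖g‖ +
        2 * ε * (∫ t, ‖f t‖ ∂mu) * ‖g‖ := by ring
  rw [e7]
  linarith

theorem final {C : ℝ} {W : LinfUnit (C0 𝕜) →L[𝕜] LinfUnit Y} {y' : ℕ → StrongDual 𝕜 Y}
    (hC : ∀ m, ‖y' m‖ ≤ C) {Ω : Set ℝ} (hΩ : MeasurableSet Ω)
    (hD : ∀ m, ∃ K : ℝ, 0 ≤ K ∧ ∀ f : LinfUnit 𝕜,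
      ∫ t, ‖((y' m).compLpL ∞ mu (W (tens (ec 𝕜 m) (cut 𝕜 Ω f))) : LinfUnit 𝕜) t‖ ∂mu ≤
        K * ∫ t, ‖f t‖ ∂mu)
    {𝒰 : Ultrafilter ℕ} (h𝒰 : (𝒰 : Filter ℕ) ≤ atTop) {κ : ℝ} (hκ : 0 < κ) {I : Set ℕ}
    (hI : I.Infinite)
    (hI2 : ∀ m ∈ I, κ ≤ RCLike.re (ulim 𝒰 (fun q => tr (bb W (y' m) Ω m) q (fun _ => 1)))) :
    ∃ (R : LinfUnit Y →L[𝕜] LinfUnit (C0 𝕜)) (J : LinfUnit (C0 𝕜) →L[𝕜] LinfUnit (C0 𝕜)),
      ∀ g, R (W (J g)) = g := by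
  have hC0 : 0 ≤ C := (norm_nonneg _).trans (hC 0)
  choose NN hNN1 hNN2 hNN3 hNN4 using fun m => exists_NN W (y' m)
  set C' : ℝ := C * ‖W‖ with hC'
  have hNN : ∀ m F, DF C' (NN m F) := fun m F =>
    ⟨(hNN1 m F).add, (hNN1 m F).smul, fun f hf => ((hNN1 m F).bd f hf).trans
      (mul_le_mul_of_nonneg_right (mul_le_mul_of_nonneg_right (hC m) (norm_nonneg W))
        (integral_nonneg fun t => norm_nonneg _))⟩
  have hone : ∫ _ : ℝ, ‖(1 : 𝕜)‖ ∂mu = 1 := by simp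
  have hν : ∀ m F, ‖NN m F (fun _ => 1)‖ ≤ C' := by
    intro m F
    have h1 := (hNN m F).bd (fun _ => 1) (DyA.const 1)
    rwa [hone, mul_one] at h1
  obtain ⟨N₀, hN₀⟩ := exists_nat_ge (C' / (κ / 8))
  obtain ⟨M, hMI, hMinf, hMν⟩ := rosenthal_aux (fun m F => ‖NN m F (fun _ => 1)‖)
    (fun m F => norm_nonneg _) (fun m F F' hF => hNN3 m F F' hF)
    (fun m F F' hF => hNN4 m F F' hF) (show (0 : ℝ) < κ / 8 by positivity) N₀ I hI (by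
      intro m _
      refine (hν m I).trans ?_
      rwa [div_le_iff₀ (by positivity)] at hN₀)
  obtain ⟨𝒱, h𝒱, hM𝒱⟩ := exists_ultra hMinf
  have hDr : ∀ m, DRt (bb W (y' m) Ω m) := fun m => drt_bb W (y' m) Ω m (hD m)
  obtain ⟨m, qs, qr, s, r, hmM, hseq⟩ := exists_seqs (b := fun m => bb W (y' m) Ω m)
    (fun m => db_bb W (hC m) Ω m) hDr h𝒰 (N := fun m => NN m (M \ {m})) (C' := C')
    (fun m => hNN m _) h𝒱 hM𝒱 (η := fun n => (κ / 8) / (16 * 8 ^ n)) (fun n => by positivity)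
  set α : ℕ → (ℝ → 𝕜) → 𝕜 := fun m f => ulim 𝒰 (fun q => tr (bb W (y' m) Ω m) q f) with hα
  set α' : (ℝ → 𝕜) → 𝕜 := fun f => ulim 𝒱 (fun m => α m f) with hα'
  set N' : (ℝ → 𝕜) → 𝕜 := fun f => ulim 𝒱 (fun m => NN m (M \ {m}) f) with hN'
  have hαD : ∀ m, DF C' (α m) := fun m => DF.tr (db_bb W (hC m) Ω m) h𝒰
  have hN'1 : ‖N' (fun _ => 1)‖ ≤ κ / 8 := by
    refine norm_ulim_le 𝒱 ?_
    filter_upwards [hM𝒱] with m hm
    exact (hMν m hm).le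
  have hα'1 : κ ≤ ‖α' (fun _ => 1)‖ := by
    have h1 : Tendsto (fun m => α m (fun _ => 1)) 𝒱 (𝓝 (α' (fun _ => 1))) :=
      tendsto_ulim 𝒱 (C := C' * ∫ _ : ℝ, ‖(1 : 𝕜)‖ ∂mu)
        (Eventually.of_forall fun m => (hαD m).bd _ (DyA.const 1))
    have h2 : Tendsto (fun m => RCLike.re (α m (fun _ => 1))) 𝒱
        (𝓝 (RCLike.re (α' (fun _ => 1)))) :=
      (RCLike.continuous_re.tendsto _).comp h1
    have h3 : κ ≤ RCLike.re (α' (fun _ => 1)) := by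
      refine ge_of_tendsto h2 ?_
      filter_upwards [hM𝒱] with m hm
      exact hI2 m (hMI hm)
    exact h3.trans (RCLike.re_le_norm _)
  have hr : ∀ l, Osc (qr l) (r l) := fun l => (hseq l).or
  have hs : ∀ l, Osc (qs l) (s l) := fun l => (hseq l).os
  have h1 : ∀ l, qs l < qr l := fun l => (hseq l).lt
  have h2 : ∀ l, qr l < qs (l + 1) := fun l => ((hseq (l + 1)).prev l (Nat.lt_succ_self l)).2
  have hqr : StrictMono qr := strictMono_nat_of_lt_succ fun l => (h2 l).trans (h1 (l + 1))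
  obtain ⟨R, hR⟩ := exists_R hr hs h1 h2 (fun i => y' (m i)) (fun i => hC (m i))
  obtain ⟨Mi, Jo, hMi1, hMi2, hJ1, hJ2, hJ3⟩ := exists_J hr hqr (fun l => (hs l).dya)
    (fun l => (hs l).norm) (Seqs.strictMono hseq) hΩ
  have hkey : ∀ g, ‖R (W (Jo g)) - α' (fun _ => 1) • g‖ ≤ κ / 2 * ‖g‖ := by
    intro g
    refine norm_le_of_co (by positivity) fun i => ?_
    rw [map_sub, map_smul]
    refine (final_key hC hD hNN hNN2 (show (0 : ℝ) < κ / 8 by positivity) hseq hmM hαD hR hMi1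
      hMi2 hJ1 hJ2 hJ3 i g).trans ?_
    refine mul_le_mul_of_nonneg_right ?_ (norm_nonneg _)
    linarith
  obtain ⟨B, hB⟩ := exists_left_inv (R.comp (W.comp Jo)) hκ hα'1 hkey
  exact ⟨B.comp R, Jo, fun g => hB g⟩

end Pool.Agent.LinfC
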