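import Pool.Agent.LinfC.Osc0

/-!
# Package LinfC-GlueB: oscillating functionals tend to zero

*`tendsto_pr_osc`.* `pr_tendsto` of `LinfX/Main.lean`: `s n = θ n * radk 𝕜 (q n + 1)` with signs
`θ n : ℝ → 𝕜` of level `q n`; the real function `σ n t = RCLike.re (θ n t)` is a sign of level
`q n` with `(σ n t : 𝕜) = θ n t`, so
`tL (s n) = toL 𝕜 (fun t => rad (q n + 1) t * σ n t)` (`tL_coe`, `toL_coe`, `radk_coe`,
`Lp.ext`).

*`pr_self`.* `pr (tL s) y' (tens x (cut 𝕜 Ω (tL s))) = mu.real Ω` if `y' x = 1`: `pr_apply`,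
`tens_coe`, `tL_coe`, `cut_coe`, `Osc.sq`: the integrand is a.e. the indicator function of `Ω`
(`integral_indicator_one`-like lemmas).

Difficulty: 0.6 h.
-/

set_option autoImplicit false

open MeasureTheory Set Filter Topology
open scoped ENNReal

namespace Pool.Agent.LinfC

open Pool.Agent.LinfX

variable {𝕜 : Type*} [RCLike 𝕜] {Y : Type*} [NormedAddCommGroup Y] [NormedSpace 𝕜 Y]

theorem tendsto_pr_osc (g : LinfUnit Y) {q : ℕ → ℕ} (hq : ∀ n, n ≤ q n) {s : ℕ → ℝ → 𝕜}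
    (hs : ∀ n, Osc (q n) (s n)) (y' : ℕ → StrongDual 𝕜 Y) {C : ℝ} (hC : ∀ n, ‖y' n‖ ≤ C) :
    Tendsto (fun n => pr (tL (s n)) (y' n) g) atTop (𝓝 0) := by
  choose θ h1 h2 h3 using hs
  have hcoe : ∀ n t, ((RCLike.re (θ n t) : ℝ) : 𝕜) = θ n t := by
    intro n t
    rcases h2 n t with h | h <;> rw [h] <;> simp
  have hσ : ∀ n t, RCLike.re (θ n t) = 0 ∨ RCLike.re (θ n t) = 1 ∨ RCLike.re (θ n t) = -1 := by
    intro n t
    rcases h2 n t with h | h <;> rw [h] <;> simp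
  have hσd : ∀ n, Dy (q n) (fun t => (RCLike.re (θ n t) : ℝ)) := by
    intro n t t' h
    change RCLike.re (θ n t) = RCLike.re (θ n t')
    rw [h1 n t t' h]
  have hmain := pr_tendsto g q hq (fun n t => RCLike.re (θ n t)) hσ hσd y' hC
  have heq : ∀ n, tL (s n) = toL 𝕜 (fun t => rad (q n + 1) t * RCLike.re (θ n t)) := by
    intro n
    have hd : DyA (s n) := ⟨q n + 1, Osc.dy ⟨θ n, h1 n, h2 n, h3 n⟩⟩
    have hfm : Measurable (fun t => rad (q n + 1) t * RCLike.re (θ n t)) :=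
      (rad_meas _).mul (hσd n).measurable
    have hfb : ∀ t, |rad (q n + 1) t * RCLike.re (θ n t)| ≤ 1 := by
      intro t
      rw [abs_mul, rad_abs, one_mul]
      rcases hσ n t with h | h | h <;> rw [h] <;> simp
    apply Lp.ext
    filter_upwards [tL_coe hd.memLp, toL_coe (𝕜 := 𝕜) hfm hfb] with t ht1 ht2
    rw [ht1, ht2, h3, radk_coe, RCLike.ofReal_mul, mul_comm]
    congr 1
    exact (hcoe n t).symm
  simpa only [heq] using hmain

theorem pr_self {q : ℕ} {s : ℝ → 𝕜} (hs : Osc q s) {Ω : Set ℝ} (hΩ : MeasurableSet Ω)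
    {y' : StrongDual 𝕜 Y} {x : Y} (hx : y' x = 1) :
    pr (tL s) y' (tens x (cut 𝕜 Ω (tL s))) = ((mu.real Ω : ℝ) : 𝕜) := by
  rw [pr_apply]
  have h1 : ∫ t, tL s t * y' (tens x (cut 𝕜 Ω (tL s)) t) ∂mu =
      ∫ t, ((Ω.indicator (1 : ℝ → ℝ) t : ℝ) : 𝕜) ∂mu := by
    apply integral_congr_ae
    filter_upwards [tL_coe hs.dya.memLp, tens_coe x (cut 𝕜 Ω (tL s)),
      cut_coe (𝕜 := 𝕜) hΩ (tL s)] with t ht1 ht2 ht3
    rw [ht2, ht3, map_smul, hx, smul_eq_mul, mul_one, ht1]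
    by_cases ht : t ∈ Ω
    · rw [indicator_of_mem ht, indicator_of_mem ht, ht1, hs.sq]
      simp
    · rw [indicator_of_notMem ht, indicator_of_notMem ht]
      simp
  rw [h1, integral_ofReal, integral_indicator_one hΩ]

end Pool.Agent.LinfC
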