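import Pool.Agent.LinfC.GlueA
import Pool.Agent.LinfC.GlueB

/-!
# Package LinfC-Glue: truncation at a fixed index is enough

Suppose the claim is false. Then for all `K`, `M` there are `m ≥ M`, `q ≥ M`, `s` with `Osc q s`, `Ω`
measurable with
`re (pr (tL s) (y' m) (S (trunc K (T (tens (J (ec 𝕜 m)) (cut 𝕜 Ω (tL s))))))) < mu.real Ω - 1 / 4`.
Choose recursively for `K = k`, `M = max k (m (k - 1) + 1)`: numbers `m k` (strictly
increasing), `q k ≥ k`, `s k`, `Ω k` (recursion on `ℕ`: iterate a choice function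
`(k, M) ↦ (m, q, s, Ω)`). Put `f k = cut 𝕜 (Ω k) (tL (s k))` (norm `≤ 1`:
`norm_cut_le`, `norm_tL_le`, `Osc.norm`), take `U` from `exists_U`, and
`w n = (pr (tL (s n)) (y' (m n))).comp (S.comp U)`. Then `w n a → 0` for every `a`
(`tendsto_pr_osc`), `‖w n‖` is bounded (`norm_pr_le`, `integral_norm_tL`), so by `diag_small`
of `LinfX/Rosenthal.lean` there is `n` with `‖w n (ev 𝕜 n)‖ < 1 / 4`. By `exists_U`, `hST` and
`pr_self`, `w n (ev 𝕜 n) = mu.real (Ω n) - pr (tL (s n)) (y' (m n)) (S (trunc n (T (...))))`,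
so the real part of the last term is `> mu.real (Ω n) - 1 / 4`: contradiction with the choice
for `K = n`.

Difficulty: 0.9 h.
-/

set_option autoImplicit false

open MeasureTheory Set Filter Topology
open scoped ENNReal

namespace Pool.Agent.LinfC

open Pool.Agent.LinfX

variable {𝕜 : Type*} [RCLike 𝕜] {Y : Type*} [NormedAddCommGroup Y] [NormedSpace 𝕜 Y]
variable {E : ℕ → Type*} [∀ i, NormedAddCommGroup (E i)] [∀ i, NormedSpace 𝕜 (E i)]

theorem glue (T : LinfUnit Y →L[𝕜] lp E ∞) (S : lp E ∞ →L[𝕜] LinfUnit Y)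
    (hST : ∀ g, S (T g) = g) (J : C0 𝕜 →L[𝕜] Y) (y' : ℕ → StrongDual 𝕜 Y) {C : ℝ}
    (hC : ∀ m, ‖y' m‖ ≤ C) (hy' : ∀ m, y' m (J (ec 𝕜 m)) = 1) :
    ∃ K M : ℕ, ∀ m, M ≤ m → ∀ q, M ≤ q → ∀ s : ℝ → 𝕜, Osc q s → ∀ Ω : Set ℝ, MeasurableSet Ω →
      mu.real Ω - 1 / 4 ≤ RCLike.re (pr (tL s) (y' m)
        (S (trunc (𝕜 := 𝕜) K (T (tens (J (ec 𝕜 m)) (cut 𝕜 Ω (tL s))))))) := by
  by_contra hcon
  push Not at hcon
  choose fm hfm fq hfq fs hfs fΩ hfΩ hlt using hcon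
  obtain ⟨Mf, hM0, hM1⟩ : ∃ Mf : ℕ → ℕ, Mf 0 = 0 ∧
      ∀ k, Mf (k + 1) = max (k + 1) (fm k (Mf k) + 1) :=
    ⟨fun k => Nat.rec 0 (fun k Mk => max (k + 1) (fm k Mk + 1)) k, rfl, fun _ => rfl⟩
  have hMk : ∀ k, k ≤ Mf k := by
    intro k
    cases k with
    | zero => exact Nat.zero_le _
    | succ k => rw [hM1]; exact le_max_left _ _
  have hmono : StrictMono fun k => fm k (Mf k) := by
    refine strictMono_nat_of_lt_succ fun k => ?_
    have h1 := hfm (k + 1) (Mf (k + 1))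
    have h2 : fm k (Mf k) + 1 ≤ Mf (k + 1) := by rw [hM1]; exact le_max_right _ _
    change fm k (Mf k) < fm (k + 1) (Mf (k + 1))
    omega
  have hos : ∀ k, Osc (fq k (Mf k)) (fs k (Mf k)) := fun k => hfs k (Mf k)
  have hf1 : ∀ n, ‖cut 𝕜 (fΩ n (Mf n)) (tL (fs n (Mf n)))‖ ≤ 1 := fun n =>
    (norm_cut_le _ _).trans (norm_tL_le (hos n).dya.memLp zero_le_one
      fun t _ => ((hos n).norm t).le)
  obtain ⟨U, hU⟩ := exists_U T J hmono.injective
    (fun n => cut 𝕜 (fΩ n (Mf n)) (tL (fs n (Mf n)))) hf1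
  have hC0 : 0 ≤ C := (norm_nonneg _).trans (hC 0)
  have hint : ∀ n, ∫ t, ‖tL (fs n (Mf n)) t‖ ∂mu = 1 := by
    intro n
    rw [integral_norm_tL (hos n).dya.memLp]
    simp only [(hos n).norm]
    simp
  obtain ⟨n, hn⟩ := diag_small
    (fun n => (pr (tL (fs n (Mf n))) (y' (fm n (Mf n)))).comp (S.comp U))
    (C := C * ‖S.comp U‖) (fun n => by
      refine ContinuousLinearMap.opNorm_le_bound _ (by positivity) fun a => ?_
      rw [ContinuousLinearMap.comp_apply]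
      refine (norm_pr_le _ _ _).trans ?_
      rw [hint n, one_mul, mul_assoc]
      exact mul_le_mul (hC _) ((S.comp U).le_opNorm a) (norm_nonneg _) hC0)
    (fun a => by
      exact tendsto_pr_osc (S (U a)) (fun n => (hMk n).trans (hfq n (Mf n))) hos
        (fun n => y' (fm n (Mf n))) (fun n => hC _))
    (δ := 1 / 4) (by norm_num)
  have h1 : pr (tL (fs n (Mf n))) (y' (fm n (Mf n))) (S (U (ev 𝕜 n))) =
      ((mu.real (fΩ n (Mf n)) : ℝ) : 𝕜) - pr (tL (fs n (Mf n))) (y' (fm n (Mf n)))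
        (S (trunc (𝕜 := 𝕜) n (T (tens (J (ec 𝕜 (fm n (Mf n))))
          (cut 𝕜 (fΩ n (Mf n)) (tL (fs n (Mf n)))))))) := by
    rw [hU n, map_sub, map_sub, hST, pr_self (hos n) (hfΩ n (Mf n)) (hy' _)]
  have h2 := RCLike.re_le_norm (pr (tL (fs n (Mf n))) (y' (fm n (Mf n))) (S (U (ev 𝕜 n))))
  have h3 : ‖pr (tL (fs n (Mf n))) (y' (fm n (Mf n))) (S (U (ev 𝕜 n)))‖ < 1 / 4 := hn
  rw [h1, map_sub, RCLike.ofReal_re, ← h1] at h2
  have h4 := hlt n (Mf n)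
  linarith

end Pool.Agent.LinfC
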