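import Pool.Agent.LinfC.Osc0

/-!
# Package LinfC-GlueA: the glued operator

*`exists_U`.* As `U`, `hbound`, `hbdU`, `hUev` in the proof of `main` in `LinfX/Main.lean`:
`(U a) k = (T (∑ n ∈ range (k + 1), a n • tens (J (ec 𝕜 (m n))) (f n))) k`, with the bound
`‖∑ n ∈ G, a n • tens (J (ec 𝕜 (m n))) (f n)‖ ≤ ‖J‖ * ‖a‖` (a.e. the value is
`J (∑ n ∈ G, (a n * f n t) • ec 𝕜 (m n))`, and `norm_comb` after a change of the index:
`m` is injective, so `∑ n ∈ G, b n • ec (m n)` is `∑ k ∈ G.image m, b' k • ec k`,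
`Finset.sum_image`; or prove a version of `norm_comb` for injective `m` in the same way).
-/

set_option autoImplicit false

open MeasureTheory Set Filter Topology
open scoped ENNReal

namespace Pool.Agent.LinfC

open Pool.Agent.LinfX

variable {𝕜 : Type*} [RCLike 𝕜] {Y : Type*} [NormedAddCommGroup Y] [NormedSpace 𝕜 Y]
variable {E : ℕ → Type*} [∀ i, NormedAddCommGroup (E i)] [∀ i, NormedSpace 𝕜 (E i)]

private theorem norm_comb_inj {m : ℕ → ℕ} (hm : Function.Injective m) (G : Finset ℕ)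
    (b : ℕ → 𝕜) {B : ℝ} (hB : 0 ≤ B) (hb : ∀ n, ‖b n‖ ≤ B) :
    ‖∑ n ∈ G, b n • ec 𝕜 (m n)‖ ≤ B := by
  have e : ∑ n ∈ G, b n • ec 𝕜 (m n) =
      ∑ k ∈ G.map ⟨m, hm⟩, b (Function.invFun m k) • ec 𝕜 k := by
    rw [Finset.sum_map]
    refine Finset.sum_congr rfl fun n _ => ?_
    change b n • ec 𝕜 (m n) = b (Function.invFun m (m n)) • ec 𝕜 (m n)
    rw [Function.leftInverse_invFun hm n]
  rw [e]
  exact norm_comb _ _ hB fun n => hb _

theorem exists_U (T : LinfUnit Y →L[𝕜] lp E ∞) (J : C0 𝕜 →L[𝕜] Y) {m : ℕ → ℕ}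
    (hm : Function.Injective m) (f : ℕ → LinfUnit 𝕜) (hf : ∀ n, ‖f n‖ ≤ 1) :
    ∃ U : lp (fun _ : ℕ => 𝕜) ∞ →L[𝕜] lp E ∞, ∀ n,
      U (ev 𝕜 n) = T (tens (J (ec 𝕜 (m n))) (f n)) -
        trunc (𝕜 := 𝕜) n (T (tens (J (ec 𝕜 (m n))) (f n))) := by
  set x : ℕ → Y := fun n => J (ec 𝕜 (m n)) with hx
  have hfle : ∀ n, ∀ᵐ t ∂mu, ‖f n t‖ ≤ 1 := fun n => by
    filter_upwards [ae_norm_le (f n)] with t ht
    exact ht.trans (hf n)
  -- bound of the partial sums
  have hbound : ∀ (a : lp (fun _ : ℕ => 𝕜) ∞) (G : Finset ℕ),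
      ‖∑ n ∈ G, a n • tens (x n) (f n)‖ ≤ ‖J‖ * ‖a‖ := by
    intro a G
    apply norm_le_of_ae (by positivity)
    have e1 := Lp.coeFn_finsetSum (p := ∞) (μ := mu) G (fun n => a n • tens (x n) (f n))
    have e2 : ∀ᵐ t ∂mu, ∀ n, (a n • tens (x n) (f n) : Lp Y ∞ mu) t = (a n * f n t) • x n := by
      rw [ae_all_iff]
      intro n
      filter_upwards [Lp.coeFn_smul (a n) (tens (x n) (f n)), tens_coe (x n) (f n)] with t h1 h2
      rw [h1, Pi.smul_apply, h2, smul_smul]
    have e3 : ∀ᵐ t ∂mu, ∀ n, ‖f n t‖ ≤ 1 := ae_all_iff.2 hfle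
    filter_upwards [e1, e2, e3] with t h1 h2 h3
    rw [h1, Finset.sum_apply, Finset.sum_congr rfl (fun n _ => h2 n)]
    have h4 : ∑ n ∈ G, (a n * f n t) • x n = J (∑ n ∈ G, (a n * f n t) • ec 𝕜 (m n)) := by
      rw [map_sum]
      apply Finset.sum_congr rfl
      intro n _
      rw [map_smul]
    rw [h4]
    refine (J.le_opNorm _).trans ?_
    gcongr
    apply norm_comb_inj hm G _ (norm_nonneg _)
    intro n
    rw [norm_mul]
    have h5 := lp.norm_apply_le_norm ENNReal.top_ne_zero a n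
    calc ‖a n‖ * ‖f n t‖ ≤ ‖a‖ * 1 :=
          mul_le_mul h5 (h3 n) (norm_nonneg _) (norm_nonneg _)
      _ = ‖a‖ := mul_one _
  have hbdU : ∀ (a : lp (fun _ : ℕ => 𝕜) ∞) (k : ℕ),
      ‖(T (∑ n ∈ Finset.range (k + 1), a n • tens (x n) (f n))) k‖ ≤ ‖T‖ * (‖J‖ * ‖a‖) := by
    intro a k
    refine (lp.norm_apply_le_norm ENNReal.top_ne_zero _ k).trans ((T.le_opNorm _).trans ?_)
    exact mul_le_mul_of_nonneg_left (hbound a _) (norm_nonneg _)
  let U : lp (fun _ : ℕ => 𝕜) ∞ →L[𝕜] lp E ∞ := LinearMap.mkContinuous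
    { toFun := fun a => ⟨fun k => (T (∑ n ∈ Finset.range (k + 1), a n • tens (x n) (f n))) k,
        memℓp_infty ⟨‖T‖ * (‖J‖ * ‖a‖), by rintro _ ⟨k, rfl⟩; exact hbdU a k⟩⟩
      map_add' := by
        intro a b
        ext k
        change (T (∑ n ∈ Finset.range (k + 1), (a n + b n) • tens (x n) (f n))) k =
          (T (∑ n ∈ Finset.range (k + 1), a n • tens (x n) (f n))) k +
          (T (∑ n ∈ Finset.range (k + 1), b n • tens (x n) (f n))) k
        simp only [add_smul, Finset.sum_add_distrib, map_add]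
        rfl
      map_smul' := by
        intro r a
        ext k
        change (T (∑ n ∈ Finset.range (k + 1), (r • a n) • tens (x n) (f n))) k =
          r • (T (∑ n ∈ Finset.range (k + 1), a n • tens (x n) (f n))) k
        have : ∑ n ∈ Finset.range (k + 1), (r • a n) • tens (x n) (f n) =
            r • ∑ n ∈ Finset.range (k + 1), a n • tens (x n) (f n) := by
          rw [Finset.smul_sum]
          apply Finset.sum_congr rfl
          intro n _
          rw [smul_assoc]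
        rw [this, map_smul]
        rfl } (‖T‖ * ‖J‖) (by
      intro a
      apply lp.norm_le_of_forall_le (by positivity)
      intro k
      refine (hbdU a k).trans (le_of_eq ?_)
      ring)
  have hU : ∀ a k, (U a) k = (T (∑ n ∈ Finset.range (k + 1), a n • tens (x n) (f n))) k :=
    fun a k => rfl
  refine ⟨U, fun n => ?_⟩
  ext k
  have e0 : (T (tens (x n) (f n)) - trunc (𝕜 := 𝕜) n (T (tens (x n) (f n))) : lp E ∞) k =
    (T (tens (x n) (f n))) k - trunc (𝕜 := 𝕜) n (T (tens (x n) (f n))) k := rfl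
  rw [hU, e0, trunc_apply]
  by_cases hk : k < n
  · rw [if_pos hk, sub_self]
    have : ∑ i ∈ Finset.range (k + 1), ev 𝕜 n i • tens (x i) (f i) = 0 := by
      apply Finset.sum_eq_zero
      intro i hi
      rw [ev_ne (by rw [Finset.mem_range] at hi; omega), zero_smul]
    rw [this, map_zero]
    rfl
  · rw [if_neg hk, sub_zero]
    have : ∑ i ∈ Finset.range (k + 1), ev 𝕜 n i • tens (x i) (f i) = tens (x n) (f n) := by
      rw [Finset.sum_eq_single_of_mem n (by rw [Finset.mem_range]; omega)]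
      · rw [ev_self, one_smul]
      · intro i _ hi
        rw [ev_ne hi, zero_smul]
    rw [this]

end Pool.Agent.LinfC
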