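import Pool.Agent.LinfC.Rho
import Pool.Agent.LinfC.Mul

/-!
# Package LinfC-JJA: composition with `ro r`

*`exists_Mi`.* `ρ = ro r` is measure preserving (`measurePreserving_ro`). `M u = mulL s (u ∘ ρ)` with
the composition operator (`Lp.compMeasurePreserving`, `Lp.compMeasurePreservingₗᵢ`,
`Lp.coeFn_compMeasurePreserving`). Then `‖M u t‖ = ‖u (ro r t)‖` a.e. (`mulL_coe`),
`∫ ‖M u‖ = ∫ ‖u ∘ ρ‖ = ∫ ‖u‖` (`mu.map ρ = mu`, `integral_map`, or
`MeasurePreserving.integral_comp'`-like lemmas), and for `Dy n f`: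
`M (tL f) t = s t * f (ro r t) = f (rn r n t) * s t` a.e. (`tL_coe` composed with `ρ`:
`MeasurePreserving.quasiMeasurePreserving.ae_eq_comp`, `comp_ro`; `DyA.memLp`, `dya_comp_rn`).

Difficulty: 0.8 h.
-/

set_option autoImplicit false

open MeasureTheory Set Filter Topology
open scoped ENNReal

namespace Pool.Agent.LinfC

open Pool.Agent.LinfX

variable {𝕜 : Type*} [RCLike 𝕜]

theorem exists_Mi {r : ℕ → ℝ → 𝕜} {qr : ℕ → ℕ} (hr : ∀ l, Osc (qr l) (r l))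
    (hqr : StrictMono qr) {s : ℝ → 𝕜} (hs : DyA s) (hs1 : ∀ t, ‖s t‖ = 1) :
    ∃ M : LinfUnit 𝕜 →L[𝕜] LinfUnit 𝕜,
      (∀ u : LinfUnit 𝕜, ∀ᵐ t ∂mu, ‖M u t‖ = ‖u (ro r t)‖) ∧
      (∀ u : LinfUnit 𝕜, ∫ t, ‖M u t‖ ∂mu ≤ ∫ t, ‖u t‖ ∂mu) ∧
      ∀ (n : ℕ) (f : ℝ → 𝕜), Dy n f → M (tL f) = tL (fun t => f (rn r n t) * s t) := by
  have hmp : MeasurePreserving (ro r) mu mu := measurePreserving_ro hr hqr
  have hs2 : ∀ t, ‖s t‖ ≤ 1 := fun t => (hs1 t).le
  refine ⟨(mulL s).comp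
    (Lp.compMeasurePreservingₗᵢ 𝕜 (ro r) hmp : LinfUnit 𝕜 →ₗᵢ[𝕜] LinfUnit 𝕜).toContinuousLinearMap,
    ?_, ?_, ?_⟩
  · intro u
    filter_upwards [mulL_coe hs.measurable hs2 (Lp.compMeasurePreserving (ro r) hmp u),
      Lp.coeFn_compMeasurePreserving u hmp] with t h1 h2
    change ‖mulL s (Lp.compMeasurePreserving (ro r) hmp u) t‖ = _
    rw [h1, h2, norm_mul, hs1, one_mul]
    rfl
  · intro u
    have h0 : ∀ᵐ t ∂mu, ‖mulL s (Lp.compMeasurePreserving (ro r) hmp u) t‖ = ‖u (ro r t)‖ := by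
      filter_upwards [mulL_coe hs.measurable hs2 (Lp.compMeasurePreserving (ro r) hmp u),
        Lp.coeFn_compMeasurePreserving u hmp] with t h1 h2
      rw [h1, h2, norm_mul, hs1, one_mul]
      rfl
    change ∫ t, ‖mulL s (Lp.compMeasurePreserving (ro r) hmp u) t‖ ∂mu ≤ _
    rw [integral_congr_ae h0]
    apply le_of_eq
    have h3 : AEStronglyMeasurable (fun t => ‖u t‖) (Measure.map (ro r) mu) := by
      rw [hmp.map_eq]
      exact (Lp.aestronglyMeasurable u).norm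
    have h4 := integral_map hmp.measurable.aemeasurable h3
    rw [hmp.map_eq] at h4
    exact h4.symm
  · intro n f hf
    have hfA : DyA f := ⟨n, hf⟩
    have h5 : DyA (fun t => f (rn r n t) * s t) := (dya_comp_rn n (fun l _ => (hr l).dya) f).mul hs
    apply Lp.ext
    have h6 : (fun t => (tL f : ℝ → 𝕜) (ro r t)) =ᵐ[mu] fun t => f (ro r t) :=
      hmp.quasiMeasurePreserving.ae_eq_comp (tL_coe hfA.memLp)
    filter_upwards [mulL_coe hs.measurable hs2 (Lp.compMeasurePreserving (ro r) hmp (tL f)),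
      Lp.coeFn_compMeasurePreserving (tL f) hmp, h6, comp_ro hr hqr hf, tL_coe h5.memLp]
      with t h1 h2 h3 h4 h7
    change mulL s (Lp.compMeasurePreserving (ro r) hmp (tL f)) t = _
    rw [h1, h2, h7, ← h4]
    change s t * (tL f : ℝ → 𝕜) (ro r t) = _
    rw [h3, mul_comm]

end Pool.Agent.LinfC
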