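import Pool.Agent.LinfC.Final
import Pool.Agent.LinfC.Glue
import Pool.Agent.LinfC.Dens

/-!
# Theorem A
-/

set_option autoImplicit false

open MeasureTheory Set Filter Topology
open scoped ENNReal

namespace Pool.Agent.LinfC

open Pool.Agent.LinfX

variable {𝕜 : Type*} [RCLike 𝕜] {Y : Type*} [NormedAddCommGroup Y] [NormedSpace 𝕜 Y]
variable {E : ℕ → Type*} [∀ i, NormedAddCommGroup (E i)] [∀ i, NormedSpace 𝕜 (E i)]

/-- the `j`-th component -/
noncomputable def cmp (j : ℕ) : lp E ∞ →L[𝕜] lp E ∞ :=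
  (lp.singleContinuousLinearMap 𝕜 E ∞ j).comp (lp.evalCLM 𝕜 E ∞ j)

theorem trunc_eq_sum (K : ℕ) (a : lp E ∞) :
    trunc (𝕜 := 𝕜) K a = ∑ j ∈ Finset.range K, cmp (𝕜 := 𝕜) j a := by
  classical
  ext i
  rw [trunc_apply, lp.coeFn_sum, Finset.sum_apply]
  have h1 : ∀ j, (cmp (𝕜 := 𝕜) j a : lp E ∞) i = if i = j then a i else 0 := by
    intro j
    change (lp.single ∞ j (a j) : lp E ∞) i = _
    by_cases h : i = j
    · subst h
      rw [lp.single_apply_self, if_pos rfl]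
    · rw [lp.single_apply_ne _ _ _ h, if_neg h]
  rw [Finset.sum_congr rfl fun j _ => h1 j, Finset.sum_ite_eq]
  simp only [Finset.mem_range]

/-- the operator through the `j`-th space -/
noncomputable def Wj (T : LinfUnit Y →L[𝕜] lp E ∞) (S : lp E ∞ →L[𝕜] LinfUnit Y)
    (J : C0 𝕜 →L[𝕜] Y) (j : ℕ) : LinfUnit (C0 𝕜) →L[𝕜] LinfUnit Y :=
  S.comp ((cmp j).comp (T.comp (J.compLpL ∞ mu)))

theorem compLpL_tens (J : C0 𝕜 →L[𝕜] Y) (x : C0 𝕜) (u : LinfUnit 𝕜) :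
    (J.compLpL ∞ mu (tens x u) : LinfUnit Y) = tens (J x) u := by
  apply Lp.ext
  filter_upwards [ContinuousLinearMap.coeFn_compLpL (p := ∞) (μ := mu) J (tens x u),
    tens_coe x u, tens_coe (J x) u] with t h1 h2 h3
  rw [h1, h2, h3, map_smul]

theorem DB.fsum {ι : Type*} (s : Finset ι) {C : ι → ℝ} {b : ι → (ℝ → 𝕜) → (ℝ → 𝕜) → 𝕜}
    (h : ∀ i ∈ s, DB (C i) (b i)) : DB (∑ i ∈ s, C i) (fun f g => ∑ i ∈ s, b i f g) where
  add_left f f' g hf hf' hg := by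
    rw [← Finset.sum_add_distrib]
    exact Finset.sum_congr rfl fun i hi => (h i hi).add_left f f' g hf hf' hg
  smul_left c f g hf hg := by
    rw [Finset.mul_sum]
    exact Finset.sum_congr rfl fun i hi => (h i hi).smul_left c f g hf hg
  add_right f g g' hf hg hg' := by
    rw [← Finset.sum_add_distrib]
    exact Finset.sum_congr rfl fun i hi => (h i hi).add_right f g g' hf hg hg'
  smul_right c f g hf hg := by
    rw [Finset.mul_sum]
    exact Finset.sum_congr rfl fun i hi => (h i hi).smul_right c f g hf hg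
  bd f g K hf hg hK hgK := by
    rw [Finset.sum_mul, Finset.sum_mul]
    exact (norm_sum_le _ _).trans (Finset.sum_le_sum fun i hi => (h i hi).bd f g K hf hg hK hgK)

theorem tr_sum {ι : Type*} (s : Finset ι) (b : ι → (ℝ → 𝕜) → (ℝ → 𝕜) → 𝕜) (q : ℕ)
    (f : ℝ → 𝕜) : tr (fun f g => ∑ i ∈ s, b i f g) q f = ∑ i ∈ s, tr (b i) q f := by
  unfold tr
  rw [Finset.sum_comm]
  refine Finset.sum_congr rfl fun k _ => ?_
  rw [Finset.mul_sum]

/-- **Theorem A.** If `Y` contains `c_0` and `L^∞([0,1], Y)` is isomorphic to a complemented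
subspace of the `ℓ^∞`-sum of the Banach spaces `E n`, then `L^∞([0,1], c_0)` is isomorphic to a
complemented subspace of one of the `E n`. -/
theorem theorem_A (hY : ContainsC0 𝕜 Y) (T : LinfUnit Y →L[𝕜] lp E ∞)
    (S : lp E ∞ →L[𝕜] LinfUnit Y) (hST : ∀ g, S (T g) = g) :
    ∃ j, IsComplementedIn 𝕜 (LinfUnit (C0 𝕜)) (E j) := by
  classical
  obtain ⟨J, c, hc, hJ⟩ := hY
  set x : ℕ → Y := fun n => J (ec 𝕜 n) with hx
  have hxn : ∀ n, c ≤ ‖x n‖ := fun n => by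
    have h1 := hJ (ec 𝕜 n)
    have h2 := norm_ec (𝕜 := 𝕜) n
    simp only [hx]
    nlinarith
  have hxpos : ∀ n, 0 < ‖x n‖ := fun n => hc.trans_le (hxn n)
  have hy' : ∀ n, ∃ y' : StrongDual 𝕜 Y, ‖y'‖ ≤ 1 / c ∧ y' (x n) = 1 := by
    intro n
    obtain ⟨z, hz1, hz2⟩ := exists_dual_vector'' 𝕜 (x n)
    refine ⟨((‖x n‖⁻¹ : ℝ) : 𝕜) • z, ?_, ?_⟩
    · rw [norm_smul, RCLike.norm_ofReal, abs_of_pos (inv_pos.2 (hxpos n))]
      calc ‖x n‖⁻¹ * ‖z‖ ≤ c⁻¹ * 1 := by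
            apply mul_le_mul _ hz1 (norm_nonneg _) (inv_pos.2 hc).le
            exact inv_anti₀ hc (hxn n)
        _ = 1 / c := by rw [mul_one, one_div]
    · change ((‖x n‖⁻¹ : ℝ) : 𝕜) * z (x n) = 1
      rw [hz2, ← RCLike.ofReal_mul, inv_mul_cancel₀ (hxpos n).ne', RCLike.ofReal_one]
  choose y' hy'n hy'1 using hy'
  obtain ⟨K, M, hKM⟩ := glue T S hST J y' hy'n hy'1
  set W : ℕ → LinfUnit (C0 𝕜) →L[𝕜] LinfUnit Y := fun j => Wj T S J j with hW
  obtain ⟨Ω, hΩ, hΩ1, hΩ2⟩ := exists_dens (fun n : ℕ => ((y' n.unpair.2).compLpL ∞ mu).comp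
    ((W n.unpair.1).comp (tens (ec 𝕜 n.unpair.2)))) (show (0 : ℝ) < 1 / 4 by norm_num)
  have hD : ∀ j m, ∃ K : ℝ, 0 ≤ K ∧ ∀ f : LinfUnit 𝕜,
      ∫ t, ‖((y' m).compLpL ∞ mu (W j (tens (ec 𝕜 m) (cut 𝕜 Ω f))) : LinfUnit 𝕜) t‖ ∂mu ≤
        K * ∫ t, ‖f t‖ ∂mu := by
    intro j m
    have h1 := hΩ2 (Nat.pair j m)
    simp only [Nat.unpair_pair] at h1
    exact h1
  have hΩ3 : 3 / 4 ≤ mu.real Ω := by
    have h1 := measureReal_add_measureReal_compl (μ := mu) hΩ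
    have h2 : mu.real univ = 1 := by
      rw [measureReal_def, mu_univ, ENNReal.toReal_one]
    linarith
  set 𝒰 : Ultrafilter ℕ := hyperfilter ℕ with h𝒰
  have h𝒰' : (𝒰 : Filter ℕ) ≤ atTop := by
    rw [← Nat.cofinite_eq_atTop]
    exact hyperfilter_le_cofinite
  have hdb : ∀ j m, DB (1 / c * ‖W j‖) (bb (W j) (y' m) Ω m) := fun j m =>
    db_bb (W j) (hy'n m) Ω m
  -- the traces
  have hsum : ∀ m, M ≤ m → 1 / 4 ≤ ∑ j ∈ Finset.range K,
      RCLike.re (ulim 𝒰 (fun q => tr (bb (W j) (y' m) Ω m) q (fun _ => 1))) := by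
    intro m hm
    have hB := DB.fsum (Finset.range K) (C := fun j => 1 / c * ‖W j‖)
      (b := fun j => bb (W j) (y' m) Ω m) fun j _ => hdb j m
    obtain ⟨q₀, hq₀⟩ := DB.quad (κ := Unit) (fun _ => hB) (show (0 : ℝ) < 1 / 4 by norm_num)
    have hlim : Tendsto (fun q => ∑ j ∈ Finset.range K,
        RCLike.re (tr (bb (W j) (y' m) Ω m) q (fun _ => (1 : 𝕜)))) 𝒰
        (𝓝 (∑ j ∈ Finset.range K,
          RCLike.re (ulim 𝒰 (fun q => tr (bb (W j) (y' m) Ω m) q (fun _ => 1))))) := by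
      refine tendsto_finsetSum _ fun j _ => ?_
      exact (RCLike.continuous_re.tendsto _).comp
        (tendsto_tr (hdb j m) h𝒰' (DyA.const (1 : 𝕜)))
    refine ge_of_tendsto hlim ?_
    filter_upwards [h𝒰' (eventually_ge_atTop (max q₀ M))] with q hq
    obtain ⟨s, hs, hs2⟩ := hq₀ q ((le_max_left _ _).trans hq)
    have h1 := hKM m hm q ((le_max_right _ _).trans hq) s hs Ω hΩ
    have h2 := hs2 ()
    rw [tr_sum] at h2
    have h3 : pr (tL s) (y' m) (S (trunc (𝕜 := 𝕜) K (T (tens (J (ec 𝕜 m))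
        (cut 𝕜 Ω (tL s)))))) = ∑ j ∈ Finset.range K, bb (W j) (y' m) Ω m s s := by
      rw [trunc_eq_sum, map_sum, map_sum]
      refine Finset.sum_congr rfl fun j _ => ?_
      unfold bb
      simp only [hW, Wj]
      change _ = pr (tL s) (y' m) (S (cmp j (T (J.compLpL ∞ mu
        (tens (ec 𝕜 m) (cut 𝕜 Ω (tL s)))))))
      rw [compLpL_tens]
    rw [h3] at h1
    have h4 := (RCLike.re_le_norm (∑ j ∈ Finset.range K, bb (W j) (y' m) Ω m s s -
      ∑ j ∈ Finset.range K, tr (bb (W j) (y' m) Ω m) q (fun _ => (1 : 𝕜)))).trans h2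
    rw [map_sub] at h4
    rw [map_sum (RCLike.re : 𝕜 →+ ℝ) (fun j => tr (bb (W j) (y' m) Ω m) q (fun _ => (1 : 𝕜)))]
      at h4
    linarith
  have hK0 : 0 < K := by
    rcases Nat.eq_zero_or_pos K with h | h
    · have h1 := hsum M le_rfl
      rw [h, Finset.sum_range_zero] at h1
      norm_num at h1
    · exact h
  have hKR : (0 : ℝ) < K := by exact_mod_cast hK0
  have hpig : ∀ m, M ≤ m → ∃ j ∈ Finset.range K, 1 / (4 * K) ≤
      RCLike.re (ulim 𝒰 (fun q => tr (bb (W j) (y' m) Ω m) q (fun _ => 1))) := by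
    intro m hm
    by_contra hcon
    push Not at hcon
    have h1 : ∑ j ∈ Finset.range K,
        RCLike.re (ulim 𝒰 (fun q => tr (bb (W j) (y' m) Ω m) q (fun _ => 1))) <
        ∑ _j ∈ Finset.range K, (1 / (4 * K) : ℝ) :=
      Finset.sum_lt_sum_of_nonempty ⟨0, Finset.mem_range.2 hK0⟩ hcon
    rw [Finset.sum_const, Finset.card_range, nsmul_eq_mul] at h1
    have h2 : (K : ℝ) * (1 / (4 * K)) = 1 / 4 := by field_simp
    rw [h2] at h1
    exact absurd (hsum m hm) (not_le.2 h1)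
  obtain ⟨j, hj⟩ : ∃ j, {m | 1 / (4 * K) ≤
      RCLike.re (ulim 𝒰 (fun q => tr (bb (W j) (y' m) Ω m) q (fun _ => 1)))}.Infinite := by
    by_contra hcon
    push Not at hcon
    have h1 : (⋃ j ∈ Finset.range K, {m | 1 / (4 * K) ≤
        RCLike.re (ulim 𝒰 (fun q => tr (bb (W j) (y' m) Ω m) q (fun _ => 1)))}).Finite :=
      Set.Finite.biUnion (Finset.range K).finite_toSet fun j _ => hcon j
    refine Set.Ici_infinite M (h1.subset fun m hm => ?_)
    obtain ⟨j, hj1, hj2⟩ := hpig m hm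
    exact Set.mem_iUnion₂.2 ⟨j, hj1, hj2⟩
  obtain ⟨R, Jo, hRJ⟩ := final (C := 1 / c) (W := W j) (y' := y') hy'n hΩ (hD j) h𝒰'
    (show (0 : ℝ) < 1 / (4 * K) by positivity) hj fun m hm => hm
  refine ⟨j, (lp.evalCLM 𝕜 E ∞ j).comp (T.comp ((J.compLpL ∞ mu).comp Jo)),
    R.comp (S.comp (lp.singleContinuousLinearMap 𝕜 E ∞ j)), fun g => ?_⟩
  exact hRJ g

end Pool.Agent.LinfC
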