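import Pool.Agent.LinfC.NNDefs

/-!
# Package LinfC-NNA: the suprema `n0`

Compare `vari`, `vari_bdd`, `le_vari`, `vari_le`, `vari_mono`, `vari_add` in
`LinfX/Rosenthal.lean`; the proofs are the same.

*`n0_bdd`, `le_n0`.* `norm_pr_le`, `integral_norm_tL`, `norm_indk`, `integral_ind`:
`‖pr (tL (indk 𝕜 q i)) y' (W h)‖ ≤ (1 / 2) ^ q * ‖y'‖ * ‖W‖` for `‖h‖ ≤ 1`; for general `h` divide
by the norm (`h = 0` is trivial).
*`n0_le`.* The same bound for the supremum.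
*`n0_mono`.* More `h`.
*`n0_add`.* For disjoint `F, F'`, `h` with coordinates in `F`, `h'` with coordinates in `F'`, norms
`≤ 1`, and unimodular `c, d` which make the two values real and nonnegative (`exists_rot`),
`c • h + d • h'` has its coordinates in `F ∪ F'` and norm `≤ 1` (`norm_le_of_co`: of the two
coordinates `co j h`, `co j h'` one vanishes; `norm_co_le`).

Difficulty: 0.9 h.
-/

set_option autoImplicit false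

open MeasureTheory Set Filter Topology
open scoped ENNReal

namespace Pool.Agent.LinfC

open Pool.Agent.LinfX

variable {𝕜 : Type*} [RCLike 𝕜] {Y : Type*} [NormedAddCommGroup Y] [NormedSpace 𝕜 Y]

private theorem bd_NNA (W : LinfUnit (C0 𝕜) →L[𝕜] LinfUnit Y) (y' : StrongDual 𝕜 Y) {q i : ℕ}
    (hi : i < 2 ^ q) {h : LinfUnit (C0 𝕜)} (hh : ‖h‖ ≤ 1) :
    ‖pr (tL (indk 𝕜 q i)) y' (W h)‖ ≤ ‖y'‖ * ‖W‖ * (1 / 2) ^ q := by
  have h1 := norm_pr_le (tL (indk 𝕜 q i)) y' (W h)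
  have h2 : ∫ t, ‖(tL (indk 𝕜 q i) : LinfUnit 𝕜) t‖ ∂mu = (1 / 2) ^ q := by
    rw [integral_norm_tL (dya_indk q i).memLp]
    simp only [norm_indk]
    exact integral_ind hi
  rw [h2] at h1
  have h3 : ‖W h‖ ≤ ‖W‖ := (W.le_opNorm h).trans (mul_le_of_le_one_right (norm_nonneg _) hh)
  calc ‖pr (tL (indk 𝕜 q i)) y' (W h)‖ ≤ (1 / 2) ^ q * ‖y'‖ * ‖W h‖ := h1
    _ ≤ (1 / 2) ^ q * ‖y'‖ * ‖W‖ := by gcongr
    _ = ‖y'‖ * ‖W‖ * (1 / 2) ^ q := by ring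

private theorem bdd_NNA (W : LinfUnit (C0 𝕜) →L[𝕜] LinfUnit Y) (y' : StrongDual 𝕜 Y) {q i : ℕ}
    (hi : i < 2 ^ q) (F : Set ℕ) :
    BddAbove ((fun h => ‖pr (tL (indk 𝕜 q i)) y' (W h)‖) ''
      {h : LinfUnit (C0 𝕜) | ‖h‖ ≤ 1 ∧ ∀ j, j ∉ F → co 𝕜 j h = 0}) := by
  refine ⟨‖y'‖ * ‖W‖ * (1 / 2) ^ q, ?_⟩
  rintro _ ⟨h, ⟨hh, -⟩, rfl⟩
  exact bd_NNA W y' hi hh

private theorem le_NNA (W : LinfUnit (C0 𝕜) →L[𝕜] LinfUnit Y) (y' : StrongDual 𝕜 Y) {q i : ℕ}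
    (hi : i < 2 ^ q) {F : Set ℕ} {h : LinfUnit (C0 𝕜)} (h1 : ‖h‖ ≤ 1)
    (hh : ∀ j, j ∉ F → co 𝕜 j h = 0) :
    ‖pr (tL (indk 𝕜 q i)) y' (W h)‖ ≤ n0 W y' q i F :=
  le_csSup (bdd_NNA W y' hi F) ⟨h, ⟨h1, hh⟩, rfl⟩

private theorem sup_NNA (W : LinfUnit (C0 𝕜) →L[𝕜] LinfUnit Y) (y' : StrongDual 𝕜 Y) (q i : ℕ)
    (F : Set ℕ) {C : ℝ} (H : ∀ h : LinfUnit (C0 𝕜), ‖h‖ ≤ 1 → (∀ j, j ∉ F → co 𝕜 j h = 0) →
      ‖pr (tL (indk 𝕜 q i)) y' (W h)‖ ≤ C) : n0 W y' q i F ≤ C := by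
  apply csSup_le
  · exact ⟨_, ⟨0, ⟨by simp, fun j _ => by simp⟩, rfl⟩⟩
  · rintro _ ⟨h, ⟨h1, h2⟩, rfl⟩
    exact H h h1 h2

theorem le_n0 (W : LinfUnit (C0 𝕜) →L[𝕜] LinfUnit Y) (y' : StrongDual 𝕜 Y) {q i : ℕ}
    (hi : i < 2 ^ q) {F : Set ℕ} {h : LinfUnit (C0 𝕜)} (hh : ∀ j, j ∉ F → co 𝕜 j h = 0) :
    ‖pr (tL (indk 𝕜 q i)) y' (W h)‖ ≤ n0 W y' q i F * ‖h‖ := by
  by_cases h0 : h = 0
  · subst h0
    simp
  have hn : (0 : ℝ) < ‖h‖ := norm_pos_iff.2 h0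
  have h1 := le_NNA W y' hi (F := F) (h := ((‖h‖⁻¹ : ℝ) : 𝕜) • h) (by
    rw [norm_smul, RCLike.norm_ofReal, abs_of_nonneg (inv_nonneg.2 hn.le),
      inv_mul_cancel₀ hn.ne']) (fun j hj => by rw [map_smul, hh j hj, smul_zero])
  rw [map_smul, map_smul, norm_smul, RCLike.norm_ofReal, abs_of_nonneg (inv_nonneg.2 hn.le)] at h1
  calc ‖pr (tL (indk 𝕜 q i)) y' (W h)‖
      = (‖h‖⁻¹ * ‖pr (tL (indk 𝕜 q i)) y' (W h)‖) * ‖h‖ := by field_simp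
    _ ≤ n0 W y' q i F * ‖h‖ := mul_le_mul_of_nonneg_right h1 hn.le

theorem n0_nonneg (W : LinfUnit (C0 𝕜) →L[𝕜] LinfUnit Y) (y' : StrongDual 𝕜 Y) (q i : ℕ)
    (F : Set ℕ) : 0 ≤ n0 W y' q i F := by
  apply Real.sSup_nonneg
  rintro _ ⟨h, -, rfl⟩
  exact norm_nonneg _

theorem n0_le (W : LinfUnit (C0 𝕜) →L[𝕜] LinfUnit Y) (y' : StrongDual 𝕜 Y) {q i : ℕ}
    (hi : i < 2 ^ q) (F : Set ℕ) : n0 W y' q i F ≤ ‖y'‖ * ‖W‖ * (1 / 2) ^ q := by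
  exact sup_NNA W y' q i F fun h h1 _ => bd_NNA W y' hi h1

theorem n0_mono (W : LinfUnit (C0 𝕜) →L[𝕜] LinfUnit Y) (y' : StrongDual 𝕜 Y) {q i : ℕ}
    (hi : i < 2 ^ q) {F F' : Set ℕ} (h : F ⊆ F') : n0 W y' q i F ≤ n0 W y' q i F' := by
  exact sup_NNA W y' q i F fun g h1 h2 => le_NNA W y' hi h1 fun j hj => h2 j fun hF => hj (h hF)

theorem n0_add (W : LinfUnit (C0 𝕜) →L[𝕜] LinfUnit Y) (y' : StrongDual 𝕜 Y) {q i : ℕ}
    (hi : i < 2 ^ q) {F F' : Set ℕ} (h : Disjoint F F') :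
    n0 W y' q i F + n0 W y' q i F' ≤ n0 W y' q i (F ∪ F') := by
  have key : ∀ a b : LinfUnit (C0 𝕜), ‖a‖ ≤ 1 → (∀ j, j ∉ F → co 𝕜 j a = 0) → ‖b‖ ≤ 1 →
      (∀ j, j ∉ F' → co 𝕜 j b = 0) → ‖pr (tL (indk 𝕜 q i)) y' (W a)‖ +
        ‖pr (tL (indk 𝕜 q i)) y' (W b)‖ ≤ n0 W y' q i (F ∪ F') := by
    intro a b ha1 ha2 hb1 hb2
    obtain ⟨c, hc, hca⟩ := exists_rot (pr (tL (indk 𝕜 q i)) y' (W a))
    obtain ⟨d, hd, hdb⟩ := exists_rot (pr (tL (indk 𝕜 q i)) y' (W b))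
    have h1 : pr (tL (indk 𝕜 q i)) y' (W (c • a + d • b)) =
        ((‖pr (tL (indk 𝕜 q i)) y' (W a)‖ + ‖pr (tL (indk 𝕜 q i)) y' (W b)‖ : ℝ) : 𝕜) := by
      rw [map_add, map_smul, map_smul, map_add, map_smul, map_smul, smul_eq_mul, smul_eq_mul,
        hca, hdb]
      push_cast
      ring
    have h2 : ‖pr (tL (indk 𝕜 q i)) y' (W (c • a + d • b))‖ =
        ‖pr (tL (indk 𝕜 q i)) y' (W a)‖ + ‖pr (tL (indk 𝕜 q i)) y' (W b)‖ := by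
      rw [h1, RCLike.norm_ofReal, abs_of_nonneg (by positivity)]
    rw [← h2]
    apply le_NNA W y' hi
    · apply norm_le_of_co zero_le_one
      intro j
      rw [map_add, map_smul, map_smul]
      by_cases hj : j ∈ F
      · have hj' : j ∉ F' := fun hj' => Set.disjoint_left.1 h hj hj'
        rw [hb2 j hj', smul_zero, add_zero, norm_smul, hc, one_mul]
        exact (norm_co_le j a).trans ha1
      · rw [ha2 j hj, smul_zero, zero_add, norm_smul, hd, one_mul]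
        exact (norm_co_le j b).trans hb1
    · intro j hj
      rw [map_add, map_smul, map_smul, ha2 j (fun h' => hj (Or.inl h')),
        hb2 j (fun h' => hj (Or.inr h')), smul_zero, smul_zero, add_zero]
  have h1 : n0 W y' q i F ≤ n0 W y' q i (F ∪ F') - n0 W y' q i F' := by
    apply sup_NNA
    intro a ha1 ha2
    have h2 : n0 W y' q i F' ≤
        n0 W y' q i (F ∪ F') - ‖pr (tL (indk 𝕜 q i)) y' (W a)‖ := by
      apply sup_NNA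
      intro b hb1 hb2
      have := key a b ha1 ha2 hb1 hb2
      linarith
    linarith
  linarith

end Pool.Agent.LinfC
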