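import Pool.Agent.LinfC.CoordA

/-!
# The variation of `W` on a set of coordinates: definitions

`n0 W y' q i F`: the supremum of `‖∫ y' (W h)‖` over the `i`-th dyadic interval of level `q`, for the
`h` in the unit ball with coordinates in `F`; `N0 W y' F`: the functional.
-/

set_option autoImplicit false

open MeasureTheory Set Filter Topology
open scoped ENNReal

namespace Pool.Agent.LinfC

open Pool.Agent.LinfX

variable {𝕜 : Type*} [RCLike 𝕜] {Y : Type*} [NormedAddCommGroup Y] [NormedSpace 𝕜 Y]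

/-- the supremum of `‖pr (tL (indk 𝕜 q i)) y' (W h)‖` over the unit ball of the functions with
coordinates in `F` -/
noncomputable def n0 (W : LinfUnit (C0 𝕜) →L[𝕜] LinfUnit Y) (y' : StrongDual 𝕜 Y) (q i : ℕ)
    (F : Set ℕ) : ℝ :=
  sSup ((fun h => ‖pr (tL (indk 𝕜 q i)) y' (W h)‖) ''
    {h : LinfUnit (C0 𝕜) | ‖h‖ ≤ 1 ∧ ∀ j, j ∉ F → co 𝕜 j h = 0})

/-- the sums of level `q` -/
noncomputable def Nq (W : LinfUnit (C0 𝕜) →L[𝕜] LinfUnit Y) (y' : StrongDual 𝕜 Y) (F : Set ℕ)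
    (q : ℕ) (f : ℝ → 𝕜) : 𝕜 :=
  ∑ i ∈ Finset.range (2 ^ q), f ((i : ℝ) / 2 ^ q) * ((n0 W y' q i F : ℝ) : 𝕜)

end Pool.Agent.LinfC
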