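import Pool.Agent.LinfC.WW

/-!
# Package LinfC-Orth: orthogonality

*`integral_osc`.* `s t = θ t * radk 𝕜 (q + 1) t` with `θ` of level `q`; `integral_rad` of
`LinfX/Dyadic.lean` with `m = q`, `g = θ * v` (`radk_coe`, `RCLike.real_smul_eq_coe_mul`;
integrable: `DyA.integrable`).

*`integral_WW`.* Let `l` be the greatest element of `S` (`Finset.max'`), `S' = S.erase l`. All the
elements `k` of `S'` are `< l`, so `r k` has level `q k + 1 ≤ q l` (`Osc.dy`, `StrictMono`), and
`WW r S'` is `Dy (q l)` (product over a finset). `WW_insert`, `integral_osc`.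

*`integral_WW_osc`.* If all the elements of `R` are `< i`, then `WW r R * u` is `Dy (qs i)`
(`qr l + 1 ≤ qs (l + 1) ≤ qs i` for `l < i`; `qs` is monotone by `h1`, `h2`), and `integral_osc`
applies to `s i`. Otherwise the greatest element `l` of `R` is `≥ i`, `WW r (R.erase l)` is
`Dy (qr l)` as above, `s i` is `Dy (qs i + 1)`, `qs i + 1 ≤ qr i ≤ qr l`, `u` is `Dy (qs i)`, so
`integral_osc` applies to `r l` with `v = WW r (R.erase l) * (s i * u)`.

Difficulty: 0.8 h.
-/

set_option autoImplicit false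

open MeasureTheory Set Filter Topology
open scoped ENNReal

namespace Pool.Agent.LinfC

open Pool.Agent.LinfX

variable {𝕜 : Type*} [RCLike 𝕜]

theorem integral_osc {q : ℕ} {s v : ℝ → 𝕜} (hs : Osc q s) (hv : Dy q v) :
    ∫ t, s t * v t ∂mu = 0 := by
  obtain ⟨θ, h1, -, h3⟩ := hs
  have hd : Dy q (fun t => θ t * v t) := dy_mul h1 hv
  have h := integral_rad q hd (DyA.integrable ⟨q, hd⟩)
  rw [← h]
  refine integral_congr_ae (Filter.Eventually.of_forall fun t => ?_)
  change s t * v t = rad (q + 1) t • (θ t * v t)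
  rw [h3, radk_coe, RCLike.real_smul_eq_coe_mul]
  ring

private theorem dy_WW {r : ℕ → ℝ → 𝕜} {p : ℕ} {S : Finset ℕ} (h : ∀ l ∈ S, Dy p (r l)) :
    Dy p (WW r S) := by
  intro t t' ht
  unfold WW
  exact Finset.prod_congr rfl fun l hl => h l hl t t' ht

private theorem WW_max (r : ℕ → ℝ → 𝕜) {S : Finset ℕ} (hS : S.Nonempty) (t : ℝ) :
    WW r S t = r (S.max' hS) t * WW r (S.erase (S.max' hS)) t := by
  rw [← WW_insert r (Finset.notMem_erase _ _), Finset.insert_erase (Finset.max'_mem _ _)]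

private theorem lt_of_mem_erase {S : Finset ℕ} (hS : S.Nonempty) {k : ℕ}
    (hk : k ∈ S.erase (S.max' hS)) : k < S.max' hS := by
  rw [Finset.mem_erase] at hk
  exact lt_of_le_of_ne (Finset.le_max' _ _ hk.2) hk.1

theorem integral_WW {r : ℕ → ℝ → 𝕜} {q : ℕ → ℕ} (hr : ∀ l, Osc (q l) (r l)) (hq : StrictMono q)
    {S : Finset ℕ} (hS : S.Nonempty) : ∫ t, WW r S t ∂mu = 0 := by
  have hd : Dy (q (S.max' hS)) (WW r (S.erase (S.max' hS))) := by
    refine dy_WW fun k hk => (hr k).dy.mono ?_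
    exact hq (lt_of_mem_erase hS hk)
  have h := integral_osc (hr (S.max' hS)) hd
  rw [← h]
  refine integral_congr_ae (Filter.Eventually.of_forall fun t => ?_)
  exact WW_max r hS t

theorem integral_WW_osc {r s : ℕ → ℝ → 𝕜} {qr qs : ℕ → ℕ} (hr : ∀ l, Osc (qr l) (r l))
    (hs : ∀ l, Osc (qs l) (s l)) (h1 : ∀ l, qs l < qr l) (h2 : ∀ l, qr l < qs (l + 1))
    (R : Finset ℕ) (i : ℕ) {u : ℝ → 𝕜} (hu : Dy (qs i) u) :
    ∫ t, WW r R t * (s i t * u t) ∂mu = 0 := by
  have hqs : StrictMono qs := strictMono_nat_of_lt_succ fun l => (h1 l).trans (h2 l)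
  have hqr : StrictMono qr := strictMono_nat_of_lt_succ fun l => (h2 l).trans (h1 (l + 1))
  by_cases hR : ∀ l ∈ R, l < i
  · have hd : Dy (qs i) (fun t => WW r R t * u t) := by
      refine dy_mul (dy_WW fun l hl => (hr l).dy.mono ?_) hu
      have h3 : qs (l + 1) ≤ qs i := hqs.monotone (hR l hl)
      have h4 := h2 l
      omega
    rw [← integral_osc (hs i) hd]
    refine integral_congr_ae (Filter.Eventually.of_forall fun t => ?_)
    change WW r R t * (s i t * u t) = s i t * (WW r R t * u t)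
    ring
  · push Not at hR
    obtain ⟨l₀, hl₀, hi₀⟩ := hR
    have hne : R.Nonempty := ⟨l₀, hl₀⟩
    have hi : i ≤ R.max' hne := hi₀.trans (Finset.le_max' _ _ hl₀)
    have h3 : qr i ≤ qr (R.max' hne) := hqr.monotone hi
    have h4 := h1 i
    have hd : Dy (qr (R.max' hne)) (fun t => WW r (R.erase (R.max' hne)) t * (s i t * u t)) := by
      refine dy_mul (dy_WW fun k hk => (hr k).dy.mono ?_) (dy_mul ((hs i).dy.mono ?_)
        (hu.mono ?_))
      · exact hqr (lt_of_mem_erase hne hk)
      · omega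
      · omega
    rw [← integral_osc (hr (R.max' hne)) hd]
    refine integral_congr_ae (Filter.Eventually.of_forall fun t => ?_)
    change WW r R t * (s i t * u t) =
      r (R.max' hne) t * (WW r (R.erase (R.max' hne)) t * (s i t * u t))
    rw [WW_max r hne]
    ring

end Pool.Agent.LinfC
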