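import Pool.Agent.LinfC.Basic

/-!
# Expansion of the oscillating functions
-/

set_option autoImplicit false

open MeasureTheory Set Filter Topology
open scoped ENNReal

namespace Pool.Agent.LinfC

open Pool.Agent.LinfX

variable {𝕜 : Type*} [RCLike 𝕜]

theorem indk_split (q : ℕ) (i : ℤ) (t : ℝ) :
    indk 𝕜 q i t = indk 𝕜 (q + 1) (2 * i) t + indk 𝕜 (q + 1) (2 * i + 1) t := by
  unfold indk
  rw [floor_half q t]
  generalize ⌊(2 : ℝ) ^ (q + 1) * t⌋ = k
  by_cases h0 : k = 2 * i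
  · rw [if_pos (by omega), if_pos h0, if_neg (by omega), add_zero]
  · by_cases h1 : k = 2 * i + 1
    · rw [if_pos (by omega), if_neg h0, if_pos h1, zero_add]
    · rw [if_neg (by omega), if_neg h0, if_neg h1, zero_add]

theorem xx_split (q i : ℕ) (t : ℝ) :
    xx 𝕜 q i t = indk 𝕜 (q + 1) (2 * (i : ℤ)) t - indk 𝕜 (q + 1) (2 * (i : ℤ) + 1) t := by
  unfold xx indk radk
  rw [floor_half q t]
  generalize ⌊(2 : ℝ) ^ (q + 1) * t⌋ = k
  by_cases h0 : k = 2 * (i : ℤ)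
  · have he : Even k := ⟨i, by omega⟩
    rw [if_pos (show k / 2 = (i : ℤ) by omega), if_pos he, if_pos h0,
      if_neg (show ¬ k = 2 * (i : ℤ) + 1 by omega), sub_zero, one_mul]
  · by_cases h1 : k = 2 * (i : ℤ) + 1
    · have he : ¬ Even k := by
        rw [Int.not_even_iff_odd]
        exact ⟨i, h1⟩
      rw [if_pos (show k / 2 = (i : ℤ) by omega), if_neg he, if_neg h0, if_pos h1, zero_sub,
        one_mul]
    · rw [if_neg (show ¬ k / 2 = (i : ℤ) by omega), if_neg h0, if_neg h1, zero_mul, sub_zero]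

/-- an oscillating function is a combination of the functions `xx q i` -/
theorem Osc.expand {q : ℕ} {s : ℝ → 𝕜} (h : Osc q s) :
    ∃ ε : ℕ → 𝕜, (∀ i, ε i = 1 ∨ ε i = -1) ∧
      ∀ t ∈ Ico (0 : ℝ) 1, s t = ∑ i ∈ Finset.range (2 ^ q), ε i * xx 𝕜 q i t := by
  obtain ⟨θ, h1, h2, h3⟩ := h
  refine ⟨fun i => θ ((i : ℝ) / 2 ^ q), fun i => h2 _, fun t ht => ?_⟩
  rw [h3, dy_expand h1 ht, Finset.sum_mul]
  refine Finset.sum_congr rfl fun i _ => ?_
  unfold xx
  ring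

/-- every combination of the functions `xx q i` with signs comes from an oscillating function -/
theorem exists_osc (q : ℕ) (ε : ℕ → 𝕜) (hε : ∀ i, ε i = 1 ∨ ε i = -1) :
    ∃ s : ℝ → 𝕜, Osc q s ∧
      ∀ t ∈ Ico (0 : ℝ) 1, s t = ∑ i ∈ Finset.range (2 ^ q), ε i * xx 𝕜 q i t := by
  set θ : ℝ → 𝕜 := fun t => ε ⌊(2 : ℝ) ^ q * t⌋.toNat with hθ
  have hd : Dy q θ := by
    intro t t' h
    simp only [hθ, h]
  refine ⟨fun t => θ t * radk 𝕜 (q + 1) t, ⟨θ, hd, fun t => hε _, fun _ => rfl⟩, fun t ht => ?_⟩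
  change θ t * radk 𝕜 (q + 1) t = _
  rw [dy_expand hd ht, Finset.sum_mul]
  refine Finset.sum_congr rfl fun i _ => ?_
  have e : θ ((i : ℝ) / 2 ^ q) = ε i := by
    simp only [hθ, floor_div_pow]
    rfl
  rw [e]
  unfold xx
  ring

end Pool.Agent.LinfC
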