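import Pool.Agent.LinfC.Osc0

/-!
# Package LinfC-QuadA: the entries of a form at the functions `xx q i`

*`sum_sq_le`.* Let `m i j = b (xx q i) (xx q j)` for `i, j < 2 ^ q`.

(a) `‖m i j‖ ≤ C * (1 / 2) ^ q` (`DB.bd` with `K = 1`, `norm_xx_le`, `integral_norm_xx`).
(b) `∑ j, ‖m i j‖ ≤ C * (1 / 2) ^ q`: take `c j` with `‖c j‖ = 1`, `c j * m i j = ‖m i j‖`
(`exists_rot` of `LinfX/Rosenthal.lean`); then
`∑ j, ‖m i j‖ = b (xx q i) (fun t => ∑ j, c j * xx q j t)` (linearity in the second variable, by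
induction over finsets; `DB.congr` for the zero function or `smul_right` with `0`), and
`‖∑ j, c j * xx q j t‖ ≤ 1` for `t ∈ [0, 1)`: at most one `j` contributes (`norm_xx`, `ind`);
`DB.bd` with `K = 1`.
(c) Hence `∑ i, ∑ j, ‖m i j‖ ^ 2 ≤ ∑ i, C (1 / 2) ^ q * ∑ j, ‖m i j‖
≤ 2 ^ q * (C * (1 / 2) ^ q) ^ 2 = C ^ 2 * (1 / 2) ^ q`.

Difficulty: 0.7 h.
-/

set_option autoImplicit false

open MeasureTheory Set Filter Topology
open scoped ENNReal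

namespace Pool.Agent.LinfC

open Pool.Agent.LinfX

variable {𝕜 : Type*} [RCLike 𝕜]

private theorem bsum_right_QuadA {C : ℝ} {b : (ℝ → 𝕜) → (ℝ → 𝕜) → 𝕜} (h : DB C b)
    {f : ℝ → 𝕜} (hf : DyA f) {ι : Type*} (s : Finset ι) (c : ι → 𝕜) {g : ι → ℝ → 𝕜}
    (hg : ∀ i ∈ s, DyA (g i)) :
    b f (fun t => ∑ i ∈ s, c i * g i t) = ∑ i ∈ s, c i * b f (g i) := by
  classical
  induction s using Finset.induction_on with
  | empty =>
    have h1 := h.smul_right 0 f (fun _ => 0) hf (DyA.const 0)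
    simpa using h1
  | insert a s ha ih =>
    have h1 := hg a (Finset.mem_insert_self a s)
    have h2 : ∀ i ∈ s, DyA (g i) := fun i hi => hg i (Finset.mem_insert_of_mem hi)
    rw [Finset.sum_insert ha, ← ih h2, ← h.smul_right _ _ _ hf h1,
      ← h.add_right _ _ _ hf (h1.smul _) (DyA.sum s fun i hi => (h2 i hi).smul _)]
    congr 1
    funext t
    rw [Finset.sum_insert ha]

private theorem sum_ind_le_QuadA (q n : ℕ) (t : ℝ) :
    ∑ j ∈ Finset.range n, ind q j t ≤ 1 := by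
  by_cases h : ∃ j ∈ Finset.range n, ⌊(2 : ℝ) ^ q * t⌋ = (j : ℤ)
  · obtain ⟨j, hj, hf⟩ := h
    rw [Finset.sum_eq_single_of_mem j hj]
    · unfold ind
      rw [if_pos hf]
    · intro i _ hi
      unfold ind
      rw [if_neg]
      rw [hf]
      intro h
      exact hi (by exact_mod_cast h.symm)
  · push Not at h
    rw [Finset.sum_eq_zero]
    · exact zero_le_one
    · intro j hj
      unfold ind
      rw [if_neg (h j hj)]

private theorem row_le_QuadA {C : ℝ} {b : (ℝ → 𝕜) → (ℝ → 𝕜) → 𝕜} (hb : DB C b) {q i : ℕ}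
    (hi : i < 2 ^ q) :
    ∑ j ∈ Finset.range (2 ^ q), ‖b (xx 𝕜 q i) (xx 𝕜 q j)‖ ≤ C * (1 / 2) ^ q := by
  choose c hc1 hc2 using fun j : ℕ => exists_rot (b (xx 𝕜 q i) (xx 𝕜 q j))
  have h1 := bsum_right_QuadA hb (dya_xx (𝕜 := 𝕜) q i) (Finset.range (2 ^ q)) c
    (g := fun j => xx 𝕜 q j) fun j _ => dya_xx q j
  have h2 : ((∑ j ∈ Finset.range (2 ^ q), ‖b (xx 𝕜 q i) (xx 𝕜 q j)‖ : ℝ) : 𝕜) =
      b (xx 𝕜 q i) (fun t => ∑ j ∈ Finset.range (2 ^ q), c j * xx 𝕜 q j t) := by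
    rw [h1]
    push_cast
    exact Finset.sum_congr rfl fun j _ => (hc2 j).symm
  have h3 := hb.bd (xx 𝕜 q i) (fun t => ∑ j ∈ Finset.range (2 ^ q), c j * xx 𝕜 q j t) 1
    (dya_xx q i) (DyA.sum _ fun j _ => (dya_xx q j).smul (c j)) zero_le_one fun t _ => by
      refine (norm_sum_le _ _).trans ?_
      refine le_trans (le_of_eq ?_) (sum_ind_le_QuadA q (2 ^ q) t)
      refine Finset.sum_congr rfl fun j _ => ?_
      rw [norm_mul, hc1, one_mul, norm_xx]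
  rw [← h2, integral_norm_xx hi, mul_one, RCLike.norm_ofReal,
    abs_of_nonneg (Finset.sum_nonneg fun j _ => norm_nonneg _)] at h3
  exact h3

private theorem entry_le_QuadA {C : ℝ} {b : (ℝ → 𝕜) → (ℝ → 𝕜) → 𝕜} (hb : DB C b) {q i : ℕ}
    (hi : i < 2 ^ q) (j : ℕ) : ‖b (xx 𝕜 q i) (xx 𝕜 q j)‖ ≤ C * (1 / 2) ^ q := by
  have h3 := hb.bd (xx 𝕜 q i) (xx 𝕜 q j) 1 (dya_xx q i) (dya_xx q j) zero_le_one
    fun t _ => norm_xx_le q j t
  rwa [integral_norm_xx hi, mul_one] at h3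

theorem sum_sq_le {C : ℝ} {b : (ℝ → 𝕜) → (ℝ → 𝕜) → 𝕜} (hb : DB C b) (q : ℕ) :
    ∑ i ∈ Finset.range (2 ^ q), ∑ j ∈ Finset.range (2 ^ q), ‖b (xx 𝕜 q i) (xx 𝕜 q j)‖ ^ 2 ≤
      C ^ 2 * (1 / 2) ^ q := by
  have h0 : 0 ≤ C * (1 / 2) ^ q := mul_nonneg hb.nonneg (by positivity)
  have h1 : ∀ i ∈ Finset.range (2 ^ q),
      ∑ j ∈ Finset.range (2 ^ q), ‖b (xx 𝕜 q i) (xx 𝕜 q j)‖ ^ 2 ≤ (C * (1 / 2) ^ q) ^ 2 := by
    intro i hi
    have hi' := Finset.mem_range.1 hi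
    calc ∑ j ∈ Finset.range (2 ^ q), ‖b (xx 𝕜 q i) (xx 𝕜 q j)‖ ^ 2
        ≤ ∑ j ∈ Finset.range (2 ^ q), C * (1 / 2) ^ q * ‖b (xx 𝕜 q i) (xx 𝕜 q j)‖ := by
          refine Finset.sum_le_sum fun j _ => ?_
          rw [pow_two]
          exact mul_le_mul_of_nonneg_right (entry_le_QuadA hb hi' j) (norm_nonneg _)
      _ = C * (1 / 2) ^ q * ∑ j ∈ Finset.range (2 ^ q), ‖b (xx 𝕜 q i) (xx 𝕜 q j)‖ := by
          rw [Finset.mul_sum]
      _ ≤ C * (1 / 2) ^ q * (C * (1 / 2) ^ q) :=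
          mul_le_mul_of_nonneg_left (row_le_QuadA hb hi') h0
      _ = (C * (1 / 2) ^ q) ^ 2 := (pow_two _).symm
  refine (Finset.sum_le_sum h1).trans (le_of_eq ?_)
  rw [Finset.sum_const, Finset.card_range, nsmul_eq_mul]
  push_cast
  have h2 : (2 : ℝ) ^ q * (1 / 2) ^ q = 1 := by
    rw [← mul_pow]
    norm_num
  calc (2 : ℝ) ^ q * (C * (1 / 2) ^ q) ^ 2 = (2 : ℝ) ^ q * (1 / 2) ^ q * (C ^ 2 * (1 / 2) ^ q) := by
        ring
    _ = C ^ 2 * (1 / 2) ^ q := by rw [h2, one_mul]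

end Pool.Agent.LinfC
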