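import Pool.Agent.LinfC.Signs
import Pool.Agent.LinfC.QuadA

/-!
# Package LinfC-Quad: a sign function for which finitely many forms are close to their traces

*`DB.quad`.* For all large `q` there is `s` with `Osc q s` and `‖b k s s - tr (b k) q 1‖ ≤ η` for
all `k`.

Proof. Let `m k i j = b k (xx q i) (xx q j)` for `i j : Fin (2 ^ q)`. `exists_signs_quad` gives `ε`
with `∑ k, ‖∑ i, ∑ j ≠ i, ε i ε j m k i j‖ ^ 2 ≤ 2 ∑ k, ∑ i, ∑ j, ‖m k i j‖ ^ 2`, which is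
`≤ 2 |κ| C ^ 2 (1 / 2) ^ q ≤ η ^ 2` for large `q` (`sum_sq_le`, `Finset.sum_range`; `q₀` from
`exists_pow_lt_of_lt_one`). `exists_osc` (extend `ε` by `1` to `ℕ`) gives `s`, and by `DB.congr`
and bilinearity (induction over finsets in both variables)
`b k s s = ∑ i, ∑ j, ε i ε j m k i j = ∑ i, m k i i + ∑ i, ∑ j ≠ i, ε i ε j m k i j`, as
`ε i * ε i = 1`; and `∑ i, m k i i = tr (b k) q 1`.

Difficulty: 0.9 h.
-/

set_option autoImplicit false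

open MeasureTheory Set Filter Topology
open scoped ENNReal

namespace Pool.Agent.LinfC

open Pool.Agent.LinfX

variable {𝕜 : Type*} [RCLike 𝕜]

private theorem quad_sum_right {C : ℝ} {b : (ℝ → 𝕜) → (ℝ → 𝕜) → 𝕜} (hb : DB C b) {f : ℝ → 𝕜}
    (hf : DyA f) {ι : Type*} (S : Finset ι) (c : ι → 𝕜) {g : ι → ℝ → 𝕜}
    (hg : ∀ i ∈ S, DyA (g i)) :
    b f (fun t => ∑ i ∈ S, c i * g i t) = ∑ i ∈ S, c i * b f (g i) := by
  classical
  induction S using Finset.induction_on with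
  | empty =>
    have h1 := hb.smul_right 0 f (fun _ => 0) hf (DyA.const 0)
    simpa using h1
  | insert a S ha ih =>
    have h1 := hg a (Finset.mem_insert_self a S)
    have h2 : ∀ i ∈ S, DyA (g i) := fun i hi => hg i (Finset.mem_insert_of_mem hi)
    rw [Finset.sum_insert ha, ← ih h2, ← hb.smul_right _ _ _ hf h1,
      ← hb.add_right _ _ _ hf (h1.smul _) (DyA.sum S fun i hi => (h2 i hi).smul _)]
    congr 1
    funext t
    rw [Finset.sum_insert ha]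

private theorem quad_expand {C : ℝ} {b : (ℝ → 𝕜) → (ℝ → 𝕜) → 𝕜} (hb : DB C b) {q : ℕ}
    {s : ℝ → 𝕜} (hs : Osc q s) {ε : ℕ → 𝕜}
    (hst : ∀ t ∈ Ico (0 : ℝ) 1, s t = ∑ i ∈ Finset.range (2 ^ q), ε i * xx 𝕜 q i t) :
    b s s = ∑ i ∈ Finset.range (2 ^ q), ∑ j ∈ Finset.range (2 ^ q),
      ε i * ε j * b (xx 𝕜 q i) (xx 𝕜 q j) := by
  have hS : DyA (fun t => ∑ i ∈ Finset.range (2 ^ q), ε i * xx 𝕜 q i t) :=
    DyA.sum _ fun i _ => (dya_xx q i).smul _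
  rw [hb.congr hs.dya hS hs.dya hS hst hst]
  obtain ⟨K, hK, hK1⟩ := hS.bounded
  have h1 := (hb.left hS hK hK1).sum (Finset.range (2 ^ q)) ε
    (f := fun i => xx 𝕜 q i) fun i _ => dya_xx q i
  rw [h1]
  refine Finset.sum_congr rfl fun i _ => ?_
  rw [quad_sum_right hb (dya_xx q i) (Finset.range (2 ^ q)) ε (g := fun i => xx 𝕜 q i)
    fun i _ => dya_xx q i, Finset.mul_sum]
  refine Finset.sum_congr rfl fun j _ => ?_
  rw [mul_assoc]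

theorem DB.quad {κ : Type*} [Fintype κ] {C : ℝ} {b : κ → (ℝ → 𝕜) → (ℝ → 𝕜) → 𝕜}
    (hb : ∀ k, DB C (b k)) {η : ℝ} (hη : 0 < η) :
    ∃ q₀ : ℕ, ∀ q, q₀ ≤ q → ∃ s : ℝ → 𝕜, Osc q s ∧
      ∀ k, ‖b k s s - tr (b k) q (fun _ => 1)‖ ≤ η := by
  classical
  have hM : 0 < 2 * (Fintype.card κ : ℝ) * C ^ 2 + 1 := by positivity
  obtain ⟨q₀, hq₀⟩ := exists_pow_lt_of_lt_one
    (show 0 < η ^ 2 / (2 * (Fintype.card κ : ℝ) * C ^ 2 + 1) by positivity)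
    (show (1 / 2 : ℝ) < 1 by norm_num)
  refine ⟨q₀, fun q hq => ?_⟩
  have hpow : (1 / 2 : ℝ) ^ q ≤ (1 / 2) ^ q₀ :=
    pow_le_pow_of_le_one (by norm_num) (by norm_num) hq
  obtain ⟨ε, hε, hsum⟩ := exists_signs_quad (𝕜 := 𝕜)
    (fun k (i j : Fin (2 ^ q)) => b k (xx 𝕜 q i) (xx 𝕜 q j))
  have hε' : ∀ i : ℕ, (if h : i < 2 ^ q then ε ⟨i, h⟩ else 1) = 1 ∨
      (if h : i < 2 ^ q then ε ⟨i, h⟩ else 1) = -1 := by
    intro i
    split_ifs with h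
    · exact hε _
    · exact Or.inl rfl
  obtain ⟨s, hs, hst⟩ := exists_osc q (fun i : ℕ => if h : i < 2 ^ q then ε ⟨i, h⟩ else 1) hε'
  refine ⟨s, hs, fun k => ?_⟩
  have hexp : b k s s = ∑ i : Fin (2 ^ q), ∑ j : Fin (2 ^ q),
      ε i * ε j * b k (xx 𝕜 q i) (xx 𝕜 q j) := by
    rw [quad_expand (hb k) hs hst, Finset.sum_range]
    refine Finset.sum_congr rfl fun i _ => ?_
    rw [Finset.sum_range]
    refine Finset.sum_congr rfl fun j _ => ?_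
    rw [dif_pos i.2, dif_pos j.2]
  have htr : tr (b k) q (fun _ => 1) = ∑ i : Fin (2 ^ q), b k (xx 𝕜 q i) (xx 𝕜 q i) := by
    unfold tr
    rw [Finset.sum_range]
    refine Finset.sum_congr rfl fun i _ => ?_
    rw [one_mul]
  have hdiff : b k s s - tr (b k) q (fun _ => 1) =
      ∑ a : Fin (2 ^ q), ∑ c ∈ Finset.univ.erase a,
        ε a * ε c * b k (xx 𝕜 q a) (xx 𝕜 q c) := by
    rw [hexp, htr, ← Finset.sum_sub_distrib]
    refine Finset.sum_congr rfl fun a _ => ?_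
    rw [← Finset.add_sum_erase _ _ (Finset.mem_univ a)]
    have h1 : ε a * ε a = 1 := by
      rcases hε a with h | h <;> rw [h] <;> norm_num
    rw [h1, one_mul, add_sub_cancel_left]
  have h1 : ‖b k s s - tr (b k) q (fun _ => 1)‖ ^ 2 ≤
      ∑ k, ‖∑ a : Fin (2 ^ q), ∑ c ∈ Finset.univ.erase a,
        ε a * ε c * b k (xx 𝕜 q a) (xx 𝕜 q c)‖ ^ 2 := by
    rw [hdiff]
    exact Finset.single_le_sum (f := fun k => ‖∑ a : Fin (2 ^ q),
      ∑ c ∈ Finset.univ.erase a, ε a * ε c * b k (xx 𝕜 q a) (xx 𝕜 q c)‖ ^ 2)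
      (fun _ _ => by positivity) (Finset.mem_univ k)
  have h2 : ∀ k, ∑ a : Fin (2 ^ q), ∑ c : Fin (2 ^ q),
      ‖b k (xx 𝕜 q a) (xx 𝕜 q c)‖ ^ 2 ≤ C ^ 2 * (1 / 2) ^ q := by
    intro k
    refine le_trans (le_of_eq ?_) (sum_sq_le (hb k) q)
    rw [Finset.sum_range]
    refine Finset.sum_congr rfl fun i _ => ?_
    rw [Finset.sum_range]
  have h3 : 2 * ∑ k, ∑ a : Fin (2 ^ q), ∑ c : Fin (2 ^ q),
      ‖b k (xx 𝕜 q a) (xx 𝕜 q c)‖ ^ 2 ≤ η ^ 2 := by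
    have h4 : ∑ k, ∑ a : Fin (2 ^ q), ∑ c : Fin (2 ^ q),
        ‖b k (xx 𝕜 q a) (xx 𝕜 q c)‖ ^ 2 ≤ ∑ _k : κ, C ^ 2 * (1 / 2) ^ q :=
      Finset.sum_le_sum fun k _ => h2 k
    rw [Finset.sum_const, Finset.card_univ, nsmul_eq_mul] at h4
    have h5 : (2 * (Fintype.card κ : ℝ) * C ^ 2 + 1) * (1 / 2) ^ q ≤ η ^ 2 := by
      have h6 := (hpow.trans hq₀.le)
      rw [le_div_iff₀ hM] at h6
      linarith
    have h7 : (0 : ℝ) ≤ (1 / 2) ^ q := by positivity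
    nlinarith
  have h8 := (h1.trans hsum).trans h3
  exact (pow_le_pow_iff_left₀ (norm_nonneg _) hη.le two_ne_zero).1 h8

end Pool.Agent.LinfC
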