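import Pool.Agent.LinfC.Rho
import Pool.Agent.LinfC.Exp
import Pool.Agent.LinfC.Approx
import Pool.Agent.LinfC.Walsh
import Pool.Agent.LinfC.Orth
import Pool.Agent.LinfC.Mul

/-!
# Package LinfC-RRA: the coordinates of `R` tend to zero

`E` is the operator of `exists_exp` for `ρ = ro r` (only the properties in the statement are used).

*`E_osc`.* Let `u` be a scalar step function of level `qs i`. Then `E (mulL (s i) (tL u)) = 0`:
`norm_le_of_dya` with `K = 0`: for a dyadic `f` of level `n`,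
`∫ f * E (..) = ∫ f (ro r t) * (s i t * u t) = ∫ f (rn r n t) * (s i t * u t)` (`comp_ro`,
`mulL_coe`, `tL_coe`) `= ∑ S, a S * ∫ WW r S * (s i * u) = 0` (`walsh`, `integral_WW_osc`;
`dya_WW`, `DyA.integrable`). `qr` is strictly monotone by `h1`, `h2` (`strictMono_nat_of_lt_succ`).

*`E_tendsto`.* Let `k : ℕ`, `ε = 4 ^ (-k)`. `Y` is a real normed space
(`NormedSpace.restrictScalars ℝ 𝕜 Y`, as in the proof of `pr_tendsto` in `LinfX/Main.lean`) and
`exists_dyadic_approx` gives `g'` of level `p` with `∫ ‖F - g'‖ ≤ ε`. The function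
`u i t = y' i (g' t)` is a step function of level `p ≤ qs i` for large `i` (`i ≤ qs i`), so by
`E_osc`, `E (mulL (s i) (y' i ∘ F)) = E (mulL (s i) (y' i ∘ F - tL (u i)))`, and
`‖mulL (s i) (y' i ∘ F - tL (u i)) t‖ ≤ v t = C * ‖F t - g' t‖` a.e. (`compLpL_coe`, `tL_coe`,
`DyA.memLp`, `mulL_coe`, `Osc.norm`). So there is `V k` with `∫ V k ≤ C ε` and
`‖E (...) t‖ ≤ V k t` for a.e. `t` and all large `i`. Hence for a.e. `t` (for all `k` at once)
`limsup_i ‖E (...) t‖ ≤ V k t`. Since `V k ≥ 0` a.e. and `∑ k, ∫ V k < ∞`, `V k t → 0` for a.e. `t`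
(`tsum` of integrals: `integrable_of_summable_norm`-like lemmas, or: for `η > 0` the set
`{t | ∀ k, V k t ≥ η}` has measure `≤ ∫ V k / η` for all `k` (Markov: `mul_meas_ge_le_integral`),
so it is a null set; this is enough).

Difficulty: 1.5 h.
-/

set_option autoImplicit false

open MeasureTheory Set Filter Topology
open scoped ENNReal

namespace Pool.Agent.LinfC

open Pool.Agent.LinfX

variable {𝕜 : Type*} [RCLike 𝕜] {Y : Type*} [NormedAddCommGroup Y] [NormedSpace 𝕜 Y]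

theorem E_osc {r s : ℕ → ℝ → 𝕜} {qr qs : ℕ → ℕ} (hr : ∀ l, Osc (qr l) (r l))
    (hs : ∀ l, Osc (qs l) (s l)) (h1 : ∀ l, qs l < qr l) (h2 : ∀ l, qr l < qs (l + 1))
    {E : LinfUnit 𝕜 →L[𝕜] LinfUnit 𝕜} (hE : ∀ f : ℝ → 𝕜, DyA f → ∀ g : LinfUnit 𝕜,
      ∫ t, f t * E g t ∂mu = ∫ t, f (ro r t) * g t ∂mu) (i : ℕ) {u : ℝ → 𝕜} (hu : Dy (qs i) u) :
    E (mulL (s i) (tL u)) = 0 := by
  have hqr : StrictMono qr := strictMono_nat_of_lt_succ fun l => (h2 l).trans (h1 (l + 1))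
  have hu' : DyA u := ⟨qs i, hu⟩
  have hsm : Measurable (s i) := (hs i).dya.measurable
  have hn : ∀ t, ‖s i t‖ ≤ 1 := fun t => ((hs i).norm t).le
  have h0 : ‖E (mulL (s i) (tL u))‖ ≤ 0 := by
    refine norm_le_of_dya le_rfl fun f hf => ?_
    rw [zero_mul, hE f hf]
    obtain ⟨n, hn'⟩ := hf
    have h3 : ∫ t, f (ro r t) * mulL (s i) (tL u) t ∂mu =
        ∫ t, f (rn r n t) * (s i t * u t) ∂mu := by
      refine integral_congr_ae ?_
      filter_upwards [comp_ro hr hqr hn', mulL_coe hsm hn (tL u), tL_coe hu'.memLp]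
        with t h4 h5 h6
      rw [h4, h5, h6]
    obtain ⟨a, ha, -, -⟩ := walsh (fun l t => (hr l).sign t) n hn'
    have h4 : ∫ t, f (rn r n t) * (s i t * u t) ∂mu =
        ∑ S ∈ (Finset.range n).powerset, a S * ∫ t, WW r S t * (s i t * u t) ∂mu := by
      have h5 : (fun t => f (rn r n t) * (s i t * u t)) = fun t =>
          ∑ S ∈ (Finset.range n).powerset, a S * (WW r S t * (s i t * u t)) := by
        funext t
        rw [ha, Finset.sum_mul]
        refine Finset.sum_congr rfl fun S _ => ?_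
        ring
      rw [h5, integral_finsetSum]
      · exact Finset.sum_congr rfl fun S _ => integral_const_mul _ _
      · intro S _
        exact ((dya_WW fun l _ => (hr l).dya).mul ((hs i).dya.mul hu')).integrable.const_mul _
    rw [h3, h4, Finset.sum_eq_zero, norm_zero]
    intro S _
    rw [integral_WW_osc hr hs h1 h2 S i hu, mul_zero]
  exact norm_le_zero_iff.1 h0

theorem E_tendsto {r s : ℕ → ℝ → 𝕜} {qr qs : ℕ → ℕ} (hr : ∀ l, Osc (qr l) (r l))
    (hs : ∀ l, Osc (qs l) (s l)) (h1 : ∀ l, qs l < qr l) (h2 : ∀ l, qr l < qs (l + 1))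
    {E : LinfUnit 𝕜 →L[𝕜] LinfUnit 𝕜} (hE : ∀ f : ℝ → 𝕜, DyA f → ∀ g : LinfUnit 𝕜,
      ∫ t, f t * E g t ∂mu = ∫ t, f (ro r t) * g t ∂mu)
    (hE' : ∀ v : ℝ → ℝ, Integrable v mu →
      ∃ V : ℝ → ℝ, Integrable V mu ∧ ∫ t, V t ∂mu = ∫ t, v t ∂mu ∧
        ∀ g : LinfUnit 𝕜, (∀ᵐ t ∂mu, ‖g t‖ ≤ v t) → ∀ᵐ t ∂mu, ‖E g t‖ ≤ V t)
    (y' : ℕ → StrongDual 𝕜 Y) {C : ℝ} (hC : ∀ i, ‖y' i‖ ≤ C) (F : LinfUnit Y) :
    ∀ᵐ t ∂mu, Tendsto (fun i => E (mulL (s i) ((y' i).compLpL ∞ mu F)) t) atTop (𝓝 0) := by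
  let _ : NormedSpace ℝ Y := NormedSpace.restrictScalars ℝ 𝕜 Y
  have hqs : StrictMono qs := strictMono_nat_of_lt_succ fun l => (h1 l).trans (h2 l)
  have hC0 : 0 ≤ C := (norm_nonneg _).trans (hC 0)
  have hgi : Integrable (F : ℝ → Y) mu := integrable_of_Linf F
  have key : ∀ k : ℕ, ∃ V : ℝ → ℝ, Integrable V mu ∧ ∫ t, V t ∂mu ≤ C * (1 / ((k : ℝ) + 1)) ∧
      ∀ᵐ t ∂mu, ∀ᶠ i in atTop, ‖E (mulL (s i) ((y' i).compLpL ∞ mu F)) t‖ ≤ V t := by
    intro k
    obtain ⟨p, g', hg'd, hg'i, hg'⟩ := exists_dyadic_approx hgi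
      (show (0 : ℝ) < 1 / ((k : ℝ) + 1) by positivity)
    obtain ⟨V, hV1, hV2, hV3⟩ := hE' (fun t => C * ‖F t - g' t‖)
      ((hgi.sub hg'i).norm.const_mul C)
    refine ⟨V, hV1, ?_, ?_⟩
    · rw [hV2, integral_const_mul]
      exact mul_le_mul_of_nonneg_left hg' hC0
    · have h3 : ∀ i, p ≤ i →
          ∀ᵐ t ∂mu, ‖E (mulL (s i) ((y' i).compLpL ∞ mu F)) t‖ ≤ V t := by
        intro i hi
        have hu : Dy (qs i) (fun t => y' i (g' t)) := by
          intro t t' h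
          have h4 := (hg'd.mono (hi.trans (hqs.le_apply))) t t' h
          simp only [h4]
        have e : E (mulL (s i) ((y' i).compLpL ∞ mu F)) =
            E (mulL (s i) ((y' i).compLpL ∞ mu F - tL (fun t => y' i (g' t)))) := by
          rw [map_sub, map_sub, E_osc hr hs h1 h2 hE i hu, sub_zero]
        rw [e]
        apply hV3
        filter_upwards [mulL_coe (hs i).dya.measurable (fun t => ((hs i).norm t).le)
          ((y' i).compLpL ∞ mu F - tL (fun t => y' i (g' t))),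
          Lp.coeFn_sub ((y' i).compLpL ∞ mu F) (tL (fun t => y' i (g' t))),
          compLpL_coe (y' i) F, tL_coe (DyA.memLp ⟨_, hu⟩)] with t h4 h5 h6 h7
        rw [h4, h5, Pi.sub_apply, h6, h7, norm_mul, (hs i).norm, one_mul, ← map_sub]
        exact ((y' i).le_opNorm _).trans (mul_le_mul_of_nonneg_right (hC i) (norm_nonneg _))
      have h4 : ∀ᵐ t ∂mu, ∀ i, p ≤ i →
          ‖E (mulL (s i) ((y' i).compLpL ∞ mu F)) t‖ ≤ V t := by
        rw [ae_all_iff]
        intro i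
        by_cases hi : p ≤ i
        · filter_upwards [h3 i hi] with t ht _ using ht
        · exact Eventually.of_forall fun t h => absurd h hi
      filter_upwards [h4] with t ht
      filter_upwards [eventually_ge_atTop p] with i hi using ht i hi
  choose V hV1 hV2 hV3 using key
  have h5 : ∀ᵐ t ∂mu, ∀ k, ∀ᶠ i in atTop,
      ‖E (mulL (s i) ((y' i).compLpL ∞ mu F)) t‖ ≤ V k t := ae_all_iff.2 hV3
  have h6 : ∀ k, 0 ≤ᵐ[mu] V k := fun k => by
    filter_upwards [hV3 k] with t ht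
    obtain ⟨i, hi⟩ := ht.exists
    exact (norm_nonneg _).trans hi
  have h7 : ∀ᵐ t ∂mu, ∀ j : ℕ, ∃ k, V k t < 1 / ((j : ℝ) + 1) := by
    rw [ae_all_iff]
    intro j
    have hj : (0 : ℝ) < 1 / ((j : ℝ) + 1) := by positivity
    have hle : ∀ k : ℕ, mu.real {t | ∀ k, 1 / ((j : ℝ) + 1) ≤ V k t} ≤
        ((j : ℝ) + 1) * (C * (1 / ((k : ℝ) + 1))) := by
      intro k
      have h8 := (mul_meas_ge_le_integral_of_nonneg (h6 k) (hV1 k) (1 / ((j : ℝ) + 1))).trans
        (hV2 k)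
      have h9 : mu.real {t | ∀ k, 1 / ((j : ℝ) + 1) ≤ V k t} ≤
          mu.real {t | 1 / ((j : ℝ) + 1) ≤ V k t} :=
        measureReal_mono (fun t ht => ht k)
      rw [one_div, inv_mul_le_iff₀ (by positivity)] at h8
      rw [one_div] at h9
      refine (le_of_eq ?_).trans (h9.trans h8)
      rw [one_div]
    have hlim : Tendsto (fun k : ℕ => ((j : ℝ) + 1) * (C * (1 / ((k : ℝ) + 1)))) atTop (𝓝 0) := by
      have h8 := (tendsto_one_div_add_atTop_nhds_zero_nat (𝕜 := ℝ)).const_mul C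
      rw [mul_zero] at h8
      have h9 := h8.const_mul ((j : ℝ) + 1)
      rwa [mul_zero] at h9
    have hz : mu.real {t | ∀ k, 1 / ((j : ℝ) + 1) ≤ V k t} ≤ 0 := ge_of_tendsto' hlim hle
    have hnull : mu {t | ∀ k, 1 / ((j : ℝ) + 1) ≤ V k t} = 0 :=
      (measureReal_eq_zero_iff (measure_ne_top _ _)).1 (le_antisymm hz measureReal_nonneg)
    filter_upwards [measure_eq_zero_iff_ae_notMem.1 hnull] with t ht
    by_contra hcon
    push Not at hcon
    exact ht hcon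
  filter_upwards [h5, h7] with t h8 h9
  rw [Metric.tendsto_nhds]
  intro ε hε
  obtain ⟨j, hj⟩ := exists_nat_one_div_lt hε
  obtain ⟨k, hk⟩ := h9 j
  filter_upwards [h8 k] with i hi
  rw [dist_zero_right]
  exact hi.trans_lt (hk.trans hj)

end Pool.Agent.LinfC
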