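import Pool.Agent.LinfC.Comb

/-!
# The recursion
-/

set_option autoImplicit false

open MeasureTheory Set Filter Topology
open scoped ENNReal

namespace Pool.Agent.LinfC

open Pool.Agent.LinfX

variable {𝕜 : Type*} [RCLike 𝕜]

/-- boundedness of a form in the `L^1` norm of the second variable -/
def DRt (b : (ℝ → 𝕜) → (ℝ → 𝕜) → 𝕜) : Prop :=
  ∃ K : ℝ, 0 ≤ K ∧ ∀ f g (M : ℝ), DyA f → DyA g → 0 ≤ M →
    (∀ t ∈ Ico (0 : ℝ) 1, ‖f t‖ ≤ M) → ‖b f g‖ ≤ K * M * ∫ t, ‖g t‖ ∂mu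

/-- the functional `g ↦ b f g` -/
theorem DRt.right {C : ℝ} {b : (ℝ → 𝕜) → (ℝ → 𝕜) → 𝕜} (hb : DB C b) (h : DRt b) {f : ℝ → 𝕜}
    (hf : DyA f) : ∃ C', DF C' (fun g => b f g) := by
  obtain ⟨K, -, hK⟩ := h
  obtain ⟨M, hM, hfM⟩ := hf.bounded
  exact ⟨K * M, fun g g' hg hg' => hb.add_right f g g' hf hg hg',
    fun c g hg => hb.smul_right c f g hf hg, fun g hg => hK f g M hf hg hM hfM⟩

/-- The sequences of the recursion. `W_S = WW r S`. -/
structure Seqs (b : ℕ → (ℝ → 𝕜) → (ℝ → 𝕜) → 𝕜) (α : ℕ → (ℝ → 𝕜) → 𝕜) (α' : (ℝ → 𝕜) → 𝕜)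
    (N : ℕ → (ℝ → 𝕜) → 𝕜) (N' : (ℝ → 𝕜) → 𝕜) (η : ℕ → ℝ) (m : ℕ → ℕ) (qs qr : ℕ → ℕ)
    (s r : ℕ → ℝ → 𝕜) (n : ℕ) : Prop where
  os : Osc (qs n) (s n)
  or : Osc (qr n) (r n)
  lt : qs n < qr n
  prev : ∀ k < n, m k < m n ∧ qr k < qs n
  lim_a : ∀ R, R ⊆ Finset.range n → ‖α (m n) (WW r R) - α' (WW r R)‖ ≤ η n
  lim_n : ∀ R, R ⊆ Finset.range n → ‖N (m n) (WW r R) - N' (WW r R)‖ ≤ η n
  fst : ∀ S S', S ⊆ Finset.range n → S' ⊆ Finset.range n →
    ‖b (m n) (fun t => WW r S t * s n t) (fun t => WW r S' t * s n t) -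
      α (m n) (fun t => WW r S t * WW r S' t)‖ ≤ η n
  lin1 : ∀ i ≤ n, ∀ S S', S ⊆ Finset.range n → S' ⊆ Finset.range n →
    ‖b (m i) (fun t => WW r S t * s i t * r n t) (fun t => WW r S' t * s i t)‖ ≤ η n
  lin2 : ∀ i ≤ n, ∀ S S', S ⊆ Finset.range n → S' ⊆ Finset.range n →
    ‖b (m i) (fun t => WW r S t * s i t) (fun t => WW r S' t * s i t * r n t)‖ ≤ η n
  quad : ∀ i ≤ n, ∀ S S', S ⊆ Finset.range n → S' ⊆ Finset.range n →
    ‖b (m i) (fun t => WW r S t * s i t * r n t) (fun t => WW r S' t * s i t * r n t) -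
      α (m i) (fun t => WW r S t * WW r S' t)‖ ≤ η n
  an : ∀ i ≤ n, ∀ R, R ⊆ Finset.range n → ‖α (m i) (fun t => WW r R t * r n t)‖ ≤ η n
  nn : ∀ i ≤ n, ∀ R, R ⊆ Finset.range n → ‖N (m i) (fun t => WW r R t * r n t)‖ ≤ η n
  an' : ∀ R, R ⊆ Finset.range n → ‖α' (fun t => WW r R t * r n t)‖ ≤ η n
  nn' : ∀ R, R ⊆ Finset.range n → ‖N' (fun t => WW r R t * r n t)‖ ≤ η n

/-- one entry of the history -/
structure Ent (𝕜 : Type*) where
  m : ℕ
  qs : ℕ
  s : ℝ → 𝕜
  qr : ℕ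
  r : ℝ → 𝕜

instance : Nonempty (Ent 𝕜) := ⟨⟨0, 0, 0, 0, 0⟩⟩

theorem exists_seqs {C C' : ℝ} {b : ℕ → (ℝ → 𝕜) → (ℝ → 𝕜) → 𝕜} (hb : ∀ m, DB C (b m))
    (hbr : ∀ m, DRt (b m)) {𝒰 : Ultrafilter ℕ} (h𝒰 : (𝒰 : Filter ℕ) ≤ atTop)
    {N : ℕ → (ℝ → 𝕜) → 𝕜} (hN : ∀ m, DF C' (N m)) {𝒱 : Ultrafilter ℕ}
    (h𝒱 : (𝒱 : Filter ℕ) ≤ atTop) {I : Set ℕ} (hI : I ∈ 𝒱) {η : ℕ → ℝ} (hη : ∀ n, 0 < η n) :
    ∃ (m qs qr : ℕ → ℕ) (s r : ℕ → ℝ → 𝕜), (∀ n, m n ∈ I) ∧
      ∀ n, Seqs b (fun m f => ulim 𝒰 (fun q => tr (b m) q f))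
        (fun f => ulim 𝒱 (fun m => ulim 𝒰 (fun q => tr (b m) q f))) N
        (fun f => ulim 𝒱 (fun m => N m f)) η m qs qr s r n := by
  classical
  set α : ℕ → (ℝ → 𝕜) → 𝕜 := fun m f => ulim 𝒰 (fun q => tr (b m) q f) with hα
  set α' : (ℝ → 𝕜) → 𝕜 := fun f => ulim 𝒱 (fun m => α m f) with hα'
  set N' : (ℝ → 𝕜) → 𝕜 := fun f => ulim 𝒱 (fun m => N m f) with hN'
  have hαD : ∀ m, DF C (α m) := fun m => DF.tr (hb m) h𝒰
  have hα'D : DF C α' := DF.ulim 𝒱 (fun m => (hαD m).add) (fun m => (hαD m).smul)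
    fun f hf => Eventually.of_forall fun m => (hαD m).bd f hf
  have hN'D : DF C' N' := DF.ulim 𝒱 (fun m => (hN m).add) (fun m => (hN m).smul)
    fun f hf => Eventually.of_forall fun m => (hN m).bd f hf
  have hαt : ∀ f, DyA f → Tendsto (fun m => α m f) 𝒱 (𝓝 (α' f)) := fun f hf =>
    tendsto_ulim 𝒱 (C := C * ∫ t, ‖f t‖ ∂mu) (Eventually.of_forall fun m => (hαD m).bd f hf)
  have hNt : ∀ f, DyA f → Tendsto (fun m => N m f) 𝒱 (𝓝 (N' f)) := fun f hf =>
    tendsto_ulim 𝒱 (C := C' * ∫ t, ‖f t‖ ∂mu) (Eventually.of_forall fun m => (hN m).bd f hf)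
  suffices hmain : ∃ x : ℕ → Ent 𝕜, ∀ n, (x n).m ∈ I ∧ Seqs b α α' N N' η (fun k => (x k).m)
      (fun k => (x k).qs) (fun k => (x k).qr) (fun k => (x k).s) (fun k => (x k).r) n by
    obtain ⟨x, hx⟩ := hmain
    exact ⟨fun k => (x k).m, fun k => (x k).qs, fun k => (x k).qr, fun k => (x k).s,
      fun k => (x k).r, fun n => (hx n).1, fun n => (hx n).2⟩
  refine exists_hist (β := Ent 𝕜)
    (fun n x => (x n).m ∈ I ∧ Seqs b α α' N N' η (fun k => (x k).m) (fun k => (x k).qs)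
      (fun k => (x k).qr) (fun k => (x k).s) (fun k => (x k).r) n) ?_ ?_
  · -- locality
    intro n x x' h hP
    have hn := h n le_rfl
    have hW : ∀ R, R ⊆ Finset.range n → WW (fun k => (x' k).r) R = WW (fun k => (x k).r) R :=
      fun R hR => WW_congr fun l hl => by
        rw [h l (Finset.mem_range.1 (hR hl)).le]
    obtain ⟨h1, h2⟩ := hP
    refine ⟨by rw [← hn]; exact h1, ?_⟩
    constructor
    · rw [← hn]; exact h2.os
    · rw [← hn]; exact h2.or
    · rw [← hn]; exact h2.lt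
    · intro k hk
      rw [← hn, ← h k hk.le]
      exact h2.prev k hk
    · intro R hR
      rw [← hn, hW R hR]
      exact h2.lim_a R hR
    · intro R hR
      rw [← hn, hW R hR]
      exact h2.lim_n R hR
    · intro S S' hS hS'
      rw [← hn, hW S hS, hW S' hS']
      exact h2.fst S S' hS hS'
    · intro i hi S S' hS hS'
      rw [← hn, ← h i hi, hW S hS, hW S' hS']
      exact h2.lin1 i hi S S' hS hS'
    · intro i hi S S' hS hS'
      rw [← hn, ← h i hi, hW S hS, hW S' hS']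
      exact h2.lin2 i hi S S' hS hS'
    · intro i hi S S' hS hS'
      rw [← hn, ← h i hi, hW S hS, hW S' hS']
      exact h2.quad i hi S S' hS hS'
    · intro i hi R hR
      rw [← hn, ← h i hi, hW R hR]
      exact h2.an i hi R hR
    · intro i hi R hR
      rw [← hn, ← h i hi, hW R hR]
      exact h2.nn i hi R hR
    · intro R hR
      rw [← hn, hW R hR]
      exact h2.an' R hR
    · intro R hR
      rw [← hn, hW R hR]
      exact h2.nn' R hR
  · -- the step
    intro n x hx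
    set r : ℕ → ℝ → 𝕜 := fun k => (x k).r with hr
    have hrO : ∀ k < n, Osc (x k).qr (x k).r := fun k hk => (hx k hk).2.or
    have hsO : ∀ k < n, Osc (x k).qs (x k).s := fun k hk => (hx k hk).2.os
    have hWD : ∀ R, R ⊆ Finset.range n → DyA (WW r R) := fun R hR =>
      dya_WW fun l hl => (hrO l (Finset.mem_range.1 (hR hl))).dya
    have hW1 : ∀ R, R ⊆ Finset.range n → ∀ t, ‖WW r R t‖ = 1 := by
      intro R hR t
      unfold WW
      rw [norm_prod]
      refine Finset.prod_eq_one fun l hl => ?_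
      exact (hrO l (Finset.mem_range.1 (hR hl))).norm t
    set P : Finset (Finset ℕ) := (Finset.range n).powerset with hPdef
    have hPm : ∀ R, R ∈ P ↔ R ⊆ Finset.range n := fun R => Finset.mem_powerset
    -- choice of `m n`
    have e1 : ∀ᶠ m in (𝒱 : Filter ℕ), ∀ R ∈ P, ‖α m (WW r R) - α' (WW r R)‖ ≤ η n := by
      refine (Finset.eventually_all P).2 fun R hR => ?_
      exact (tendsto_iff_norm_sub_tendsto_zero.1 (hαt _ (hWD R ((hPm R).1 hR)))).eventually
        (eventually_le_nhds (hη n))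
    have e2 : ∀ᶠ m in (𝒱 : Filter ℕ), ∀ R ∈ P, ‖N m (WW r R) - N' (WW r R)‖ ≤ η n := by
      refine (Finset.eventually_all P).2 fun R hR => ?_
      exact (tendsto_iff_norm_sub_tendsto_zero.1 (hNt _ (hWD R ((hPm R).1 hR)))).eventually
        (eventually_le_nhds (hη n))
    have e3 : ∀ᶠ m in (𝒱 : Filter ℕ), ∀ k ∈ Finset.range n, (x k).m < m :=
      (Finset.eventually_all _).2 fun k _ => h𝒱 (eventually_gt_atTop _)
    have e4 : ∀ᶠ m in (𝒱 : Filter ℕ), m ∈ I := hI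
    obtain ⟨m, hm1, hm2, hm3, hm4⟩ := (e1.and (e2.and (e3.and e4))).exists
    -- choice of `s n`
    have e5 : ∀ᶠ q in (𝒰 : Filter ℕ), ∀ k ∈ Finset.range n, (x k).qr < q :=
      (Finset.eventually_all _).2 fun k _ => h𝒰 (eventually_gt_atTop _)
    obtain ⟨qs, hqs, s, hs, hs2⟩ := comb (P ×ˢ P) (C := C)
      (B := fun p f g => b m (fun t => WW r p.1 t * f t) (fun t => WW r p.2 t * g t))
      (by
        intro p hp
        rw [Finset.mem_product, hPm, hPm] at hp
        exact (hb m).mul (hWD _ hp.1) (hWD _ hp.2) (fun t _ => (hW1 _ hp.1 t).le)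
          fun t _ => (hW1 _ hp.2 t).le) h𝒰 (hη n) e5
    -- choice of `r n`
    set mm : ℕ → ℕ := fun k => if k = n then m else (x k).m with hmm
    set ss : ℕ → ℝ → 𝕜 := fun k => if k = n then s else (x k).s with hss
    have hssD : ∀ i ∈ Finset.range (n + 1), DyA (ss i) ∧ (∀ t, ‖ss i t‖ = 1) ∧
        ∀ t, ss i t * ss i t = 1 := by
      intro i hi
      simp only [hss]
      by_cases h : i = n
      · simp only [if_pos h]
        exact ⟨hs.dya, hs.norm, hs.sq⟩
      · simp only [if_neg h]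
        rw [Finset.mem_range] at hi
        have h1 := hsO i (by omega)
        exact ⟨h1.dya, h1.norm, h1.sq⟩
    have hSs : ∀ i ∈ Finset.range (n + 1), ∀ S ∈ P, DyA (fun t => WW r S t * ss i t) ∧
        ∀ t, ‖WW r S t * ss i t‖ = 1 := by
      intro i hi S hS
      obtain ⟨h1, h2, -⟩ := hssD i hi
      refine ⟨(hWD S ((hPm S).1 hS)).mul h1, fun t => ?_⟩
      rw [norm_mul, h2 t, hW1 S ((hPm S).1 hS) t, one_mul]
    have hsm : ∀ {D : ℝ} {A : (ℝ → 𝕜) → 𝕜}, DF D A →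
        ∀ᶠ q in (𝒰 : Filter ℕ), ∀ s : ℝ → 𝕜, Osc q s → ‖A s‖ ≤ η n :=
      fun h => h.eventually_small (hη n) h𝒰
    have f1 : ∀ᶠ q in (𝒰 : Filter ℕ), ∀ i ∈ Finset.range (n + 1), ∀ S ∈ P, ∀ S' ∈ P,
        ∀ u : ℝ → 𝕜, Osc q u → ‖b (mm i) (fun t => WW r S t * ss i t * u t)
          (fun t => WW r S' t * ss i t)‖ ≤ η n := by
      refine (Finset.eventually_all _).2 fun i hi => (Finset.eventually_all _).2 fun S hS =>
        (Finset.eventually_all _).2 fun S' hS' => ?_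
      exact hsm (((hb (mm i)).left (hSs i hi S' hS').1 zero_le_one
        (fun t _ => ((hSs i hi S' hS').2 t).le)).mul (hSs i hi S hS).1
          fun t _ => ((hSs i hi S hS).2 t).le)
    have f2 : ∀ᶠ q in (𝒰 : Filter ℕ), ∀ i ∈ Finset.range (n + 1), ∀ S ∈ P, ∀ S' ∈ P,
        ∀ u : ℝ → 𝕜, Osc q u → ‖b (mm i) (fun t => WW r S t * ss i t)
          (fun t => WW r S' t * ss i t * u t)‖ ≤ η n := by
      refine (Finset.eventually_all _).2 fun i hi => (Finset.eventually_all _).2 fun S hS =>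
        (Finset.eventually_all _).2 fun S' hS' => ?_
      obtain ⟨D, hD⟩ := DRt.right (hb (mm i)) (hbr (mm i)) (hSs i hi S hS).1
      exact hsm (hD.mul (hSs i hi S' hS').1 fun t _ => ((hSs i hi S' hS').2 t).le)
    have f3 : ∀ᶠ q in (𝒰 : Filter ℕ), ∀ i ∈ Finset.range (n + 1), ∀ R ∈ P,
        ∀ u : ℝ → 𝕜, Osc q u → ‖α (mm i) (fun t => WW r R t * u t)‖ ≤ η n := by
      refine (Finset.eventually_all _).2 fun i _ => (Finset.eventually_all _).2 fun R hR => ?_
      exact hsm ((hαD (mm i)).mul (hWD R ((hPm R).1 hR)) fun t _ => (hW1 R ((hPm R).1 hR) t).le)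
    have f4 : ∀ᶠ q in (𝒰 : Filter ℕ), ∀ i ∈ Finset.range (n + 1), ∀ R ∈ P,
        ∀ u : ℝ → 𝕜, Osc q u → ‖N (mm i) (fun t => WW r R t * u t)‖ ≤ η n := by
      refine (Finset.eventually_all _).2 fun i _ => (Finset.eventually_all _).2 fun R hR => ?_
      exact hsm ((hN (mm i)).mul (hWD R ((hPm R).1 hR)) fun t _ => (hW1 R ((hPm R).1 hR) t).le)
    have f5 : ∀ᶠ q in (𝒰 : Filter ℕ), ∀ R ∈ P,
        ∀ u : ℝ → 𝕜, Osc q u → ‖α' (fun t => WW r R t * u t)‖ ≤ η n := by
      refine (Finset.eventually_all _).2 fun R hR => ?_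
      exact hsm (hα'D.mul (hWD R ((hPm R).1 hR)) fun t _ => (hW1 R ((hPm R).1 hR) t).le)
    have f6 : ∀ᶠ q in (𝒰 : Filter ℕ), ∀ R ∈ P,
        ∀ u : ℝ → 𝕜, Osc q u → ‖N' (fun t => WW r R t * u t)‖ ≤ η n := by
      refine (Finset.eventually_all _).2 fun R hR => ?_
      exact hsm (hN'D.mul (hWD R ((hPm R).1 hR)) fun t _ => (hW1 R ((hPm R).1 hR) t).le)
    have f7 : ∀ᶠ q in (𝒰 : Filter ℕ), qs < q := h𝒰 (eventually_gt_atTop _)
    obtain ⟨qr, ⟨g1, g2, g3, g4, g5, g6, g7⟩, u, hu, hu2⟩ := comb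
      ((Finset.range (n + 1)) ×ˢ (P ×ˢ P)) (C := C)
      (B := fun p f g => b (mm p.1) (fun t => WW r p.2.1 t * ss p.1 t * f t)
        (fun t => WW r p.2.2 t * ss p.1 t * g t))
      (by
        intro p hp
        rw [Finset.mem_product, Finset.mem_product] at hp
        exact (hb (mm p.1)).mul (hSs _ hp.1 _ hp.2.1).1 (hSs _ hp.1 _ hp.2.2).1
          (fun t _ => ((hSs _ hp.1 _ hp.2.1).2 t).le) fun t _ => ((hSs _ hp.1 _ hp.2.2).2 t).le)
      h𝒰 (hη n) (f1.and (f2.and (f3.and (f4.and (f5.and (f6.and f7))))))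
    refine ⟨⟨m, qs, s, qr, u⟩, ?_⟩
    set y : Ent 𝕜 := ⟨m, qs, s, qr, u⟩ with hy
    have hyn : Function.update x n y n = y := Function.update_self _ _ _
    have hym : ∀ k, (Function.update x n y k).m = mm k := by
      intro k
      simp only [hmm]
      by_cases h : k = n
      · rw [if_pos h, h, hyn]
      · rw [if_neg h, Function.update_of_ne h]
    have hys : ∀ k, (Function.update x n y k).s = ss k := by
      intro k
      simp only [hss]
      by_cases h : k = n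
      · rw [if_pos h, h, hyn]
      · rw [if_neg h, Function.update_of_ne h]
    have hmmn : mm n = m := if_pos rfl
    have hssn : ss n = s := if_pos rfl
    have hW : ∀ R, R ⊆ Finset.range n →
        WW (fun k => (Function.update x n y k).r) R = WW r R := fun R hR =>
      WW_congr fun l hl => by
        have h1 := Finset.mem_range.1 (hR hl)
        rw [Function.update_of_ne (by omega)]
    have hun : (Function.update x n y n).r = u := by rw [hyn]
    refine ⟨by rw [hym n, hmmn]; exact hm4, ?_⟩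
    constructor
    · change Osc (Function.update x n y n).qs (Function.update x n y n).s
      rw [hyn]
      exact hs
    · change Osc (Function.update x n y n).qr (Function.update x n y n).r
      rw [hyn]
      exact hu
    · change (Function.update x n y n).qs < (Function.update x n y n).qr
      rw [hyn]
      exact g7
    · intro k hk
      simp only [hyn, Function.update_of_ne (show k ≠ n by omega)]
      exact ⟨hm3 k (Finset.mem_range.2 hk), hqs k (Finset.mem_range.2 hk)⟩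
    · intro R hR
      simp only [hym, hmmn, hW R hR]
      exact hm1 R ((hPm R).2 hR)
    · intro R hR
      simp only [hym, hmmn, hW R hR]
      exact hm2 R ((hPm R).2 hR)
    · intro S S' hS hS'
      simp only [hym, hys, hmmn, hssn, hW S hS, hW S' hS']
      have h1 := hs2 (S, S') (Finset.mem_product.2 ⟨(hPm S).2 hS, (hPm S').2 hS'⟩)
      rw [ulim_tr_mul (hb m) (hWD S hS) (hWD S' hS') h𝒰] at h1
      exact h1
    · intro i hi S S' hS hS'
      simp only [hym, hys, hun, hW S hS, hW S' hS']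
      exact g1 i (Finset.mem_range.2 (by omega)) S ((hPm S).2 hS) S' ((hPm S').2 hS') u hu
    · intro i hi S S' hS hS'
      simp only [hym, hys, hun, hW S hS, hW S' hS']
      exact g2 i (Finset.mem_range.2 (by omega)) S ((hPm S).2 hS) S' ((hPm S').2 hS') u hu
    · intro i hi S S' hS hS'
      simp only [hym, hys, hun, hW S hS, hW S' hS']
      have hi' : i ∈ Finset.range (n + 1) := Finset.mem_range.2 (by omega)
      have h1 := hu2 (i, (S, S')) (Finset.mem_product.2 ⟨hi',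
        Finset.mem_product.2 ⟨(hPm S).2 hS, (hPm S').2 hS'⟩⟩)
      rw [ulim_tr_mul (hb (mm i)) (hSs i hi' S ((hPm S).2 hS)).1
        (hSs i hi' S' ((hPm S').2 hS')).1 h𝒰] at h1
      have h2 : (fun t => WW r S t * ss i t * (WW r S' t * ss i t)) =
          fun t => WW r S t * WW r S' t := by
        funext t
        have h3 := (hssD i hi').2.2 t
        linear_combination (WW r S t * WW r S' t) * h3
      simp only [h2] at h1
      exact h1
    · intro i hi R hR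
      simp only [hym, hun, hW R hR]
      exact g3 i (Finset.mem_range.2 (by omega)) R ((hPm R).2 hR) u hu
    · intro i hi R hR
      simp only [hym, hun, hW R hR]
      exact g4 i (Finset.mem_range.2 (by omega)) R ((hPm R).2 hR) u hu
    · intro R hR
      simp only [hun, hW R hR]
      exact g5 R ((hPm R).2 hR) u hu
    · intro R hR
      simp only [hun, hW R hR]
      exact g6 R ((hPm R).2 hR) u hu

end Pool.Agent.LinfC
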