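import Pool.Agent.LinfC.RhoB

/-!
# Package LinfC-Rho: dyadic functions of `ro`

*`floor_ro`.* By `rn_le_ro`, `ro_le`, `exists_rn_nat`: `k ≤ 2 ^ n * ro r t ≤ k + 1` with
`k = 2 ^ n * rn r n t`, so the floors agree unless `2 ^ n * ro r t = k + 1`. The set of all
numbers `j / 2 ^ n` (`j : ℤ`, `n : ℕ`) is countable, so it is a null set (`Set.Countable.measure_zero`),
and so is its preimage under `ro r` (`measurePreserving_ro`,
`MeasurePreserving.quasiMeasurePreserving`, `QuasiMeasurePreserving.preimage_null`).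

*`comp_ro`.* `Dy n f` with `floor_ro`.

Difficulty: 0.6 h.
-/

set_option autoImplicit false

open MeasureTheory Set Filter Topology
open scoped ENNReal

namespace Pool.Agent.LinfC

open Pool.Agent.LinfX

variable {𝕜 : Type*} [RCLike 𝕜]

theorem floor_ro {r : ℕ → ℝ → 𝕜} {q : ℕ → ℕ} (hr : ∀ l, Osc (q l) (r l))
    (hq : StrictMono q) :
    ∀ᵐ t ∂mu, ∀ n : ℕ, ⌊(2 : ℝ) ^ n * ro r t⌋ = ⌊(2 : ℝ) ^ n * rn r n t⌋ := by
  have hN : (Set.range fun p : ℤ × ℕ => (p.1 : ℝ) / 2 ^ p.2).Countable := Set.countable_range _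
  have hmu : mu (Set.range fun p : ℤ × ℕ => (p.1 : ℝ) / 2 ^ p.2) = 0 := hN.measure_zero mu
  have hpre := (measurePreserving_ro hr hq).quasiMeasurePreserving.preimage_null hmu
  have hae : ∀ᵐ t ∂mu, t ∉ ro r ⁻¹' (Set.range fun p : ℤ × ℕ => (p.1 : ℝ) / 2 ^ p.2) :=
    measure_eq_zero_iff_ae_notMem.1 hpre
  filter_upwards [hae] with t ht n
  obtain ⟨k, hk, hkt⟩ := exists_rn_nat r n t
  have h2 : (0 : ℝ) < 2 ^ n := by positivity
  have h1 : (2 : ℝ) ^ n * rn r n t = k := by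
    rw [hkt]
    field_simp
  have h3 := rn_le_ro r n t
  have h4 := ro_le r n t
  have h5 : (k : ℝ) ≤ 2 ^ n * ro r t := by
    rw [← h1]
    exact mul_le_mul_of_nonneg_left h3 h2.le
  have h6 : (2 : ℝ) ^ n * ro r t ≤ k + 1 := by
    have h7 := mul_le_mul_of_nonneg_left h4 h2.le
    rw [mul_add, h1, mul_one_div_cancel h2.ne'] at h7
    exact h7
  have h8 : (2 : ℝ) ^ n * ro r t ≠ k + 1 := by
    intro h9
    apply ht
    refine ⟨((k : ℤ) + 1, n), ?_⟩
    show (((k : ℤ) + 1 : ℤ) : ℝ) / 2 ^ n = ro r t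
    rw [div_eq_iff h2.ne', mul_comm, h9]
    push_cast
    ring
  have h10 : (2 : ℝ) ^ n * ro r t < k + 1 := lt_of_le_of_ne h6 h8
  rw [h1]
  have h11 : ⌊(2 : ℝ) ^ n * ro r t⌋ = (k : ℤ) := by
    rw [Int.floor_eq_iff]
    constructor
    · push_cast
      exact h5
    · push_cast
      exact h10
  rw [h11]
  exact (Int.floor_natCast k).symm

theorem comp_ro {r : ℕ → ℝ → 𝕜} {q : ℕ → ℕ} (hr : ∀ l, Osc (q l) (r l))
    (hq : StrictMono q) {n : ℕ} {f : ℝ → 𝕜} (hf : Dy n f) :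
    ∀ᵐ t ∂mu, f (ro r t) = f (rn r n t) := by
  filter_upwards [floor_ro hr hq] with t ht
  exact hf _ _ (ht n)

end Pool.Agent.LinfC
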