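import Pool.Agent.LinfC.RhoDefs

/-!
# Package LinfC-RhoA: measurability, integrals of compositions with `rn`

*`measurable_ro`.* Limit of the measurable functions `rn r n` (`dya_rn`, `DyA.measurable`,
`tendsto_rn`, `measurable_of_tendsto_metrizable`).

*`integral_comp_rn`.* `walsh` (`Osc.sign` gives `Sg r`) and `integral_WW`: all the terms with
`S ≠ ∅` vanish; `WW_empty`; `dya_WW`, `DyA.integrable`.

Difficulty: 0.4 h.
-/

set_option autoImplicit false

open MeasureTheory Set Filter Topology
open scoped ENNReal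

namespace Pool.Agent.LinfC

open Pool.Agent.LinfX

variable {𝕜 : Type*} [RCLike 𝕜]

theorem measurable_ro {r : ℕ → ℝ → 𝕜} (hr : ∀ l, DyA (r l)) : Measurable (ro r) := by
  refine measurable_of_tendsto_metrizable (f := fun n => rn r n) (fun n => ?_) ?_
  · exact (dya_rn n fun l _ => hr l).measurable
  · rw [tendsto_pi_nhds]
    exact fun t => tendsto_rn r t

theorem integral_comp_rn {r : ℕ → ℝ → 𝕜} {q : ℕ → ℕ} (hr : ∀ l, Osc (q l) (r l))
    (hq : StrictMono q) {n : ℕ} {f : ℝ → 𝕜} (hf : Dy n f) :
    ∫ t, f (rn r n t) ∂mu = ∫ t, f t ∂mu := by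
  obtain ⟨a, h1, -, h3⟩ := walsh (r := r) (fun l t => (hr l).sign t) n hf
  have hd : ∀ S : Finset ℕ, DyA (WW r S) := fun S => dya_WW fun l _ => (hr l).dya
  calc ∫ t, f (rn r n t) ∂mu
      = ∫ t, ∑ S ∈ (Finset.range n).powerset, a S * WW r S t ∂mu := by
        simp only [h1]
    _ = ∑ S ∈ (Finset.range n).powerset, ∫ t, a S * WW r S t ∂mu := by
        rw [integral_finsetSum]
        intro S _
        exact ((hd S).integrable).const_mul _
    _ = ∑ S ∈ (Finset.range n).powerset, a S * ∫ t, WW r S t ∂mu := by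
        refine Finset.sum_congr rfl fun S _ => ?_
        rw [integral_const_mul]
    _ = a ∅ * ∫ t, WW r ∅ t ∂mu := by
        refine Finset.sum_eq_single_of_mem ∅ (Finset.empty_mem_powerset _) fun S _ hS => ?_
        rw [integral_WW hr hq (Finset.nonempty_iff_ne_empty.2 hS), mul_zero]
    _ = ∫ t, f t ∂mu := by
        simp only [WW_empty]
        rw [h3]
        simp

end Pool.Agent.LinfC
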