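import Pool.Agent.LinfC.RhoA

/-!
# Package LinfC-RhoB: the map `ro` is measure preserving

*`measurePreserving_ro`.* Let `g` be bounded and continuous on `ℝ`. With
`g' n x = g (⌊2 ^ n * x⌋ / 2 ^ n)` (`Dy n`): `g (rn r n t) = g' n (rn r n t)` (`exists_rn_nat`), so
`∫ g (rn r n t) = ∫ g' n` by `integral_comp_rn` (with `(g x : 𝕜)` in place of `g`, then real parts:
`integral_ofReal`). As `n → ∞` (`tendsto_rn`, `⌊2 ^ n x⌋ / 2 ^ n → x`,
`tendsto_integral_of_dominated_convergence`) `∫ g (ro r t) = ∫ g`. So the finite measures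
`mu.map (ro r)` and `mu` coincide (`MeasureTheory.ext_of_forall_integral_eq_of_IsFiniteMeasure`,
`integral_map`). Other proofs are possible (for example: the two measures agree on the dyadic
intervals of `[0, 1)` and both are concentrated on `[0, 1]`).

Difficulty: 0.9 h.
-/

set_option autoImplicit false

open MeasureTheory Set Filter Topology
open scoped ENNReal

namespace Pool.Agent.LinfC

open Pool.Agent.LinfX

variable {𝕜 : Type*} [RCLike 𝕜]

private theorem tendsto_floor_div (x : ℝ) :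
    Tendsto (fun n : ℕ => (⌊(2 : ℝ) ^ n * x⌋ : ℝ) / 2 ^ n) atTop (𝓝 x) := by
  have h1 : Tendsto (fun n : ℕ => x - (1 / 2 : ℝ) ^ n) atTop (𝓝 (x - 0)) :=
    tendsto_const_nhds.sub (tendsto_pow_atTop_nhds_zero_of_lt_one (by norm_num) (by norm_num))
  rw [sub_zero] at h1
  refine tendsto_of_tendsto_of_tendsto_of_le_of_le h1 tendsto_const_nhds (fun n => ?_)
    (fun n => ?_)
  · have h2 : (0 : ℝ) < 2 ^ n := by positivity
    have h3 := Int.lt_floor_add_one ((2 : ℝ) ^ n * x)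
    change x - (1 / 2 : ℝ) ^ n ≤ _
    rw [le_div_iff₀ h2, sub_mul, one_div_pow, one_div, inv_mul_cancel₀ h2.ne']
    linarith [mul_comm x ((2 : ℝ) ^ n)]
  · have h2 : (0 : ℝ) < 2 ^ n := by positivity
    have h3 := Int.floor_le ((2 : ℝ) ^ n * x)
    change _ ≤ x
    rw [div_le_iff₀ h2]
    linarith [mul_comm x ((2 : ℝ) ^ n)]

private theorem integral_comp_ro {r : ℕ → ℝ → 𝕜} {q : ℕ → ℕ} (hr : ∀ l, Osc (q l) (r l))
    (hq : StrictMono q) (g : BoundedContinuousFunction ℝ ℝ) :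
    ∫ t, g (ro r t) ∂mu = ∫ t, g t ∂mu := by
  have hdy : ∀ n : ℕ, Dy n (fun x : ℝ => ((g ((⌊(2 : ℝ) ^ n * x⌋ : ℝ) / 2 ^ n) : ℝ) : 𝕜)) := by
    intro n t t' h
    change ((g ((⌊(2 : ℝ) ^ n * t⌋ : ℝ) / 2 ^ n) : ℝ) : 𝕜) =
      ((g ((⌊(2 : ℝ) ^ n * t'⌋ : ℝ) / 2 ^ n) : ℝ) : 𝕜)
    rw [h]
  have h1 : ∀ n : ℕ, ∫ t, g (rn r n t) ∂mu =
      ∫ t, g ((⌊(2 : ℝ) ^ n * t⌋ : ℝ) / 2 ^ n) ∂mu := by
    intro n
    have h2 := integral_comp_rn (𝕜 := 𝕜) hr hq (hdy n)
    rw [integral_ofReal, integral_ofReal] at h2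
    have h3 := RCLike.ofReal_injective (K := 𝕜) h2
    rw [← h3]
    refine integral_congr_ae (ae_of_all _ fun t => ?_)
    obtain ⟨k, -, hk⟩ := exists_rn_nat r n t
    change g (rn r n t) = g ((⌊(2 : ℝ) ^ n * rn r n t⌋ : ℝ) / 2 ^ n)
    rw [hk, floor_div_pow, Int.cast_natCast]
  have hb : ∀ x : ℝ, ‖g x‖ ≤ ‖g‖ := fun x => g.norm_coe_le_norm x
  have h4 : Tendsto (fun n : ℕ => ∫ t, g (rn r n t) ∂mu) atTop (𝓝 (∫ t, g (ro r t) ∂mu)) := by
    refine tendsto_integral_of_dominated_convergence (fun _ => ‖g‖) (fun n => ?_)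
      (integrable_const _) (fun n => ae_of_all _ fun t => hb _) (ae_of_all _ fun t => ?_)
    · exact (g.continuous.measurable.comp
        (dya_rn n fun l _ => (hr l).dya).measurable).aestronglyMeasurable
    · exact (g.continuous.tendsto _).comp (tendsto_rn r t)
  have h5 : Tendsto (fun n : ℕ => ∫ t, g ((⌊(2 : ℝ) ^ n * t⌋ : ℝ) / 2 ^ n) ∂mu) atTop
      (𝓝 (∫ t, g t ∂mu)) := by
    refine tendsto_integral_of_dominated_convergence (fun _ => ‖g‖) (fun n => ?_)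
      (integrable_const _) (fun n => ae_of_all _ fun t => hb _) (ae_of_all _ fun t => ?_)
    · have h6 : DyA (fun t : ℝ => g ((⌊(2 : ℝ) ^ n * t⌋ : ℝ) / 2 ^ n)) := ⟨n, by
        intro t t' h
        change g ((⌊(2 : ℝ) ^ n * t⌋ : ℝ) / 2 ^ n) = g ((⌊(2 : ℝ) ^ n * t'⌋ : ℝ) / 2 ^ n)
        rw [h]⟩
      exact h6.measurable.aestronglyMeasurable
    · exact (g.continuous.tendsto _).comp (tendsto_floor_div t)
  simp only [h1] at h4
  exact tendsto_nhds_unique h4 h5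

theorem measurePreserving_ro {r : ℕ → ℝ → 𝕜} {q : ℕ → ℕ} (hr : ∀ l, Osc (q l) (r l))
    (hq : StrictMono q) : MeasurePreserving (ro r) mu mu := by
  have hm : Measurable (ro r) := measurable_ro fun l => (hr l).dya
  refine ⟨hm, ?_⟩
  have : IsFiniteMeasure (Measure.map (ro r) mu) := Measure.isFiniteMeasure_map _ _
  refine ext_of_forall_integral_eq_of_IsFiniteMeasure fun g => ?_
  rw [integral_map hm.aemeasurable g.continuous.measurable.aestronglyMeasurable]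
  exact integral_comp_ro hr hq g

end Pool.Agent.LinfC
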