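import Pool.Agent.LinfC.Walsh
import Pool.Agent.LinfC.Orth

/-!
# The map `ro` with given binary digits
-/

set_option autoImplicit false

open MeasureTheory Set Filter Topology
open scoped ENNReal

namespace Pool.Agent.LinfC

open Pool.Agent.LinfX

variable {𝕜 : Type*} [RCLike 𝕜]

/-- the number with the binary digits `dg r l t`, `l ≥ 0` -/
noncomputable def ro (r : ℕ → ℝ → 𝕜) (t : ℝ) : ℝ := ∑' l : ℕ, (dg r l t : ℝ) / 2 ^ (l + 1)

theorem summable_ro (r : ℕ → ℝ → 𝕜) (t : ℝ) :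
    Summable fun l : ℕ => (dg r l t : ℝ) / 2 ^ (l + 1) := by
  refine Summable.of_nonneg_of_le (fun l => by positivity) (fun l => ?_)
    (summable_geometric_two' 1)
  have h2 : (dg r l t : ℝ) ≤ 1 := by exact_mod_cast dg_le r l t
  rw [div_div, pow_succ']
  gcongr

theorem tendsto_rn (r : ℕ → ℝ → 𝕜) (t : ℝ) :
    Tendsto (fun n => rn r n t) atTop (𝓝 (ro r t)) := by
  have h := (summable_ro r t).hasSum.tendsto_sum_nat
  simp only [← rn_eq] at h
  exact h

theorem rn_le_ro (r : ℕ → ℝ → 𝕜) (n : ℕ) (t : ℝ) : rn r n t ≤ ro r t :=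
  (rn_mono r t).ge_of_tendsto (tendsto_rn r t) n

theorem ro_le (r : ℕ → ℝ → 𝕜) (n : ℕ) (t : ℝ) : ro r t ≤ rn r n t + 1 / 2 ^ n := by
  refine le_of_tendsto (tendsto_rn r t) ?_
  filter_upwards [eventually_ge_atTop n] with k hk
  obtain ⟨j, rfl⟩ := Nat.exists_eq_add_of_le hk
  have h1 := rn_le_add r t n j
  have h2 : (0 : ℝ) ≤ 1 / 2 ^ (n + j) := by positivity
  linarith

end Pool.Agent.LinfC
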