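import Pool.Agent.LinfC.Osc0

/-!
# Package LinfC-Signs: choice of signs for finitely many quadratic forms

*`exists_signs_quad`.* There are signs `ε` with
`∑ k, ‖∑ a, ∑ b ≠ a, ε a ε b m k a b‖ ^ 2 ≤ 2 ∑ k, ∑ a, ∑ b, ‖m k a b‖ ^ 2`.

Proof (average over `ι → Bool`, `σ true = 1`, `σ false = -1`; no product of four signs is needed).
For a finset `G` of `ι` put `Q G ε = ∑ a ∈ G, ∑ b ∈ G.erase a, σ (ε a) σ (ε b) m a b` (fixed `k`).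

(a) For all `v : ι → 𝕜` and `G`: `∑_ε ‖∑ a ∈ G, σ (ε a) v a‖ ^ 2 = ∑_ε ∑ a ∈ G, ‖v a‖ ^ 2`.
Induction on `G` (`Finset.induction_on`): for `c ∉ G` the function `X ε = ∑ a ∈ G, σ (ε a) v a` is
invariant under the flip of the `c`-th sign (`Function.update ε c (!ε c)`, an involution; see
`exists_signs_norm` in `LinfX/Cut.lean`, `Equiv.sum_comp`,
`Function.Involutive.toPerm`), and `‖X + σ(ε c) v c‖ ^ 2 + ‖X - σ(ε c) v c‖ ^ 2 =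
2 ‖X‖ ^ 2 + 2 ‖v c‖ ^ 2` (parallelogram); sum over `ε`.

(b) In the same way `∑_ε ‖Q (insert c G) ε‖ ^ 2 = ∑_ε ‖Q G ε‖ ^ 2 + ∑_ε ‖L ε‖ ^ 2` with
`Q (insert c G) ε = Q G ε + σ (ε c) L ε`, `L ε = ∑ a ∈ G, σ (ε a) (m a c + m c a)`, and by (a)
`∑_ε ‖L ε‖ ^ 2 = ∑_ε ∑ a ∈ G, ‖m a c + m c a‖ ^ 2 ≤ ∑_ε 2 ∑ a ∈ G, (‖m a c‖ ^ 2 + ‖m c a‖ ^ 2)`.
By induction `∑_ε ‖Q G ε‖ ^ 2 ≤ ∑_ε 2 ∑ a ∈ G, ∑ b ∈ G, ‖m a b‖ ^ 2`.

Sum over `k` with `G = univ`, exchange the sums and take the smallest term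
(`Finset.exists_le_of_sum_le`).

Difficulty: 0.8 h.
-/

set_option autoImplicit false

open MeasureTheory Set Filter Topology
open scoped ENNReal

namespace Pool.Agent.LinfC

open Pool.Agent.LinfX

variable {𝕜 : Type*} [RCLike 𝕜]

private noncomputable def sg (𝕜 : Type*) [RCLike 𝕜] (b : Bool) : 𝕜 := if b then 1 else -1

private theorem sg_norm (b : Bool) : ‖sg 𝕜 b‖ = 1 := by
  cases b <;> simp [sg]

private theorem sg_not (b : Bool) : sg 𝕜 (!b) = -sg 𝕜 b := by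
  cases b <;> simp [sg]

private def fl {ι : Type*} [DecidableEq ι] (c : ι) (ε : ι → Bool) : ι → Bool :=
  Function.update ε c (!ε c)

private theorem fl_invol {ι : Type*} [DecidableEq ι] (c : ι) :
    Function.Involutive (fl c : (ι → Bool) → (ι → Bool)) := by
  intro ε
  simp [fl]

private theorem fl_self {ι : Type*} [DecidableEq ι] (c : ι) (ε : ι → Bool) :
    fl c ε c = !ε c := by
  simp [fl]

private theorem fl_ne {ι : Type*} [DecidableEq ι] {c a : ι} (h : a ≠ c) (ε : ι → Bool) :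
    fl c ε a = ε a := by
  simp [fl, Function.update_of_ne h]

private theorem flip_sum {ι : Type*} [Fintype ι] [DecidableEq ι] (c : ι)
    (X L : (ι → Bool) → 𝕜) (hX : ∀ ε, X (fl c ε) = X ε) (hL : ∀ ε, L (fl c ε) = L ε) :
    ∑ ε, ‖X ε + sg 𝕜 (ε c) * L ε‖ ^ 2 = ∑ ε, ‖X ε‖ ^ 2 + ∑ ε, ‖L ε‖ ^ 2 := by
  have h1 : ∑ ε, ‖X ε + sg 𝕜 (ε c) * L ε‖ ^ 2 = ∑ ε, ‖X ε - sg 𝕜 (ε c) * L ε‖ ^ 2 := by
    have h := Equiv.sum_comp (Function.Involutive.toPerm _ (fl_invol c))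
      (fun ε : ι → Bool => ‖X ε + sg 𝕜 (ε c) * L ε‖ ^ 2)
    rw [← h]
    refine Finset.sum_congr rfl fun ε _ => ?_
    change ‖X (fl c ε) + sg 𝕜 (fl c ε c) * L (fl c ε)‖ ^ 2 = _
    rw [hX, hL, fl_self, sg_not, neg_mul, ← sub_eq_add_neg]
  have h2 : ∀ ε, ‖X ε + sg 𝕜 (ε c) * L ε‖ ^ 2 + ‖X ε - sg 𝕜 (ε c) * L ε‖ ^ 2 =
      2 * (‖X ε‖ ^ 2 + ‖L ε‖ ^ 2) := by
    intro ε
    have h := parallelogram_law_with_norm 𝕜 (X ε) (sg 𝕜 (ε c) * L ε)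
    have hn : ‖sg 𝕜 (ε c) * L ε‖ = ‖L ε‖ := by rw [norm_mul, sg_norm, one_mul]
    rw [hn] at h
    nlinarith [h]
  have h3 : ∑ ε, ‖X ε + sg 𝕜 (ε c) * L ε‖ ^ 2 + ∑ ε, ‖X ε - sg 𝕜 (ε c) * L ε‖ ^ 2 =
      2 * (∑ ε, ‖X ε‖ ^ 2 + ∑ ε, ‖L ε‖ ^ 2) := by
    rw [← Finset.sum_add_distrib, ← Finset.sum_add_distrib, Finset.mul_sum]
    exact Finset.sum_congr rfl fun ε _ => h2 ε
  linarith [h1, h3]

private theorem avg_lin {ι : Type*} [Fintype ι] [DecidableEq ι] (v : ι → 𝕜) (G : Finset ι) :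
    ∑ ε : ι → Bool, ‖∑ a ∈ G, sg 𝕜 (ε a) * v a‖ ^ 2 =
      ∑ _ε : ι → Bool, ∑ a ∈ G, ‖v a‖ ^ 2 := by
  induction G using Finset.induction_on with
  | empty => simp
  | insert c G hc ih =>
    have hne : ∀ a ∈ G, a ≠ c := fun a ha h => hc (h ▸ ha)
    have h := flip_sum c (fun ε => ∑ a ∈ G, sg 𝕜 (ε a) * v a) (fun _ => v c)
      (fun ε => Finset.sum_congr rfl fun a ha => by rw [fl_ne (hne a ha)]) (fun _ => rfl)
    have e1 : ∑ ε : ι → Bool, ‖∑ a ∈ insert c G, sg 𝕜 (ε a) * v a‖ ^ 2 =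
        ∑ ε : ι → Bool, ‖∑ a ∈ G, sg 𝕜 (ε a) * v a + sg 𝕜 (ε c) * v c‖ ^ 2 := by
      refine Finset.sum_congr rfl fun ε _ => ?_
      rw [Finset.sum_insert hc, add_comm]
    rw [e1, h, ih, ← Finset.sum_add_distrib]
    refine Finset.sum_congr rfl fun ε _ => ?_
    rw [Finset.sum_insert hc, add_comm]

private theorem quad_insert {ι : Type*} [DecidableEq ι] (m : ι → ι → 𝕜) (s : ι → 𝕜)
    {c : ι} {G : Finset ι} (hc : c ∉ G) :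
    ∑ a ∈ insert c G, ∑ b ∈ (insert c G).erase a, s a * s b * m a b =
      ∑ a ∈ G, ∑ b ∈ G.erase a, s a * s b * m a b +
        s c * ∑ a ∈ G, s a * (m a c + m c a) := by
  rw [Finset.sum_insert hc, Finset.erase_insert hc]
  have h : ∀ a ∈ G, ∑ b ∈ (insert c G).erase a, s a * s b * m a b =
      s a * s c * m a c + ∑ b ∈ G.erase a, s a * s b * m a b := by
    intro a ha
    have hne : c ≠ a := fun h => hc (h ▸ ha)
    rw [Finset.erase_insert_of_ne hne, Finset.sum_insert]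
    exact fun h => hc (Finset.mem_of_mem_erase h)
  rw [Finset.sum_congr rfl h, Finset.sum_add_distrib, Finset.mul_sum, add_comm,
    add_comm (∑ a ∈ G, s a * s c * m a c), add_assoc, ← Finset.sum_add_distrib]
  congr 1
  refine Finset.sum_congr rfl fun a _ => ?_
  ring

private theorem avg_quad {ι : Type*} [Fintype ι] [DecidableEq ι] (m : ι → ι → 𝕜)
    (G : Finset ι) :
    ∑ ε : ι → Bool, ‖∑ a ∈ G, ∑ b ∈ G.erase a, sg 𝕜 (ε a) * sg 𝕜 (ε b) * m a b‖ ^ 2 ≤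
      ∑ _ε : ι → Bool, 2 * ∑ a ∈ G, ∑ b ∈ G, ‖m a b‖ ^ 2 := by
  induction G using Finset.induction_on with
  | empty => simp
  | insert c G hc ih =>
    have hne : ∀ a ∈ G, a ≠ c := fun a ha h => hc (h ▸ ha)
    have h := flip_sum c
      (fun ε => ∑ a ∈ G, ∑ b ∈ G.erase a, sg 𝕜 (ε a) * sg 𝕜 (ε b) * m a b)
      (fun ε => ∑ a ∈ G, sg 𝕜 (ε a) * (m a c + m c a))
      (fun ε => Finset.sum_congr rfl fun a ha => Finset.sum_congr rfl fun b hb => by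
        rw [fl_ne (hne a ha), fl_ne (hne b (Finset.mem_of_mem_erase hb))])
      (fun ε => Finset.sum_congr rfl fun a ha => by rw [fl_ne (hne a ha)])
    have e1 : ∑ ε : ι → Bool, ‖∑ a ∈ insert c G, ∑ b ∈ (insert c G).erase a,
        sg 𝕜 (ε a) * sg 𝕜 (ε b) * m a b‖ ^ 2 =
        ∑ ε : ι → Bool, ‖∑ a ∈ G, ∑ b ∈ G.erase a, sg 𝕜 (ε a) * sg 𝕜 (ε b) * m a b +
          sg 𝕜 (ε c) * ∑ a ∈ G, sg 𝕜 (ε a) * (m a c + m c a)‖ ^ 2 := by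
      refine Finset.sum_congr rfl fun ε _ => ?_
      rw [quad_insert m (fun a => sg 𝕜 (ε a)) hc]
    rw [e1, h, avg_lin (fun a => m a c + m c a) G]
    have e2 : ∑ _ε : ι → Bool, ∑ a ∈ G, ‖m a c + m c a‖ ^ 2 ≤
        ∑ _ε : ι → Bool, 2 * ∑ a ∈ G, (‖m a c‖ ^ 2 + ‖m c a‖ ^ 2) := by
      refine Finset.sum_le_sum fun ε _ => ?_
      rw [Finset.mul_sum]
      refine Finset.sum_le_sum fun a _ => ?_
      have h1 : ‖m a c + m c a‖ ≤ ‖m a c‖ + ‖m c a‖ := norm_add_le _ _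
      have h2 : 0 ≤ ‖m a c + m c a‖ := norm_nonneg _
      nlinarith [sq_nonneg (‖m a c‖ - ‖m c a‖)]
    refine (add_le_add ih e2).trans ?_
    rw [← Finset.sum_add_distrib]
    refine Finset.sum_le_sum fun ε _ => ?_
    rw [Finset.sum_insert hc, Finset.sum_insert hc]
    have e3 : ∑ a ∈ G, ∑ b ∈ insert c G, ‖m a b‖ ^ 2 =
        ∑ a ∈ G, ‖m a c‖ ^ 2 + ∑ a ∈ G, ∑ b ∈ G, ‖m a b‖ ^ 2 := by
      rw [← Finset.sum_add_distrib]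
      exact Finset.sum_congr rfl fun a _ => Finset.sum_insert hc
    rw [e3, Finset.sum_add_distrib]
    have e4 : 0 ≤ ‖m c c‖ ^ 2 := by positivity
    linarith

theorem exists_signs_quad {κ ι : Type*} [Fintype κ] [Fintype ι] [DecidableEq ι]
    (m : κ → ι → ι → 𝕜) : ∃ ε : ι → 𝕜, (∀ i, ε i = 1 ∨ ε i = -1) ∧
      ∑ k, ‖∑ a, ∑ b ∈ Finset.univ.erase a, ε a * ε b * m k a b‖ ^ 2 ≤
        2 * ∑ k, ∑ a, ∑ b, ‖m k a b‖ ^ 2 := by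
  have h : ∑ ε : ι → Bool, ∑ k : κ, ‖∑ a, ∑ b ∈ Finset.univ.erase a,
      sg 𝕜 (ε a) * sg 𝕜 (ε b) * m k a b‖ ^ 2 ≤
      ∑ _ε : ι → Bool, 2 * ∑ k : κ, ∑ a, ∑ b, ‖m k a b‖ ^ 2 := by
    calc ∑ ε : ι → Bool, ∑ k : κ, ‖∑ a, ∑ b ∈ Finset.univ.erase a,
          sg 𝕜 (ε a) * sg 𝕜 (ε b) * m k a b‖ ^ 2
        = ∑ k : κ, ∑ ε : ι → Bool, ‖∑ a, ∑ b ∈ Finset.univ.erase a,
          sg 𝕜 (ε a) * sg 𝕜 (ε b) * m k a b‖ ^ 2 := Finset.sum_comm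
      _ ≤ ∑ k : κ, ∑ _ε : ι → Bool, 2 * ∑ a, ∑ b, ‖m k a b‖ ^ 2 :=
          Finset.sum_le_sum fun k _ => avg_quad (m k) Finset.univ
      _ = ∑ _ε : ι → Bool, ∑ k : κ, 2 * ∑ a, ∑ b, ‖m k a b‖ ^ 2 := Finset.sum_comm
      _ = ∑ _ε : ι → Bool, 2 * ∑ k : κ, ∑ a, ∑ b, ‖m k a b‖ ^ 2 := by
          rw [← Finset.mul_sum]
  obtain ⟨ε, -, hε⟩ := Finset.exists_le_of_sum_le Finset.univ_nonempty h
  refine ⟨fun i => sg 𝕜 (ε i), fun i => ?_, hε⟩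
  cases hb : ε i
  · right
    simp [sg, hb]
  · left
    simp [sg, hb]

end Pool.Agent.LinfC
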