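import Pool.Agent.LinfC.Rec

/-!
# Summation of the errors
-/

set_option autoImplicit false

open MeasureTheory Set Filter Topology
open scoped ENNReal

namespace Pool.Agent.LinfC

open Pool.Agent.LinfX

variable {𝕜 : Type*} [RCLike 𝕜]

theorem sum_pow_succ {M : Type*} [AddCommMonoid M] (f : Finset ℕ → M) (n : ℕ) :
    ∑ R ∈ (Finset.range (n + 1)).powerset, f R = ∑ R ∈ (Finset.range n).powerset, f R +
      ∑ R ∈ (Finset.range n).powerset, f (insert n R) := by
  rw [Finset.range_add_one, Finset.sum_powerset_insert Finset.notMem_range_self]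

theorem sum_le_card (n : ℕ) {f : Finset ℕ → ℝ} {B : ℝ}
    (h : ∀ R, R ⊆ Finset.range n → f R ≤ B) :
    ∑ R ∈ (Finset.range n).powerset, f R ≤ 2 ^ n * B := by
  refine (Finset.sum_le_card_nsmul _ _ B fun R hR => h R (Finset.mem_powerset.1 hR)).trans ?_
  rw [Finset.card_powerset, Finset.card_range, nsmul_eq_mul]
  push_cast
  exact le_rfl

/-- one variable, from a level on -/
theorem sum_from {f : Finset ℕ → ℝ} {ε : ℝ} {i : ℕ}
    (h : ∀ n, i ≤ n → ∀ R, R ⊆ Finset.range n → f (insert n R) ≤ ε / (16 * 8 ^ n)) {n : ℕ}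
    (hn : i ≤ n) : ∑ R ∈ (Finset.range n).powerset, f R ≤
      ∑ R ∈ (Finset.range i).powerset, f R + ε / 12 * ((1 / 4) ^ i - (1 / 4) ^ n) := by
  induction n, hn using Nat.le_induction with
  | base => simp
  | succ n hn ih =>
    rw [sum_pow_succ]
    have h1 := sum_le_card n (h n hn)
    have h2 : (2 : ℝ) ^ n * (ε / (16 * 8 ^ n)) =
        ε / 12 * ((1 / 4) ^ n - (1 / 4) ^ (n + 1)) := by
      have h3 : (8 : ℝ) ^ n = 2 ^ n * 4 ^ n := by rw [← mul_pow]; norm_num
      rw [h3, pow_succ, one_div_pow]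
      field_simp
      ring
    linarith

/-- one variable -/
theorem sum_one {f f' : Finset ℕ → ℝ} {ε : ℝ} (hε : 0 < ε) {i : ℕ} (h0' : f' ∅ = 0)
    (h1 : ∀ R, R ⊆ Finset.range i → f R ≤ f' R + ε / (16 * 8 ^ i))
    (h2 : ∀ n, i ≤ n → ∀ R, R ⊆ Finset.range n → f (insert n R) ≤ ε / (16 * 8 ^ n))
    (h3 : ∀ n, ∀ R, R ⊆ Finset.range n → f' (insert n R) ≤ ε / (16 * 8 ^ n)) (n : ℕ) :
    ∑ R ∈ (Finset.range n).powerset, f R ≤ ε / 2 := by
  have hA : ∀ n, ∑ R ∈ (Finset.range n).powerset, f' R ≤ ε / 12 := by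
    intro n
    have h4 := sum_from (f := f') (ε := ε) (i := 0) (fun n _ => h3 n) (Nat.zero_le n)
    have h5 : ∑ R ∈ (Finset.range 0).powerset, f' R = 0 := by simp [h0']
    rw [h5, zero_add, pow_zero] at h4
    refine h4.trans ?_
    have h6 : (0 : ℝ) ≤ (1 / 4) ^ n := by positivity
    nlinarith
  have h48 : ∀ j k : ℕ, j ≤ k → (2 : ℝ) ^ j * (ε / (16 * 8 ^ k)) ≤ ε / 16 := by
    intro j k hjk
    have h4 : (2 : ℝ) ^ j ≤ 8 ^ k := by
      calc (2 : ℝ) ^ j ≤ 2 ^ k := pow_le_pow_right₀ (by norm_num) hjk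
        _ ≤ 8 ^ k := pow_le_pow_left₀ (by norm_num) (by norm_num) k
    have h5 : (0 : ℝ) < 8 ^ k := by positivity
    rw [mul_div_assoc', div_le_div_iff₀ (by positivity) (by norm_num)]
    nlinarith
  have hB : ∀ n ≤ i, ∑ R ∈ (Finset.range n).powerset, f R ≤ ε / 12 + ε / 16 := by
    intro n hn
    have h4 : ∑ R ∈ (Finset.range n).powerset, f R ≤
        ∑ R ∈ (Finset.range n).powerset, (f' R + ε / (16 * 8 ^ i)) :=
      Finset.sum_le_sum fun R hR => h1 R ((Finset.mem_powerset.1 hR).trans
        (Finset.range_mono hn))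
    rw [Finset.sum_add_distrib] at h4
    have h5 := sum_le_card n (f := fun _ => ε / (16 * 8 ^ i)) (B := ε / (16 * 8 ^ i))
      fun _ _ => le_rfl
    have h6 := h48 n i hn
    have h7 := hA n
    linarith
  rcases le_total n i with hn | hn
  · have := hB n hn
    linarith
  · have h4 := sum_from h2 hn
    have h5 := hB i le_rfl
    have h6 : (0 : ℝ) ≤ (1 / 4) ^ n := by positivity
    have h7 : ((1 : ℝ) / 4) ^ i ≤ 1 := pow_le_one₀ (by norm_num) (by norm_num)
    nlinarith

/-- two variables -/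
theorem sum_two {e : Finset ℕ → Finset ℕ → ℝ} {ε : ℝ} (hε : 0 < ε) {i : ℕ}
    (h0 : ∀ S S', S ⊆ Finset.range i → S' ⊆ Finset.range i → e S S' ≤ ε / (16 * 8 ^ i))
    (h1 : ∀ n, i ≤ n → ∀ S S', S ⊆ Finset.range n → S' ⊆ Finset.range n →
      e S (insert n S') ≤ 2 * (ε / (16 * 8 ^ n)))
    (h2 : ∀ n, i ≤ n → ∀ S S', S ⊆ Finset.range n → S' ⊆ Finset.range n →
      e (insert n S) S' ≤ 2 * (ε / (16 * 8 ^ n)))
    (h3 : ∀ n, i ≤ n → ∀ S S', S ⊆ Finset.range n → S' ⊆ Finset.range n →
      e (insert n S) (insert n S') ≤ ε / (16 * 8 ^ n)) (n : ℕ) :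
    ∑ S ∈ (Finset.range n).powerset, ∑ S' ∈ (Finset.range n).powerset, e S S' ≤ ε := by
  have hcard : ∀ (n : ℕ) (g : Finset ℕ → Finset ℕ → ℝ) (B : ℝ),
      (∀ S S', S ⊆ Finset.range n → S' ⊆ Finset.range n → g S S' ≤ B) →
      ∑ S ∈ (Finset.range n).powerset, ∑ S' ∈ (Finset.range n).powerset, g S S' ≤
        4 ^ n * B := by
    intro n g B hg
    refine (sum_le_card n (B := 2 ^ n * B) fun S hS => sum_le_card n fun S' hS' =>
      hg S S' hS hS').trans (le_of_eq ?_)
    rw [← mul_assoc, ← mul_pow]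
    norm_num
  have hB : ∀ n ≤ i, ∑ S ∈ (Finset.range n).powerset,
      ∑ S' ∈ (Finset.range n).powerset, e S S' ≤ ε / 16 := by
    intro n hn
    refine (hcard n e _ fun S S' hS hS' => h0 S S' (hS.trans (Finset.range_mono hn))
      (hS'.trans (Finset.range_mono hn))).trans ?_
    have h4 : (4 : ℝ) ^ n ≤ 8 ^ i := by
      calc (4 : ℝ) ^ n ≤ 4 ^ i := pow_le_pow_right₀ (by norm_num) hn
        _ ≤ 8 ^ i := pow_le_pow_left₀ (by norm_num) (by norm_num) i
    have h5 : (0 : ℝ) < 8 ^ i := by positivity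
    rw [mul_div_assoc', div_le_div_iff₀ (by positivity) (by norm_num)]
    nlinarith
  rcases le_total n i with hn | hn
  · have := hB n hn
    linarith
  · have key : ∑ S ∈ (Finset.range n).powerset, ∑ S' ∈ (Finset.range n).powerset, e S S' ≤
        ε / 16 + 5 * ε / 8 * ((1 / 2) ^ i - (1 / 2) ^ n) := by
      induction n, hn using Nat.le_induction with
      | base =>
        have := hB i le_rfl
        linarith
      | succ n hn ih =>
        have e1 : ∑ S ∈ (Finset.range (n + 1)).powerset,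
            ∑ S' ∈ (Finset.range (n + 1)).powerset, e S S' =
            (∑ S ∈ (Finset.range n).powerset, ∑ S' ∈ (Finset.range n).powerset, e S S' +
            ∑ S ∈ (Finset.range n).powerset, ∑ S' ∈ (Finset.range n).powerset,
              e S (insert n S')) +
            (∑ S ∈ (Finset.range n).powerset, ∑ S' ∈ (Finset.range n).powerset,
              e (insert n S) S' +
            ∑ S ∈ (Finset.range n).powerset, ∑ S' ∈ (Finset.range n).powerset,
              e (insert n S) (insert n S')) := by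
          rw [sum_pow_succ]
          congr 1
          · rw [← Finset.sum_add_distrib]
            exact Finset.sum_congr rfl fun S _ => sum_pow_succ _ _
          · rw [← Finset.sum_add_distrib]
            exact Finset.sum_congr rfl fun S _ => sum_pow_succ _ _
        rw [e1]
        have e2 := hcard n _ _ (h1 n hn)
        have e3 := hcard n _ _ (h2 n hn)
        have e4 := hcard n _ _ (h3 n hn)
        have e5 : (4 : ℝ) ^ n * (ε / (16 * 8 ^ n)) = ε / 8 * ((1 / 2) ^ n - (1 / 2) ^ (n + 1)) := by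
          have h3 : (8 : ℝ) ^ n = 4 ^ n * 2 ^ n := by rw [← mul_pow]; norm_num
          rw [h3, pow_succ, one_div_pow]
          field_simp
          norm_num
        have e6 : (4 : ℝ) ^ n * (2 * (ε / (16 * 8 ^ n))) =
            2 * (ε / 8 * ((1 / 2) ^ n - (1 / 2) ^ (n + 1))) := by rw [← e5]; ring
        rw [e6] at e2 e3
        rw [e5] at e4
        linarith
    have h6 : (0 : ℝ) ≤ (1 / 2) ^ n := by positivity
    have h7 : ((1 : ℝ) / 2) ^ i ≤ 1 := pow_le_one₀ (by norm_num) (by norm_num)
    nlinarith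

variable {b : ℕ → (ℝ → 𝕜) → (ℝ → 𝕜) → 𝕜} {α : ℕ → (ℝ → 𝕜) → 𝕜} {α' : (ℝ → 𝕜) → 𝕜}
  {N : ℕ → (ℝ → 𝕜) → 𝕜} {N' : (ℝ → 𝕜) → 𝕜} {m qs qr : ℕ → ℕ} {s r : ℕ → ℝ → 𝕜} {ε : ℝ}

theorem Seqs.sg (h : ∀ n, Seqs b α α' N N' (fun n => ε / (16 * 8 ^ n)) m qs qr s r n) : Sg r :=
  fun l t => (h l).or.sign t

theorem Seqs.dya_WW (h : ∀ n, Seqs b α α' N N' (fun n => ε / (16 * 8 ^ n)) m qs qr s r n)
    (S : Finset ℕ) : DyA (WW r S) := LinfC.dya_WW fun l _ => (h l).or.dya

theorem Seqs.strictMono
    (h : ∀ n, Seqs b α α' N N' (fun n => ε / (16 * 8 ^ n)) m qs qr s r n) : StrictMono m :=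
  strictMono_nat_of_lt_succ fun n => ((h (n + 1)).prev n (Nat.lt_succ_self n)).1

private theorem insert_eq (r : ℕ → ℝ → 𝕜) {n : ℕ} {R : Finset ℕ} (hR : R ⊆ Finset.range n) :
    WW r (insert n R) = fun t => WW r R t * r n t := by
  funext t
  rw [WW_insert r (fun h => absurd (hR h) Finset.notMem_range_self), mul_comm]

/-- the values of `α (m i)` at the products -/
theorem Seqs.sum_a (h : ∀ n, Seqs b α α' N N' (fun n => ε / (16 * 8 ^ n)) m qs qr s r n)
    (hε : 0 < ε) (i n : ℕ) :
    ∑ R ∈ (Finset.range n).powerset, (if R = ∅ then 0 else ‖α (m i) (WW r R)‖) ≤ ε / 2 := by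
  refine sum_one (f := fun R => if R = ∅ then 0 else ‖α (m i) (WW r R)‖)
    (f' := fun R => if R = ∅ then 0 else ‖α' (WW r R)‖) hε (i := i) (if_pos rfl)
    ?_ ?_ ?_ n
  · intro R hR
    by_cases h0 : R = ∅
    · simp only [if_pos h0]
      positivity
    · simp only [if_neg h0]
      have h1 := (h i).lim_a R hR
      have h2 := norm_le_norm_add_norm_sub' (α (m i) (WW r R)) (α' (WW r R))
      linarith
  · intro n hn R hR
    simp only [if_neg (Finset.insert_ne_empty n R)]
    rw [insert_eq r hR]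
    exact (h n).an i hn R hR
  · intro n R hR
    simp only [if_neg (Finset.insert_ne_empty n R)]
    rw [insert_eq r hR]
    exact (h n).an' R hR

/-- the values of `N (m i)` at the products -/
theorem Seqs.sum_n (h : ∀ n, Seqs b α α' N N' (fun n => ε / (16 * 8 ^ n)) m qs qr s r n)
    (hε : 0 < ε) (i n : ℕ) :
    ∑ R ∈ (Finset.range n).powerset, ‖N (m i) (WW r R)‖ ≤ ‖N' (fun _ => 1)‖ + ε := by
  classical
  have h1 := sum_one (f := fun R => if R = ∅ then 0 else ‖N (m i) (WW r R)‖)
    (f' := fun R => if R = ∅ then 0 else ‖N' (WW r R)‖) hε (i := i) (if_pos rfl)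
    ?_ ?_ ?_ n
  · have h2 : ∑ R ∈ (Finset.range n).powerset, ‖N (m i) (WW r R)‖ =
        ‖N (m i) (WW r ∅)‖ +
          ∑ R ∈ (Finset.range n).powerset, (if R = ∅ then 0 else ‖N (m i) (WW r R)‖) := by
      rw [← Finset.add_sum_erase _ _ (Finset.empty_mem_powerset (Finset.range n)),
        ← Finset.add_sum_erase (f := fun R => if R = ∅ then (0 : ℝ) else ‖N (m i) (WW r R)‖) _
          (Finset.empty_mem_powerset (Finset.range n)), if_pos rfl, zero_add]
      congr 1
      refine Finset.sum_congr rfl fun R hR => ?_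
      rw [if_neg (Finset.ne_of_mem_erase hR)]
    have h3 := (h i).lim_n ∅ (Finset.empty_subset _)
    have h4 : WW r ∅ = fun _ => (1 : 𝕜) := funext fun t => WW_empty r t
    have h5 := norm_le_norm_add_norm_sub' (N (m i) (WW r ∅)) (N' (WW r ∅))
    have h6 : ε / (16 * 8 ^ i) ≤ ε / 2 := by
      have h7 : (1 : ℝ) ≤ 8 ^ i := one_le_pow₀ (by norm_num)
      gcongr
      linarith
    rw [h2]
    rw [h4] at h3 h5 ⊢
    linarith
  · intro R hR
    by_cases h0 : R = ∅
    · simp only [if_pos h0]
      positivity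
    · simp only [if_neg h0]
      have h1 := (h i).lim_n R hR
      have h2 := norm_le_norm_add_norm_sub' (N (m i) (WW r R)) (N' (WW r R))
      linarith
  · intro n hn R hR
    simp only [if_neg (Finset.insert_ne_empty n R)]
    rw [insert_eq r hR]
    exact (h n).nn i hn R hR
  · intro n R hR
    simp only [if_neg (Finset.insert_ne_empty n R)]
    rw [insert_eq r hR]
    exact (h n).nn' R hR

/-- the values of the forms at the products -/
theorem Seqs.sum_b (h : ∀ n, Seqs b α α' N N' (fun n => ε / (16 * 8 ^ n)) m qs qr s r n)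
    (hε : 0 < ε) (i n : ℕ) :
    ∑ S ∈ (Finset.range n).powerset, ∑ S' ∈ (Finset.range n).powerset,
      ‖b (m i) (fun t => WW r S t * s i t) (fun t => WW r S' t * s i t) -
        α (m i) (fun t => WW r S t * WW r S' t)‖ ≤ ε := by
  have hsg := Seqs.sg h
  have hnn : ∀ n (x y : 𝕜), ‖x‖ ≤ ε / (16 * 8 ^ n) → ‖y‖ ≤ ε / (16 * 8 ^ n) →
      ‖x - y‖ ≤ 2 * (ε / (16 * 8 ^ n)) := fun n x y hx hy =>
    (norm_sub_le x y).trans (by linarith)
  refine sum_two (e := fun S S' =>
    ‖b (m i) (fun t => WW r S t * s i t) (fun t => WW r S' t * s i t) -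
        α (m i) (fun t => WW r S t * WW r S' t)‖) hε (i := i) (h i).fst ?_ ?_ ?_ n
  · intro n hn S S' hS hS'
    refine hnn n _ _ ?_ ?_
    · have h1 := (h n).lin2 i hn S S' hS hS'
      have h2 : (fun t => WW r (insert n S') t * s i t) =
          fun t => WW r S' t * s i t * r n t := by
        funext t
        rw [insert_eq r hS']
        ring
      rw [h2]
      exact h1
    · have h1 := (h n).an i hn (symmDiff S S') (by
        intro k hk
        rw [Finset.mem_symmDiff] at hk
        rcases hk with hk | hk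
        · exact hS hk.1
        · exact hS' hk.1)
      have h2 : (fun t => WW r S t * WW r (insert n S') t) =
          fun t => WW r (symmDiff S S') t * r n t := by
        funext t
        rw [insert_eq r hS', ← WW_mul hsg]
        ring
      rw [h2]
      exact h1
  · intro n hn S S' hS hS'
    refine hnn n _ _ ?_ ?_
    · have h1 := (h n).lin1 i hn S S' hS hS'
      have h2 : (fun t => WW r (insert n S) t * s i t) =
          fun t => WW r S t * s i t * r n t := by
        funext t
        rw [insert_eq r hS]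
        ring
      rw [h2]
      exact h1
    · have h1 := (h n).an i hn (symmDiff S S') (by
        intro k hk
        rw [Finset.mem_symmDiff] at hk
        rcases hk with hk | hk
        · exact hS hk.1
        · exact hS' hk.1)
      have h2 : (fun t => WW r (insert n S) t * WW r S' t) =
          fun t => WW r (symmDiff S S') t * r n t := by
        funext t
        rw [insert_eq r hS, ← WW_mul hsg]
        ring
      rw [h2]
      exact h1
  · intro n hn S S' hS hS'
    have h1 := (h n).quad i hn S S' hS hS'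
    have h2 : (fun t => WW r (insert n S) t * s i t) =
        fun t => WW r S t * s i t * r n t := by
      funext t
      rw [insert_eq r hS]
      ring
    have h3 : (fun t => WW r (insert n S') t * s i t) =
        fun t => WW r S' t * s i t * r n t := by
      funext t
      rw [insert_eq r hS']
      ring
    have h4 : (fun t => WW r (insert n S) t * WW r (insert n S') t) =
        fun t => WW r S t * WW r S' t := by
      funext t
      rw [insert_eq r hS, insert_eq r hS']
      have h5 := (h n).or.sq t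
      linear_combination (WW r S t * WW r S' t) * h5
    simp only [h2, h3, h4]
    exact h1

end Pool.Agent.LinfC
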